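import Mathlib
import Pool.Agent.H715R2.LimitAlg

set_option autoImplicit false

open NumberField Matrix Polynomial H715R2

namespace Pool.Agent.H905R2.Opp

variable {d : ℕ}

/-- normalised coefficients -/
noncomputable def nrm (g : Matrix (Fin d) (Fin d) ℝ) (j₀ i j : Fin d) : ℝ := g i j / g i j₀

/-- the normalised `i`-th form on rational vectors -/
noncomputable def th (g : Matrix (Fin d) (Fin d) ℝ) (j₀ i : Fin d) : (Fin d → ℚ) →ₗ[ℚ] ℝ where
  toFun q := ∑ j, (q j : ℝ) * nrm g j₀ i j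
  map_add' q r := by
    rw [← Finset.sum_add_distrib]
    refine Finset.sum_congr rfl fun j _ => ?_
    simp only [Pi.add_apply]
    push_cast
    ring
  map_smul' c q := by
    rw [RingHom.id_apply, Rat.smul_def, Finset.mul_sum]
    refine Finset.sum_congr rfl fun j _ => ?_
    simp only [Pi.smul_apply, smul_eq_mul]
    push_cast
    ring

theorem th_apply (g : Matrix (Fin d) (Fin d) ℝ) (j₀ i : Fin d) (q : Fin d → ℚ) :
    th g j₀ i q = ∑ j, (q j : ℝ) * nrm g j₀ i j := rfl

theorem th_single (g : Matrix (Fin d) (Fin d) ℝ) (j₀ i j : Fin d) :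
    th g j₀ i (Pi.single j 1) = nrm g j₀ i j := by
  rw [th_apply, Finset.sum_eq_single j]
  · simp
  · intro k _ hk
    simp [Pi.single_eq_of_ne hk]
  · simp

/-- rational polynomial with integer-type coefficients -/
theorem exists_rat_poly (g : Matrix (Fin d) (Fin d) ℝ) (hP : PropInt g) :
    ∃ c : ℝ, c ≠ 0 ∧ ∃ Q : MvPolynomial (Fin d) ℚ,
      MvPolynomial.map (algebraMap ℚ ℝ) Q = c • polyF g := by
  obtain ⟨c, hc, h⟩ := hP
  choose z hz using h
  refine ⟨c, hc, ∑ m ∈ (c • polyF g).support, MvPolynomial.monomial m (z m : ℚ), ?_⟩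
  rw [map_sum]
  conv_rhs => rw [← MvPolynomial.support_sum_monomial_coeff (c • polyF g)]
  refine Finset.sum_congr rfl fun m _ => ?_
  rw [MvPolynomial.map_monomial, hz m]
  simp

theorem exists_poly (g : Matrix (Fin d) (Fin d) ℝ) (hP : PropInt g) (j₀ : Fin d)
    (h0 : ∀ i, g i j₀ ≠ 0) (q : Fin d → ℚ) :
    ∃ (κ : ℝ) (R : ℚ[X]), κ ≠ 0 ∧ R.map (algebraMap ℚ ℝ) =
      C κ * ∏ i, (X - C (th g j₀ i q)) := by
  classical
  obtain ⟨c, hc, Q, hQ⟩ := exists_rat_poly g hP
  refine ⟨c * ∏ i, g i j₀,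
    MvPolynomial.aeval (fun j => (if j = j₀ then (X : ℚ[X]) else 0) - C (q j)) Q,
    mul_ne_zero hc (Finset.prod_ne_zero_iff.2 fun i _ => h0 i), ?_⟩
  have h1 : (MvPolynomial.aeval (fun j => (if j = j₀ then (X : ℚ[X]) else 0) - C (q j)) Q).map
      (algebraMap ℚ ℝ) =
      MvPolynomial.aeval (fun j => (if j = j₀ then (X : ℝ[X]) else 0) - C (q j : ℝ))
        (c • polyF g) := by
    rw [← hQ, ← Polynomial.coe_mapRingHom, MvPolynomial.map_aeval, MvPolynomial.aeval_def,
      MvPolynomial.eval₂_map]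
    rw [MvPolynomial.coe_eval₂Hom]
    congr 1
    · ext r; simp
    · ext j
      by_cases hj : j = j₀ <;> simp [hj]
  rw [h1, map_smul, polyF, map_prod]
  have h2 : ∀ i, MvPolynomial.aeval (fun j => (if j = j₀ then (X : ℝ[X]) else 0) - C (q j : ℝ))
      (∑ j, MvPolynomial.C (g i j) * MvPolynomial.X j) = C (g i j₀) * (X - C (th g j₀ i q)) := by
    intro i
    rw [map_sum]
    simp only [map_mul, MvPolynomial.aeval_X, MvPolynomial.aeval_C]
    simp only [mul_sub, Finset.sum_sub_distrib]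
    congr 1
    · rw [Finset.sum_eq_single j₀]
      · simp
      · intro j _ hj
        simp [hj]
      · simp
    · rw [th_apply, ← C_mul, Finset.mul_sum]
      rw [map_sum]
      refine Finset.sum_congr rfl fun j _ => ?_
      rw [Polynomial.algebraMap_eq, ← C_mul]
      congr 1
      rw [nrm]
      field_simp [h0 i]
  simp only [h2]
  rw [Finset.prod_mul_distrib, ← map_prod, Polynomial.smul_eq_C_mul, ← mul_assoc, ← C_mul]

end Pool.Agent.H905R2.Opp
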