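import Mathlib
import Pool.Agent.H905R2.OppA

set_option autoImplicit false

open NumberField Matrix Polynomial H715R2
open scoped IntermediateField

namespace Pool.Agent.H905R2.Opp

variable {d : ℕ}

/-- the integer matrix given by a power of a Pisot unit of a totally real field -/
theorem core (K : Type) [Field K] [NumberField K] (b : Module.Basis (Fin d) ℚ K)
    (ι : (K →+* ℂ) ≃ Fin d) (a : Matrix (Fin d) (Fin d) ℝ)
    (hc : ∀ τ j, τ (b j) = (a (ι τ) j : ℂ)) (j₀ : Fin d) (hj0 : b j₀ = 1) (hdet : a.det ≠ 0) :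
    ∃ A : Matrix (Fin d) (Fin d) ℤ, A.det = 1 ∧
      Irreducible (A.charpoly.map (Int.castRingHom ℚ)) ∧
      (∀ z : ℂ, Polynomial.aeval z A.charpoly = 0 → z.im = 0) ∧
      ∃ l : Fin d → ℝ, a * A.map (Int.cast : ℤ → ℝ) = diagonal l * a := by
  classical
  obtain ⟨N, hN, hNe, hact⟩ := exists_pow_act (K := K) b
  -- the Pisot unit
  set τ₁ : K →+* ℂ := ι.symm j₀ with hτ₁
  obtain ⟨u, hu⟩ := NumberField.Units.dirichletUnitTheorem.exists_unit K (InfinitePlace.mk τ₁)
  set v : 𝓞 K := ((u ^ N : (𝓞 K)ˣ) : 𝓞 K) with hv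
  have hv0 : v ≠ 0 := Units.ne_zero _
  choose y hy using fun j : Fin d => hact u (Pi.single j 1)
  set A : Matrix (Fin d) (Fin d) ℤ := fun k j => y j k with hA
  have hy' : ∀ j, ∑ k, (A k j : ℚ) • b k = (v : K) * b j := by
    intro j
    have h1 := hy j
    rw [Finset.sum_eq_single (s := Finset.univ) (f := fun k => ((Pi.single j 1 : Fin d → ℤ) k : ℚ) • b k) j] at h1
    · simp only [Pi.single_eq_same, Int.cast_one, one_smul] at h1
      exact h1
    · intro k _ hk
      rw [Pi.single_eq_of_ne hk]; simp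
    · simp
  -- images under the embeddings
  have hemb : ∀ τ : K →+* ℂ, ∀ j, ∑ k, (A k j : ℂ) * (a (ι τ) k : ℂ) = τ v * (a (ι τ) j : ℂ) := by
    intro τ j
    have h1 := congrArg τ (hy' j)
    rw [map_sum, map_mul, hc] at h1
    rw [← h1]
    refine Finset.sum_congr rfl fun k _ => ?_
    rw [Rat.smul_def, map_mul, hc, map_ratCast]
    push_cast
    rfl
  have ha1 : ∀ i, a i j₀ = 1 := by
    intro i
    have h1 := hc (ι.symm i) j₀
    rw [hj0, map_one, Equiv.apply_symm_apply] at h1
    exact_mod_cast h1.symm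
  set l : Fin d → ℝ := fun i => ∑ k, (A k j₀ : ℝ) * a i k with hl
  have hlv : ∀ τ : K →+* ℂ, τ v = (l (ι τ) : ℂ) := by
    intro τ
    have h1 := hemb τ j₀
    rw [ha1, Complex.ofReal_one, mul_one] at h1
    rw [← h1, hl]
    push_cast
    rfl
  have hrel : a * A.map (Int.cast : ℤ → ℝ) = diagonal l * a := by
    ext i j
    rw [Matrix.mul_apply, diagonal_mul]
    have h1 := hemb (ι.symm i) j
    rw [hlv, Equiv.apply_symm_apply] at h1
    have h2 : ((∑ k, (A k j : ℝ) * a i k : ℝ) : ℂ) = ((l i * a i j : ℝ) : ℂ) := by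
      push_cast
      exact h1
    have h3 := Complex.ofReal_injective h2
    rw [← h3]
    refine Finset.sum_congr rfl fun k _ => ?_
    rw [Matrix.map_apply, mul_comm]
  -- determinant
  have hprod : ∏ i, l i = 1 := by
    have h1 : (Algebra.norm ℚ (v : K)) = 1 := by
      have h2 : (v : K) = ((u : 𝓞 K) : K) ^ N := by
        rw [hv]; push_cast; rfl
      rw [h2, map_pow, ← hNe.pow_abs, NumberField.Units.norm, one_pow]
    have h3 := Algebra.norm_eq_prod_embeddings ℚ ℂ (v : K)
    rw [h1, map_one] at h3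
    have h4 : ∏ σ : K →ₐ[ℚ] ℂ, σ (v : K) = ∏ τ : K →+* ℂ, τ (v : K) := by
      refine Fintype.prod_equiv (RingHom.equivRatAlgHom K ℂ).symm _ _ fun σ => ?_
      rfl
    rw [h4] at h3
    have h5 : ∏ τ : K →+* ℂ, τ (v : K) = ∏ i, (l i : ℂ) := by
      refine Fintype.prod_equiv ι _ _ fun τ => hlv τ
    rw [h5] at h3
    have h6 : ((∏ i, l i : ℝ) : ℂ) = ((1 : ℝ) : ℂ) := by
      push_cast
      exact h3.symm
    exact Complex.ofReal_injective h6
  have hdetA : A.det = 1 := by
    have h1 := congrArg Matrix.det hrel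
    rw [Matrix.det_mul, Matrix.det_mul, det_diagonal, hprod, one_mul] at h1
    have h2 : (A.map (Int.cast : ℤ → ℝ)).det = (A.det : ℝ) := by
      have := (Int.castRingHom ℝ).map_det A
      rw [RingHom.mapMatrix_apply] at this
      exact this.symm
    rw [h2] at h1
    have h3 : (A.det : ℝ) = 1 := by
      have := mul_left_cancel₀ hdet (h1.trans (mul_one _).symm)
      exact this
    exact_mod_cast h3
  -- characteristic polynomial
  have hcharR : (A.map (Int.cast : ℤ → ℝ)).charpoly = ∏ i, (X - C (l i)) := by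
    have hU : IsUnit a := (Matrix.isUnit_iff_isUnit_det a).2 (isUnit_iff_ne_zero.2 hdet)
    obtain ⟨U, hU⟩ := hU
    have h1 : A.map (Int.cast : ℤ → ℝ) = (U⁻¹ : (Matrix (Fin d) (Fin d) ℝ)ˣ).val * diagonal l * U.val := by
      rw [mul_assoc, hU, ← hrel, ← mul_assoc, ← hU, Units.inv_mul, one_mul]
    rw [h1, Matrix.coe_units_inv, Matrix.charpoly_units_conj', Matrix.charpoly_diagonal]
  have hcharR' : A.charpoly.map (Int.castRingHom ℝ) = ∏ i, (X - C (l i)) := by
    rw [← hcharR, ← Matrix.charpoly_map]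
    rfl
  have hcharC : ∀ z : ℂ, Polynomial.aeval z A.charpoly = ∏ i, (z - (l i : ℂ)) := by
    intro z
    have h1 : A.charpoly.map (Int.castRingHom ℂ) = ∏ i, (X - C (l i : ℂ)) := by
      have h2 := congrArg (Polynomial.map Complex.ofRealHom) hcharR'
      rw [Polynomial.map_map, Polynomial.map_prod] at h2
      have h3 : Complex.ofRealHom.comp (Int.castRingHom ℝ) = Int.castRingHom ℂ :=
        RingHom.ext_int _ _
      rw [h3] at h2
      rw [h2]
      refine Finset.prod_congr rfl fun i _ => ?_
      rw [Polynomial.map_sub, Polynomial.map_X, Polynomial.map_C]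
      rfl
    rw [Polynomial.aeval_def, Polynomial.eval₂_eq_eval_map]
    have h4 : algebraMap ℤ ℂ = Int.castRingHom ℂ := RingHom.ext_int _ _
    rw [h4, h1, Polynomial.eval_prod]
    refine Finset.prod_congr rfl fun i _ => ?_
    rw [eval_sub, eval_X, eval_C]
  have hreal : ComplexEmbedding.IsReal τ₁ := by
    rw [ComplexEmbedding.isReal_iff]
    have h1 : ((ComplexEmbedding.conjugate τ₁).toRatAlgHom.toLinearMap : K →ₗ[ℚ] ℂ) =
        τ₁.toRatAlgHom.toLinearMap := by
      refine b.ext fun j => ?_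
      change (starRingEnd ℂ) (τ₁ (b j)) = τ₁ (b j)
      rw [hc]
      exact Complex.conj_ofReal _
    ext x
    exact congrArg (fun f : K →ₗ[ℚ] ℂ => f x) h1
  have hfr : Module.finrank ℚ K = d := by
    rw [Module.finrank_eq_card_basis b, Fintype.card_fin]
  refine ⟨A, hdetA, ?_, ?_, l, hrel⟩
  · -- irreducibility
    have hprim : ℚ⟮(v : K)⟯ = ⊤ := by
      refine NumberField.is_primitive_element_of_infinitePlace_lt (w := InfinitePlace.mk τ₁) hv0 ?_ ?_
      · intro w' hw'
        have h1 := hu w' hw'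
        have h2 : 0 < w' (u : K) := NumberField.Units.pos_at_place u w'
        have h3 : w' (u : K) < 1 := by
          by_contra h
          exact absurd h1 (not_lt.2 (Real.log_nonneg (not_lt.1 h)))
        have h4 : (v : K) = ((u : 𝓞 K) : K) ^ N := by
          rw [hv]; push_cast; rfl
        rw [h4, map_pow]
        exact pow_lt_one₀ h2.le h3 hN.ne'
      · left
        rw [InfinitePlace.isReal_mk_iff]
        exact hreal
    have hint : IsIntegral ℚ (v : K) := Algebra.IsIntegral.isIntegral _
    have hdeg : (minpoly ℚ (v : K)).natDegree = d := by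
      rw [← IntermediateField.adjoin.finrank hint, hprim, IntermediateField.finrank_top', hfr]
    have hroot : Polynomial.aeval (v : K) (A.charpoly.map (Int.castRingHom ℚ)) = 0 := by
      have h1 : Polynomial.aeval (v : K) (A.charpoly.map (Int.castRingHom ℚ)) =
          Polynomial.aeval (v : K) A.charpoly := by
        have h2 : Int.castRingHom ℚ = algebraMap ℤ ℚ := RingHom.ext_int _ _
        rw [h2, Polynomial.aeval_map_algebraMap]
      rw [h1]
      apply τ₁.injective
      rw [map_zero]
      have h3 : τ₁ (Polynomial.aeval (v : K) A.charpoly) = Polynomial.aeval (τ₁ (v : K)) A.charpoly := by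
        have := Polynomial.aeval_algHom_apply (τ₁.toIntAlgHom) (v : K) A.charpoly
        exact this.symm
      rw [h3, hcharC, hlv]
      exact Finset.prod_eq_zero (Finset.mem_univ (ι τ₁)) (sub_self _)
    have hmon : (A.charpoly.map (Int.castRingHom ℚ)).Monic := (Matrix.charpoly_monic A).map _
    have heq := Polynomial.eq_of_monic_of_dvd_of_natDegree_le (minpoly.monic hint) hmon
      (minpoly.dvd ℚ (v : K) hroot) (by
        rw [hdeg, (Matrix.charpoly_monic A).natDegree_map, Matrix.charpoly_natDegree_eq_dim,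
          Fintype.card_fin])
    rw [heq]
    exact minpoly.irreducible hint
  · intro z hz
    rw [hcharC, Finset.prod_eq_zero_iff] at hz
    obtain ⟨i, -, hi⟩ := hz
    rw [sub_eq_zero.1 hi, Complex.ofReal_im]

end Pool.Agent.H905R2.Opp
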