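import Mathlib
import Pool.Agent.H905R2.OppB

set_option autoImplicit false

open NumberField Matrix Polynomial H715R2
open scoped IntermediateField

namespace Pool.Agent.H905R2.Opp

variable {d : ℕ}

theorem h0_of (g : Matrix (Fin d) (Fin d) ℝ)
    (hnz : ∀ p : Fin d → ℤ, p ≠ 0 → FF g (iR p) ≠ 0) (j₀ : Fin d) : ∀ i, g i j₀ ≠ 0 := by
  intro i
  have h1 := hnz (Pi.single j₀ 1) (by
    intro h
    have := congrFun h j₀
    simp at this)
  rw [FF] at h1
  have h2 := Finset.prod_ne_zero_iff.1 h1 i (Finset.mem_univ _)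
  rw [Finset.sum_eq_single j₀] at h2
  · intro h0
    apply h2
    rw [h0, zero_mul]
  · intro j _ hj
    rw [iR, Pi.single_eq_of_ne hj]; simp
  · simp

theorem th_inj (g : Matrix (Fin d) (Fin d) ℝ)
    (hnz : ∀ p : Fin d → ℤ, p ≠ 0 → FF g (iR p) ≠ 0) (j₀ i : Fin d) (q : Fin d → ℚ)
    (hq : th g j₀ i q = 0) : q = 0 := by
  classical
  by_contra hne
  set N : ℕ := ∏ k, (q k).den with hN
  have hN0 : (N : ℚ) ≠ 0 := by
    rw [hN]
    push_cast
    exact Finset.prod_ne_zero_iff.2 fun k _ => by exact_mod_cast (q k).den_ne_zero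
  have hz : ∀ j, ∃ z : ℤ, (z : ℚ) = N * q j := by
    intro j
    refine ⟨(∏ k ∈ Finset.univ.erase j, ((q k).den : ℤ)) * (q j).num, ?_⟩
    have h1 : (N : ℚ) = (q j).den * ∏ k ∈ Finset.univ.erase j, ((q k).den : ℚ) := by
      rw [hN]
      push_cast
      exact (Finset.mul_prod_erase _ _ (Finset.mem_univ j)).symm
    rw [h1]
    push_cast
    have h2 : ((q j).num : ℚ) = (q j).den * q j := by
      rw [mul_comm]; exact (Rat.mul_den_eq_num (q j)).symm
    rw [h2]
    ring
  choose z hz using hz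
  have hz0 : z ≠ 0 := by
    intro h
    apply hne
    ext j
    have h1 := hz j
    rw [h] at h1
    simp only [Pi.zero_apply, Int.cast_zero] at h1
    exact (mul_eq_zero.1 h1.symm).resolve_left hN0
  refine hnz z hz0 ?_
  rw [FF]
  refine Finset.prod_eq_zero (Finset.mem_univ i) ?_
  have h0 := h0_of g hnz j₀ i
  have h1 : ∑ j, g i j * iR z j = (g i j₀ * N) * th g j₀ i q := by
    rw [th_apply, Finset.mul_sum]
    refine Finset.sum_congr rfl fun j _ => ?_
    have h2 : (z j : ℝ) = N * (q j : ℝ) := by exact_mod_cast congrArg (fun t : ℚ => (t : ℝ)) (hz j)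
    rw [iR, h2, nrm]
    field_simp
  rw [h1, hq, mul_zero]

theorem oppA (g : Matrix (Fin d) (Fin d) ℝ) (hd : 0 < d) (hg : g.det ≠ 0) (hP : PropInt g)
    (hnz : ∀ p : Fin d → ℤ, p ≠ 0 → FF g (iR p) ≠ 0) :
    ∃ A : Matrix (Fin d) (Fin d) ℤ, A.det = 1 ∧
      Irreducible (A.charpoly.map (Int.castRingHom ℚ)) ∧
      (∀ z : ℂ, Polynomial.aeval z A.charpoly = 0 → z.im = 0) ∧
      ∀ i : Fin d, ∀ x : Fin d → ℝ, ∑ j, g i j * x j = 0 →
          ∑ j, g i j * ((A.map (Int.cast : ℤ → ℝ)).mulVec x) j = 0 := by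
  classical
  set j₀ : Fin d := ⟨0, hd⟩ with hj₀
  have h0 := h0_of g hnz j₀
  set S : Set ℝ := Set.range (nrm g j₀ j₀) with hS
  have hSfin : Finite S := Set.finite_range _
  have hint : ∀ x ∈ S, IsIntegral ℚ x := by
    rintro _ ⟨j, rfl⟩
    obtain ⟨κ, R, hκ, hR⟩ := exists_poly g hP j₀ h0 (Pi.single j 1)
    have hR0 : R ≠ 0 := by
      rintro rfl
      rw [Polynomial.map_zero] at hR
      have h1 : C κ * ∏ i, (X - C (th g j₀ i (Pi.single j 1))) ≠ 0 :=
        mul_ne_zero (C_ne_zero.2 hκ) (Finset.prod_ne_zero_iff.2 fun i _ => X_sub_C_ne_zero _)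
      exact h1 hR.symm
    refine IsAlgebraic.isIntegral ⟨R, hR0, ?_⟩
    rw [Polynomial.aeval_def, Polynomial.eval₂_eq_eval_map, hR, eval_mul, eval_prod,
      Finset.prod_eq_zero (Finset.mem_univ j₀), mul_zero]
    rw [eval_sub, eval_X, eval_C, th_single, sub_self]
  have hfd : FiniteDimensional ℚ (IntermediateField.adjoin ℚ S) :=
    IntermediateField.finiteDimensional_adjoin hint
  set K := IntermediateField.adjoin ℚ S with hK
  have hNF : NumberField K := { to_charZero := inferInstance, to_finiteDimensional := inferInstance }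
  have hmem : ∀ j, nrm g j₀ j₀ j ∈ K := fun j => IntermediateField.subset_adjoin ℚ S ⟨j, rfl⟩
  set β : Fin d → K := fun j => ⟨nrm g j₀ j₀ j, hmem j⟩ with hβ
  have hβsum : ∀ q : Fin d → ℚ, ((∑ j, q j • β j : K) : ℝ) = th g j₀ j₀ q := by
    intro q
    rw [th_apply]
    push_cast
    refine Finset.sum_congr rfl fun j _ => ?_
    rw [Rat.smul_def]
  have hli : LinearIndependent ℚ β := by
    rw [Fintype.linearIndependent_iff]
    intro q hq
    have h1 : th g j₀ j₀ q = 0 := by rw [← hβsum, hq]; rfl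
    have h2 := th_inj g hnz j₀ j₀ q h1
    intro j
    rw [h2]; rfl
  have hroot : ∀ (τ : K →+* ℂ) (q : Fin d → ℚ), ∃ i, τ (∑ j, q j • β j) = (th g j₀ i q : ℂ) := by
    intro τ q
    obtain ⟨κ, R, hκ, hR⟩ := exists_poly g hP j₀ h0 q
    have h1 : Polynomial.aeval (∑ j, q j • β j : K) R = 0 := by
      apply Subtype.val_injective
      have h2 : ((Polynomial.aeval (∑ j, q j • β j : K) R : K) : ℝ) =
          Polynomial.aeval (th g j₀ j₀ q) R := by
        rw [← hβsum]
        exact (Polynomial.aeval_algHom_apply K.val (∑ j, q j • β j : K) R).symm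
      rw [h2, Polynomial.aeval_def, Polynomial.eval₂_eq_eval_map, hR, eval_mul, eval_prod,
        Finset.prod_eq_zero (Finset.mem_univ j₀), mul_zero]
      · rfl
      · rw [eval_sub, eval_X, eval_C, sub_self]
    have h3 : Polynomial.eval₂ (algebraMap ℚ ℂ) (τ (∑ j, q j • β j)) R = 0 := by
      have h4 := congrArg τ h1
      rw [map_zero, Polynomial.aeval_def, Polynomial.hom_eval₂] at h4
      have h5 : τ.comp (algebraMap ℚ K) = algebraMap ℚ ℂ := RingHom.ext_rat _ _
      rwa [h5] at h4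
    rw [Polynomial.eval₂_eq_eval_map] at h3
    have h6 : R.map (algebraMap ℚ ℂ) = C (κ : ℂ) * ∏ i, (X - C (th g j₀ i q : ℂ)) := by
      have h7 := congrArg (Polynomial.map Complex.ofRealHom) hR
      rw [Polynomial.map_map, Polynomial.map_mul, Polynomial.map_prod, Polynomial.map_C] at h7
      have h8 : Complex.ofRealHom.comp (algebraMap ℚ ℝ) = algebraMap ℚ ℂ := RingHom.ext_rat _ _
      rw [h8] at h7
      rw [h7]
      congr 1
      refine Finset.prod_congr rfl fun i _ => ?_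
      rw [Polynomial.map_sub, Polynomial.map_X, Polynomial.map_C]
      rfl
    rw [h6, eval_mul, eval_C, eval_prod] at h3
    have h9 := (mul_eq_zero.1 h3).resolve_left (by exact_mod_cast hκ)
    obtain ⟨i, -, hi⟩ := Finset.prod_eq_zero_iff.1 h9
    refine ⟨i, ?_⟩
    rw [eval_sub, eval_X, eval_C] at hi
    exact sub_eq_zero.1 hi
  have hemb : ∀ τ : K →+* ℂ, ∃ i, ∀ q : Fin d → ℚ, τ (∑ j, q j • β j) = (th g j₀ i q : ℂ) := by
    intro τ
    let M : (Fin d → ℚ) →ₗ[ℚ] K :=
      { toFun := fun q => ∑ j, q j • β j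
        map_add' := fun q r => by
          simp only [Pi.add_apply, add_smul, Finset.sum_add_distrib]
        map_smul' := fun c q => by
          simp only [Pi.smul_apply, smul_eq_mul, mul_smul, Finset.smul_sum, RingHom.id_apply] }
    let F : Fin d → ((Fin d → ℚ) →ₗ[ℚ] ℂ) := fun i =>
      (τ.toRatAlgHom.toLinearMap.comp M) - (Complex.ofRealHom.toRatAlgHom.toLinearMap.comp (th g j₀ i))
    have hF : ∀ i q, F i q = τ (∑ j, q j • β j) - (th g j₀ i q : ℂ) := fun i q => rfl
    have hU : (⋃ i, ((LinearMap.ker (F i) : Submodule ℚ (Fin d → ℚ)) : Set (Fin d → ℚ))) = Set.univ := by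
      refine Set.eq_univ_of_forall fun q => ?_
      obtain ⟨i, hi⟩ := hroot τ q
      refine Set.mem_iUnion.2 ⟨i, ?_⟩
      rw [SetLike.mem_coe, LinearMap.mem_ker, hF, hi, sub_self]
    obtain ⟨i, hi⟩ := Subspace.exists_eq_top_of_iUnion_eq_univ hU
    refine ⟨i, fun q => ?_⟩
    have h1 : q ∈ LinearMap.ker (F i) := by rw [hi]; trivial
    rw [LinearMap.mem_ker, hF] at h1
    exact sub_eq_zero.1 h1
  choose ι₀ hι₀ using hemb
  have hτβ : ∀ τ j, τ (β j) = (nrm g j₀ (ι₀ τ) j : ℂ) := by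
    intro τ j
    have h1 := hι₀ τ (Pi.single j 1)
    rw [th_single] at h1
    rw [← h1]
    congr 1
    rw [Finset.sum_eq_single j]
    · simp
    · intro k _ hk
      rw [Pi.single_eq_of_ne hk, zero_smul]
    · simp
  have hinj : Function.Injective ι₀ := by
    intro τ τ' h
    have h1 : τ.toRatAlgHom = τ'.toRatAlgHom := by
      refine IntermediateField.adjoin_algHom_ext ℚ (s := S) ?_
      rintro _ ⟨j, rfl⟩
      change τ (β j) = τ' (β j)
      rw [hτβ, hτβ, h]
    ext x
    exact congrArg (fun f : K →ₐ[ℚ] ℂ => f x) h1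
  have hcard : Fintype.card (K →+* ℂ) = Module.finrank ℚ K := NumberField.Embeddings.card K ℂ
  have hle1 : Fintype.card (K →+* ℂ) ≤ Fintype.card (Fin d) := Fintype.card_le_of_injective _ hinj
  have hle2 : Fintype.card (Fin d) ≤ Module.finrank ℚ K := hli.fintype_card_le_finrank
  have hcd : Fintype.card (K →+* ℂ) = Fintype.card (Fin d) := le_antisymm hle1 (hle2.trans hcard.ge)
  have hbij : Function.Bijective ι₀ := (Fintype.bijective_iff_injective_and_card _).2 ⟨hinj, hcd⟩
  have hne : Nonempty (Fin d) := ⟨j₀⟩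
  set b : Module.Basis (Fin d) ℚ K :=
    basisOfLinearIndependentOfCardEqFinrank hli (hcd.symm.trans hcard) with hb
  have hbβ : ∀ j, b j = β j := fun j => by simp [b, basisOfLinearIndependentOfCardEqFinrank]
  set a : Matrix (Fin d) (Fin d) ℝ := Matrix.of (nrm g j₀) with ha
  have hga : g = diagonal (fun i => g i j₀) * a := by
    ext i j
    rw [diagonal_mul, ha, of_apply, nrm]
    field_simp [h0 i]
  have hadet : a.det ≠ 0 := by
    intro h
    apply hg
    rw [hga, det_mul, h, mul_zero]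
  obtain ⟨A, hA1, hA2, hA3, l, hA4⟩ := core K b (Equiv.ofBijective ι₀ hbij) a (by
      intro τ j
      rw [hbβ, hτβ]
      rfl) j₀ (by
      rw [hbβ]
      apply Subtype.val_injective
      change nrm g j₀ j₀ j₀ = 1
      rw [nrm, div_self (h0 j₀)]) hadet
  refine ⟨A, hA1, hA2, hA3, fun i x hx => ?_⟩
  have h1 : g * A.map (Int.cast : ℤ → ℝ) = diagonal l * g := by
    rw [hga, Matrix.mul_assoc, hA4, ← Matrix.mul_assoc, ← Matrix.mul_assoc,
      Matrix.diagonal_mul_diagonal, Matrix.diagonal_mul_diagonal]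
    congr 2
    ext i
    ring
  have h2 : (g *ᵥ (A.map (Int.cast : ℤ → ℝ) *ᵥ x)) i = l i * (g *ᵥ x) i := by
    rw [mulVec_mulVec, h1, ← mulVec_mulVec, mulVec_diagonal]
  have h3 : (g *ᵥ x) i = 0 := hx
  rw [h3, mul_zero] at h2
  exact h2

end Pool.Agent.H905R2.Opp
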