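import Mathlib
import Pool.Agent.H905R2.OppC

set_option autoImplicit false

open NumberField Matrix Polynomial H715R2

namespace Pool.Agent.H905R2.Opp

variable {d : ℕ}

theorem det_ne {L : Fin d → Fin d → ℝ} (hL : LinearIndependent ℝ L) :
    (Matrix.of L).det ≠ 0 := by
  have h1 : IsUnit (Matrix.of L) := by
    rw [← Matrix.linearIndependent_rows_iff_isUnit]
    exact hL
  exact isUnit_iff_ne_zero.1 ((Matrix.isUnit_iff_isUnit_det _).1 h1)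

theorem ff_of (L : Fin d → Fin d → ℝ) (p : Fin d → ℤ) :
    FF (Matrix.of L) (iR p) = ∏ i, ∑ j, L i j * (p j : ℝ) := rfl

theorem nz_of {L : Fin d → Fin d → ℝ}
    (hc : ∃ c : ℝ, 0 < c ∧ ∀ p : Fin d → ℤ, p ≠ 0 → c ≤ |∏ i, ∑ j, L i j * (p j : ℝ)|) :
    ∀ p : Fin d → ℤ, p ≠ 0 → FF (Matrix.of L) (iR p) ≠ 0 := by
  obtain ⟨c, hc, h⟩ := hc
  intro p hp h0
  have h1 := h p hp
  rw [ff_of] at h0
  rw [h0, abs_zero] at h1
  exact absurd h1 (not_le.2 hc)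

theorem not_small {L : Fin d → Fin d → ℝ}
    (hc : ∃ c : ℝ, 0 < c ∧ ∀ p : Fin d → ℤ, p ≠ 0 → c ≤ |∏ i, ∑ j, L i j * (p j : ℝ)|) :
    ¬ ∀ ε : ℝ, 0 < ε → ∃ x : Fin d → ℤ, x ≠ 0 ∧ |FF (Matrix.of L) (iR x)| < ε := by
  obtain ⟨c, hc, h⟩ := hc
  intro hs
  obtain ⟨x, hx, hx2⟩ := hs c hc
  exact absurd (h x hx) (not_le.2 hx2)

theorem opp_of_propInt (hd : 0 < d) {L : Fin d → Fin d → ℝ} (hL : LinearIndependent ℝ L)
    (hc : ∃ c : ℝ, 0 < c ∧ ∀ p : Fin d → ℤ, p ≠ 0 → c ≤ |∏ i, ∑ j, L i j * (p j : ℝ)|)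
    (hP : PropInt (Matrix.of L)) :
    ∃ A : Matrix (Fin d) (Fin d) ℤ,
        A.det = 1 ∧
        Irreducible (A.charpoly.map (Int.castRingHom ℚ)) ∧
        (∀ z : ℂ, Polynomial.aeval z A.charpoly = 0 → z.im = 0) ∧
        ∀ i : Fin d, ∀ x : Fin d → ℝ, ∑ j, L i j * x j = 0 →
          ∑ j, L i j * ((A.map (Int.cast : ℤ → ℝ)).mulVec x) j = 0 :=
  oppA (Matrix.of L) hd (det_ne hL) hP (nz_of hc)

end Pool.Agent.H905R2.Opp
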