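import Mathlib

set_option autoImplicit false

namespace Pool.Agent.H905R2.Aut

universe u v w

/-- A class of groups in `Type u`, closed under isomorphism. -/
structure GroupClass where
  /-- membership -/
  mem : ∀ (G : Type u) [Group G], Prop
  /-- closure under isomorphism -/
  iso : ∀ (G H : Type u) [Group G] [Group H], (G ≃* H) → mem G → mem H

/-- Closure under subgroups, epimorphic images and groups of automorphisms. -/
structure GroupClass.Closed (K : GroupClass.{u}) : Prop where
  sub : ∀ (G : Type u) [Group G] (H : Subgroup G), K.mem G → K.mem H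
  quot : ∀ (G Q : Type u) [Group G] [Group Q] (f : G →* Q), Function.Surjective f →
    K.mem G → K.mem Q
  aut : ∀ (G : Type u) [Group G] (H : Subgroup (MulAut G)), K.mem G → K.mem H

/-- Admissible: closed under subgroups, images, groups of automorphisms, and some countable group
(finite or countably infinite) is not a member. -/
def GroupClass.Admissible (K : GroupClass.{u}) : Prop :=
  K.Closed ∧ ∃ (G : Type u) (_ : Group G), Countable G ∧ ¬ K.mem G

/-- A group is almost cyclic if it has a cyclic subgroup of finite index. -/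
def AlmostCyclic (G : Type u) [Group G] : Prop :=
  ∃ g : G, (Subgroup.zpowers g).FiniteIndex

/-- `X` (in any universe) is isomorphic to a member of `K`. -/
def GroupClass.Has (K : GroupClass.{u}) (X : Type v) [Group X] : Prop :=
  ∃ (G : Type u) (_ : Group G), K.mem G ∧ Nonempty (G ≃* X)

variable {K : GroupClass.{u}}

theorem has_of_mem {G : Type u} [Group G] (h : K.mem G) : K.Has G :=
  ⟨G, inferInstance, h, ⟨MulEquiv.refl G⟩⟩

theorem mem_of_has {G : Type u} [Group G] (h : K.Has G) : K.mem G := by
  obtain ⟨H, iH, hH, ⟨e⟩⟩ := h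
  exact K.iso H G e hH

theorem Has.iso {X : Type v} {Y : Type w} [Group X] [Group Y] (h : K.Has X) (e : X ≃* Y) :
    K.Has Y := by
  obtain ⟨H, iH, hH, ⟨f⟩⟩ := h
  exact ⟨H, iH, hH, ⟨f.trans e⟩⟩

theorem Has.sub (hK : K.Closed) {X : Type v} [Group X] (h : K.Has X) (S : Subgroup X) :
    K.Has S := by
  obtain ⟨H, iH, hH, ⟨f⟩⟩ := h
  exact ⟨S.map f.symm.toMonoidHom, inferInstance, hK.sub H _ hH,
    ⟨(MulEquiv.subgroupMap f.symm S).symm⟩⟩

theorem Has.of_injective (hK : K.Closed) {X : Type v} {Y : Type w} [Group X] [Group Y]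
    (h : K.Has X) (f : Y →* X) (hf : Function.Injective f) : K.Has Y :=
  Has.iso (Has.sub hK h f.range) (MonoidHom.ofInjective hf).symm

theorem Has.of_surjective (hK : K.Closed) {X : Type v} {Y : Type w} [Group X] [Group Y]
    (h : K.Has X) (f : X →* Y) (hf : Function.Surjective f) : K.Has Y := by
  obtain ⟨H, iH, hH, ⟨e⟩⟩ := h
  have hs : Function.Surjective (f.comp e.toMonoidHom) := hf.comp e.surjective
  refine ⟨H ⧸ (f.comp e.toMonoidHom).ker, inferInstance, ?_,
    ⟨QuotientGroup.quotientKerEquivOfSurjective _ hs⟩⟩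
  exact hK.quot H _ (QuotientGroup.mk' _) (QuotientGroup.mk'_surjective _) hH

theorem Has.aut (hK : K.Closed) {X : Type v} [Group X] (h : K.Has X) : K.Has (MulAut X) := by
  obtain ⟨H, iH, hH, ⟨e⟩⟩ := h
  refine Has.iso (X := (⊤ : Subgroup (MulAut H))) (has_of_mem (hK.aut H ⊤ hH)) ?_
  exact Subgroup.topEquiv.trans (MulAut.congr e)

end Pool.Agent.H905R2.Aut
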