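import Mathlib
import Pool.Agent.H905R2.AutA

set_option autoImplicit false

namespace Pool.Agent.H905R2.Aut

universe u v w

variable {K : GroupClass.{u}}

/-- Regular representation on finitely supported functions. -/
noncomputable def regRep (p : ℕ) (G : Type v) [Group G] :
    G →* MulAut (Multiplicative (G →₀ ZMod p)) where
  toFun g := AddEquiv.toMultiplicative (Finsupp.domCongr (Equiv.mulLeft g))
  map_one' := by
    refine MulEquiv.ext fun x => ?_
    change Multiplicative.ofAdd (Finsupp.equivMapDomain (Equiv.mulLeft (1 : G)) (Multiplicative.toAdd x)) = x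
    have : Equiv.mulLeft (1 : G) = Equiv.refl G := by ext; simp
    rw [this, Finsupp.equivMapDomain_refl]
    rfl
  map_mul' g h := by
    refine MulEquiv.ext fun x => ?_
    change Multiplicative.ofAdd (Finsupp.equivMapDomain (Equiv.mulLeft (g * h)) (Multiplicative.toAdd x)) =
      Multiplicative.ofAdd (Finsupp.equivMapDomain (Equiv.mulLeft g)
        (Finsupp.equivMapDomain (Equiv.mulLeft h) (Multiplicative.toAdd x)))
    have : Equiv.mulLeft (g * h) = (Equiv.mulLeft h).trans (Equiv.mulLeft g) := by
      ext; simp [mul_assoc]
    rw [this, Finsupp.equivMapDomain_trans]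

theorem regRep_injective (p : ℕ) [Fact p.Prime] (G : Type v) [Group G] :
    Function.Injective (regRep p G) := by
  intro g h hgh
  have h1 := congrArg (fun e : MulAut (Multiplicative (G →₀ ZMod p)) =>
    Multiplicative.toAdd (e (Multiplicative.ofAdd (Finsupp.single 1 1)))) hgh
  change Finsupp.equivMapDomain (Equiv.mulLeft g) (Finsupp.single 1 1) =
    Finsupp.equivMapDomain (Equiv.mulLeft h) (Finsupp.single 1 1) at h1
  rw [Finsupp.equivMapDomain_single, Finsupp.equivMapDomain_single] at h1
  have h2 := (Finsupp.single_eq_single_iff _ _ _ _).1 h1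
  rcases h2 with ⟨h2, -⟩ | ⟨h2, -⟩
  · simpa using h2
  · exact absurd h2 one_ne_zero

/-- If `K` contains the countably infinite elementary abelian `p`-group then it contains every
countable group. -/
theorem mem_of_has_elementary (hK : K.Closed) (p : ℕ) [Fact p.Prime]
    (h : K.Has (Multiplicative (ℕ →₀ ZMod p))) (G : Type u) [Group G] [Countable G] :
    K.mem G := by
  obtain ⟨f, hf⟩ := exists_injective_nat G
  have h1 : K.Has (Multiplicative (G →₀ ZMod p)) := by
    refine Has.of_injective hK h
      (AddMonoidHom.toMultiplicative (Finsupp.mapDomain.addMonoidHom f)) ?_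
    intro a b hab
    exact Finsupp.mapDomain_injective hf hab
  exact mem_of_has (Has.of_injective hK (Has.aut hK h1) (regRep p G) (regRep_injective p G))

/-- An infinite abelian group of exponent `p` contains the countably infinite elementary abelian
`p`-group. -/
theorem exists_elementary (p : ℕ) [Fact p.Prime] (X : Type v) [CommGroup X] [Infinite X]
    (hX : ∀ x : X, x ^ p = 1) :
    ∃ f : Multiplicative (ℕ →₀ ZMod p) →* X, Function.Injective f := by
  classical
  let _ : Module (ZMod p) (Additive X) := AddCommGroup.zmodModule (by
    intro x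
    exact hX x.toMul)
  let b := Module.Basis.ofVectorSpace (ZMod p) (Additive X)
  have hinf : Infinite (Module.Basis.ofVectorSpaceIndex (ZMod p) (Additive X)) := by
    by_contra hfin
    rw [not_infinite_iff_finite] at hfin
    have : Finite (Module.Basis.ofVectorSpaceIndex (ZMod p) (Additive X) →₀ ZMod p) := by
      have : NeZero p := ⟨(Fact.out : p.Prime).ne_zero⟩
      have := Fintype.ofFinite (Module.Basis.ofVectorSpaceIndex (ZMod p) (Additive X))
      exact Finite.of_equiv _ (Finsupp.equivFunOnFinite).symm
    have : Finite (Additive X) := Finite.of_equiv _ b.repr.symm.toEquiv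
    have : Finite X := this
    exact not_finite X
  let g : ℕ ↪ Module.Basis.ofVectorSpaceIndex (ZMod p) (Additive X) := Infinite.natEmbedding _
  let F : (ℕ →₀ ZMod p) →+ Additive X :=
    (b.repr.symm.toLinearMap.toAddMonoidHom).comp (Finsupp.mapDomain.addMonoidHom g)
  have hF : Function.Injective F := by
    intro x y hxy
    have h1 := b.repr.symm.injective hxy
    exact Finsupp.mapDomain_injective g.injective h1
  refine ⟨AddMonoidHom.toMultiplicativeLeft F, ?_⟩
  intro x y hxy
  exact hF hxy

/-- If `K` contains an infinite abelian group of exponent `p`, it contains every countable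
group. -/
theorem mem_of_has_exponent (hK : K.Closed) (p : ℕ) [Fact p.Prime] (X : Type v) [CommGroup X]
    [Infinite X] (hX : ∀ x : X, x ^ p = 1) (h : K.Has X) (G : Type u) [Group G] [Countable G] :
    K.mem G := by
  obtain ⟨f, hf⟩ := exists_elementary p X hX
  exact mem_of_has_elementary hK p (Has.of_injective hK h f hf) G

end Pool.Agent.H905R2.Aut
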