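import Mathlib
import Pool.Agent.H905R2.AutB

set_option autoImplicit false

namespace Pool.Agent.H905R2.Aut

universe u v w

variable {K : GroupClass.{u}}

/-- The group `ℤ²`, multiplicatively. -/
abbrev Z2 : Type := Multiplicative (ℤ × ℤ)

/-- `(x, y) ↦ (x + 3 y, y)`. -/
def shearA : MulAut Z2 := AddEquiv.toMultiplicative
  { toFun := fun v => (v.1 + 3 * v.2, v.2)
    invFun := fun v => (v.1 - 3 * v.2, v.2)
    left_inv := fun v => by ext <;> simp
    right_inv := fun v => by ext <;> simp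
    map_add' := fun v w => by ext <;> simp <;> ring }

/-- `(x, y) ↦ (x, y + 3 x)`. -/
def shearB : MulAut Z2 := AddEquiv.toMultiplicative
  { toFun := fun v => (v.1, v.2 + 3 * v.1)
    invFun := fun v => (v.1, v.2 - 3 * v.1)
    left_inv := fun v => by ext <;> simp
    right_inv := fun v => by ext <;> simp
    map_add' := fun v w => by ext <;> simp <;> ring }

/-- nonzero vectors -/
abbrev NZ : Type := {v : Z2 // v ≠ 1}

instance : MulAction (MulAut Z2) NZ where
  smul g v := ⟨g v.1, by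
    intro h
    apply v.2
    exact g.injective (by rw [h, map_one])⟩
  one_smul v := rfl
  mul_smul g h v := rfl

theorem smul_val (g : MulAut Z2) (v : NZ) : (g • v).1 = g v.1 := rfl

/-- coordinates -/
def cx (v : NZ) : ℤ := (Multiplicative.toAdd v.1).1
/-- coordinates -/
def cy (v : NZ) : ℤ := (Multiplicative.toAdd v.1).2

theorem nz_ne (v : NZ) : cx v ≠ 0 ∨ cy v ≠ 0 := by
  by_contra h
  push Not at h
  apply v.2
  have : Multiplicative.toAdd v.1 = 0 := Prod.ext h.1 h.2
  exact this

/-- big first coordinate, same sign -/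
def setXA : Set NZ := {v | |cy v| < |cx v| ∧ ((0 ≤ cx v ∧ 0 ≤ cy v) ∨ (cx v ≤ 0 ∧ cy v ≤ 0))}
/-- big first coordinate, opposite sign -/
def setYA : Set NZ := {v | |cy v| < |cx v| ∧ ((0 < cx v ∧ cy v < 0) ∨ (cx v < 0 ∧ 0 < cy v))}
/-- big second coordinate, same sign -/
def setXB : Set NZ := {v | |cx v| < |cy v| ∧ ((0 ≤ cx v ∧ 0 ≤ cy v) ∨ (cx v ≤ 0 ∧ cy v ≤ 0))}
/-- big second coordinate, opposite sign -/
def setYB : Set NZ := {v | |cx v| < |cy v| ∧ ((0 < cx v ∧ cy v < 0) ∨ (cx v < 0 ∧ 0 < cy v))}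

theorem free_injective :
    Function.Injective (FreeGroup.lift (fun b : Bool => if b then shearA else shearB)) := by
  have hxA : ∀ v : NZ, cx (shearA • v) = cx v + 3 * cy v := fun v => rfl
  have hyA : ∀ v : NZ, cy (shearA • v) = cy v := fun v => rfl
  have hxA' : ∀ v : NZ, cx (shearA⁻¹ • v) = cx v - 3 * cy v := fun v => rfl
  have hyA' : ∀ v : NZ, cy (shearA⁻¹ • v) = cy v := fun v => rfl
  have hxB : ∀ v : NZ, cx (shearB • v) = cx v := fun v => rfl
  have hyB : ∀ v : NZ, cy (shearB • v) = cy v + 3 * cx v := fun v => rfl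
  have hxB' : ∀ v : NZ, cx (shearB⁻¹ • v) = cx v := fun v => rfl
  have hyB' : ∀ v : NZ, cy (shearB⁻¹ • v) = cy v - 3 * cx v := fun v => rfl
  refine FreeGroup.injective_lift_of_ping_pong (α := NZ) _
    (fun b : Bool => if b then setXA else setXB) (fun b : Bool => if b then setYA else setYB)
    ?_ ?_ ?_ ?_ ?_ ?_
  · rintro (_ | _)
    · refine ⟨⟨Multiplicative.ofAdd ((0 : ℤ), (1 : ℤ)), by decide⟩, ?_⟩
      simp only [Bool.false_eq_true, if_false, setXB, Set.mem_ofPred_eq]
      change |(0 : ℤ)| < |(1 : ℤ)| ∧ ((0 ≤ (0 : ℤ) ∧ 0 ≤ (1 : ℤ)) ∨ ((0 : ℤ) ≤ 0 ∧ (1 : ℤ) ≤ 0))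
      norm_num
    · refine ⟨⟨Multiplicative.ofAdd ((1 : ℤ), (0 : ℤ)), by decide⟩, ?_⟩
      simp only [if_true, setXA, Set.mem_ofPred_eq]
      change |(0 : ℤ)| < |(1 : ℤ)| ∧ ((0 ≤ (1 : ℤ) ∧ 0 ≤ (0 : ℤ)) ∨ ((1 : ℤ) ≤ 0 ∧ (0 : ℤ) ≤ 0))
      norm_num
  · intro a b hab
    refine Set.disjoint_left.2 fun v hv hv' => ?_
    revert hab hv hv'
    cases a <;> cases b <;> simp only [Bool.false_eq_true, if_true, if_false, setXA, setXB,
      Set.mem_ofPred_eq, ne_eq, not_true_eq_false, not_false_eq_true, IsEmpty.forall_iff, true_implies] <;>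
      intro h1 h2 <;> omega
  · intro a b hab
    refine Set.disjoint_left.2 fun v hv hv' => ?_
    revert hab hv hv'
    cases a <;> cases b <;> simp only [Bool.false_eq_true, if_true, if_false, setYA, setYB,
      Set.mem_ofPred_eq, ne_eq, not_true_eq_false, not_false_eq_true, IsEmpty.forall_iff, true_implies] <;>
      intro h1 h2 <;> omega
  · intro a b
    refine Set.disjoint_left.2 fun v hv hv' => ?_
    revert hv hv'
    cases a <;> cases b <;> simp only [Bool.false_eq_true, if_true, if_false, setYA, setYB,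
      setXA, setXB, Set.mem_ofPred_eq] <;>
      intro h1 h2 <;> omega
  · rintro a _ ⟨v, hv, rfl⟩
    have hnz := nz_ne v
    cases a
    · simp only [Bool.false_eq_true, if_false, Set.mem_compl_iff, setYB, Set.mem_ofPred_eq] at hv
      change shearB • v ∈ setXB
      simp only [setXB, Set.mem_ofPred_eq, hxB, hyB]
      rcases abs_cases (cx v) with h1 | h1 <;> rcases abs_cases (cy v) with h2 | h2 <;>
        rcases abs_cases (cy v + 3 * cx v) with h3 | h3 <;> omega
    · simp only [if_true, Set.mem_compl_iff, setYA, Set.mem_ofPred_eq] at hv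
      change shearA • v ∈ setXA
      simp only [setXA, Set.mem_ofPred_eq, hxA, hyA]
      rcases abs_cases (cx v) with h1 | h1 <;> rcases abs_cases (cy v) with h2 | h2 <;>
        rcases abs_cases (cx v + 3 * cy v) with h3 | h3 <;> omega
  · rintro a _ ⟨v, hv, rfl⟩
    have hnz := nz_ne v
    cases a
    · simp only [Bool.false_eq_true, if_false, Set.mem_compl_iff, setXB, Set.mem_ofPred_eq] at hv
      change shearB⁻¹ • v ∈ setYB
      simp only [setYB, Set.mem_ofPred_eq, hxB', hyB']
      rcases abs_cases (cx v) with h1 | h1 <;> rcases abs_cases (cy v) with h2 | h2 <;>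
        rcases abs_cases (cy v - 3 * cx v) with h3 | h3 <;> omega
    · simp only [if_true, Set.mem_compl_iff, setXA, Set.mem_ofPred_eq] at hv
      change shearA⁻¹ • v ∈ setYA
      simp only [setYA, Set.mem_ofPred_eq, hxA', hyA']
      rcases abs_cases (cx v) with h1 | h1 <;> rcases abs_cases (cy v) with h2 | h2 <;>
        rcases abs_cases (cx v - 3 * cy v) with h3 | h3 <;> omega

theorem has_free (hK : K.Closed) (h : K.Has Z2) : K.Has (FreeGroup Bool) :=
  Has.of_injective hK (Has.aut hK h) _ free_injective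

end Pool.Agent.H905R2.Aut
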