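import Mathlib
import Pool.Agent.H905R2.AutC

set_option autoImplicit false

namespace Pool.Agent.H905R2.Aut

universe u v w

variable {K : GroupClass.{u}}

/-- shift of the first coordinate of `ℤ × Bool` -/
def shiftP : Equiv.Perm (ℤ × Bool) := Equiv.prodCongr (Equiv.addRight (1 : ℤ)) (Equiv.refl Bool)

/-- flip the second coordinate over `0` -/
def flip0 : Equiv.Perm (ℤ × Bool) :=
  Equiv.swap (0, false) (0, true)

/-- the permutations preserving all fibres over `ℤ` -/
def fibreP : Subgroup (Equiv.Perm (ℤ × Bool)) where
  carrier := {σ | ∀ x, (σ x).1 = x.1}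
  one_mem' := fun x => rfl
  mul_mem' := by
    intro a b ha hb x
    change (a (b x)).1 = x.1
    rw [ha, hb]
  inv_mem' := by
    intro a ha x
    have := ha (a⁻¹ x)
    have h2 : a (a⁻¹ x) = x := by rw [← Equiv.Perm.mul_apply, mul_inv_cancel, Equiv.Perm.one_apply]
    rw [h2] at this
    exact this.symm

theorem fibre_sq (σ : Equiv.Perm (ℤ × Bool)) (h : σ ∈ fibreP) : σ ^ 2 = 1 := by
  have h' : ∀ x, (σ x).1 = x.1 := h
  ext1 x
  obtain ⟨n, b⟩ := x
  have e1 : ∀ c, σ (n, c) = (n, (σ (n, c)).2) := fun c => Prod.ext (h' _) rfl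
  have hinj : (σ (n, false)).2 ≠ (σ (n, true)).2 := by
    intro hh
    have : σ (n, false) = σ (n, true) := by rw [e1 false, e1 true, hh]
    simpa using σ.injective this
  rw [sq, Equiv.Perm.mul_apply, Equiv.Perm.one_apply]
  rcases hf : (σ (n, false)).2 with _ | _ <;> rcases ht : (σ (n, true)).2 with _ | _
  · rw [hf, ht] at hinj; exact absurd rfl hinj
  · have ef : σ (n, false) = (n, false) := by rw [e1 false, hf]
    have et : σ (n, true) = (n, true) := by rw [e1 true, ht]
    cases b
    · rw [ef, ef]
    · rw [et, et]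
  · have ef : σ (n, false) = (n, true) := by rw [e1 false, hf]
    have et : σ (n, true) = (n, false) := by rw [e1 true, ht]
    cases b
    · rw [ef, et]
    · rw [et, ef]
  · rw [hf, ht] at hinj; exact absurd rfl hinj

/-- the homomorphism from the free group -/
noncomputable def lampHom : FreeGroup Bool →* Equiv.Perm (ℤ × Bool) :=
  FreeGroup.lift (fun b : Bool => if b then shiftP else flip0)

theorem shiftP_apply (x : ℤ × Bool) : shiftP x = (x.1 + 1, x.2) := rfl

theorem shiftP_inv_apply (x : ℤ × Bool) : shiftP⁻¹ x = (x.1 - 1, x.2) := by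
  apply shiftP.injective
  rw [← Equiv.Perm.mul_apply, mul_inv_cancel, Equiv.Perm.one_apply, shiftP_apply]
  simp

theorem shiftP_zpow (n : ℤ) : ∀ x : ℤ × Bool, (shiftP ^ n) x = (x.1 + n, x.2) := by
  induction n using Int.induction_on with
  | zero => intro x; simp
  | succ n ih =>
    intro x
    rw [zpow_add_one, Equiv.Perm.mul_apply, ih, shiftP_apply]
    ext <;> simp
    ring
  | pred n ih =>
    intro x
    rw [zpow_sub_one, Equiv.Perm.mul_apply, ih, shiftP_inv_apply]
    ext <;> simp
    ring

/-- the conjugated flips -/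
def flipN (n : ℤ) : Equiv.Perm (ℤ × Bool) := shiftP ^ n * flip0 * shiftP ^ (-n)

theorem flipN_self (n : ℤ) : flipN n (n, false) = (n, true) := by
  rw [flipN, Equiv.Perm.mul_apply, Equiv.Perm.mul_apply, shiftP_zpow, shiftP_zpow]
  have : flip0 (0, false) = (0, true) := Equiv.swap_apply_left _ _
  simp [this]

theorem flipN_of_ne (n m : ℤ) (b : Bool) (h : m ≠ n) : flipN n (m, b) = (m, b) := by
  rw [flipN, Equiv.Perm.mul_apply, Equiv.Perm.mul_apply, shiftP_zpow, shiftP_zpow]
  have : flip0 (m + -n, b) = (m + -n, b) := by
    apply Equiv.swap_apply_of_ne_of_ne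
    · intro h1
      have := congrArg Prod.fst h1
      simp only at this
      omega
    · intro h1
      have := congrArg Prod.fst h1
      simp only at this
      omega
  simp [this]

theorem flipN_mem (n : ℤ) : flipN n ∈ fibreP := by
  intro x
  obtain ⟨m, b⟩ := x
  by_cases h : m = n
  · subst h
    cases b
    · rw [flipN_self]
    · have h2 : flipN m (m, true) = (m, false) := by
        rw [flipN, Equiv.Perm.mul_apply, Equiv.Perm.mul_apply, shiftP_zpow, shiftP_zpow]
        have : flip0 (0, true) = (0, false) := Equiv.swap_apply_right _ _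
        simp [this]
      rw [h2]
  · rw [flipN_of_ne n m b h]

theorem flipN_injective : Function.Injective flipN := by
  intro n m h
  by_contra hne
  have h1 := flipN_self n
  rw [h, flipN_of_ne m n false hne] at h1
  simp at h1

theorem flipN_mem_range (n : ℤ) : flipN n ∈ lampHom.range := by
  refine ⟨FreeGroup.of true ^ n * FreeGroup.of false * FreeGroup.of true ^ (-n), ?_⟩
  simp [lampHom, flipN]

/-- the elementary abelian subgroup of the image -/
noncomputable abbrev lampBase : Subgroup lampHom.range := fibreP.subgroupOf lampHom.range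

theorem lampBase_sq (x : lampBase) : x ^ 2 = 1 := by
  apply Subtype.ext
  apply Subtype.ext
  exact fibre_sq _ x.2

instance : Infinite lampBase := by
  refine Infinite.of_injective
    (fun n : ℤ => (⟨⟨flipN n, flipN_mem_range n⟩, flipN_mem n⟩ : lampBase)) ?_
  intro n m h
  apply flipN_injective
  exact congrArg (fun x : lampBase => ((x : lampHom.range) : Equiv.Perm (ℤ × Bool))) h

noncomputable instance : CommGroup lampBase :=
  { (inferInstance : Group lampBase) with
    mul_comm := by
      intro x y
      have h : ∀ z : lampBase, z⁻¹ = z := by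
        intro z
        have := lampBase_sq z
        rw [sq] at this
        exact inv_eq_of_mul_eq_one_left this
      calc x * y = (x * y)⁻¹ := (h _).symm
        _ = y⁻¹ * x⁻¹ := mul_inv_rev x y
        _ = y * x := by rw [h, h] }

/-- If `ℤ²` is in `K` then every countable group is. -/
theorem mem_of_has_Z2 (hK : K.Closed) (h : K.Has Z2) (G : Type u) [Group G] [Countable G] :
    K.mem G := by
  have h1 : K.Has lampHom.range :=
    Has.of_surjective hK (has_free hK h) lampHom.rangeRestrict lampHom.rangeRestrict_surjective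
  have h2 : K.Has lampBase := Has.sub hK h1 lampBase
  have : Fact (Nat.Prime 2) := ⟨Nat.prime_two⟩
  exact mem_of_has_exponent hK 2 lampBase lampBase_sq h2 G

end Pool.Agent.H905R2.Aut
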