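import Mathlib
import Pool.Agent.H905R2.AutD

set_option autoImplicit false

namespace Pool.Agent.H905R2.Aut

universe u v w

variable {K : GroupClass.{u}}

theorem pow_bijective (T : Type v) [CommGroup T] (l : ℕ)
    (h : ∀ x : T, (orderOf x).Coprime l) : Function.Bijective (powMonoidHom l : T →* T) := by
  constructor
  · rw [injective_iff_map_eq_one]
    intro x hx
    have h1 : orderOf x ∣ l := orderOf_dvd_of_pow_eq_one hx
    exact orderOf_eq_one_iff.1 (Nat.Coprime.eq_one_of_dvd (h x) h1)
  · intro x
    refine ⟨x ^ (Nat.gcdB (orderOf x) l), ?_⟩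
    rw [powMonoidHom_apply, ← zpow_natCast, ← zpow_mul]
    have h2 := Nat.gcd_eq_gcd_ab (orderOf x) l
    rw [(h x).gcd_eq_one] at h2
    have h3 : x ^ (1 : ℤ) = x ^ ((Nat.gcdB (orderOf x) l) * (l : ℤ)) := by
      rw [show ((1 : ℤ)) = ((1 : ℕ) : ℤ) by norm_num, h2, zpow_add, zpow_mul, zpow_natCast,
        pow_orderOf_eq_one, one_zpow, one_mul, mul_comm]
    rw [← h3, zpow_one]

/-- the power automorphism -/
noncomputable def powAut (T : Type v) [CommGroup T] (l : ℕ)
    (h : ∀ x : T, (orderOf x).Coprime l) : MulAut T :=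
  MulEquiv.ofBijective (powMonoidHom l) (pow_bijective T l h)

theorem powAut_pow_apply (T : Type v) [CommGroup T] (l : ℕ)
    (h : ∀ x : T, (orderOf x).Coprime l) (n : ℕ) (x : T) :
    (powAut T l h ^ n) x = x ^ (l ^ n) := by
  induction n generalizing x with
  | zero => simp
  | succ n ih =>
    rw [pow_succ, MulAut.mul_apply]
    have : powAut T l h x = x ^ l := rfl
    rw [this, ih, ← pow_mul, pow_succ, mul_comm l]

theorem exp_inj {q r : ℕ} (hq : q.Prime) (hr : r.Prime) (hqr : q ≠ r) {a b c d : ℕ}
    (h : q ^ a * r ^ b = q ^ c * r ^ d) : a = c ∧ b = d := by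
  have := Fact.mk hq
  have := Fact.mk hr
  have hq0 := hq.ne_zero
  have hr0 := hr.ne_zero
  constructor
  · have := congrArg (padicValNat q) h
    rw [padicValNat.mul (pow_ne_zero _ hq0) (pow_ne_zero _ hr0),
      padicValNat.mul (pow_ne_zero _ hq0) (pow_ne_zero _ hr0), padicValNat.prime_pow,
      padicValNat.prime_pow, padicValNat.pow, padicValNat.pow,
      padicValNat_primes hqr] at this
    simpa using this
  · have := congrArg (padicValNat r) h
    rw [padicValNat.mul (pow_ne_zero _ hq0) (pow_ne_zero _ hr0),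
      padicValNat.mul (pow_ne_zero _ hq0) (pow_ne_zero _ hr0), padicValNat.prime_pow,
      padicValNat.prime_pow, padicValNat.pow, padicValNat.pow,
      padicValNat_primes hqr.symm] at this
    simpa using this

/-- A torsion-type group with unbounded exponent on which `x ↦ x ^ q`, `x ↦ x ^ r` are
automorphisms has `ℤ²` inside its automorphism group. -/
theorem has_Z2_of_powers (hK : K.Closed) (T : Type v) [CommGroup T] (hT : K.Has T)
    {q r : ℕ} (hq : q.Prime) (hr : r.Prime) (hqr : q ≠ r)
    (hcq : ∀ x : T, (orderOf x).Coprime q) (hcr : ∀ x : T, (orderOf x).Coprime r)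
    (hub : ∀ n : ℕ, 0 < n → ∃ x : T, x ^ n ≠ 1) : K.Has Z2 := by
  set Q := powAut T q hcq with hQ
  set R := powAut T r hcr with hR
  have hc : Commute Q R := by
    refine MulEquiv.ext fun x => ?_
    change (x ^ r) ^ q = (x ^ q) ^ r
    rw [← pow_mul, ← pow_mul, mul_comm]
  let F : Z2 →* MulAut T :=
    { toFun := fun v => Q ^ (Multiplicative.toAdd v).1 * R ^ (Multiplicative.toAdd v).2
      map_one' := by simp
      map_mul' := by
        intro v w
        change Q ^ ((Multiplicative.toAdd v).1 + (Multiplicative.toAdd w).1) *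
          R ^ ((Multiplicative.toAdd v).2 + (Multiplicative.toAdd w).2) = _
        rw [zpow_add, zpow_add]
        exact (hc.zpow_zpow _ _).mul_mul_mul_comm _ _ }
  refine Has.of_injective hK (Has.aut hK hT) F ?_
  rw [injective_iff_map_eq_one]
  intro v hv
  obtain ⟨a, b⟩ := v
  have h1 : Q ^ a * R ^ b = 1 := hv
  have ha : (a.toNat : ℤ) - ((-a).toNat : ℤ) = a := Int.toNat_sub_toNat_neg a
  have hb : (b.toNat : ℤ) - ((-b).toNat : ℤ) = b := Int.toNat_sub_toNat_neg b
  have h2 : Q ^ a.toNat * R ^ b.toNat = Q ^ (-a).toNat * R ^ (-b).toNat := by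
    rw [← ha, ← hb, zpow_sub, zpow_sub] at h1
    have e1 : Q ^ (a.toNat : ℤ) * (Q ^ ((-a).toNat : ℤ))⁻¹ =
        (Q ^ ((-a).toNat : ℤ))⁻¹ * Q ^ (a.toNat : ℤ) :=
      (((Commute.refl Q).zpow_zpow _ _).inv_right).eq
    rw [e1] at h1
    simp only [zpow_natCast] at h1
    calc Q ^ a.toNat * R ^ b.toNat
        = Q ^ (-a).toNat * ((Q ^ (-a).toNat)⁻¹ * Q ^ a.toNat *
            (R ^ b.toNat * (R ^ (-b).toNat)⁻¹)) * R ^ (-b).toNat := by group
      _ = Q ^ (-a).toNat * R ^ (-b).toNat := by rw [h1]; group
  have h3 : ∀ x : T, x ^ (q ^ a.toNat * r ^ b.toNat) = x ^ (q ^ (-a).toNat * r ^ (-b).toNat) := by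
    intro x
    have := congrArg (fun e : MulAut T => e x) h2
    simp only [MulAut.mul_apply, hQ, hR, powAut_pow_apply] at this
    rw [← pow_mul, ← pow_mul] at this
    rw [mul_comm (q ^ a.toNat), mul_comm (q ^ (-a).toNat)]
    exact this
  have h4 : q ^ a.toNat * r ^ b.toNat = q ^ (-a).toNat * r ^ (-b).toNat := by
    by_contra hne
    rcases Nat.lt_or_gt_of_ne hne with hlt | hlt
    · obtain ⟨x, hx⟩ := hub (q ^ (-a).toNat * r ^ (-b).toNat - q ^ a.toNat * r ^ b.toNat) (by omega)
      apply hx
      rw [pow_sub _ hlt.le, h3 x, mul_inv_cancel]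
    · obtain ⟨x, hx⟩ := hub (q ^ a.toNat * r ^ b.toNat - q ^ (-a).toNat * r ^ (-b).toNat) (by omega)
      apply hx
      rw [pow_sub _ hlt.le, h3 x, mul_inv_cancel]
  obtain ⟨h5, h6⟩ := exp_inj hq hr hqr h4
  have h7 : a = 0 := by omega
  have h8 : b = 0 := by omega
  subst h7
  subst h8
  rfl

/-- elements of order prime to `m` -/
def copPart (X : Type v) [CommGroup X] (m : ℕ) : Subgroup X where
  carrier := {x | (orderOf x).Coprime m}
  one_mem' := by
    change (orderOf (1 : X)).Coprime m
    rw [orderOf_one]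
    exact Nat.coprime_one_left m
  mul_mem' := by
    intro x y hx hy
    exact Nat.Coprime.coprime_dvd_left (Commute.orderOf_mul_dvd_mul_orderOf (Commute.all x y))
      (Nat.Coprime.mul_left hx hy)
  inv_mem' := by
    intro x hx
    change (orderOf x⁻¹).Coprime m
    rw [orderOf_inv]
    exact hx

theorem has_Z2_of_torsion_unbounded (hK : K.Closed) (X : Type v) [CommGroup X] (hX : K.Has X)
    (htor : ∀ x : X, IsOfFinOrder x) (hub : ∀ n : ℕ, 0 < n → ∃ x : X, x ^ n ≠ 1) :
    K.Has Z2 := by
  -- find two primes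
  have key : ∃ q r : ℕ, q.Prime ∧ r.Prime ∧ q ≠ r ∧
      ∀ n : ℕ, 0 < n → ∃ x : copPart X (q * r), x ^ n ≠ 1 := by
    by_cases hfin : Set.Finite {p : ℕ | p.Prime ∧ ∃ x : X, orderOf x = p}
    · obtain ⟨B, hB⟩ := hfin.bddAbove
      obtain ⟨q, hqB, hq⟩ := Nat.exists_infinite_primes (B + 1)
      obtain ⟨r, hrB, hr⟩ := Nat.exists_infinite_primes (q + 1)
      refine ⟨q, r, hq, hr, by omega, fun n hn => ?_⟩
      obtain ⟨x, hx⟩ := hub n hn
      have hcop : ∀ l : ℕ, l.Prime → B < l → (orderOf x).Coprime l := by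
        intro l hl hBl
        rw [Nat.coprime_comm, (Nat.Prime.coprime_iff_not_dvd hl)]
        intro hdvd
        have h1 : orderOf (x ^ (orderOf x / l)) = l := by
          rw [orderOf_pow_orderOf_div (htor x).orderOf_pos.ne' hdvd]
        have := hB ⟨hl, _, h1⟩
        omega
      refine ⟨⟨x, ?_⟩, ?_⟩
      · exact Nat.Coprime.mul_right (hcop q hq (by omega)) (hcop r hr (by omega))
      · intro h
        exact hx (congrArg Subtype.val h)
    · refine ⟨2, 3, Nat.prime_two, Nat.prime_three, by norm_num, fun n hn => ?_⟩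
      obtain ⟨p, ⟨hp, x, hx⟩, hgt⟩ := Set.Infinite.exists_gt hfin (max n 3)
      refine ⟨⟨x, ?_⟩, ?_⟩
      · change (orderOf x).Coprime (2 * 3)
        rw [hx]
        have h3 : 3 < p := lt_of_le_of_lt (le_max_right _ _) hgt
        refine Nat.Coprime.mul_right ?_ ?_
        · exact (Nat.coprime_primes hp Nat.prime_two).2 (by omega)
        · exact (Nat.coprime_primes hp Nat.prime_three).2 (by omega)
      · intro h
        have h1 : x ^ n = 1 := congrArg Subtype.val h
        have h2 := orderOf_dvd_of_pow_eq_one h1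
        rw [hx] at h2
        have := Nat.le_of_dvd hn h2
        have h3 : n < p := lt_of_le_of_lt (le_max_left _ _) hgt
        omega
  obtain ⟨q, r, hq, hr, hqr, hub'⟩ := key
  refine has_Z2_of_powers hK (copPart X (q * r)) (Has.sub hK hX _) hq hr hqr ?_ ?_ hub'
  · rintro ⟨x, hx⟩
    rw [Subgroup.orderOf_mk]
    exact Nat.Coprime.coprime_dvd_right (Dvd.intro _ rfl) hx
  · rintro ⟨x, hx⟩
    rw [Subgroup.orderOf_mk]
    exact Nat.Coprime.coprime_dvd_right (Dvd.intro_left _ rfl) hx

theorem exists_prime_infinite (n : ℕ) : 0 < n → ∀ (X : Type v) [CommGroup X] [Infinite X],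
    (∀ x : X, x ^ n = 1) → ∃ p : ℕ, p.Prime ∧ Infinite ((powMonoidHom p : X →* X).ker) := by
  induction n using Nat.strong_induction_on with
  | _ n ih =>
    intro hn X _ _ hX
    by_cases h1 : n = 1
    · subst h1
      have : Subsingleton X := ⟨fun a b => by
        have ha := hX a
        have hb := hX b
        rw [pow_one] at ha hb
        rw [ha, hb]⟩
      exact absurd (inferInstance : Infinite X) (not_infinite_iff_finite.2 inferInstance)
    · obtain ⟨p, hp, m, rfl⟩ : ∃ p, p.Prime ∧ p ∣ n := Nat.exists_prime_and_dvd h1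
      by_cases hinf : Infinite ((powMonoidHom p : X →* X).ker)
      · exact ⟨p, hp, hinf⟩
      · have hm : 0 < m := Nat.pos_of_mul_pos_left hn
        have hfin : Finite ((powMonoidHom p : X →* X).ker) := not_infinite_iff_finite.1 hinf
        have hR : Infinite ((powMonoidHom p : X →* X).range) := by
          by_contra hR
          have hRf : Finite ((powMonoidHom p : X →* X).range) := not_infinite_iff_finite.1 hR
          have hq : Finite (X ⧸ (powMonoidHom p : X →* X).ker) :=
            Finite.of_equiv _ (QuotientGroup.quotientKerEquivRange (powMonoidHom p : X →* X)).symm.toEquiv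
          have : Finite X :=
            Finite.of_equiv _ (Subgroup.groupEquivQuotientProdSubgroup
              (s := (powMonoidHom p : X →* X).ker)).symm
          exact not_finite X
        obtain ⟨p', hp', hinf'⟩ := ih m (by
            have := hp.two_le
            nlinarith) hm ((powMonoidHom p : X →* X).range) (by
            rintro ⟨_, x, rfl⟩
            apply Subtype.ext
            change (x ^ p) ^ m = 1
            rw [← pow_mul]
            exact hX x)
        refine ⟨p', hp', ?_⟩
        refine Infinite.of_injective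
          (fun y : ((powMonoidHom p' : (powMonoidHom p : X →* X).range →* _).ker) =>
            (⟨((y : (powMonoidHom p : X →* X).range) : X), by
              have := y.2
              rw [MonoidHom.mem_ker] at this ⊢
              exact congrArg Subtype.val this⟩ : (powMonoidHom p' : X →* X).ker)) ?_
        intro y z hyz
        apply Subtype.ext
        apply Subtype.ext
        exact congrArg (fun w : (powMonoidHom p' : X →* X).ker => (w : X)) hyz

/-- If `K` has an infinite torsion abelian member then it contains every countable group. -/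
theorem mem_of_has_torsion (hK : K.Closed) (X : Type v) [CommGroup X] [Infinite X]
    (hX : K.Has X) (htor : ∀ x : X, IsOfFinOrder x) (G : Type u) [Group G] [Countable G] :
    K.mem G := by
  by_cases hub : ∀ n : ℕ, 0 < n → ∃ x : X, x ^ n ≠ 1
  · exact mem_of_has_Z2 hK (has_Z2_of_torsion_unbounded hK X hX htor hub) G
  · push Not at hub
    obtain ⟨n, hn, h⟩ := hub
    obtain ⟨p, hp, hinf⟩ := exists_prime_infinite n hn X h
    have : Fact p.Prime := ⟨hp⟩
    refine mem_of_has_exponent hK p ((powMonoidHom p : X →* X).ker) ?_ (Has.sub hK hX _) G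
    rintro ⟨x, hx⟩
    apply Subtype.ext
    exact hx

end Pool.Agent.H905R2.Aut
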