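import Mathlib
import Pool.Agent.H905R2.AutE

set_option autoImplicit false

namespace Pool.Agent.H905R2.Aut

universe u v w

variable {K : GroupClass.{u}}

/-- two commuting independent elements give `ℤ²` -/
theorem has_Z2_of_pair (hK : K.Closed) (G : Type v) [Group G] (hG : K.Has G) (z x : G)
    (hc : Commute z x) (hz : ¬ IsOfFinOrder z)
    (hx : ∀ k : ℕ, 0 < k → x ^ k ∉ Subgroup.zpowers z) : K.Has Z2 := by
  let F : Z2 →* G :=
    { toFun := fun v => z ^ (Multiplicative.toAdd v).1 * x ^ (Multiplicative.toAdd v).2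
      map_one' := by simp
      map_mul' := by
        intro v w
        change z ^ ((Multiplicative.toAdd v).1 + (Multiplicative.toAdd w).1) *
          x ^ ((Multiplicative.toAdd v).2 + (Multiplicative.toAdd w).2) = _
        rw [zpow_add, zpow_add]
        exact (hc.zpow_zpow _ _).mul_mul_mul_comm _ _ }
  refine Has.of_injective hK hG F ?_
  rw [injective_iff_map_eq_one]
  intro v hv
  obtain ⟨a, b⟩ := v
  have h1 : z ^ a * x ^ b = 1 := hv
  have h2 : x ^ b ∈ Subgroup.zpowers z := by
    refine ⟨-a, ?_⟩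
    change z ^ (-a) = x ^ b
    rw [zpow_neg]
    exact inv_eq_of_mul_eq_one_right h1
  have hb : b = 0 := by
    by_contra hb
    have h3 : x ^ b.natAbs ∈ Subgroup.zpowers z := by
      rcases Int.natAbs_eq b with h | h
      · rw [h, zpow_natCast] at h2
        exact h2
      · rw [h, zpow_neg, zpow_natCast] at h2
        exact (Subgroup.inv_mem_iff _).1 h2
    exact hx b.natAbs (Int.natAbs_pos.2 hb) h3
  subst hb
  rw [zpow_zero, mul_one] at h1
  have ha : a = 0 := by
    by_contra ha
    apply hz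
    rw [isOfFinOrder_iff_zpow_eq_one]
    exact ⟨a, ha, h1⟩
  subst ha
  rfl

theorem almostCyclic_of_finite (G : Type v) [Group G] [Finite G] : AlmostCyclic G :=
  ⟨1, inferInstance⟩

/-- every abelian member of an admissible class is almost cyclic -/
theorem abelian_almostCyclic (hK : K.Admissible) (A : Type u) [CommGroup A] (hA : K.mem A) :
    AlmostCyclic A := by
  obtain ⟨hC, G0, iG0, hcount, hno⟩ := hK
  have hZ2 : ¬ K.Has Z2 := fun h => hno (mem_of_has_Z2 hC h G0)
  by_cases h : ∃ a : A, ¬ IsOfFinOrder a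
  · obtain ⟨a, ha⟩ := h
    refine ⟨a, ?_⟩
    have hT : K.Has (A ⧸ Subgroup.zpowers a) :=
      Has.of_surjective hC (has_of_mem hA) (QuotientGroup.mk' _) (QuotientGroup.mk'_surjective _)
    have hfin : Finite (A ⧸ Subgroup.zpowers a) := by
      by_contra hinf
      have hinf' : Infinite (A ⧸ Subgroup.zpowers a) := not_finite_iff_infinite.1 hinf
      apply hno
      refine mem_of_has_torsion hC _ hT ?_ G0
      intro y
      obtain ⟨x, rfl⟩ := QuotientGroup.mk'_surjective _ y
      by_contra hy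
      apply hZ2
      refine has_Z2_of_pair hC A (has_of_mem hA) a x (Commute.all a x) ha ?_
      intro k hk hmem
      apply hy
      rw [isOfFinOrder_iff_pow_eq_one]
      refine ⟨k, hk, ?_⟩
      rw [← map_pow]
      exact (QuotientGroup.eq_one_iff _).2 hmem
    exact Subgroup.finiteIndex_of_finite_quotient
  · push Not at h
    have : Finite A := by
      by_contra hinf
      have hinf' : Infinite A := not_finite_iff_infinite.1 hinf
      exact hno (mem_of_has_torsion hC A (has_of_mem hA) h G0)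
    exact almostCyclic_of_finite A

theorem not_almostCyclic_Z2 : ¬ AlmostCyclic (ULift.{u} Z2) := by
  rintro ⟨g, hg⟩
  obtain ⟨⟨a, b⟩⟩ := g
  have h1 := fun x : ULift.{u} Z2 =>
    Subgroup.exists_pow_mem_of_index_ne_zero hg.index_ne_zero x
  obtain ⟨k, hk, -, m, hm⟩ := h1 ⟨Multiplicative.ofAdd (1, 0)⟩
  obtain ⟨l, hl, -, n, hn⟩ := h1 ⟨Multiplicative.ofAdd (0, 1)⟩
  have e1 : m • ((a, b) : ℤ × ℤ) = k • ((1, 0) : ℤ × ℤ) := congrArg ULift.down hm
  have e2 : n • ((a, b) : ℤ × ℤ) = l • ((0, 1) : ℤ × ℤ) := congrArg ULift.down hn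
  simp only [Prod.smul_mk, smul_eq_mul, nsmul_eq_mul, Prod.mk.injEq, mul_one, mul_zero] at e1 e2
  obtain ⟨e3, e4⟩ := e1
  obtain ⟨e5, e6⟩ := e2
  have hm0 : m ≠ 0 := by
    rintro rfl
    rw [zero_mul] at e3
    omega
  have hb0 : b = 0 := (mul_eq_zero.1 e4).resolve_left hm0
  rw [hb0, mul_zero] at e6
  omega

theorem admissible_of_abelian (hK : K.Closed)
    (h : ∀ (A : Type u) [CommGroup A], K.mem A → AlmostCyclic A) : K.Admissible := by
  have hc : Countable Z2 := inferInstanceAs (Countable (ℤ × ℤ))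
  refine ⟨hK, ULift.{u} Z2, inferInstance, Countable.of_equiv _ Equiv.ulift.symm, fun hm => ?_⟩
  exact not_almostCyclic_Z2 (h (ULift.{u} Z2) hm)

theorem admissible_iff (hK : K.Closed) :
    K.Admissible ↔ ∀ (A : Type u) [CommGroup A], K.mem A → AlmostCyclic A :=
  ⟨fun h A _ hA => abelian_almostCyclic h A hA, admissible_of_abelian hK⟩

end Pool.Agent.H905R2.Aut
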