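import Mathlib
import Pool.Agent.H905R2.AutF

set_option autoImplicit false

namespace Pool.Agent.H905R2.Aut

universe u v w

variable {K : GroupClass.{u}}

/-- finite-by-almost cyclic is almost cyclic -/
theorem almostCyclic_of_finite_normal (G : Type v) [Group G] (N : Subgroup G) [N.Normal] [Finite N]
    (h : AlmostCyclic (G ⧸ N)) : AlmostCyclic G := by
  obtain ⟨gb, hg⟩ := h
  obtain ⟨g, rfl⟩ := QuotientGroup.mk'_surjective N gb
  refine ⟨g, ?_⟩
  set H : Subgroup G := (Subgroup.zpowers (QuotientGroup.mk' N g)).comap (QuotientGroup.mk' N)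
    with hH
  have hHfin : H.FiniteIndex := by
    refine ⟨?_⟩
    rw [hH, Subgroup.index_comap_of_surjective _ (QuotientGroup.mk'_surjective N)]
    exact hg.index_ne_zero
  have hq : Finite (G ⧸ H) := Subgroup.finite_quotient_of_finiteIndex
  have hf : Finite (G ⧸ Subgroup.zpowers g) := by
    refine Finite.of_surjective
      (fun qn : (G ⧸ H) × N => (QuotientGroup.mk (qn.1.out * (qn.2 : G)) : G ⧸ Subgroup.zpowers g)) ?_
    intro y
    obtain ⟨x, rfl⟩ := QuotientGroup.mk_surjective y
    have h1 : ((QuotientGroup.mk x : G ⧸ H).out)⁻¹ * x ∈ H := by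
      rw [← QuotientGroup.eq]
      exact QuotientGroup.out_eq' _
    obtain ⟨k, hk⟩ := h1
    have h2 : ((QuotientGroup.mk x : G ⧸ H).out)⁻¹ * x * g ^ (-k) ∈ N := by
      rw [← QuotientGroup.eq_one_iff]
      have h3 : (QuotientGroup.mk' N) (((QuotientGroup.mk x : G ⧸ H).out)⁻¹ * x * g ^ (-k)) = 1 := by
        rw [map_mul, ← hk]
        change (QuotientGroup.mk' N g) ^ k * _ = 1
        rw [← map_zpow, ← map_mul, ← zpow_add]
        simp
      exact h3
    refine ⟨(QuotientGroup.mk x, ⟨_, h2⟩), ?_⟩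
    change (QuotientGroup.mk ((QuotientGroup.mk x : G ⧸ H).out *
      (((QuotientGroup.mk x : G ⧸ H).out)⁻¹ * x * g ^ (-k))) : G ⧸ Subgroup.zpowers g) =
      QuotientGroup.mk x
    rw [QuotientGroup.eq]
    refine ⟨k, ?_⟩
    change g ^ k = _
    group
  exact Subgroup.finiteIndex_of_finite_quotient

/-- a torsion subgroup of an almost cyclic group is finite -/
theorem finite_of_torsion (G : Type v) [Group G] (h : AlmostCyclic G) (D : Subgroup G)
    (hD : ∀ d ∈ D, IsOfFinOrder d) : Finite D := by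
  obtain ⟨g, hg⟩ := h
  have hq : Finite (G ⧸ Subgroup.zpowers g) := Subgroup.finite_quotient_of_finiteIndex
  by_cases hgo : IsOfFinOrder g
  · have h1 : Finite (Subgroup.zpowers g) := by
      rw [← SetLike.coe_sort_coe]
      exact (finite_zpowers.2 hgo).to_subtype
    have : Finite G := Finite.of_equiv _ (Subgroup.groupEquivQuotientProdSubgroup
              (s := Subgroup.zpowers g)).symm
    infer_instance
  · refine Finite.of_injective
      (fun d : D => (QuotientGroup.mk (d : G) : G ⧸ Subgroup.zpowers g)) ?_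
    intro d e hde
    have h1 : ((d : G))⁻¹ * (e : G) ∈ Subgroup.zpowers g := QuotientGroup.eq.1 hde
    obtain ⟨k, hk⟩ := h1
    have hk' : g ^ k = ((d : G))⁻¹ * (e : G) := hk
    have h2 : IsOfFinOrder (g ^ k) := by
      rw [hk']
      exact hD _ (D.mul_mem (D.inv_mem d.2) e.2)
    have hk0 : k = 0 := by
      by_contra hk0
      apply hgo
      rw [isOfFinOrder_iff_zpow_eq_one] at h2 ⊢
      obtain ⟨n, hn, h3⟩ := h2
      exact ⟨k * n, mul_ne_zero hk0 hn, by rw [zpow_mul]; exact h3⟩
    rw [hk0, zpow_zero] at hk'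
    apply Subtype.ext
    have := hk'.symm
    rw [inv_mul_eq_one] at this
    exact this

/-- extension of almost cyclic by almost cyclic inside a closed class without `ℤ²` -/
theorem almostCyclic_ext (hC : K.Closed) (hZ2 : ¬ K.Has Z2) (G : Type u) [Group G]
    (hG : K.mem G) (N : Subgroup G) [hNn : N.Normal] (hN : AlmostCyclic N)
    (hQ : AlmostCyclic (G ⧸ N)) : AlmostCyclic G := by
  by_cases hfin : Finite N
  · exact almostCyclic_of_finite_normal G N hQ
  have hinf : Infinite N := not_finite_iff_infinite.1 hfin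
  obtain ⟨⟨g, hgN⟩, hg⟩ := hN
  -- `g` has infinite order
  have hgo : ¬ IsOfFinOrder g := by
    intro h
    have h0 : IsOfFinOrder (⟨g, hgN⟩ : N) := by
      rw [isOfFinOrder_iff_pow_eq_one] at h ⊢
      obtain ⟨n, hn, h1⟩ := h
      exact ⟨n, hn, Subtype.ext h1⟩
    have h1 : Finite (Subgroup.zpowers (⟨g, hgN⟩ : N)) := by
      rw [← SetLike.coe_sort_coe]
      exact (finite_zpowers.2 h0).to_subtype
    have hq : Finite (N ⧸ Subgroup.zpowers (⟨g, hgN⟩ : N)) :=
      Subgroup.finite_quotient_of_finiteIndex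
    have : Finite N := Finite.of_equiv _ (Subgroup.groupEquivQuotientProdSubgroup
              (s := Subgroup.zpowers (⟨g, hgN⟩ : N))).symm
    exact hfin this
  -- powers land in `⟨g⟩`
  obtain ⟨m, hm, hpow⟩ : ∃ m : ℕ, 0 < m ∧ ∀ x ∈ N, x ^ m ∈ Subgroup.zpowers g := by
    refine ⟨(Subgroup.zpowers (⟨g, hgN⟩ : N)).index.factorial, Nat.factorial_pos _, ?_⟩
    intro x hx
    obtain ⟨k, hk0, hk1, j, hj⟩ :=
      Subgroup.exists_pow_mem_of_index_ne_zero hg.index_ne_zero (⟨x, hx⟩ : N)
    obtain ⟨c, hc⟩ := Nat.dvd_factorial hk0 hk1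
    rw [hc, pow_mul]
    apply Subgroup.pow_mem
    exact ⟨j, congrArg Subtype.val hj⟩
  -- the normal subgroup generated by the `m`-th powers
  set P : Subgroup G := Subgroup.closure {y | ∃ x ∈ N, y = x ^ m} with hP
  have hPn : ∀ a : G, ∀ y ∈ P, a * y * a⁻¹ ∈ P := by
    intro a y hy
    have h1 : P ≤ P.comap (MulAut.conj a).toMonoidHom := by
      rw [hP, Subgroup.closure_le]
      rintro y ⟨x, hx, rfl⟩
      change a * x ^ m * a⁻¹ ∈ P
      rw [← conj_pow]
      exact Subgroup.subset_closure ⟨_, hNn.conj_mem x hx a, rfl⟩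
    exact h1 hy
  have hPg : P ≤ Subgroup.zpowers g := by
    rw [hP, Subgroup.closure_le]
    rintro y ⟨x, hx, rfl⟩
    exact hpow x hx
  obtain ⟨z, hz⟩ : ∃ z : G, P = Subgroup.zpowers z := by
    have : IsCyclic P := Subgroup.isCyclic_of_le hPg
    obtain ⟨z, hz⟩ := IsCyclic.exists_generator (α := P)
    refine ⟨z, le_antisymm ?_ ?_⟩
    · intro y hy
      obtain ⟨k, hk⟩ := hz ⟨y, hy⟩
      exact ⟨k, congrArg Subtype.val hk⟩
    · rw [Subgroup.zpowers_le]
      exact z.2
  have hgmP : g ^ m ∈ P := Subgroup.subset_closure ⟨g, hgN, rfl⟩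
  have hzo : ¬ IsOfFinOrder z := by
    intro h
    rw [hz] at hgmP
    obtain ⟨j, hj⟩ := hgmP
    apply hgo
    have h1 : IsOfFinOrder (g ^ m) := by
      rw [← hj]
      exact h.zpow
    rw [isOfFinOrder_iff_pow_eq_one] at h1 ⊢
    obtain ⟨n, hn, h2⟩ := h1
    exact ⟨m * n, by positivity, by rw [pow_mul]; exact h2⟩
  have hzN : z ∈ N := by
    have h1 : z ∈ P := by rw [hz]; exact Subgroup.mem_zpowers z
    have h2 : Subgroup.zpowers g ≤ N := by rw [Subgroup.zpowers_le]; exact hgN
    exact h2 (hPg h1)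
  -- finite index of `⟨z⟩` in `N`
  have hzrel : (Subgroup.zpowers z).relIndex N ≠ 0 := by
    have h1 : (Subgroup.zpowers z).relIndex (Subgroup.zpowers g) ≠ 0 := by
      have hf : Finite (Subgroup.zpowers g ⧸ (Subgroup.zpowers z).subgroupOf (Subgroup.zpowers g)) := by
        refine Finite.of_surjective (fun i : Fin m => (QuotientGroup.mk
          (⟨g ^ (i : ℕ), Subgroup.npow_mem_zpowers g i⟩ : Subgroup.zpowers g) :
            Subgroup.zpowers g ⧸ (Subgroup.zpowers z).subgroupOf (Subgroup.zpowers g))) ?_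
        intro y
        obtain ⟨⟨_, k, rfl⟩, rfl⟩ := QuotientGroup.mk_surjective y
        have hmz : (0 : ℤ) < m := by exact_mod_cast hm
        refine ⟨⟨(k % m).toNat, ?_⟩, ?_⟩
        · have := Int.emod_lt_of_pos k hmz
          have := Int.emod_nonneg k hmz.ne'
          omega
        · apply QuotientGroup.eq.2
          rw [Subgroup.mem_subgroupOf]
          change (g ^ ((k % m).toNat))⁻¹ * g ^ k ∈ Subgroup.zpowers z
          have h3 : (g ^ ((k % m).toNat))⁻¹ * g ^ k = (g ^ m) ^ (k / m) := by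
            rw [← zpow_natCast g ((k % m).toNat), Int.toNat_of_nonneg (Int.emod_nonneg k hmz.ne'),
              ← zpow_neg, ← zpow_add, ← zpow_natCast g m, ← zpow_mul]
            congr 1
            have := Int.emod_add_mul_ediv k m
            linarith
          rw [h3, ← hz]
          exact P.zpow_mem hgmP _
      have := Subgroup.finiteIndex_of_finite_quotient
        (H := (Subgroup.zpowers z).subgroupOf (Subgroup.zpowers g))
      exact this.index_ne_zero
    have h2 : (Subgroup.zpowers g).relIndex N ≠ 0 := by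
      have h3 : (Subgroup.zpowers g).subgroupOf N = Subgroup.zpowers (⟨g, hgN⟩ : N) := by
        ext ⟨x, hx⟩
        rw [Subgroup.mem_subgroupOf]
        constructor
        · rintro ⟨k, hk⟩
          exact ⟨k, Subtype.ext hk⟩
        · rintro ⟨k, hk⟩
          exact ⟨k, congrArg Subtype.val hk⟩
      rw [Subgroup.relIndex, h3]
      exact hg.index_ne_zero
    have h4 : Subgroup.zpowers g ≤ N := by rw [Subgroup.zpowers_le]; exact hgN
    have h5 : Subgroup.zpowers z ≤ Subgroup.zpowers g := by rw [← hz]; exact hPg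
    rw [← Subgroup.relIndex_mul_relIndex _ _ _ h5 h4]
    exact mul_ne_zero h1 h2
  -- the centralizer
  set C : Subgroup G := Subgroup.centralizer {z} with hCdef
  have hconj : ∀ a : G, a * z * a⁻¹ = z ∨ a * z * a⁻¹ = z⁻¹ := by
    intro a
    have h1 : ∀ a : G, ∃ k : ℤ, z ^ k = a * z * a⁻¹ := by
      intro a
      have := hPn a z (by rw [hz]; exact Subgroup.mem_zpowers z)
      rw [hz] at this
      exact this
    obtain ⟨k, hk⟩ := h1 a
    obtain ⟨l, hl⟩ := h1 a⁻¹
    have h2 : z ^ (k * l) = z ^ (1 : ℤ) := by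
      rw [zpow_mul, hk, conj_zpow, hl]
      group
    have hinj : Function.Injective (fun n : ℤ => z ^ n) := injective_zpow_iff_not_isOfFinOrder.2 hzo
    have h3 : k * l = 1 := hinj h2
    rcases Int.eq_one_or_neg_one_of_mul_eq_one h3 with h4 | h4
    · left; rw [← hk, h4, zpow_one]
    · right; rw [← hk, h4, zpow_neg_one]
  have hmemC : ∀ a : G, a ∈ C ↔ a * z * a⁻¹ = z := by
    intro a
    rw [hCdef, Subgroup.mem_centralizer_singleton_iff]
    constructor
    · intro h; rw [h, mul_inv_cancel_right]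
    · intro h
      calc a * z = (a * z * a⁻¹) * a := by group
        _ = z * a := by rw [h]
  have hCidx : C.index ≠ 0 := by
    have hf : Finite (G ⧸ C) := by
      refine Finite.of_injective
        (fun q : G ⧸ C => (⟨q.out * z * q.out⁻¹, by
          rcases hconj q.out with h | h
          · rw [h]; simp
          · rw [h]; simp⟩ : ({z, z⁻¹} : Set G))) ?_
      intro q r hqr
      have h1 : q.out * z * q.out⁻¹ = r.out * z * r.out⁻¹ := congrArg Subtype.val hqr
      have h2 : (q.out)⁻¹ * r.out ∈ C := by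
        rw [hmemC]
        calc (q.out)⁻¹ * r.out * z * ((q.out)⁻¹ * r.out)⁻¹
            = (q.out)⁻¹ * (r.out * z * r.out⁻¹) * q.out := by group
          _ = z := by rw [← h1]; group
      rw [← QuotientGroup.eq, QuotientGroup.out_eq', QuotientGroup.out_eq'] at h2
      exact h2
    have := Subgroup.finiteIndex_of_finite_quotient (H := C)
    exact this.index_ne_zero
  -- `C` is torsion modulo `⟨z⟩`
  have htor : ∀ x ∈ C, ∃ k : ℕ, 0 < k ∧ x ^ k ∈ Subgroup.zpowers z := by
    intro x hx
    by_contra hcon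
    push Not at hcon
    apply hZ2
    refine has_Z2_of_pair hC G (has_of_mem hG) z x ?_ hzo hcon
    have := (hmemC x).1 hx
    change z * x = x * z
    calc z * x = (x * z * x⁻¹) * x := by rw [this]
      _ = x * z := by group
  have hNC : N.relIndex C ≠ 0 := by
    have h1 : Finite (C.map (QuotientGroup.mk' N)) := by
      apply finite_of_torsion _ hQ
      rintro _ ⟨x, hx, rfl⟩
      obtain ⟨k, hk, h2⟩ := htor x hx
      rw [isOfFinOrder_iff_pow_eq_one]
      refine ⟨k, hk, ?_⟩
      rw [← map_pow]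
      apply (QuotientGroup.eq_one_iff _).2
      have h3 : Subgroup.zpowers z ≤ N := by rw [Subgroup.zpowers_le]; exact hzN
      exact h3 h2
    have h2 := Subgroup.relIndex_ker C (QuotientGroup.mk' N)
    rw [QuotientGroup.ker_mk'] at h2
    rw [h2]
    exact Nat.card_pos.ne'
  refine ⟨z, ⟨?_⟩⟩
  have e1 : Subgroup.zpowers z ≤ N ⊓ C := by
    rw [Subgroup.zpowers_le]
    exact ⟨hzN, (hmemC z).2 (by group)⟩
  have e2 : (Subgroup.zpowers z).relIndex (N ⊓ C) ≠ 0 := by
    intro h
    exact hzrel (Subgroup.relIndex_eq_zero_of_le_right inf_le_left h)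
  have e3 : (N ⊓ C).relIndex C ≠ 0 := by
    rw [Subgroup.inf_relIndex_right]
    exact hNC
  have e4 := Subgroup.relIndex_mul_relIndex _ _ _ e1 (inf_le_right : N ⊓ C ≤ C)
  have e5 : Subgroup.zpowers z ≤ C := e1.trans inf_le_right
  have e6 := Subgroup.relIndex_mul_index e5
  rw [← e6, ← e4]
  exact mul_ne_zero (mul_ne_zero e2 e3) hCidx

end Pool.Agent.H905R2.Aut
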