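import Mathlib
import Pool.Agent.H905R2.AutG

set_option autoImplicit false

namespace Pool.Agent.H905R2.Aut

universe u v w

variable {K : GroupClass.{u}}

theorem mem_of_has_free (hK : K.Closed) (h : K.Has (FreeGroup Bool)) (G : Type u) [Group G]
    [Countable G] : K.mem G := by
  have h1 : K.Has lampHom.range :=
    Has.of_surjective hK h lampHom.rangeRestrict lampHom.rangeRestrict_surjective
  have h2 : K.Has lampBase := Has.sub hK h1 lampBase
  have : Fact (Nat.Prime 2) := ⟨Nat.prime_two⟩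
  exact mem_of_has_exponent hK 2 lampBase lampBase_sq h2 G

theorem derived_almostCyclic (hK : K.Admissible) (n : ℕ) : ∀ (G : Type u) [Group G], K.mem G →
    derivedSeries G n = ⊥ → AlmostCyclic G := by
  have hZ2 : ¬ K.Has Z2 := by
    obtain ⟨hC, G0, iG0, hcount, hno⟩ := hK
    exact fun h => hno (mem_of_has_Z2 hC h G0)
  induction n with
  | zero =>
    intro G _ _ h
    rw [derivedSeries_zero] at h
    have : Subsingleton G := by
      rw [← Subgroup.subsingleton_iff]
      exact subsingleton_of_bot_eq_top h.symm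
    exact almostCyclic_of_finite G
  | succ n ih =>
    intro G _ hG h
    have hcomm : ∀ a b : derivedSeries G n, a * b = b * a := by
      rw [derivedSeries_succ, Subgroup.commutator_eq_bot_iff_le_centralizer] at h
      intro a b
      apply Subtype.ext
      exact (Subgroup.mem_centralizer_iff.1 (h a.2) b b.2).symm
    have hA : AlmostCyclic (derivedSeries G n) := by
      let _ : CommGroup (derivedSeries G n) :=
        { (inferInstance : Group (derivedSeries G n)) with mul_comm := hcomm }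
      exact abelian_almostCyclic hK (derivedSeries G n) (hK.1.sub G _ hG)
    have hQ : AlmostCyclic (G ⧸ derivedSeries G n) := by
      apply ih
      · exact hK.1.quot G _ (QuotientGroup.mk' _) (QuotientGroup.mk'_surjective _) hG
      · rw [← map_derivedSeries_eq (f := QuotientGroup.mk' (derivedSeries G n))
          (QuotientGroup.mk'_surjective _), Subgroup.map_eq_bot_iff, QuotientGroup.ker_mk']
    exact almostCyclic_ext hK.1 hZ2 G hG (derivedSeries G n) hA hQ

theorem almostCyclic_of_subgroup (G : Type v) [Group G] (H : Subgroup G) [hf : H.FiniteIndex]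
    (h : AlmostCyclic H) : AlmostCyclic G := by
  obtain ⟨⟨g, hgH⟩, hg⟩ := h
  refine ⟨g, ⟨?_⟩⟩
  have h3 : (Subgroup.zpowers g).subgroupOf H = Subgroup.zpowers (⟨g, hgH⟩ : H) := by
    ext ⟨x, hx⟩
    rw [Subgroup.mem_subgroupOf]
    constructor
    · rintro ⟨k, hk⟩
      exact ⟨k, Subtype.ext hk⟩
    · rintro ⟨k, hk⟩
      exact ⟨k, congrArg Subtype.val hk⟩
  have h4 : Subgroup.zpowers g ≤ H := by rw [Subgroup.zpowers_le]; exact hgH
  rw [← Subgroup.relIndex_mul_index h4, Subgroup.relIndex, h3]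
  exact mul_ne_zero hg.index_ne_zero hf.index_ne_zero

/-- The class of all groups `G` such that some closed class contains `G` but not `ℤ × ℤ`
(equivalently: the closed class generated by `G` does not contain `ℤ × ℤ`). -/
def largest : GroupClass.{u} where
  mem G _ := ∃ K : GroupClass.{u}, K.Closed ∧ K.mem G ∧
    ¬ K.mem (ULift.{u} (Multiplicative (ℤ × ℤ)))
  iso G H _ _ e := by
    rintro ⟨K, hK, hG, hn⟩
    exact ⟨K, hK, K.iso G H e hG, hn⟩

theorem largest_closed : largest.{u}.Closed where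
  sub G _ H := by
    rintro ⟨K, hK, hG, hn⟩
    exact ⟨K, hK, hK.sub G H hG, hn⟩
  quot G Q _ _ f hf := by
    rintro ⟨K, hK, hG, hn⟩
    exact ⟨K, hK, hK.quot G Q f hf hG, hn⟩
  aut G _ H := by
    rintro ⟨K, hK, hG, hn⟩
    exact ⟨K, hK, hK.aut G H hG, hn⟩

theorem has_Z2_iff : K.Has Z2 ↔ K.mem (ULift.{u} (Multiplicative (ℤ × ℤ))) :=
  ⟨fun h => mem_of_has (Has.iso h (MulEquiv.ulift : ULift.{u} Z2 ≃* Z2).symm),
    fun h => Has.iso (has_of_mem h) (MulEquiv.ulift : ULift.{u} Z2 ≃* Z2)⟩

theorem countable_Z2 : Countable (ULift.{u} (Multiplicative (ℤ × ℤ))) := by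
  have hc : Countable Z2 := inferInstanceAs (Countable (ℤ × ℤ))
  exact Countable.of_equiv _ Equiv.ulift.symm

theorem largest_admissible : largest.{u}.Admissible := by
  refine ⟨largest_closed, ULift.{u} (Multiplicative (ℤ × ℤ)), inferInstance, countable_Z2, ?_⟩
  rintro ⟨K, hK, hG, hn⟩
  exact hn hG

theorem main (hK : K.Closed) :
    List.TFAE [
      K.Admissible,
      ¬ K.mem (ULift.{u} (Multiplicative (ℤ × ℤ))),
      ¬ K.mem (ULift.{u} (FreeGroup Bool)),
      ∀ p : ℕ, p.Prime → ¬ K.mem (ULift.{u} (Multiplicative (ℕ →₀ ZMod p))),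
      ∃ p : ℕ, p.Prime ∧ ¬ K.mem (ULift.{u} (Multiplicative (ℕ →₀ ZMod p))),
      ∀ (A : Type u) [CommGroup A], K.mem A → AlmostCyclic A,
      ∀ (G : Type u) [Group G], K.mem G →
        (∃ H : Subgroup G, H.FiniteIndex ∧ Group.IsSolvable H) → AlmostCyclic G,
      ∀ (G : Type u) [Group G], K.mem G → largest.mem G] := by
  tfae_have 1 → 2 := by
    rintro ⟨-, G, iG, hcount, hno⟩ h
    exact hno (mem_of_has_Z2 hK (has_Z2_iff.2 h) G)
  tfae_have 2 → 8 := fun h G _ hG => ⟨K, hK, hG, h⟩
  tfae_have 8 → 1 := by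
    intro h
    refine ⟨hK, ULift.{u} (Multiplicative (ℤ × ℤ)), inferInstance, countable_Z2, fun hm => ?_⟩
    obtain ⟨K', hK', hG, hn⟩ := h _ hm
    exact hn hG
  tfae_have 1 → 3 := by
    rintro ⟨-, G, iG, hcount, hno⟩ h
    exact hno (mem_of_has_free hK (Has.iso (has_of_mem h) MulEquiv.ulift) G)
  tfae_have 3 → 1 := by
    intro h
    have h1 : Countable (FreeGroup Bool) := by
      unfold FreeGroup
      infer_instance
    exact ⟨hK, _, inferInstance, Countable.of_equiv _ Equiv.ulift.symm, h⟩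
  tfae_have 1 → 4 := by
    rintro ⟨-, G, iG, hcount, hno⟩ p hp h
    have : Fact p.Prime := ⟨hp⟩
    exact hno (mem_of_has_elementary hK p (Has.iso (has_of_mem h) MulEquiv.ulift) G)
  tfae_have 4 → 5 := fun h => ⟨2, Nat.prime_two, h 2 Nat.prime_two⟩
  tfae_have 5 → 1 := by
    rintro ⟨p, hp, h⟩
    have : NeZero p := ⟨hp.ne_zero⟩
    have h1 : Countable (Multiplicative (ℕ →₀ ZMod p)) := inferInstanceAs (Countable (ℕ →₀ ZMod p))
    exact ⟨hK, _, inferInstance, Countable.of_equiv _ Equiv.ulift.symm, h⟩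
  tfae_have 1 → 6 := fun h A _ hA => abelian_almostCyclic h A hA
  tfae_have 6 → 1 := admissible_of_abelian hK
  tfae_have 1 → 7 := by
    rintro h G _ hG ⟨H, hH, hs⟩
    obtain ⟨n, hn⟩ := hs.solvable
    exact almostCyclic_of_subgroup G H (derived_almostCyclic h n H (hK.sub G H hG) hn)
  tfae_have 7 → 6 := by
    intro h A _ hA
    refine h A hA ⟨⊤, inferInstance, inferInstance⟩
  tfae_finish

end Pool.Agent.H905R2.Aut
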