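import Mathlib

/-!
# Exactly `k`-to-1 maps between graphs: definitions
-/

namespace H905R2.KMap

open Set

section Body

variable {V : Type*}

open Classical in
/-- The point with parameter `t` on the straight segment from the unit vector `e_v` to the unit
vector `e_w` in `V → ℝ`. -/
noncomputable def pt (v w : V) (t : ℝ) : V → ℝ :=
  fun u => (if u = v then 1 - t else 0) + (if u = w then t else 0)

/-- The topological graph given by a simple graph `G`: the union, over the edges `vw` of `G`, of
the straight segments `[e_v, e_w]` (a subset of `V → ℝ`). -/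
def Body (G : SimpleGraph V) : Set (V → ℝ) :=
  {x | ∃ v w, G.Adj v w ∧ ∃ t ∈ Icc (0 : ℝ) 1, x = pt v w t}

end Body

section Subdivision

variable {W : Type*}

open Classical in
/-- The function `W → ℕ` with value `M - j` at `v`, value `j` at `w` and `0` elsewhere: the
`j`-th subdivision point of the edge `vw`, counted from `v`. -/
noncomputable def lat (M : ℕ) (v w : W) (j : ℕ) : W → ℕ :=
  fun u => (if u = v then M - j else 0) + (if u = w then j else 0)

theorem lat_symm {M : ℕ} {v w : W} {j : ℕ} (hj : j ≤ M) : lat M v w j = lat M w v (M - j) := by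
  funext u
  simp only [lat, Nat.sub_sub_self hj]
  omega

/-- The subdivision of `H` in which every edge is divided into `M` edges. Its vertices (other
than isolated ones) are the functions `lat M v w j` (`vw` an edge of `H`, `0 ≤ j ≤ M`) and
`lat M v w j` is adjacent to `lat M v w (j + 1)`. -/
def subdiv (M : ℕ) (H : SimpleGraph W) : SimpleGraph (W → ℕ) where
  Adj a b := ∃ v w, H.Adj v w ∧ ∃ j < M, a = lat M v w j ∧ b = lat M v w (j + 1)
  symm := ⟨by
    rintro a b ⟨v, w, h, j, hj, rfl, rfl⟩
    refine ⟨w, v, h.symm, M - (j + 1), by omega, ?_, ?_⟩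
    · exact lat_symm (by omega)
    · rw [lat_symm (by omega), show M - (j + 1) + 1 = M - j by omega]⟩
  loopless := ⟨by
    rintro a ⟨v, w, h, j, hj, h1, h2⟩
    have h3 := congrFun (h1.symm.trans h2) w
    simp only [lat, h.ne', if_false, if_true] at h3
    omega⟩

end Subdivision

section Walks

variable {U : Type*}

/-- A step of a walk in a graph: `(y, z, true)` runs along the edge `yz` from `y` to `z`, while
`(y, z, false)` leaves `y` into the edge `yz` and comes back to `y` without reaching `z`. -/
abbrev Step (U : Type*) := U × U × Bool

/-- The vertex at which a step ends. -/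
def fin (s : Step U) : U := if s.2.2 then s.2.1 else s.1

/-- `IsWalk K a l b`: the list of steps `l` is a walk in `K` from `a` to `b`. -/
def IsWalk (K : SimpleGraph U) : U → List (Step U) → U → Prop
  | a, [], b => a = b
  | a, s :: l, b => s.1 = a ∧ K.Adj s.1 s.2.1 ∧ IsWalk K (fin s) l b

open Classical in
/-- How often the walk `l` is at `y` at an intermediate time: the number of its steps, other than
the first one, that start at `y`. -/
noncomputable def visits (y : U) (l : List (Step U)) : ℕ :=
  (l.tail.map fun s => if s.1 = y then 1 else 0).sum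

open Classical in
/-- The contribution of one step to `uses y z`. -/
noncomputable def use (y z : U) (s : Step U) : ℕ :=
  if s.2.2 then (if s.1 = y ∧ s.2.1 = z then 1 else 0) + (if s.1 = z ∧ s.2.1 = y then 1 else 0)
  else (if s.1 = y ∧ s.2.1 = z then 2 else 0)

/-- How often the walk `l` uses the end at `y` of the edge `yz`: a step along the edge (in either
direction) counts once, a step from `y` into the edge and back to `y` counts twice. -/
noncomputable def uses (y z : U) (l : List (Step U)) : ℕ := (l.map (use y z)).sum

variable {n : ℕ}

open Classical in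
/-- The edges of `G`, as pairs `(v, w)` with `v < w`. -/
noncomputable def edges (G : SimpleGraph (Fin n)) : Finset (Fin n × Fin n) :=
  Finset.univ.filter fun p => p.1 < p.2 ∧ G.Adj p.1 p.2

/-- A `k`-scheme from `G` to `K`: a vertex `φ v` of `K` for each vertex `v` of `G`, and for each
edge `vw` of `G` (`v < w`) a nonempty walk `P v w` from `φ v` to `φ w` in `K`, such that

* every vertex `y` of `K` is met exactly `k` times altogether;
* for every edge `yz` of `K`, the end at `y` of this edge is used at least once and at most `k`
  times altogether, and this number of times has the parity of `k`. -/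
structure IsScheme (G : SimpleGraph (Fin n)) (K : SimpleGraph U) (k : ℕ) (φ : Fin n → U)
    (P : Fin n → Fin n → List (Step U)) : Prop where
  walk : ∀ p ∈ edges G, P p.1 p.2 ≠ [] ∧ IsWalk K (φ p.1) (P p.1 p.2) (φ p.2)
  vertex : ∀ y z, K.Adj y z →
    {v | φ v = y}.ncard + ∑ p ∈ edges G, visits y (P p.1 p.2) = k
  edge : ∀ y z, K.Adj y z →
    1 ≤ ∑ p ∈ edges G, uses y z (P p.1 p.2) ∧ ∑ p ∈ edges G, uses y z (P p.1 p.2) ≤ k ∧
      (∑ p ∈ edges G, uses y z (P p.1 p.2)) % 2 = k % 2

end Walks

end H905R2.KMap
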