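import Mathlib
import Pool.Agent.H905R2.KMapDefs

/-!
# Basic lemmas on `pt` and `Body`; counting fibres over the edges
-/

namespace H905R2.KMap

open Set

section

variable {V : Type*}

open Classical in
/-- unit vector -/
noncomputable def ev (v : V) : V → ℝ := fun u => if u = v then 1 else 0

@[simp] theorem ev_self (v : V) : ev v v = 1 := by simp [ev]

theorem ev_ne {u v : V} (h : u ≠ v) : ev v u = 0 := by simp [ev, h]

theorem ev_inj {u v : V} : ev u = ev v ↔ u = v := by
  constructor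
  · intro h
    by_contra hne
    have := congrFun h u
    rw [ev_self, ev_ne hne] at this
    norm_num at this
  · rintro rfl; rfl

@[simp] theorem pt_zero (v w : V) : pt v w 0 = ev v := by
  funext u; simp [pt, ev]

@[simp] theorem pt_one (v w : V) : pt v w 1 = ev w := by
  funext u; simp [pt, ev]

theorem pt_symm (v w : V) (t : ℝ) : pt v w t = pt w v (1 - t) := by
  funext u; simp only [pt, sub_sub_cancel]; ring

theorem pt_left {v w : V} (h : v ≠ w) (t : ℝ) : pt v w t v = 1 - t := by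
  simp [pt, h]

theorem pt_right {v w : V} (h : v ≠ w) (t : ℝ) : pt v w t w = t := by
  simp [pt, h.symm]

theorem pt_other {u v w : V} (h : u ≠ v) (h' : u ≠ w) (t : ℝ) : pt v w t u = 0 := by
  simp [pt, h, h']

theorem continuous_pt (v w : V) : Continuous (pt v w) := by
  refine continuous_pi fun u => ?_
  unfold pt
  split_ifs <;> fun_prop

theorem pt_eq_ev {u v w : V} (h : v ≠ w) (s : ℝ) :
    pt v w s = ev u ↔ (s = 0 ∧ u = v) ∨ (s = 1 ∧ u = w) := by
  constructor
  · intro hs
    by_cases huv : u = v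
    · subst huv
      left
      have := congrFun hs w
      rw [pt_right h, ev_ne h.symm] at this
      exact ⟨this, rfl⟩
    by_cases huw : u = w
    · subst huw
      right
      have := congrFun hs u
      rw [pt_right h, ev_self] at this
      exact ⟨this, rfl⟩
    · have := congrFun hs u
      rw [pt_other huv huw, ev_self] at this
      norm_num at this
  · rintro (⟨rfl, rfl⟩ | ⟨rfl, rfl⟩)
    · simp
    · simp

theorem pt_eq_pt {v w v' w' : V} (h : v ≠ w) (h' : v' ≠ w') {s c : ℝ}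
    (hc : c ∈ Ioo (0 : ℝ) 1) :
    pt v w s = pt v' w' c ↔ (v = v' ∧ w = w' ∧ s = c) ∨ (v = w' ∧ w = v' ∧ s = 1 - c) := by
  constructor
  · intro hs
    have h1 : v' = v ∨ v' = w := by
      by_contra hcon
      rw [not_or] at hcon
      have := congrFun hs v'
      rw [pt_other hcon.1 hcon.2, pt_left h'] at this
      linarith [hc.2]
    have h2 : w' = v ∨ w' = w := by
      by_contra hcon
      rw [not_or] at hcon
      have := congrFun hs w'
      rw [pt_other hcon.1 hcon.2, pt_right h'] at this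
      linarith [hc.1]
    rcases h1 with rfl | rfl
    · rcases h2 with rfl | rfl
      · exact absurd rfl h'
      · left
        have := congrFun hs w'
        rw [pt_right h, pt_right h'] at this
        exact ⟨rfl, rfl, this⟩
    · rcases h2 with rfl | rfl
      · right
        have := congrFun hs v'
        rw [pt_right h, pt_left h'] at this
        exact ⟨rfl, rfl, this⟩
      · exact absurd rfl h'
  · rintro (⟨rfl, rfl, rfl⟩ | ⟨rfl, rfl, rfl⟩)
    · rfl
    · rw [pt_symm]; ring_nf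

theorem pt_mem_Body {G : SimpleGraph V} {v w : V} (h : G.Adj v w) {t : ℝ} (ht : t ∈ Icc (0 : ℝ) 1) :
    pt v w t ∈ Body G := ⟨v, w, h, t, ht, rfl⟩

theorem ev_mem_Body {G : SimpleGraph V} {v w : V} (h : G.Adj v w) : ev v ∈ Body G :=
  ⟨v, w, h, 0, by simp, by simp⟩

theorem ev_mem_Body_iff {G : SimpleGraph V} {v : V} : ev v ∈ Body G ↔ ∃ w, G.Adj v w := by
  constructor
  · rintro ⟨a, b, h, t, ht, heq⟩
    rcases (pt_eq_ev h.ne t).1 heq.symm with ⟨-, rfl⟩ | ⟨-, rfl⟩
    · exact ⟨b, h⟩
    · exact ⟨a, h.symm⟩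
  · rintro ⟨w, h⟩
    exact ev_mem_Body h

/-- Points of the body are vertices or lie in an open edge. -/
theorem Body_cases {G : SimpleGraph V} {x : V → ℝ} (hx : x ∈ Body G) :
    (∃ v w, G.Adj v w ∧ x = ev v) ∨ ∃ v w, G.Adj v w ∧ ∃ t ∈ Ioo (0 : ℝ) 1, x = pt v w t := by
  obtain ⟨v, w, h, t, ht, rfl⟩ := hx
  rcases eq_or_lt_of_le ht.1 with h0 | h0
  · left
    exact ⟨v, w, h, by rw [← h0, pt_zero]⟩
  rcases eq_or_lt_of_le ht.2 with h1 | h1
  · left
    exact ⟨w, v, h.symm, by rw [h1, pt_one]⟩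
  · right
    exact ⟨v, w, h, t, ⟨h0, h1⟩, rfl⟩

theorem pt_injective {v w : V} (h : v ≠ w) : Function.Injective (pt v w) := by
  intro s t hst
  have := congrFun hst w
  rwa [pt_right h, pt_right h] at this

end

section Fibre

variable {n : ℕ} {X : Type*}

theorem mem_edges {G : SimpleGraph (Fin n)} {p : Fin n × Fin n} :
    p ∈ edges G ↔ p.1 < p.2 ∧ G.Adj p.1 p.2 := by
  simp [edges]

/-- Times in the open unit interval at which `γ` is at `x`. -/
noncomputable def cnt (γ : ℝ → X) (x : X) : ℕ∞ := {t ∈ Ioo (0 : ℝ) 1 | γ t = x}.encard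

/-- The number of points of a fibre is the number of vertices in it plus the number of points in
the open edges. -/
theorem fibre_formula (G : SimpleGraph (Fin n)) (hG : ∀ v, ∃ w, G.Adj v w)
    (f : (Fin n → ℝ) → X) (y : X) :
    {x ∈ Body G | f x = y}.encard =
      {v | f (ev v) = y}.encard + ∑ p ∈ edges G, cnt (fun t => f (pt p.1 p.2 t)) y := by
  have hunion : {x ∈ Body G | f x = y} = (ev '' {v | f (ev v) = y}) ∪
      ⋃ p ∈ (edges G : Set (Fin n × Fin n)),
        (pt p.1 p.2 '' {t ∈ Ioo (0 : ℝ) 1 | f (pt p.1 p.2 t) = y}) := by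
    ext x
    simp only [mem_setOf_eq, mem_union, mem_image, mem_iUnion, exists_prop, Finset.mem_coe,
      Prod.exists]
    constructor
    · rintro ⟨hx, hfx⟩
      rcases Body_cases hx with ⟨v, w, h, rfl⟩ | ⟨v, w, h, t, ht, rfl⟩
      · left; exact ⟨v, hfx, rfl⟩
      · right
        rcases lt_or_gt_of_ne h.ne with hlt | hgt
        · exact ⟨v, w, mem_edges.2 ⟨hlt, h⟩, t, ⟨ht, hfx⟩, rfl⟩
        · refine ⟨w, v, mem_edges.2 ⟨hgt, h.symm⟩, 1 - t, ⟨⟨by linarith [ht.2], by linarith [ht.1]⟩, ?_⟩, ?_⟩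
          · rw [pt_symm, sub_sub_cancel]; exact hfx
          · rw [pt_symm, sub_sub_cancel]
    · rintro (⟨v, hv, rfl⟩ | ⟨v, w, hp, t, ⟨ht, hft⟩, rfl⟩)
      · obtain ⟨w, hw⟩ := hG v
        exact ⟨ev_mem_Body hw, hv⟩
      · exact ⟨pt_mem_Body (mem_edges.1 hp).2 ⟨ht.1.le, ht.2.le⟩, hft⟩
  rw [hunion, encard_union_eq]
  · congr 1
    · exact InjOn.encard_image (fun a _ b _ hab => ev_inj.1 hab)
    · rw [Finite.encard_biUnion (edges G).finite_toSet]
      · rw [finsum_mem_coe_finset]
        refine Finset.sum_congr rfl fun p hp => ?_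
        exact InjOn.encard_image (fun a _ b _ hab => pt_injective (mem_edges.1 hp).2.ne hab)
      · intro p hp q hq hpq
        rw [Function.onFun, Set.disjoint_left]
        rintro x ⟨t, ⟨ht, -⟩, rfl⟩ ⟨s, ⟨hs, -⟩, hst⟩
        have hp' := mem_edges.1 hp
        have hq' := mem_edges.1 hq
        rcases (pt_eq_pt hq'.2.ne hp'.2.ne ht).1 hst with ⟨h1, h2, -⟩ | ⟨h1, h2, -⟩
        · exact hpq (Prod.ext h1.symm h2.symm)
        · have h3 := hp'.1
          have h4 := hq'.1
          rw [h1, h2] at h4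
          exact absurd h3 (lt_asymm h4)
  · rw [Set.disjoint_left]
    rintro x ⟨v, -, rfl⟩ hx
    simp only [mem_iUnion, exists_prop, Finset.mem_coe, mem_image] at hx
    obtain ⟨p, hp, t, ⟨ht, -⟩, heq⟩ := hx
    rcases (pt_eq_ev (mem_edges.1 hp).2.ne t).1 heq with ⟨h, -⟩ | ⟨h, -⟩
    · linarith [ht.1]
    · linarith [ht.2]

end Fibre

end H905R2.KMap
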