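import Mathlib

/-!
# Parity of the number of preimages of a real function on an interval
-/

namespace H905R2.KMap

open Set

/-- The values of a real function at its local extrema form a countable set. -/
theorem countable_extr (g : ℝ → ℝ) : {c | ∃ t, g t = c ∧ IsLocalExtr g t}.Countable := by
  have h : {c | ∃ t, g t = c ∧ IsLocalExtr g t} ⊆
      range (fun p : ℚ × ℚ => sInf (g '' Ioo (p.1 : ℝ) p.2)) ∪
      range (fun p : ℚ × ℚ => sSup (g '' Ioo (p.1 : ℝ) p.2)) := by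
    rintro c ⟨t, rfl, ht⟩
    rcases ht with ht | ht
    · left
      obtain ⟨ε, hε, h⟩ := Metric.eventually_nhds_iff.1 ht
      obtain ⟨p, hp1, hp2⟩ := exists_rat_btwn (show t - ε < t by linarith)
      obtain ⟨q, hq1, hq2⟩ := exists_rat_btwn (show t < t + ε by linarith)
      refine ⟨(p, q), ?_⟩
      refine (IsLeast.csInf_eq ⟨⟨t, ⟨hp2, hq1⟩, rfl⟩, ?_⟩)
      rintro _ ⟨s, ⟨hs1, hs2⟩, rfl⟩
      refine h ?_
      rw [Real.dist_eq, abs_lt]
      simp only at hs1 hs2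
      constructor <;> linarith
    · right
      obtain ⟨ε, hε, h⟩ := Metric.eventually_nhds_iff.1 ht
      obtain ⟨p, hp1, hp2⟩ := exists_rat_btwn (show t - ε < t by linarith)
      obtain ⟨q, hq1, hq2⟩ := exists_rat_btwn (show t < t + ε by linarith)
      refine ⟨(p, q), ?_⟩
      refine (IsGreatest.csSup_eq ⟨⟨t, ⟨hp2, hq1⟩, rfl⟩, ?_⟩)
      rintro _ ⟨s, ⟨hs1, hs2⟩, rfl⟩
      refine h ?_
      rw [Real.dist_eq, abs_lt]
      simp only at hs1 hs2
      constructor <;> linarith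
  exact ((countable_range _).union (countable_range _)).mono h

theorem sign_const {g : ℝ → ℝ} (hg : Continuous g) {a b c : ℝ} (hab : a ≤ b)
    (h : ∀ t ∈ Ioo a b, g t ≠ c) (ha : g a ≠ c) (hb : g b ≠ c) : g a < c ↔ g b < c := by
  constructor
  · intro h1
    by_contra h2
    have h3 : c < g b := lt_of_le_of_ne (not_lt.1 h2) hb.symm
    obtain ⟨t, ht, rfl⟩ := intermediate_value_Ioo hab hg.continuousOn ⟨h1, h3⟩
    exact h t ht rfl
  · intro h1
    by_contra h2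
    have h3 : c < g a := lt_of_le_of_ne (not_lt.1 h2) ha.symm
    obtain ⟨t, ht, rfl⟩ := intermediate_value_Ioo' hab hg.continuousOn ⟨h1, h3⟩
    exact h t ht rfl

theorem sign_change {g : ℝ → ℝ} (hg : Continuous g) {a b c s : ℝ} (hs : s ∈ Ioo a b)
    (hgs : g s = c) (h : ∀ t ∈ Ioo a b, g t = c → t = s) (ha : g a ≠ c) (hb : g b ≠ c)
    (hc : ¬ IsLocalExtr g s) : ¬ (g a < c ↔ g b < c) := by
  have hne : ∀ t ∈ Ioo a b, t ≠ s → g t ≠ c := fun t ht hts hgt => hts (h t ht hgt)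
  have hl : ∀ t ∈ Ioo a s, (g a < c ↔ g t < c) := by
    intro t ht
    refine sign_const hg ht.1.le (fun t' ht' => ?_) ha ?_
    · exact hne t' ⟨ht'.1, by linarith [ht'.2, ht.2, hs.2]⟩ (by linarith [ht'.2, ht.2] : t' < s).ne
    · exact hne t ⟨ht.1, by linarith [ht.2, hs.2]⟩ ht.2.ne
  have hr : ∀ t ∈ Ioo s b, (g t < c ↔ g b < c) := by
    intro t ht
    refine sign_const hg ht.2.le (fun t' ht' => ?_) ?_ hb
    · exact hne t' ⟨by linarith [ht'.1, ht.1, hs.1], ht'.2⟩ (by linarith [ht'.1, ht.1] : s < t').ne'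
    · exact hne t ⟨by linarith [ht.1, hs.1], ht.2⟩ ht.1.ne'
  intro hiff
  apply hc
  have hnb : Ioo a b ∈ nhds s := Ioo_mem_nhds hs.1 hs.2
  by_cases h1 : g a < c
  · right
    have h2 := hiff.1 h1
    filter_upwards [hnb] with t ht
    rcases lt_trichotomy t s with h3 | h3 | h3
    · exact hgs ▸ ((hl t ⟨ht.1, h3⟩).1 h1).le
    · rw [h3]
    · exact hgs ▸ ((hr t ⟨h3, ht.2⟩).2 h2).le
  · left
    have h2 : ¬ g b < c := fun h3 => h1 (hiff.2 h3)
    filter_upwards [hnb] with t ht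
    rcases lt_trichotomy t s with h3 | h3 | h3
    · exact hgs ▸ not_lt.1 fun h4 => h1 ((hl t ⟨ht.1, h3⟩).2 h4)
    · rw [h3]
    · exact hgs ▸ not_lt.1 fun h4 => h2 ((hr t ⟨h3, ht.2⟩).1 h4)

/-- splitting the fibre over an interval -/
theorem split_ncard {X : Type*} {g : ℝ → X} {a b s : ℝ} {c : X} (hs : s ∈ Ioo a b)
    (hfin : {t ∈ Ioo a b | g t = c}.Finite) (hne : g s ≠ c) :
    {t ∈ Ioo a b | g t = c}.ncard = {t ∈ Ioo a s | g t = c}.ncard +
      {t ∈ Ioo s b | g t = c}.ncard := by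
  have h : {t ∈ Ioo a b | g t = c} = {t ∈ Ioo a s | g t = c} ∪ {t ∈ Ioo s b | g t = c} := by
    ext t
    constructor
    · rintro ⟨⟨h1, h2⟩, h3⟩
      rcases lt_trichotomy t s with h4 | h4 | h4
      · left; exact ⟨⟨h1, h4⟩, h3⟩
      · exact absurd (h4 ▸ h3) hne
      · right; exact ⟨⟨h4, h2⟩, h3⟩
    · rintro (⟨⟨h1, h2⟩, h3⟩ | ⟨⟨h1, h2⟩, h3⟩)
      · exact ⟨⟨h1, h2.trans hs.2⟩, h3⟩
      · exact ⟨⟨hs.1.trans h1, h2⟩, h3⟩
  rw [h] at hfin
  rw [h, ncard_union_eq _ (hfin.subset subset_union_left) (hfin.subset subset_union_right)]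
  rw [Set.disjoint_left]
  rintro t ⟨⟨h1, h2⟩, h3⟩ ⟨⟨h4, h5⟩, h6⟩
  linarith

/-- Parity of the number of preimages of a value that is not taken at a local extremum. -/
theorem parity {g : ℝ → ℝ} (hg : Continuous g) {c : ℝ} (hc : ∀ t, g t = c → ¬ IsLocalExtr g t) :
    ∀ (N : ℕ) (a b : ℝ), a < b → {t ∈ Ioo a b | g t = c}.Finite →
      {t ∈ Ioo a b | g t = c}.ncard = N → g a ≠ c → g b ≠ c → (Even N ↔ (g a < c ↔ g b < c)) := by
  intro N
  induction N using Nat.strong_induction_on with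
  | _ N ih =>
    intro a b hab hfin hN ha hb
    rcases Nat.lt_or_ge N 2 with h2 | h2
    · interval_cases N
      · have hemp := (ncard_eq_zero hfin).1 hN
        simp only [Even.zero, true_iff]
        refine sign_const hg hab.le (fun t ht hgt => ?_) ha hb
        have : t ∈ {t ∈ Ioo a b | g t = c} := ⟨ht, hgt⟩
        rw [hemp] at this
        exact this
      · obtain ⟨s, hs⟩ := ncard_eq_one.1 hN
        have hs' : s ∈ {t ∈ Ioo a b | g t = c} := by rw [hs]; rfl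
        have h1 : ¬ Even 1 := by decide
        simp only [h1, false_iff]
        refine sign_change hg hs'.1 hs'.2 (fun t ht hgt => ?_) ha hb (hc s hs'.2)
        have : t ∈ {t ∈ Ioo a b | g t = c} := ⟨ht, hgt⟩
        rw [hs] at this
        exact this
    · obtain ⟨s₁, h1, s₂, h3, hne⟩ := (one_lt_ncard hfin).1 (by omega)
      wlog hlt : s₁ < s₂ generalizing s₁ s₂
      · exact this s₂ h3 s₁ h1 hne.symm (lt_of_le_of_ne (not_lt.1 hlt) hne.symm)
      obtain ⟨s', hs'1, hs'2⟩ : ∃ s' ∈ Ioo s₁ s₂, s' ∉ {t ∈ Ioo a b | g t = c} := by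
        by_contra hcon
        push Not at hcon
        exact (Ioo_infinite hlt) (hfin.subset hcon)
      have hs'ab : s' ∈ Ioo a b := ⟨h1.1.1.trans hs'1.1, hs'1.2.trans h3.1.2⟩
      have hgs' : g s' ≠ c := fun h => hs'2 ⟨hs'ab, h⟩
      have hsplit := split_ncard hs'ab hfin hgs'
      have hfl : {t ∈ Ioo a s' | g t = c}.Finite :=
        hfin.subset fun t ht => ⟨⟨ht.1.1, ht.1.2.trans hs'ab.2⟩, ht.2⟩
      have hfr : {t ∈ Ioo s' b | g t = c}.Finite :=
        hfin.subset fun t ht => ⟨⟨hs'ab.1.trans ht.1.1, ht.1.2⟩, ht.2⟩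
      have hpl : 0 < {t ∈ Ioo a s' | g t = c}.ncard :=
        (ncard_pos hfl).2 ⟨s₁, ⟨h1.1.1, hs'1.1⟩, h1.2⟩
      have hpr : 0 < {t ∈ Ioo s' b | g t = c}.ncard :=
        (ncard_pos hfr).2 ⟨s₂, ⟨hs'1.2, h3.1.2⟩, h3.2⟩
      have e1 := ih _ (by omega) a s' hs'ab.1 hfl rfl ha hgs'
      have e2 := ih _ (by omega) s' b hs'ab.2 hfr rfl hgs' hb
      rw [← hN, hsplit, Nat.even_add, e1, e2]
      tauto

end H905R2.KMap
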