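import Mathlib
import Pool.Agent.H905R2.KMapBasic

/-!
# The infinite zigzag
-/

namespace H905R2.KMap

open Set Real

/-- triangle wave with `2ρ+1` laps on the unit interval -/
noncomputable def T (ρ : ℕ) (x : ℝ) : ℝ := arccos (cos (π * ((2 * ρ + 1) * x))) / π

theorem continuous_T (ρ : ℕ) : Continuous (T ρ) := by
  unfold T
  exact (continuous_arccos.comp (by fun_prop)).div_const _

theorem tri_even (j : ℤ) {δ : ℝ} (h0 : 0 ≤ δ) (h1 : δ ≤ 1) :
    arccos (cos (π * (2 * j + δ))) / π = δ := by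
  have : π * (2 * j + δ) = π * δ + j * (2 * π) := by ring
  rw [this, cos_add_int_mul_two_pi, arccos_cos (by positivity) (by nlinarith [pi_pos])]
  field_simp

theorem tri_odd (j : ℤ) {δ : ℝ} (h0 : 0 ≤ δ) (h1 : δ ≤ 1) :
    arccos (cos (π * (2 * j + 1 + δ))) / π = 1 - δ := by
  have : π * (2 * j + 1 + δ) = -(π * (1 - δ)) + ((j + 1 : ℤ) : ℝ) * (2 * π) := by
    push_cast; ring
  rw [this, cos_add_int_mul_two_pi, cos_neg,
    arccos_cos (mul_nonneg pi_pos.le (by linarith)) (by nlinarith [pi_pos])]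
  field_simp

/-- The values of the function `W`. -/
theorem T_eq (ρ : ℕ) (i : ℕ) {δ : ℝ} (h0 : 0 ≤ δ) (h1 : δ ≤ 1) :
    T ρ ((i + δ) / (2 * ρ + 1)) = if Even i then δ else 1 - δ := by
  have hρ : (2 * (ρ : ℝ) + 1) ≠ 0 := by positivity
  unfold T
  rw [mul_div_cancel₀ _ hρ]
  split_ifs with h
  · obtain ⟨j, rfl⟩ := h
    have := tri_even j h0 h1
    push_cast at this ⊢
    rw [show (j : ℝ) + j + δ = 2 * j + δ by ring]
    exact this
  · obtain ⟨j, rfl⟩ := Nat.not_even_iff_odd.1 h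
    have := tri_odd j h0 h1
    push_cast at this ⊢
    exact this

theorem T_nonneg (ρ : ℕ) (x : ℝ) : 0 ≤ T ρ x := div_nonneg (arccos_nonneg _) pi_pos.le

theorem T_le_one (ρ : ℕ) (x : ℝ) : T ρ x ≤ 1 := by
  unfold T
  rw [div_le_one pi_pos]
  exact arccos_le_pi _

/-- `W ρ` maps `[m, m+1]` to itself for every integer `m`, in `2ρ+1` laps. -/
noncomputable def W (ρ : ℕ) (s : ℝ) : ℝ := ⌊s⌋ + T ρ (Int.fract s)

theorem continuous_W (ρ : ℕ) : Continuous (W ρ) := by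
  have h : W ρ = fun s => s + ((fun x => T ρ x - x) ∘ Int.fract) s := by
    funext s
    simp only [W, Function.comp_apply]
    have := Int.floor_add_fract s
    linarith
  rw [h]
  refine continuous_id.add (ContinuousOn.comp_fract'' ?_ ?_)
  · exact ((continuous_T ρ).sub continuous_id).continuousOn
  · have h0 := T_eq ρ 0 (δ := 0) le_rfl zero_le_one
    have h1 := T_eq ρ (2 * ρ) (δ := 1) zero_le_one le_rfl
    have hρ : (2 * (ρ : ℝ) + 1) ≠ 0 := by positivity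
    simp only [Nat.cast_zero, zero_add, zero_div, Even.zero, if_true] at h0
    rw [if_pos (even_two_mul ρ)] at h1
    push_cast at h1
    rw [div_self hρ] at h1
    show T ρ 0 - 0 = T ρ 1 - 1
    rw [h0, h1]; norm_num

theorem W_eq (ρ : ℕ) (N : ℤ) {i : ℕ} (hi : i < 2 * ρ + 1) {δ : ℝ} (h0 : 0 ≤ δ) (h1 : δ < 1) :
    ⌊(N : ℝ) + (i + δ) / (2 * ρ + 1)⌋ = N ∧
    ⌊(2 * ρ + 1) * Int.fract ((N : ℝ) + (i + δ) / (2 * ρ + 1))⌋ = i ∧
    W ρ (N + (i + δ) / (2 * ρ + 1)) = N + if Even i then δ else 1 - δ := by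
  have hρ : (0 : ℝ) < 2 * (ρ : ℝ) + 1 := by positivity
  have hi' : (i : ℝ) ≤ 2 * ρ := by exact_mod_cast Nat.lt_succ_iff.1 hi
  have hx0 : 0 ≤ (i + δ) / (2 * (ρ : ℝ) + 1) := by positivity
  have hx1 : (i + δ) / (2 * (ρ : ℝ) + 1) < 1 := by
    rw [div_lt_one hρ]; linarith
  have hfl : ⌊(N : ℝ) + (i + δ) / (2 * ρ + 1)⌋ = N := by
    rw [Int.floor_eq_iff]
    constructor <;> linarith
  have hfr : Int.fract ((N : ℝ) + (i + δ) / (2 * ρ + 1)) = (i + δ) / (2 * ρ + 1) := by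
    rw [Int.fract, hfl]; ring
  refine ⟨hfl, ?_, ?_⟩
  · rw [hfr, mul_div_cancel₀ _ hρ.ne', Int.floor_eq_iff]
    push_cast
    constructor <;> linarith
  · rw [W, hfl, hfr, T_eq ρ i h0 h1.le]

/-- Every real number has the form considered in `W_eq`. -/
theorem W_form (ρ : ℕ) (s : ℝ) : ∃ (N : ℤ) (i : ℕ) (δ : ℝ), i < 2 * ρ + 1 ∧ 0 ≤ δ ∧ δ < 1 ∧
    s = N + (i + δ) / (2 * ρ + 1) := by
  have hρ : (0 : ℝ) < 2 * (ρ : ℝ) + 1 := by positivity
  set x := (2 * (ρ : ℝ) + 1) * Int.fract s with hx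
  have hx0 : 0 ≤ x := mul_nonneg hρ.le (Int.fract_nonneg s)
  have hx1 : x < 2 * ρ + 1 := by
    have := Int.fract_lt_one s
    rw [hx]
    nlinarith
  refine ⟨⌊s⌋, ⌊x⌋₊, x - ⌊x⌋₊, ?_, ?_, ?_, ?_⟩
  · rw [Nat.floor_lt hx0]
    push_cast
    exact hx1
  · linarith [Nat.floor_le hx0]
  · linarith [Nat.lt_floor_add_one x]
  · rw [show (⌊x⌋₊ : ℝ) + (x - ⌊x⌋₊) = x by ring, hx, mul_div_cancel_left₀ _ hρ.ne']
    exact (Int.floor_add_fract s).symm

/-- the solutions of `W ρ s = w` -/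
noncomputable def sol (ρ : ℕ) (w : ℝ) (i : ℕ) : ℝ :=
  if Even i then ⌊w⌋ + (i + Int.fract w) / (2 * ρ + 1)
  else ((⌈w⌉ - 1 : ℤ) : ℝ) + (i + (⌈w⌉ - w)) / (2 * ρ + 1)

theorem sol_index {ρ : ℕ} {w : ℝ} {i : ℕ} (hi : i < 2 * ρ + 1) :
    ⌊(2 * ρ + 1) * Int.fract (sol ρ w i)⌋ = i ∧ W ρ (sol ρ w i) = w := by
  unfold sol
  split_ifs with h
  · have := W_eq ρ ⌊w⌋ hi (Int.fract_nonneg w) (Int.fract_lt_one w)
    refine ⟨this.2.1, ?_⟩
    rw [this.2.2, if_pos h, Int.floor_add_fract]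
  · have := W_eq ρ (⌈w⌉ - 1) hi (δ := ⌈w⌉ - w) (by linarith [Int.le_ceil w])
      (by linarith [Int.ceil_lt_add_one w])
    refine ⟨this.2.1, ?_⟩
    rw [this.2.2, if_neg h]
    push_cast
    ring

theorem sol_surj {ρ : ℕ} {w s : ℝ} (h : W ρ s = w) : ∃ i < 2 * ρ + 1, s = sol ρ w i := by
  obtain ⟨N, i, δ, hi, h0, h1, rfl⟩ := W_form ρ s
  refine ⟨i, hi, ?_⟩
  rw [(W_eq ρ N hi h0 h1).2.2] at h
  unfold sol
  split_ifs at h ⊢ with he
  · have : ⌊w⌋ = N := by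
      rw [Int.floor_eq_iff]; constructor <;> linarith
    rw [Int.fract, this, ← h]; ring
  · have : ⌈w⌉ = N + 1 := by
      rw [Int.ceil_eq_iff]; push_cast; constructor <;> linarith
    rw [this, ← h]; push_cast; ring

theorem sol_injOn (ρ : ℕ) (w : ℝ) : InjOn (sol ρ w) {i | i < 2 * ρ + 1} := by
  intro i hi j hj hij
  have h1 := (sol_index (w := w) hi).1
  have h2 := (sol_index (w := w) hj).1
  rw [hij, h2] at h1
  exact_mod_cast h1.symm

theorem sol_gt {ρ : ℕ} {w : ℝ} (hw : 1 < w) {i : ℕ} : 1 < sol ρ w i := by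
  have hρ : (0 : ℝ) < 2 * (ρ : ℝ) + 1 := by positivity
  unfold sol
  split_ifs with h
  · have h1 : (1 : ℤ) ≤ ⌊w⌋ := by rw [Int.le_floor]; exact_mod_cast hw.le
    have h1' : (1 : ℝ) ≤ ⌊w⌋ := by exact_mod_cast h1
    rcases eq_or_lt_of_le h1' with h2 | h2
    · have h3 : 0 < Int.fract w := by rw [Int.fract, ← h2]; linarith
      have : 0 < (i + Int.fract w) / (2 * (ρ : ℝ) + 1) := by positivity
      linarith
    · have h3 := Int.fract_nonneg w
      have : 0 ≤ (i + Int.fract w) / (2 * (ρ : ℝ) + 1) := by positivity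
      linarith
  · have h1 : (2 : ℤ) ≤ ⌈w⌉ := by
      have : (1 : ℤ) < ⌈w⌉ := by rw [Int.lt_ceil]; exact_mod_cast hw
      omega
    have h1' : (1 : ℝ) ≤ ((⌈w⌉ - 1 : ℤ) : ℝ) := by exact_mod_cast (by omega : (1 : ℤ) ≤ ⌈w⌉ - 1)
    have hi : 1 ≤ i := by
      rcases Nat.eq_zero_or_pos i with rfl | h'
      · exact absurd Even.zero h
      · exact h'
    have hi' : (1 : ℝ) ≤ i := by exact_mod_cast hi
    have h3 : 0 ≤ ⌈w⌉ - w := by linarith [Int.le_ceil w]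
    have : 0 < (i + (⌈w⌉ - w)) / (2 * (ρ : ℝ) + 1) := by
      apply div_pos _ hρ; linarith
    linarith

theorem count_W {ρ : ℕ} {w : ℝ} (hw : 1 < w) :
    {s ∈ Ioi (1 : ℝ) | W ρ s = w}.encard = (2 * ρ + 1 : ℕ) := by
  have : {s ∈ Ioi (1 : ℝ) | W ρ s = w} = sol ρ w '' (Finset.range (2 * ρ + 1) : Set ℕ) := by
    ext s
    constructor
    · rintro ⟨-, h⟩
      obtain ⟨i, hi, rfl⟩ := sol_surj h
      exact ⟨i, by simpa using hi, rfl⟩
    · rintro ⟨i, hi, rfl⟩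
      exact ⟨sol_gt hw, (sol_index (by simpa using hi)).2⟩
  rw [this, InjOn.encard_image, Set.encard_coe_eq_coe_finsetCard, Finset.card_range]
  intro i hi j hj
  exact sol_injOn ρ w (by simpa using hi) (by simpa using hj)

theorem count_W_one (ρ : ℕ) : {s ∈ Ioi (1 : ℝ) | W ρ s = 1}.encard = (ρ : ℕ) := by
  have hρ : (0 : ℝ) < 2 * (ρ : ℝ) + 1 := by positivity
  have : {s ∈ Ioi (1 : ℝ) | W ρ s = 1} =
      (fun j : ℕ => sol ρ 1 (2 * (j + 1))) '' (Finset.range ρ : Set ℕ) := by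
    ext s
    constructor
    · rintro ⟨hs, h⟩
      obtain ⟨i, hi, rfl⟩ := sol_surj h
      rw [mem_Ioi] at hs
      have hie : Even i := by
        by_contra hne
        rw [sol, if_neg hne] at hs
        simp only [Int.ceil_one, sub_self, Int.cast_zero, zero_add, Int.cast_one, add_zero] at hs
        rw [lt_div_iff₀ hρ] at hs
        have : (i : ℝ) ≤ 2 * ρ := by exact_mod_cast Nat.lt_succ_iff.1 hi
        linarith
      obtain ⟨j, rfl⟩ := hie
      rcases Nat.eq_zero_or_pos j with rfl | hj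
      · rw [sol, if_pos (by simp)] at hs
        simp at hs
      · refine ⟨j - 1, ?_, ?_⟩
        · simp; omega
        · show sol ρ 1 (2 * (j - 1 + 1)) = _
          congr 1; omega
    · rintro ⟨j, hj, rfl⟩
      have hj' : j < ρ := by simpa using hj
      refine ⟨?_, (sol_index (by omega)).2⟩
      show 1 < sol ρ 1 (2 * (j + 1))
      rw [sol, if_pos (even_two_mul _)]
      simp only [Int.floor_one, Int.cast_one, Int.fract_one, add_zero]
      have : 0 < ((2 * (j + 1) : ℕ) : ℝ) / (2 * ρ + 1) := by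
        apply div_pos _ hρ; push_cast; positivity
      linarith
  rw [this, InjOn.encard_image, Set.encard_coe_eq_coe_finsetCard, Finset.card_range]
  intro i hi j hj hij
  have hi' : i < ρ := by simpa using hi
  have hj' : j < ρ := by simpa using hj
  have := sol_injOn ρ 1 (by show 2 * (i + 1) < _; omega) (by show 2 * (j + 1) < _; omega) hij
  omega

theorem W_ge {ρ : ℕ} {s : ℝ} : s - 1 ≤ W ρ s := by
  have h1 := T_nonneg ρ (Int.fract s)
  have h2 := Int.lt_floor_add_one s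
  rw [W]; linarith

theorem W_ge_one {ρ : ℕ} {s : ℝ} (hs : 1 ≤ s) : 1 ≤ W ρ s := by
  have h1 := T_nonneg ρ (Int.fract s)
  have h2 : (1 : ℤ) ≤ ⌊s⌋ := by rw [Int.le_floor]; exact_mod_cast hs
  have h3 : (1 : ℝ) ≤ ⌊s⌋ := by exact_mod_cast h2
  rw [W]; linarith

theorem W_one (ρ : ℕ) : W ρ 1 = 1 := by
  have := T_eq ρ 0 (δ := 0) le_rfl zero_le_one
  simp at this
  simp [W, this]

/-- The infinite zigzag: half of `1 / W (1 / t)`. -/
noncomputable def Z (ρ : ℕ) (t : ℝ) : ℝ := (W ρ (max t 0)⁻¹)⁻¹ / 2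

theorem Z_zero (ρ : ℕ) : Z ρ 0 = 0 := by
  have := T_eq ρ 0 (δ := 0) le_rfl zero_le_one
  simp at this
  simp [Z, W, this]

theorem Z_one (ρ : ℕ) : Z ρ 1 = 1 / 2 := by
  simp [Z, W_one]

theorem Z_mem {ρ : ℕ} {t : ℝ} (h0 : 0 < t) (h1 : t ≤ 1) : 0 < Z ρ t ∧ Z ρ t ≤ 1 / 2 := by
  have hm : max t 0 = t := max_eq_left h0.le
  have h2 : 1 ≤ W ρ t⁻¹ := W_ge_one ((one_le_inv₀ h0).2 h1)
  rw [Z, hm]
  constructor
  · positivity
  · have : (W ρ t⁻¹)⁻¹ ≤ 1 := inv_le_one_of_one_le₀ h2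
    linarith

theorem Z_mem' {ρ : ℕ} {t : ℝ} (h0 : 0 ≤ t) (h1 : t ≤ 1) : 0 ≤ Z ρ t ∧ Z ρ t ≤ 1 / 2 := by
  rcases eq_or_lt_of_le h0 with rfl | h
  · rw [Z_zero]; norm_num
  · exact ⟨(Z_mem h h1).1.le, (Z_mem h h1).2⟩

theorem continuousOn_Z (ρ : ℕ) : ContinuousOn (Z ρ) (Icc 0 1) := by
  intro t ht
  rcases eq_or_lt_of_le ht.1 with rfl | h
  · -- continuity at `0`
    refine ContinuousAt.continuousWithinAt ?_
    rw [Metric.continuousAt_iff]
    intro ε hε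
    refine ⟨min (1 / 2) ε, by positivity, fun {x} hx => ?_⟩
    rw [Real.dist_eq, sub_zero] at hx
    rw [Z_zero, Real.dist_eq, sub_zero]
    rcases le_or_gt x 0 with hx0 | hx0
    · have : Z ρ x = 0 := by
        have h1 : max x 0 = 0 := max_eq_right hx0
        have h2 := Z_zero ρ
        rw [Z, max_self] at h2
        rw [Z, h1, h2]
      rw [this]; simpa using hε
    · rw [abs_of_pos hx0] at hx
      have hx1 : x < 1 / 2 := lt_of_lt_of_le hx (min_le_left _ _)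
      have hx2 : x < ε := lt_of_lt_of_le hx (min_le_right _ _)
      have hz := Z_mem (ρ := ρ) hx0 (by linarith)
      rw [abs_of_pos hz.1]
      refine lt_of_le_of_lt ?_ hx2
      rw [Z, max_eq_left hx0.le]
      have h1 : x⁻¹ - 1 ≤ W ρ x⁻¹ := W_ge
      have h2 : x⁻¹ / 2 ≤ x⁻¹ - 1 := by
        have : 2 ≤ x⁻¹ := by
          rw [le_inv_comm₀ (by norm_num) hx0]; linarith
        linarith
      have h3 : 0 < x⁻¹ / 2 := by positivity
      have h4 : (W ρ x⁻¹)⁻¹ ≤ (x⁻¹ / 2)⁻¹ := inv_anti₀ h3 (h2.trans h1)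
      have h5 : (x⁻¹ / 2)⁻¹ = 2 * x := by field_simp
      linarith
  · refine ContinuousAt.continuousWithinAt ?_
    have h2 : 1 ≤ W ρ t⁻¹ := W_ge_one ((one_le_inv₀ h).2 ht.2)
    have hm : max t 0 = t := max_eq_left h.le
    unfold Z
    refine ContinuousAt.div_const (ContinuousAt.inv₀ ?_ ?_) _
    · refine (continuous_W ρ).continuousAt.comp ?_
      refine ContinuousAt.inv₀ (by fun_prop) ?_
      rw [hm]; exact h.ne'
    · rw [hm]; linarith

/-- Count for the zigzag. -/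
theorem cnt_Z {ρ : ℕ} {c : ℝ} (h0 : 0 < c) (h1 : c < 1 / 2) : cnt (Z ρ) c = (2 * ρ + 1 : ℕ) := by
  have hw : 1 < (2 * c)⁻¹ := (one_lt_inv₀ (by linarith)).2 (by linarith)
  rw [← count_W hw, cnt]
  have : {t ∈ Ioo (0 : ℝ) 1 | Z ρ t = c} =
      (fun s : ℝ => s⁻¹) '' {s ∈ Ioi (1 : ℝ) | W ρ s = (2 * c)⁻¹} := by
    ext t
    constructor
    · rintro ⟨⟨ht0, ht1⟩, h⟩
      refine ⟨t⁻¹, ⟨(one_lt_inv₀ ht0).2 ht1, ?_⟩, inv_inv t⟩
      rw [Z, max_eq_left ht0.le] at h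
      rw [← h]
      field_simp
    · rintro ⟨s, ⟨hs, h⟩, rfl⟩
      rw [mem_Ioi] at hs
      have hs0 : 0 < s := by linarith
      refine ⟨⟨inv_pos.2 hs0, inv_lt_one_of_one_lt₀ hs⟩, ?_⟩
      show Z ρ s⁻¹ = c
      rw [Z, max_eq_left (inv_pos.2 hs0).le, inv_inv, h]
      field_simp
  rw [this]
  exact inv_injective.encard_image _

theorem cnt_Z_half (ρ : ℕ) : cnt (Z ρ) (1 / 2) = (ρ : ℕ) := by
  rw [← count_W_one ρ, cnt]
  have : {t ∈ Ioo (0 : ℝ) 1 | Z ρ t = 1 / 2} =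
      (fun s : ℝ => s⁻¹) '' {s ∈ Ioi (1 : ℝ) | W ρ s = 1} := by
    ext t
    constructor
    · rintro ⟨⟨ht0, ht1⟩, h⟩
      refine ⟨t⁻¹, ⟨(one_lt_inv₀ ht0).2 ht1, ?_⟩, inv_inv t⟩
      rw [Z, max_eq_left ht0.le] at h
      have : (W ρ t⁻¹)⁻¹ = 1 := by linarith
      exact inv_eq_one.1 this
    · rintro ⟨s, ⟨hs, h⟩, rfl⟩
      rw [mem_Ioi] at hs
      have hs0 : 0 < s := by linarith
      refine ⟨⟨inv_pos.2 hs0, inv_lt_one_of_one_lt₀ hs⟩, ?_⟩
      show Z ρ s⁻¹ = 1 / 2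
      rw [Z, max_eq_left (inv_pos.2 hs0).le, inv_inv, h]
      norm_num
  rw [this]
  exact inv_injective.encard_image _

end H905R2.KMap
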