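import Mathlib
import Pool.Agent.H905R2.KMapZigzag

/-!
# Paths with prescribed numbers of preimages
-/

namespace H905R2.KMap

open Set

section Conc

variable {X : Type*}

/-- concatenation of two paths -/
noncomputable def conc (γ γ' : ℝ → X) : ℝ → X :=
  fun t => if t ≤ 1 / 2 then γ (2 * t) else γ' (2 * t - 1)

/-- reversed path -/
def rev (γ : ℝ → X) : ℝ → X := fun t => γ (1 - t)

theorem conc_zero (γ γ' : ℝ → X) : conc γ γ' 0 = γ 0 := by
  simp [conc]

theorem conc_one (γ γ' : ℝ → X) : conc γ γ' 1 = γ' 1 := by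
  simp only [conc]
  norm_num

theorem rev_zero (γ : ℝ → X) : rev γ 0 = γ 1 := by simp [rev]

theorem rev_one (γ : ℝ → X) : rev γ 1 = γ 0 := by simp [rev]

theorem continuous_conc [TopologicalSpace X] {γ γ' : ℝ → X} (h : Continuous γ)
    (h' : Continuous γ') (e : γ 1 = γ' 0) : Continuous (conc γ γ') := by
  unfold conc
  refine Continuous.if_le (h.comp (by fun_prop)) (h'.comp (by fun_prop)) continuous_id
    continuous_const ?_
  intro t ht
  change t = 1 / 2 at ht
  subst ht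
  norm_num
  exact e

theorem continuous_rev [TopologicalSpace X] {γ : ℝ → X} (h : Continuous γ) :
    Continuous (rev γ) := h.comp (by fun_prop)

theorem conc_mem {γ γ' : ℝ → X} {B : Set X} (h : ∀ t ∈ Icc (0 : ℝ) 1, γ t ∈ B)
    (h' : ∀ t ∈ Icc (0 : ℝ) 1, γ' t ∈ B) : ∀ t ∈ Icc (0 : ℝ) 1, conc γ γ' t ∈ B := by
  intro t ht
  unfold conc
  split_ifs with h1
  · exact h _ ⟨by linarith [ht.1], by linarith⟩
  · exact h' _ ⟨by linarith [ht.1], by linarith [ht.2]⟩

theorem rev_mem {γ : ℝ → X} {B : Set X} (h : ∀ t ∈ Icc (0 : ℝ) 1, γ t ∈ B) :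
    ∀ t ∈ Icc (0 : ℝ) 1, rev γ t ∈ B :=
  fun t ht => h _ ⟨by linarith [ht.2], by linarith [ht.1]⟩

open Classical in
theorem cnt_conc {γ γ' : ℝ → X} (e : γ 1 = γ' 0) (x : X) :
    cnt (conc γ γ') x = cnt γ x + cnt γ' x + if γ 1 = x then 1 else 0 := by
  have hset : {t ∈ Ioo (0 : ℝ) 1 | conc γ γ' t = x} =
      ((fun t : ℝ => t / 2) '' {t ∈ Ioo (0 : ℝ) 1 | γ t = x} ∪
        (fun t : ℝ => (t + 1) / 2) '' {t ∈ Ioo (0 : ℝ) 1 | γ' t = x}) ∪
        (if γ 1 = x then {1 / 2} else ∅) := by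
    ext t
    simp only [mem_union, mem_image]
    constructor
    · rintro ⟨⟨h0, h1⟩, h⟩
      rcases lt_trichotomy t (1 / 2) with hl | he | hg
      · left; left
        refine ⟨2 * t, ⟨⟨by linarith, by linarith⟩, ?_⟩, by ring⟩
        rw [conc, if_pos hl.le] at h
        exact h
      · right
        subst he
        rw [conc, if_pos le_rfl] at h
        norm_num at h
        rw [if_pos h]
        rfl
      · left; right
        refine ⟨2 * t - 1, ⟨⟨by linarith, by linarith⟩, ?_⟩, by ring⟩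
        rw [conc, if_neg (not_le.2 hg)] at h
        exact h
    · rintro ((⟨s, ⟨⟨h0, h1⟩, h⟩, rfl⟩ | ⟨s, ⟨⟨h0, h1⟩, h⟩, rfl⟩) | h)
      · refine ⟨⟨by linarith, by linarith⟩, ?_⟩
        rw [conc, if_pos (by linarith), mul_div_cancel₀ s two_ne_zero]
        exact h
      · refine ⟨⟨by linarith, by linarith⟩, ?_⟩
        rw [conc, if_neg (by linarith), mul_div_cancel₀ (s + 1) two_ne_zero, add_sub_cancel_right]
        exact h
      · split_ifs at h with hx
        · rw [mem_singleton_iff] at h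
          subst h
          refine ⟨⟨by norm_num, by norm_num⟩, ?_⟩
          rw [conc, if_pos le_rfl]
          norm_num
          exact hx
        · exact absurd h (notMem_empty _)
  rw [cnt, hset, encard_union_eq, encard_union_eq]
  · congr 1
    · congr 1
      · exact Function.Injective.encard_image (fun a b hab => by
          change a / 2 = b / 2 at hab; linarith) _
      · exact Function.Injective.encard_image (fun a b hab => by
          change (a + 1) / 2 = (b + 1) / 2 at hab; linarith) _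
    · split_ifs <;> simp
  · rw [Set.disjoint_left]
    rintro t ⟨s, ⟨⟨h0, h1⟩, h⟩, rfl⟩ ⟨s', ⟨⟨h0', h1'⟩, h'⟩, he⟩
    simp only at he
    linarith
  · rw [Set.disjoint_left]
    rintro t ht ht'
    split_ifs at ht' with hx
    · rw [mem_singleton_iff] at ht'
      subst ht'
      rcases ht with ⟨s', ⟨⟨h0', h1'⟩, h'⟩, he⟩ | ⟨s', ⟨⟨h0', h1'⟩, h'⟩, he⟩
      · simp only at he
        linarith
      · simp only at he
        linarith
    · exact absurd ht' (notMem_empty _)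

theorem cnt_rev (γ : ℝ → X) (x : X) : cnt (rev γ) x = cnt γ x := by
  have : {t ∈ Ioo (0 : ℝ) 1 | rev γ t = x} = (fun t : ℝ => 1 - t) '' {t ∈ Ioo (0 : ℝ) 1 | γ t = x} := by
    ext t
    constructor
    · rintro ⟨⟨h0, h1⟩, h⟩
      exact ⟨1 - t, ⟨⟨by linarith, by linarith⟩, h⟩, by ring⟩
    · rintro ⟨s, ⟨⟨h0, h1⟩, h⟩, rfl⟩
      refine ⟨⟨by linarith, by linarith⟩, ?_⟩
      simp only [rev, sub_sub_cancel]
      exact h
  rw [cnt, this]
  exact Function.Injective.encard_image (fun a b hab => by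
    change 1 - a = 1 - b at hab; linarith) _

theorem cnt_eq_zero {γ : ℝ → X} {x : X} (h : ∀ t ∈ Ioo (0 : ℝ) 1, γ t ≠ x) : cnt γ x = 0 := by
  rw [cnt, encard_eq_zero]
  ext t
  simp only [mem_empty_iff_false, iff_false]
  rintro ⟨ht, h'⟩
  exact h t ht h'

theorem cnt_congr {X Y : Type*} {γ : ℝ → X} {γ' : ℝ → Y} {x : X} {y : Y}
    (h : ∀ t ∈ Ioo (0 : ℝ) 1, γ t = x ↔ γ' t = y) : cnt γ x = cnt γ' y := by
  unfold cnt
  congr 1
  ext t
  constructor
  · rintro ⟨ht, h'⟩; exact ⟨ht, (h t ht).1 h'⟩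
  · rintro ⟨ht, h'⟩; exact ⟨ht, (h t ht).2 h'⟩

end Conc

section Legs

variable {U : Type*}

/-- half-edge with infinite zigzag at the vertex `y` -/
noncomputable def leg (y z : U) (ρ : ℕ) : ℝ → (U → ℝ) := fun t => pt y z (Z ρ (max 0 (min 1 t)))

theorem clamp_eq {t : ℝ} (h0 : 0 ≤ t) (h1 : t ≤ 1) : max 0 (min 1 t) = t := by
  rw [min_eq_right h1, max_eq_right h0]

theorem leg_zero (y z : U) (ρ : ℕ) : leg y z ρ 0 = ev y := by
  rw [leg, clamp_eq le_rfl zero_le_one, Z_zero, pt_zero]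

theorem leg_one (y z : U) (ρ : ℕ) : leg y z ρ 1 = pt y z (1 / 2) := by
  rw [leg, clamp_eq zero_le_one le_rfl, Z_one]

theorem continuous_leg (y z : U) (ρ : ℕ) : Continuous (leg y z ρ) := by
  refine (continuous_pt y z).comp ?_
  refine (continuousOn_Z ρ).comp_continuous (by fun_prop) fun t => ⟨le_max_left _ _, ?_⟩
  exact max_le zero_le_one (min_le_left _ _)

theorem leg_mem {K : SimpleGraph U} {y z : U} (h : K.Adj y z) (ρ : ℕ) :
    ∀ t ∈ Icc (0 : ℝ) 1, leg y z ρ t ∈ Body K := by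
  intro t ht
  rw [leg, clamp_eq ht.1 ht.2]
  have := Z_mem' (ρ := ρ) ht.1 ht.2
  exact pt_mem_Body h ⟨this.1, by linarith [this.2]⟩

theorem cnt_leg_ev {y z : U} (h : y ≠ z) (ρ : ℕ) (u : U) : cnt (leg y z ρ) (ev u) = 0 := by
  refine cnt_eq_zero fun t ht => ?_
  rw [leg, clamp_eq ht.1.le ht.2.le, Ne, pt_eq_ev h]
  have := Z_mem (ρ := ρ) ht.1 ht.2.le
  rintro (⟨h0, -⟩ | ⟨h0, -⟩) <;> linarith [this.1, this.2]

open Classical in
theorem cnt_leg_low {y z y' z' : U} (h : y ≠ z) (h' : y' ≠ z') (ρ : ℕ) {c : ℝ}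
    (hc : c ∈ Ioo (0 : ℝ) (1 / 2)) :
    cnt (leg y z ρ) (pt y' z' c) = ((if y = y' ∧ z = z' then 2 * ρ + 1 else 0 : ℕ) : ℕ∞) := by
  have hc' : c ∈ Ioo (0 : ℝ) 1 := ⟨hc.1, by linarith [hc.2]⟩
  split_ifs with he
  · obtain ⟨rfl, rfl⟩ := he
    rw [← cnt_Z hc.1 hc.2]
    refine cnt_congr fun t ht => ?_
    rw [leg, clamp_eq ht.1.le ht.2.le, pt_eq_pt h h' hc']
    constructor
    · rintro (⟨-, -, h1⟩ | ⟨h1, -, -⟩)
      · exact h1
      · exact absurd h1 h
    · exact fun h1 => Or.inl ⟨rfl, rfl, h1⟩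
  · rw [Nat.cast_zero]
    refine cnt_eq_zero fun t ht => ?_
    rw [leg, clamp_eq ht.1.le ht.2.le, Ne, pt_eq_pt h h' hc']
    have := Z_mem (ρ := ρ) ht.1 ht.2.le
    rintro (⟨h1, h2, -⟩ | ⟨-, -, h1⟩)
    · exact he ⟨h1, h2⟩
    · linarith [this.2, hc.2]

theorem half_mem : (1 / 2 : ℝ) ∈ Ioo (0 : ℝ) 1 := ⟨by norm_num, by norm_num⟩

theorem half_eq {y z y' z' : U} (h : y ≠ z) (h' : y' ≠ z') :
    pt y z (1 / 2) = pt y' z' (1 / 2) ↔ (y = y' ∧ z = z') ∨ (z = y' ∧ y = z') := by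
  rw [pt_eq_pt h h' half_mem]
  constructor
  · rintro (⟨h1, h2, -⟩ | ⟨h1, h2, -⟩)
    · exact Or.inl ⟨h1, h2⟩
    · exact Or.inr ⟨h2, h1⟩
  · rintro (⟨h1, h2⟩ | ⟨h1, h2⟩)
    · exact Or.inl ⟨h1, h2, rfl⟩
    · exact Or.inr ⟨h2, h1, by norm_num⟩

open Classical in
theorem cnt_leg_half {y z y' z' : U} (h : y ≠ z) (h' : y' ≠ z') (ρ : ℕ) :
    cnt (leg y z ρ) (pt y' z' (1 / 2)) =
      ((if (y = y' ∧ z = z') ∨ (z = y' ∧ y = z') then ρ else 0 : ℕ) : ℕ∞) := by
  split_ifs with he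
  · rw [← cnt_Z_half ρ]
    refine cnt_congr fun t ht => ?_
    rw [leg, clamp_eq ht.1.le ht.2.le, pt_eq_pt h h' half_mem]
    constructor
    · rintro (⟨-, -, h1⟩ | ⟨-, -, h1⟩)
      · exact h1
      · rw [h1]; norm_num
    · intro h1
      rcases he with ⟨h2, h3⟩ | ⟨h2, h3⟩
      · exact Or.inl ⟨h2, h3, h1⟩
      · exact Or.inr ⟨h3, h2, by rw [h1]; norm_num⟩
  · rw [Nat.cast_zero]
    refine cnt_eq_zero fun t ht => ?_
    rw [leg, clamp_eq ht.1.le ht.2.le, Ne, pt_eq_pt h h' half_mem]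
    rintro (⟨h1, h2, -⟩ | ⟨h1, h2, -⟩)
    · exact he (Or.inl ⟨h1, h2⟩)
    · exact he (Or.inr ⟨h2, h1⟩)

end Legs

section Prof

variable {U : Type*}

/-- A path in the body of `K` with prescribed numbers of preimages. -/
structure Prof (K : SimpleGraph U) (γ : ℝ → (U → ℝ)) (a b : U) (vs : U → ℕ) (A : U → U → ℕ) :
    Prop where
  cont : Continuous γ
  mem : ∀ t ∈ Icc (0 : ℝ) 1, γ t ∈ Body K
  zero : γ 0 = ev a
  one : γ 1 = ev b
  vert : ∀ u, cnt γ (ev u) = vs u
  low : ∀ y z, y ≠ z → ∀ c ∈ Ioo (0 : ℝ) (1 / 2), cnt γ (pt y z c) = A y z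
  half : ∀ y z, y ≠ z → 2 * cnt γ (pt y z (1 / 2)) = A y z + A z y

theorem pt_ne_ev {y z u : U} (h : y ≠ z) {c : ℝ} (hc : c ∈ Ioo (0 : ℝ) 1) : ev u ≠ pt y z c := by
  intro he
  rcases (pt_eq_ev h c).1 he.symm with ⟨h0, -⟩ | ⟨h0, -⟩
  · linarith [hc.1]
  · linarith [hc.2]

open Classical in
theorem Prof.conc {K : SimpleGraph U} {γ γ' : ℝ → (U → ℝ)} {a b c : U} {vs vs' : U → ℕ}
    {A A' : U → U → ℕ} (h : Prof K γ a b vs A) (h' : Prof K γ' b c vs' A') :
    Prof K (conc γ γ') a c (fun u => vs u + vs' u + if b = u then 1 else 0)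
      (fun y z => A y z + A' y z) where
  cont := continuous_conc h.cont h'.cont (by rw [h.one, h'.zero])
  mem := conc_mem h.mem h'.mem
  zero := by rw [conc_zero, h.zero]
  one := by rw [conc_one, h'.one]
  vert u := by
    rw [cnt_conc (by rw [h.one, h'.zero]), h.vert, h'.vert, h.one]
    simp only [ev_inj]
    push_cast
    rfl
  low y z hyz t ht := by
    rw [cnt_conc (by rw [h.one, h'.zero]), h.low y z hyz t ht, h'.low y z hyz t ht, h.one,
      if_neg (pt_ne_ev hyz ⟨ht.1, by linarith [ht.2]⟩)]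
    push_cast
    rw [add_zero]
  half y z hyz := by
    rw [cnt_conc (by rw [h.one, h'.zero]), h.one, if_neg (pt_ne_ev hyz half_mem), add_zero,
      mul_add, h.half y z hyz, h'.half y z hyz]
    push_cast
    abel

open Classical in
theorem prof_cross {K : SimpleGraph U} {y z : U} (h : K.Adj y z) (ρ₁ ρ₂ : ℕ) :
    Prof K (conc (leg y z ρ₁) (rev (leg z y ρ₂))) y z (fun _ => 0)
      (fun y' z' => (if y = y' ∧ z = z' then 2 * ρ₁ + 1 else 0) +
        (if z = y' ∧ y = z' then 2 * ρ₂ + 1 else 0)) where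
  cont := by
    refine continuous_conc (continuous_leg _ _ _) (continuous_rev (continuous_leg _ _ _)) ?_
    rw [leg_one, rev_zero, leg_one, pt_symm]; norm_num
  mem := conc_mem (leg_mem h _) (rev_mem (leg_mem h.symm _))
  zero := by rw [conc_zero, leg_zero]
  one := by rw [conc_one, rev_one, leg_zero]
  vert u := by
    rw [cnt_conc (by rw [leg_one, rev_zero, leg_one, pt_symm]; norm_num), cnt_rev,
      cnt_leg_ev h.ne, cnt_leg_ev h.ne', leg_one, if_neg (pt_ne_ev h.ne half_mem).symm]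
    simp
  low y' z' h' c hc := by
    have hne : pt y z (1 / 2) ≠ pt y' z' c := by
      rw [Ne, pt_eq_pt h.ne h' ⟨hc.1, by linarith [hc.2]⟩]
      rintro (⟨-, -, h1⟩ | ⟨-, -, h1⟩) <;> linarith [hc.2]
    rw [cnt_conc (by rw [leg_one, rev_zero, leg_one, pt_symm]; norm_num), cnt_rev,
      cnt_leg_low h.ne h' _ hc, cnt_leg_low h.ne' h' _ hc, leg_one, if_neg hne]
    push_cast; rw [add_zero]
  half y' z' h' := by
    rw [cnt_conc (by rw [leg_one, rev_zero, leg_one, pt_symm]; norm_num), cnt_rev,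
      cnt_leg_half h.ne h', cnt_leg_half h.ne' h', leg_one]
    have e := half_eq h.ne h'
    by_cases h1 : y = y' ∧ z = z'
    · have h2 : ¬ (z = y' ∧ y = z') := by
        rintro ⟨h2, -⟩; exact h' (h1.1.symm.trans (h1.1.trans (h2.symm.trans h1.2)))
      have h3 : ¬ (y = z' ∧ z = y') := fun h3 => h2 ⟨h3.2, h3.1⟩
      have h4 : (z = z' ∧ y = y') := ⟨h1.2, h1.1⟩
      rw [if_pos (Or.inl h1), if_pos (Or.inr ⟨h1.1, h1.2⟩), if_pos (e.2 (Or.inl h1)),
        if_pos h1, if_neg h2, if_neg h3, if_pos h4]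
      norm_cast
      ring
    · by_cases h2 : z = y' ∧ y = z'
      · have h3 : (y = z' ∧ z = y') := ⟨h2.2, h2.1⟩
        have h4 : ¬ (z = z' ∧ y = y') := fun h4 => h1 ⟨h4.2, h4.1⟩
        rw [if_pos (Or.inr h2), if_pos (Or.inl h2), if_pos (e.2 (Or.inr h2)),
          if_neg h1, if_pos h2, if_pos h3, if_neg h4]
        norm_cast
        ring
      · have h3 : ¬ (y = z' ∧ z = y') := fun h3 => h2 ⟨h3.2, h3.1⟩
        have h4 : ¬ (z = z' ∧ y = y') := fun h4 => h1 ⟨h4.2, h4.1⟩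
        rw [if_neg (by rw [not_or]; exact ⟨h1, h2⟩),
          if_neg (by rw [not_or]; exact ⟨h2, fun h5 => h1 ⟨h5.1, h5.2⟩⟩),
          if_neg (fun h5 => by rcases e.1 h5 with h6 | h6; exacts [h1 h6, h2 h6]),
          if_neg h1, if_neg h2, if_neg h3, if_neg h4]
        simp

open Classical in
theorem prof_bounce {K : SimpleGraph U} {y z : U} (h : K.Adj y z) (ρ₁ ρ₂ : ℕ) :
    Prof K (conc (leg y z ρ₁) (rev (leg y z ρ₂))) y y (fun _ => 0)
      (fun y' z' => if y = y' ∧ z = z' then 2 * ρ₁ + 2 * ρ₂ + 2 else 0) where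
  cont := by
    refine continuous_conc (continuous_leg _ _ _) (continuous_rev (continuous_leg _ _ _)) ?_
    rw [leg_one, rev_zero, leg_one]
  mem := conc_mem (leg_mem h _) (rev_mem (leg_mem h _))
  zero := by rw [conc_zero, leg_zero]
  one := by rw [conc_one, rev_one, leg_zero]
  vert u := by
    rw [cnt_conc (by rw [leg_one, rev_zero, leg_one]), cnt_rev,
      cnt_leg_ev h.ne, cnt_leg_ev h.ne, leg_one, if_neg (pt_ne_ev h.ne half_mem).symm]
    simp
  low y' z' h' c hc := by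
    have hne : pt y z (1 / 2) ≠ pt y' z' c := by
      rw [Ne, pt_eq_pt h.ne h' ⟨hc.1, by linarith [hc.2]⟩]
      rintro (⟨-, -, h1⟩ | ⟨-, -, h1⟩) <;> linarith [hc.2]
    rw [cnt_conc (by rw [leg_one, rev_zero, leg_one]), cnt_rev,
      cnt_leg_low h.ne h' _ hc, cnt_leg_low h.ne h' _ hc, leg_one, if_neg hne]
    split_ifs
    · norm_cast; ring
    · simp
  half y' z' h' := by
    rw [cnt_conc (by rw [leg_one, rev_zero, leg_one]), cnt_rev,
      cnt_leg_half h.ne h', cnt_leg_half h.ne h', leg_one]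
    have e := half_eq h.ne h'
    by_cases h1 : y = y' ∧ z = z'
    · have h2 : ¬ (y = z' ∧ z = y') := by
        rintro ⟨h2, -⟩; exact h' (h1.1.symm.trans h2)
      rw [if_pos (Or.inl h1), if_pos (Or.inl h1), if_pos (e.2 (Or.inl h1)), if_pos h1, if_neg h2]
      norm_cast
      ring
    · by_cases h2 : z = y' ∧ y = z'
      · have h3 : (y = z' ∧ z = y') := ⟨h2.2, h2.1⟩
        rw [if_pos (Or.inr h2), if_pos (Or.inr h2), if_pos (e.2 (Or.inr h2)), if_neg h1, if_pos h3]
        norm_cast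
        ring
      · have h3 : ¬ (y = z' ∧ z = y') := fun h3 => h2 ⟨h3.2, h3.1⟩
        have h5 : ¬ ((y = y' ∧ z = z') ∨ (z = y' ∧ y = z')) := by
          rw [not_or]; exact ⟨h1, h2⟩
        rw [if_neg h5, if_neg h5, if_neg (fun h6 => h5 (e.1 h6)), if_neg h1, if_neg h3]
        simp

open Classical in
theorem prof_step {K : SimpleGraph U} (s : Step U) (h : K.Adj s.1 s.2.1) (r : U → U → ℕ) :
    ∃ γ, Prof K γ s.1 (fin s) (fun _ => 0)
      (fun y z => use y z s + 2 * if 1 ≤ use y z s then r y z else 0) := by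
  obtain ⟨y, z, b⟩ := s
  simp only at h
  cases b with
  | true =>
    refine ⟨conc (leg y z (r y z)) (rev (leg z y (r z y))), ?_⟩
    have := prof_cross h (r y z) (r z y)
    simp only [fin, if_true]
    convert this using 3 with y' z'
    simp only [use, if_true]
    by_cases h1 : y = y' ∧ z = z'
    · have h2 : ¬ (y = z' ∧ z = y') := by
        rintro ⟨h2, h3⟩; exact h.ne (h2.trans h1.2.symm)
      have h3 : ¬ (z = y' ∧ y = z') := fun h3 => h2 ⟨h3.2, h3.1⟩
      rw [if_pos h1, if_neg h2, if_pos h1, if_neg h3, if_pos (by norm_num), h1.1, h1.2]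
      ring
    · by_cases h2 : y = z' ∧ z = y'
      · have h3 : (z = y' ∧ y = z') := ⟨h2.2, h2.1⟩
        rw [if_neg h1, if_pos h2, if_neg h1, if_pos h3, if_pos (by norm_num), h2.1, h2.2]
        ring
      · have h3 : ¬ (z = y' ∧ y = z') := fun h3 => h2 ⟨h3.2, h3.1⟩
        rw [if_neg h1, if_neg h2, if_neg h1, if_neg h3, if_neg (by norm_num)]
  | false =>
    refine ⟨conc (leg y z (r y z)) (rev (leg y z 0)), ?_⟩
    have := prof_bounce h (r y z) 0
    simp only [fin, Bool.false_eq_true, if_false]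
    convert this using 3 with y' z'
    simp only [use, Bool.false_eq_true, if_false]
    by_cases h1 : y = y' ∧ z = z'
    · rw [if_pos h1, if_pos h1, if_pos (by norm_num), h1.1, h1.2]
      ring
    · rw [if_neg h1, if_neg h1, if_neg (by norm_num)]

theorem uses_cons (y z : U) (s : Step U) (l : List (Step U)) :
    uses y z (s :: l) = use y z s + uses y z l := by
  simp [uses]

open Classical in
theorem visits_cons_cons (y : U) (s s' : Step U) (l : List (Step U)) :
    visits y (s :: s' :: l) = (if s'.1 = y then 1 else 0) + visits y (s' :: l) := by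
  simp [visits]

open Classical in
/-- A walk is realised by a path in the body, with additional zigzags as prescribed by `r`. -/
theorem prof_walk {K : SimpleGraph U} : ∀ (l : List (Step U)) (a b : U) (r : U → U → ℕ), l ≠ [] →
    IsWalk K a l b → ∃ γ, Prof K γ a b (fun u => visits u l)
      (fun y z => uses y z l + 2 * if 1 ≤ uses y z l then r y z else 0)
  | [], _, _, _, h, _ => absurd rfl h
  | [s], a, b, r, _, h => by
    obtain ⟨h1, h2, h3⟩ := h
    simp only [IsWalk] at h3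
    subst h1 h3
    obtain ⟨γ, hγ⟩ := prof_step s h2 r
    refine ⟨γ, ?_⟩
    simpa [visits, uses] using hγ
  | s :: s' :: l, a, b, r, _, h => by
    obtain ⟨h1, h2, h3⟩ := h
    subst h1
    obtain ⟨γ, hγ⟩ := prof_step s h2 r
    obtain ⟨γ', hγ'⟩ := prof_walk (s' :: l) (fin s) b (fun y z => if 1 ≤ use y z s then 0 else r y z)
      (by simp) h3
    refine ⟨KMap.conc γ γ', ?_⟩
    have := hγ.conc hγ'
    convert this using 1
    · funext u
      rw [visits_cons_cons, h3.1]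
      ring
    · funext y z
      rw [uses_cons y z s]
      by_cases h4 : 1 ≤ use y z s
      · rw [if_pos (by omega), if_pos h4, if_pos h4]
        simp
        ring
      · have h5 : use y z s = 0 := by omega
        rw [if_neg h4, if_neg h4, h5, zero_add]
        simp

end Prof

end H905R2.KMap
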