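import Mathlib
import Pool.Agent.H905R2.KMapPath
import Pool.Agent.H905R2.KMapParity

/-!
# Extracting a walk from a path with finite fibres
-/

namespace H905R2.KMap

open Set

variable {U : Type*}

/-- number of times in the open interval at which `q` is at `x` -/
noncomputable def num {X : Type*} (q : ℝ → X) (a b : ℝ) (x : X) : ℕ := {t ∈ Ioo a b | q t = x}.ncard

/-- The list of steps `l` describes the path `q` on `[a, b]`. -/
structure Ext (K : SimpleGraph U) (q : ℝ → (U → ℝ)) (a b : ℝ) (y z : U) (l : List (Step U)) :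
    Prop where
  ne : l ≠ []
  walk : IsWalk K y l z
  vert : ∀ u, num q a b (ev u) = visits u l
  low : ∀ y z, K.Adj y z → ∃ ε > 0, ∀ c ∈ Ioo (0 : ℝ) ε, uses y z l ≤ num q a b (pt y z c)
  par : ∀ y z, K.Adj y z → ∃ C : Set ℝ, C.Countable ∧
    ∀ c ∈ Ioo (0 : ℝ) 1, c ∉ C → num q a b (pt y z c) % 2 = uses y z l % 2
  zero : ∀ y z, K.Adj y z → uses y z l = 0 →
    ∃ ε > 0, ∀ c ∈ Ioo (0 : ℝ) ε, num q a b (pt y z c) = 0

open Classical in
theorem num_split {X : Type*} {q : ℝ → X} {a b s : ℝ} {x : X} (hs : s ∈ Ioo a b)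
    (hfin : {t ∈ Ioo a b | q t = x}.Finite) :
    num q a b x = num q a s x + num q s b x + if q s = x then 1 else 0 := by
  by_cases hx : q s = x
  · rw [if_pos hx]
    have h : {t ∈ Ioo a b | q t = x} =
        insert s ({t ∈ Ioo a s | q t = x} ∪ {t ∈ Ioo s b | q t = x}) := by
      ext t
      constructor
      · rintro ⟨⟨h1, h2⟩, h3⟩
        rcases lt_trichotomy t s with h4 | h4 | h4
        · right; left; exact ⟨⟨h1, h4⟩, h3⟩
        · left; exact h4
        · right; right; exact ⟨⟨h4, h2⟩, h3⟩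
      · rintro (rfl | ⟨⟨h1, h2⟩, h3⟩ | ⟨⟨h1, h2⟩, h3⟩)
        · exact ⟨hs, hx⟩
        · exact ⟨⟨h1, h2.trans hs.2⟩, h3⟩
        · exact ⟨⟨hs.1.trans h1, h2⟩, h3⟩
    have hfin' := hfin
    rw [h] at hfin'
    have hfl : {t ∈ Ioo a s | q t = x}.Finite :=
      hfin'.subset (subset_union_left.trans (subset_insert _ _))
    have hfr : {t ∈ Ioo s b | q t = x}.Finite :=
      hfin'.subset (subset_union_right.trans (subset_insert _ _))
    rw [num, h, ncard_insert_of_notMem _ (hfl.union hfr), ncard_union_eq _ hfl hfr]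
    · rfl
    · rw [Set.disjoint_left]
      rintro t ⟨⟨h1, h2⟩, h3⟩ ⟨⟨h4, h5⟩, h6⟩
      linarith
    · rintro (⟨⟨h1, h2⟩, h3⟩ | ⟨⟨h1, h2⟩, h3⟩)
      · exact lt_irrefl _ h2
      · exact lt_irrefl _ h1
  · rw [if_neg hx, add_zero]
    exact split_ncard hs hfin hx

theorem IsWalk.append {K : SimpleGraph U} : ∀ {l : List (Step U)} {a b c : U} {l' : List (Step U)},
    IsWalk K a l b → IsWalk K b l' c → IsWalk K a (l ++ l') c
  | [], _, _, _, _, h, h' => by
    simp only [IsWalk] at h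
    subst h
    exact h'
  | _ :: _, _, _, _, _, h, h' => ⟨h.1, h.2.1, IsWalk.append h.2.2 h'⟩

theorem uses_append (y z : U) (l l' : List (Step U)) :
    uses y z (l ++ l') = uses y z l + uses y z l' := by
  simp [uses]

open Classical in
theorem visits_append {K : SimpleGraph U} (u : U) {l l' : List (Step U)} (hl : l ≠ []) (hl' : l' ≠ [])
    {y z : U} (h : IsWalk K y l' z) :
    visits u (l ++ l') = visits u l + visits u l' + if y = u then 1 else 0 := by
  obtain ⟨s, l, rfl⟩ := List.exists_cons_of_ne_nil hl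
  obtain ⟨s', l', rfl⟩ := List.exists_cons_of_ne_nil hl'
  obtain ⟨h1, -, -⟩ := h
  subst h1
  simp only [visits, List.cons_append, List.tail_cons, List.map_append, List.map_cons,
    List.sum_append, List.sum_cons]
  ring

theorem Ext.append {K : SimpleGraph U} {q : ℝ → (U → ℝ)} {a s b : ℝ} {y u z : U}
    {l l' : List (Step U)} (h : Ext K q a s y u l) (h' : Ext K q s b u z l') (hs : s ∈ Ioo a b)
    (hqs : q s = ev u) (hfin : ∀ x, {t ∈ Ioo a b | q t = x}.Finite) :
    Ext K q a b y z (l ++ l') := by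
  classical
  have hnum : ∀ y z, K.Adj y z → ∀ c ∈ Ioo (0 : ℝ) 1,
      num q a b (pt y z c) = num q a s (pt y z c) + num q s b (pt y z c) := by
    intro y z hyz c hc
    rw [num_split hs (hfin _), hqs, if_neg (pt_ne_ev hyz.ne hc), add_zero]
  refine ⟨by simp [h.ne], h.walk.append h'.walk, ?_, ?_, ?_, ?_⟩
  · intro v
    rw [num_split hs (hfin _), visits_append v h.ne h'.ne h'.walk, h.vert, h'.vert, hqs]
    simp only [ev_inj]
  · intro y z hyz
    obtain ⟨ε, hε, h1⟩ := h.low y z hyz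
    obtain ⟨ε', hε', h2⟩ := h'.low y z hyz
    refine ⟨min (min ε ε') 1, by positivity, fun c hc => ?_⟩
    have hc1 : c < ε := lt_of_lt_of_le hc.2 ((min_le_left _ _).trans (min_le_left _ _))
    have hc2 : c < ε' := lt_of_lt_of_le hc.2 ((min_le_left _ _).trans (min_le_right _ _))
    have hc3 : c < 1 := lt_of_lt_of_le hc.2 (min_le_right _ _)
    rw [uses_append, hnum y z hyz c ⟨hc.1, hc3⟩]
    exact add_le_add (h1 c ⟨hc.1, hc1⟩) (h2 c ⟨hc.1, hc2⟩)
  · intro y z hyz
    obtain ⟨C, hC, h1⟩ := h.par y z hyz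
    obtain ⟨C', hC', h2⟩ := h'.par y z hyz
    refine ⟨C ∪ C', hC.union hC', fun c hc hcC => ?_⟩
    rw [mem_union, not_or] at hcC
    have e1 := h1 c hc hcC.1
    have e2 := h2 c hc hcC.2
    rw [uses_append, hnum y z hyz c hc]
    omega
  · intro y z hyz h0
    rw [uses_append] at h0
    obtain ⟨ε, hε, h1⟩ := h.zero y z hyz (by omega)
    obtain ⟨ε', hε', h2⟩ := h'.zero y z hyz (by omega)
    refine ⟨min (min ε ε') 1, by positivity, fun c hc => ?_⟩
    have hc1 : c < ε := lt_of_lt_of_le hc.2 ((min_le_left _ _).trans (min_le_left _ _))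
    have hc2 : c < ε' := lt_of_lt_of_le hc.2 ((min_le_left _ _).trans (min_le_right _ _))
    have hc3 : c < 1 := lt_of_lt_of_le hc.2 (min_le_right _ _)
    rw [hnum y z hyz c ⟨hc.1, hc3⟩, h1 c ⟨hc.1, hc1⟩, h2 c ⟨hc.1, hc2⟩]

theorem num_eq_zero {X : Type*} {q : ℝ → X} {a b : ℝ} {x : X} (h : ∀ t ∈ Ioo a b, q t ≠ x) :
    num q a b x = 0 := by
  have : {t ∈ Ioo a b | q t = x} = ∅ := by
    ext t
    simp only [mem_empty_iff_false, iff_false]
    rintro ⟨ht, h'⟩
    exact h t ht h'
  rw [num, this, ncard_empty]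

theorem num_congr {X Y : Type*} {q : ℝ → X} {q' : ℝ → Y} {a b : ℝ} {x : X} {y : Y}
    (h : ∀ t ∈ Ioo a b, q t = x ↔ q' t = y) : num q a b x = num q' a b y := by
  unfold num
  congr 1
  ext t
  constructor
  · rintro ⟨ht, h'⟩; exact ⟨ht, (h t ht).1 h'⟩
  · rintro ⟨ht, h'⟩; exact ⟨ht, (h t ht).2 h'⟩

/-- Counting along an interval which is mapped into one edge. -/
theorem num_edge {q : ℝ → (U → ℝ)} {a b : ℝ} {y z : U} (hyz : y ≠ z)
    (hq : ∀ t ∈ Ioo a b, q t = pt y z (q t z)) {y' z' : U} (h' : y' ≠ z') {c : ℝ}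
    (hc : c ∈ Ioo (0 : ℝ) 1) :
    (y = y' → z = z' → num q a b (pt y' z' c) = num (fun t => q t z) a b c) ∧
    (y = z' → z = y' → num q a b (pt y' z' c) = num (fun t => q t z) a b (1 - c)) ∧
    (¬ (y = y' ∧ z = z') → ¬ (y = z' ∧ z = y') → num q a b (pt y' z' c) = 0) := by
  refine ⟨?_, ?_, ?_⟩
  · rintro rfl rfl
    refine num_congr fun t ht => ?_
    rw [hq t ht, pt_eq_pt hyz h' hc]
    rw [pt_right hyz]
    constructor
    · rintro (⟨-, -, h1⟩ | ⟨h1, -, -⟩)
      · exact h1
      · exact absurd h1 hyz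
    · exact fun h1 => Or.inl ⟨rfl, rfl, h1⟩
  · rintro rfl rfl
    refine num_congr fun t ht => ?_
    rw [hq t ht, pt_eq_pt hyz h' hc]
    rw [pt_right hyz]
    constructor
    · rintro (⟨h1, -, -⟩ | ⟨-, -, h1⟩)
      · exact absurd h1 hyz
      · exact h1
    · exact fun h1 => Or.inr ⟨rfl, rfl, h1⟩
  · intro h1 h2
    refine num_eq_zero fun t ht => ?_
    rw [hq t ht, Ne, pt_eq_pt hyz h' hc]
    rintro (⟨h3, h4, -⟩ | ⟨h3, h4, -⟩)
    · exact h1 ⟨h3, h4⟩
    · exact h2 ⟨h3, h4⟩

theorem num_parity {g : ℝ → ℝ} (hg : Continuous g) {a b : ℝ} (hab : a < b)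
    (hfin : ∀ c, {t ∈ Ioo a b | g t = c}.Finite) {c : ℝ} (ha : g a ≠ c) (hb : g b ≠ c)
    (hc : c ∉ {c | ∃ t, g t = c ∧ IsLocalExtr g t}) :
    num g a b c % 2 = if (g a < c ↔ g b < c) then 0 else 1 := by
  have := parity hg (c := c) (fun t ht h' => hc ⟨t, ht, h'⟩) _ a b hab (hfin c) rfl ha hb
  split_ifs with h
  · exact Nat.even_iff.1 (this.2 h)
  · exact Nat.odd_iff.1 (Nat.not_even_iff_odd.1 fun h' => h (this.1 h'))

/-- The base case of the extraction, when the path starts at the vertex `y`. -/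
theorem ext_edge {K : SimpleGraph U} {q : ℝ → (U → ℝ)} (hcont : Continuous q) {a b : ℝ}
    (hab : a < b) {y z : U} (hyz : K.Adj y z) (hq : ∀ t ∈ Icc a b, q t = pt y z (q t z))
    (hpos : ∀ t ∈ Ioo a b, 0 < q t z ∧ q t z < 1) (ha : q a z = 0) (hb : q b z = 0 ∨ q b z = 1)
    (hfin : ∀ x, {t ∈ Ioo a b | q t = x}.Finite) :
    ∃ l u, q b = ev u ∧ Ext K q a b y u l := by
  classical
  have hg : Continuous (fun t => q t z) := (continuous_apply z).comp hcont
  have hq' : ∀ t ∈ Ioo a b, q t = pt y z (q t z) := fun t ht => hq t ⟨ht.1.le, ht.2.le⟩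
  have hgfin : ∀ c, {t ∈ Ioo a b | q t z = c}.Finite := by
    intro c
    refine (hfin (pt y z c)).subset ?_
    rintro t ⟨ht, rfl⟩
    exact ⟨ht, hq' t ht⟩
  have hvert : ∀ (s : Step U) (u : U), num q a b (ev u) = visits u [s] := by
    intro s u
    rw [num_eq_zero]
    · simp [visits]
    · intro t ht
      rw [hq' t ht]
      exact (pt_ne_ev hyz.ne (hpos t ht)).symm
  have hCa : ({c | ∃ t, (fun t => q t z) t = c ∧ IsLocalExtr (fun t => q t z) t} ∪
      (fun c => 1 - c) '' {c | ∃ t, (fun t => q t z) t = c ∧ IsLocalExtr (fun t => q t z) t}).Countable :=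
    (countable_extr _).union ((countable_extr _).image _)
  rcases hb with hb | hb
  · -- a bounce
    refine ⟨[(y, z, false)], y, ?_, ⟨by simp, ⟨rfl, hyz, by simp [IsWalk, fin]⟩, hvert _, ?_, ?_, ?_⟩⟩
    · rw [hq b ⟨hab.le, le_rfl⟩, hb, pt_zero]
    · intro y' z' h'
      have hm : (a + b) / 2 ∈ Ioo a b := ⟨by linarith, by linarith⟩
      by_cases h1 : y = y' ∧ z = z'
      · obtain ⟨rfl, rfl⟩ := h1
        refine ⟨q ((a + b) / 2) z, (hpos _ hm).1, fun c hc => ?_⟩
        have hc1 : c ∈ Ioo (0 : ℝ) 1 := ⟨hc.1, hc.2.trans (hpos _ hm).2⟩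
        rw [(num_edge hyz.ne hq' hyz.ne hc1).1 rfl rfl]
        have e : uses y z [(y, z, false)] = 2 := by simp [uses, use]
        rw [e]
        obtain ⟨t₁, ht₁, e₁⟩ := intermediate_value_Ioo hm.1.le hg.continuousOn
          (show c ∈ Ioo ((fun t => q t z) a) ((fun t => q t z) ((a + b) / 2)) from
            ⟨by simpa [ha] using hc.1, hc.2⟩)
        obtain ⟨t₂, ht₂, e₂⟩ := intermediate_value_Ioo' hm.2.le hg.continuousOn
          (show c ∈ Ioo ((fun t => q t z) b) ((fun t => q t z) ((a + b) / 2)) from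
            ⟨by simpa [hb] using hc.1, hc.2⟩)
        have : 1 < num (fun t => q t z) a b c := by
          rw [num, one_lt_ncard (hgfin c)]
          refine ⟨t₁, ⟨⟨ht₁.1, ht₁.2.trans hm.2⟩, e₁⟩, t₂, ⟨⟨hm.1.trans ht₂.1, ht₂.2⟩, e₂⟩, ?_⟩
          exact (ht₁.2.trans ht₂.1).ne
        omega
      · refine ⟨1, one_pos, fun c hc => ?_⟩
        have : uses y' z' [(y, z, false)] = 0 := by simp [uses, use, h1]
        rw [this]
        exact Nat.zero_le _
    · intro y' z' h'
      refine ⟨_, hCa, fun c hc hcC => ?_⟩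
      rw [mem_union, not_or] at hcC
      have hE := num_edge hyz.ne hq' h'.ne hc
      by_cases h1 : y = y' ∧ z = z'
      · obtain ⟨rfl, rfl⟩ := h1
        rw [hE.1 rfl rfl, num_parity hg hab hgfin (by simp [ha, hc.1.ne]) (by simp [hb, hc.1.ne])
          hcC.1]
        simp [uses, use, ha, hb]
      · have e : uses y' z' [(y, z, false)] = 0 := by simp [uses, use, h1]
        rw [e]
        by_cases h2 : y = z' ∧ z = y'
        · have hc0 : (0 : ℝ) ≠ 1 - c := by linarith [hc.2]
          rw [hE.2.1 h2.1 h2.2, num_parity hg hab hgfin (by simpa [ha] using hc0)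
            (by simpa [hb] using hc0) ?_]
          · simp [ha, hb]
          · intro h3
            exact hcC.2 ⟨1 - c, h3, by ring⟩
        · rw [hE.2.2 h1 h2]
    · intro y' z' h' h0
      have h1 : ¬ (y = y' ∧ z = z') := by
        rintro ⟨rfl, rfl⟩
        simp [uses, use] at h0
      obtain ⟨s, hs, hmax⟩ := isCompact_Icc.exists_isMaxOn (nonempty_Icc.2 hab.le) hg.continuousOn
      have hs1 : q s z < 1 := by
        rcases eq_or_lt_of_le hs.1 with rfl | h3
        · rw [ha]; exact one_pos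
        rcases eq_or_lt_of_le hs.2 with rfl | h4
        · rw [hb]; exact one_pos
        · exact (hpos s ⟨h3, h4⟩).2
      refine ⟨min (1 - q s z) 1, by have : 0 < 1 - q s z := by linarith
                                    positivity, fun c hc => ?_⟩
      have hc1 : c < 1 - q s z := lt_of_lt_of_le hc.2 (min_le_left _ _)
      have hc2 : c < 1 := lt_of_lt_of_le hc.2 (min_le_right _ _)
      have hE := num_edge hyz.ne hq' h'.ne ⟨hc.1, hc2⟩
      by_cases h2 : y = z' ∧ z = y'
      · rw [hE.2.1 h2.1 h2.2]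
        refine num_eq_zero fun t ht he => ?_
        have := hmax ⟨ht.1.le, ht.2.le⟩
        change q t z ≤ q s z at this
        change q t z = 1 - c at he
        linarith
      · exact hE.2.2 h1 h2
  · -- crossing the edge
    refine ⟨[(y, z, true)], z, ?_, ⟨by simp, ⟨rfl, hyz, by simp [IsWalk, fin]⟩, hvert _, ?_, ?_, ?_⟩⟩
    · rw [hq b ⟨hab.le, le_rfl⟩, hb, pt_one]
    · intro y' z' h'
      refine ⟨1, one_pos, fun c hc => ?_⟩
      have hE := num_edge hyz.ne hq' h'.ne hc
      have hpos' : ∀ c ∈ Ioo (0 : ℝ) 1, 1 ≤ num (fun t => q t z) a b c := by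
        intro c hc
        obtain ⟨t, ht, e⟩ := intermediate_value_Ioo hab.le hg.continuousOn
          (show c ∈ Ioo ((fun t => q t z) a) ((fun t => q t z) b) from
            ⟨by simpa [ha] using hc.1, by simpa [hb] using hc.2⟩)
        exact (ncard_pos (hgfin c)).2 ⟨t, ht, e⟩
      by_cases h1 : y = y' ∧ z = z'
      · obtain ⟨rfl, rfl⟩ := h1
        have e : uses y z [(y, z, true)] = 1 := by simp [uses, use, hyz.ne]
        rw [e, hE.1 rfl rfl]
        exact hpos' c hc
      · by_cases h2 : y = z' ∧ z = y'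
        · obtain ⟨rfl, rfl⟩ := h2
          have e : uses z y [(y, z, true)] = 1 := by simp [uses, use, hyz.ne]
          rw [e, hE.2.1 rfl rfl]
          exact hpos' _ ⟨by linarith [hc.2], by linarith [hc.1]⟩
        · have : uses y' z' [(y, z, true)] = 0 := by simp [uses, use, h1, h2]
          rw [this]
          exact Nat.zero_le _
    · intro y' z' h'
      refine ⟨_, hCa, fun c hc hcC => ?_⟩
      rw [mem_union, not_or] at hcC
      have hE := num_edge hyz.ne hq' h'.ne hc
      by_cases h1 : y = y' ∧ z = z'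
      · obtain ⟨rfl, rfl⟩ := h1
        rw [hE.1 rfl rfl, num_parity hg hab hgfin (by simp [ha, hc.1.ne]) (by simp [hb, hc.2.ne'])
          hcC.1]
        simp [uses, use, ha, hb, hc.1, not_lt.2 hc.2.le, hyz.ne]
      · by_cases h2 : y = z' ∧ z = y'
        · obtain ⟨rfl, rfl⟩ := h2
          have hc0 : (0 : ℝ) ≠ 1 - c := by linarith [hc.2]
          have hc1 : (1 : ℝ) ≠ 1 - c := by linarith [hc.1]
          rw [hE.2.1 rfl rfl, num_parity hg hab hgfin (by simpa [ha] using hc0)
            (by simpa [hb] using hc1) ?_]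
          · simp [uses, use, ha, hb, hc.2, hc.1.le, hyz.ne]
          · intro h3
            exact hcC.2 ⟨1 - c, h3, by ring⟩
        · have : uses y' z' [(y, z, true)] = 0 := by simp [uses, use, h1, h2]
          rw [this, hE.2.2 h1 h2]
    · intro y' z' h' h0
      have h1 : ¬ (y = y' ∧ z = z') := by
        rintro ⟨rfl, rfl⟩
        simp [uses, use] at h0
      have h2 : ¬ (y = z' ∧ z = y') := by
        rintro ⟨rfl, rfl⟩
        simp [uses, use] at h0
      exact ⟨1, one_pos, fun c hc => (num_edge hyz.ne hq' h'.ne hc).2.2 h1 h2⟩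

end H905R2.KMap
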