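import Mathlib
import Pool.Agent.H905R2.KMapExtract

/-!
# From `k`-to-1 maps to schemes
-/

namespace H905R2.KMap

open Set

section

variable {U : Type*}

theorem pt_pos {y z u : U} (h : y ≠ z) {c : ℝ} (hc : c ∈ Ioo (0 : ℝ) 1) :
    0 < pt y z c u ↔ u = y ∨ u = z := by
  constructor
  · intro hp
    by_contra hcon
    rw [not_or] at hcon
    rw [pt_other hcon.1 hcon.2] at hp
    exact lt_irrefl _ hp
  · rintro (rfl | rfl)
    · rw [pt_left h]; linarith [hc.2]
    · rw [pt_right h]; exact hc.1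

theorem pt_zero_of {y z u : U} (h : u ≠ y) (h' : u ≠ z) (c : ℝ) : pt y z c u = 0 :=
  pt_other h h' c

theorem ext_base {K : SimpleGraph U} {q : ℝ → (U → ℝ)} (hcont : Continuous q) {a b : ℝ}
    (hab : a < b) (hB : ∀ t ∈ Ioo a b, q t ∈ Body K) {y₀ z₀ : U} (ha : q a = ev y₀)
    (hb : q b = ev z₀) (hnov : ∀ t ∈ Ioo a b, ∀ u, q t ≠ ev u)
    (hfin : ∀ x, {t ∈ Ioo a b | q t = x}.Finite) : ∃ l, Ext K q a b y₀ z₀ l := by
  have hcase : ∀ t ∈ Ioo a b, ∃ v w, K.Adj v w ∧ ∃ c ∈ Ioo (0 : ℝ) 1, q t = pt v w c := by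
    intro t ht
    rcases Body_cases (hB t ht) with ⟨v, w, h, h'⟩ | h
    · exact absurd h' (hnov t ht v)
    · exact h
  have hm : (a + b) / 2 ∈ Ioo a b := ⟨by linarith, by linarith⟩
  obtain ⟨y, z, hyz, c₀, hc₀, hq0⟩ := hcase _ hm
  have hco : ∀ u, Continuous fun t => q t u := fun u => (continuous_apply u).comp hcont
  -- connectedness
  have hin : ∀ t ∈ Ioo a b, 0 < q t y * q t z := by
    have hO1 : IsOpen {t | 0 < q t y * q t z} := isOpen_lt continuous_const ((hco y).mul (hco z))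
    have hO2 : IsOpen {t | ∃ u, (u ≠ y ∧ u ≠ z) ∧ 0 < q t u} := by
      have : {t | ∃ u, (u ≠ y ∧ u ≠ z) ∧ 0 < q t u} =
          ⋃ u : {u // u ≠ y ∧ u ≠ z}, {t | 0 < q t u.1} := by
        ext t
        simp only [mem_iUnion]
        constructor
        · rintro ⟨u, hu, h⟩; exact ⟨⟨u, hu⟩, h⟩
        · rintro ⟨⟨u, hu⟩, h⟩; exact ⟨u, hu, h⟩
      rw [this]
      exact isOpen_iUnion fun u => isOpen_lt continuous_const (hco u.1)
    have hcov : Ioo a b ⊆ {t | 0 < q t y * q t z} ∪ {t | ∃ u, (u ≠ y ∧ u ≠ z) ∧ 0 < q t u} := by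
      intro t ht
      obtain ⟨v, w, hvw, c, hc, he⟩ := hcase t ht
      by_cases h1 : v = y ∨ v = z
      · by_cases h2 : w = y ∨ w = z
        · left
          show 0 < q t y * q t z
          rw [he]
          have h3 : y = v ∨ y = w := by
            rcases h1 with h1 | h1
            · exact Or.inl h1.symm
            · rcases h2 with h2 | h2
              · exact Or.inr h2.symm
              · exact absurd (h1.trans h2.symm) hvw.ne
          have h4 : z = v ∨ z = w := by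
            rcases h1 with h1 | h1
            · rcases h2 with h2 | h2
              · exact absurd (h1.trans h2.symm) hvw.ne
              · exact Or.inr h2.symm
            · exact Or.inl h1.symm
          exact mul_pos ((pt_pos hvw.ne hc).2 h3) ((pt_pos hvw.ne hc).2 h4)
        · right
          rw [not_or] at h2
          exact ⟨w, h2, by rw [he]; exact (pt_pos hvw.ne hc).2 (Or.inr rfl)⟩
      · right
        rw [not_or] at h1
        exact ⟨v, h1, by rw [he]; exact (pt_pos hvw.ne hc).2 (Or.inl rfl)⟩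
    have hdisj : Ioo a b ∩ ({t | 0 < q t y * q t z} ∩ {t | ∃ u, (u ≠ y ∧ u ≠ z) ∧ 0 < q t u}) = ∅ := by
      ext t
      simp only [mem_inter_iff, mem_empty_iff_false, iff_false]
      rintro ⟨ht, h1, u, ⟨hu1, hu2⟩, h2⟩
      obtain ⟨v, w, hvw, c, hc, he⟩ := hcase t ht
      change 0 < q t y * q t z at h1
      rw [he] at h1 h2
      have h3 := (pt_pos hvw.ne hc).1 h2
      have h4 : y = v ∨ y = w := by
        by_contra hcon
        rw [not_or] at hcon
        rw [pt_other hcon.1 hcon.2, zero_mul] at h1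
        exact lt_irrefl _ h1
      have h5 : z = v ∨ z = w := by
        by_contra hcon
        rw [not_or] at hcon
        rw [pt_other (u := z) hcon.1 hcon.2, mul_zero] at h1
        exact lt_irrefl _ h1
      have h6 := hyz.ne
      grind
    rcases isPreconnected_iff_subset_of_disjoint.1 isPreconnected_Ioo _ _ hO1 hO2 hcov hdisj with h | h
    · exact fun t ht => h ht
    · exfalso
      obtain ⟨u, ⟨hu1, hu2⟩, h1⟩ := h hm
      rw [hq0, pt_other hu1 hu2] at h1
      exact lt_irrefl _ h1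
  have hin' : ∀ t ∈ Ioo a b, q t = pt y z (q t z) ∧ 0 < q t z ∧ q t z < 1 := by
    intro t ht
    have h1 := hin t ht
    obtain ⟨v, w, hvw, c, hc, he⟩ := hcase t ht
    rw [he] at h1
    have h4 : y = v ∨ y = w := by
      by_contra hcon
      rw [not_or] at hcon
      rw [pt_other hcon.1 hcon.2, zero_mul] at h1
      exact lt_irrefl _ h1
    have h5 : z = v ∨ z = w := by
      by_contra hcon
      rw [not_or] at hcon
      rw [pt_other (u := z) hcon.1 hcon.2, mul_zero] at h1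
      exact lt_irrefl _ h1
    have h6 := hyz.ne
    rcases h4 with rfl | rfl
    · rcases h5 with rfl | rfl
      · exact absurd rfl h6
      · rw [he, pt_right hvw.ne]
        exact ⟨rfl, hc⟩
    · rcases h5 with rfl | rfl
      · rw [he, pt_left hvw.ne, pt_symm]
        exact ⟨rfl, by linarith [hc.2], by linarith [hc.1]⟩
      · exact absurd rfl h6
  have hcl : ∀ t ∈ Icc a b, q t = pt y z (q t z) := by
    have hclosed : IsClosed {t | q t = pt y z (q t z)} :=
      isClosed_eq hcont ((continuous_pt y z).comp (hco z))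
    intro t ht
    rw [← closure_Ioo hab.ne] at ht
    exact hclosed.closure_subset_iff.2 (fun t ht => (hin' t ht).1) ht
  have ea := hcl a ⟨le_rfl, hab.le⟩
  have eb := hcl b ⟨hab.le, le_rfl⟩
  rw [ha] at ea
  rw [hb] at eb
  have hb' : q b z = 0 ∨ q b z = 1 := by
    rw [hb]
    rcases (pt_eq_ev hyz.ne _).1 eb.symm with ⟨h, -⟩ | ⟨h, -⟩
    · exact Or.inl h
    · exact Or.inr h
  rcases (pt_eq_ev hyz.ne _).1 ea.symm with ⟨h, rfl⟩ | ⟨h, rfl⟩
  · obtain ⟨l, u, hu, hl⟩ := ext_edge hcont hab hyz hcl (fun t ht => (hin' t ht).2)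
      (by rw [ha]; exact h) hb' hfin
    rw [hb, ev_inj] at hu
    subst hu
    exact ⟨l, hl⟩
  · have hsw : ∀ t ∈ Icc a b, q t = pt y₀ y (q t y) ∧ q t y = 1 - q t y₀ := by
      intro t ht
      have h1 : q t y = 1 - q t y₀ := by
        have := congrFun (hcl t ht) y
        rwa [pt_left hyz.ne] at this
      refine ⟨?_, h1⟩
      rw [h1, pt_symm, sub_sub_cancel]
      exact hcl t ht
    obtain ⟨l, u, hu, hl⟩ := ext_edge hcont hab hyz.symm (fun t ht => (hsw t ht).1)
      (fun t ht => by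
        rw [(hsw t ⟨ht.1.le, ht.2.le⟩).2]
        have := (hin' t ht).2
        constructor <;> linarith)
      (by rw [(hsw a ⟨le_rfl, hab.le⟩).2, ha, h]; norm_num)
      (by
        rw [(hsw b ⟨hab.le, le_rfl⟩).2]
        rcases hb' with h | h
        · right; rw [h]; norm_num
        · left; rw [h]; norm_num) hfin
    rw [hb, ev_inj] at hu
    subst hu
    exact ⟨l, hl⟩

/-- Extraction of a list of steps. -/
theorem extract {K : SimpleGraph U} {q : ℝ → (U → ℝ)} (hcont : Continuous q) {A B : ℝ}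
    (hB : ∀ t ∈ Icc A B, q t ∈ Body K) (hfin : ∀ x, {t ∈ Icc A B | q t = x}.Finite)
    (hvfin : {t ∈ Icc A B | ∃ u, q t = ev u}.Finite) :
    ∀ (N : ℕ) (a b : ℝ) (y z : U), a < b → A ≤ a → b ≤ B → q a = ev y → q b = ev z →
      {t ∈ Ioo a b | ∃ u, q t = ev u}.ncard = N → ∃ l, Ext K q a b y z l := by
  intro N
  induction N using Nat.strong_induction_on with
  | _ N ih =>
    intro a b y z hab hAa hbB ha hb hN
    have hsub : Ioo a b ⊆ Icc A B := fun t ht => ⟨hAa.trans ht.1.le, ht.2.le.trans hbB⟩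
    have hfin' : ∀ x, {t ∈ Ioo a b | q t = x}.Finite := fun x =>
      (hfin x).subset fun t ht => ⟨hsub ht.1, ht.2⟩
    have hvfin' : {t ∈ Ioo a b | ∃ u, q t = ev u}.Finite :=
      hvfin.subset fun t ht => ⟨hsub ht.1, ht.2⟩
    by_cases hex : ∃ s ∈ Ioo a b, ∃ u, q s = ev u
    · obtain ⟨s, hs, u, hu⟩ := hex
      have hl : {t ∈ Ioo a s | ∃ u, q t = ev u}.ncard < N := by
        rw [← hN]
        refine ncard_lt_ncard ⟨fun t ht => ⟨⟨ht.1.1, ht.1.2.trans hs.2⟩, ht.2⟩, fun h => ?_⟩ hvfin'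
        exact lt_irrefl _ (h ⟨hs, u, hu⟩ : s ∈ {t ∈ Ioo a s | ∃ u, q t = ev u}).1.2
      have hr : {t ∈ Ioo s b | ∃ u, q t = ev u}.ncard < N := by
        rw [← hN]
        refine ncard_lt_ncard ⟨fun t ht => ⟨⟨hs.1.trans ht.1.1, ht.1.2⟩, ht.2⟩, fun h => ?_⟩ hvfin'
        exact lt_irrefl _ (h ⟨hs, u, hu⟩ : s ∈ {t ∈ Ioo s b | ∃ u, q t = ev u}).1.1
      obtain ⟨l, hl'⟩ := ih _ hl a s y u hs.1 hAa (hs.2.le.trans hbB) ha hu rfl
      obtain ⟨l', hr'⟩ := ih _ hr s b u z hs.2 (hAa.trans hs.1.le) hbB hu hb rfl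
      exact ⟨l ++ l', hl'.append hr' hs hu hfin'⟩
    · push Not at hex
      exact ext_base hcont hab (fun t ht => hB t (hsub ht)) ha hb hex hfin'

end

variable {n : ℕ} {U : Type*}

open Filter Topology in
/-- **Necessity.** -/
theorem scheme_of_map (G : SimpleGraph (Fin n)) (hG : ∀ v, ∃ w, G.Adj v w) (K : SimpleGraph U)
    (hK : {y | ∃ z, K.Adj y z}.Finite) {k : ℕ} (hk : 1 ≤ k) (φ : Fin n → U)
    (F : (Fin n → ℝ) → (U → ℝ)) (hFc : ContinuousOn F (Body G))
    (hFm : MapsTo F (Body G) (Body K)) (hFv : ∀ v, F (ev v) = ev (φ v))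
    (hF : ∀ x ∈ Body K, {y ∈ Body G | F y = x}.encard = k) :
    ∃ P : Fin n → Fin n → List (Step U), IsScheme G K k φ P := by
  classical
  let q : Fin n × Fin n → ℝ → (U → ℝ) := fun p t => F (pt p.1 p.2 (max 0 (min 1 t)))
  have hclamp : ∀ t : ℝ, max 0 (min 1 t) ∈ Icc (0 : ℝ) 1 := fun t =>
    ⟨le_max_left _ _, max_le zero_le_one (min_le_left _ _)⟩
  have hqc : ∀ p ∈ edges G, Continuous (q p) := by
    intro p hp
    refine hFc.comp_continuous ((continuous_pt p.1 p.2).comp (by fun_prop)) fun t => ?_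
    exact pt_mem_Body (mem_edges.1 hp).2 (hclamp t)
  have hqt : ∀ p : Fin n × Fin n, ∀ t ∈ Icc (0 : ℝ) 1, q p t = F (pt p.1 p.2 t) := by
    intro p t ht
    simp only [q]
    rw [clamp_eq ht.1 ht.2]
  have hqB : ∀ p ∈ edges G, ∀ t ∈ Icc (0 : ℝ) 1, q p t ∈ Body K := by
    intro p hp t ht
    rw [hqt p t ht]
    exact hFm (pt_mem_Body (mem_edges.1 hp).2 ht)
  have hfibfin : ∀ x, {y ∈ Body G | F y = x}.Finite := by
    intro x
    by_cases hx : x ∈ Body K
    · rw [← encard_ne_top_iff, hF x hx]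
      exact ENat.natCast_ne_top k
    · have : {y ∈ Body G | F y = x} = ∅ := by
        ext y
        simp only [mem_empty_iff_false, iff_false]
        rintro ⟨hy, rfl⟩
        exact hx (hFm hy)
      rw [this]
      exact finite_empty
  have hqfin : ∀ p ∈ edges G, ∀ x, {t ∈ Icc (0 : ℝ) 1 | q p t = x}.Finite := by
    intro p hp x
    refine Finite.of_finite_image (f := pt p.1 p.2) ((hfibfin x).subset ?_)
      (pt_injective (mem_edges.1 hp).2.ne).injOn
    rintro _ ⟨t, ⟨ht, h⟩, rfl⟩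
    exact ⟨pt_mem_Body (mem_edges.1 hp).2 ht, by rw [← hqt p t ht]; exact h⟩
  have hqvfin : ∀ p ∈ edges G, {t ∈ Icc (0 : ℝ) 1 | ∃ u, q p t = ev u}.Finite := by
    intro p hp
    refine (hK.biUnion fun u _ => hqfin p hp (ev u)).subset ?_
    rintro t ⟨ht, u, hu⟩
    refine mem_iUnion₂.2 ⟨u, ?_, ht, hu⟩
    have := hqB p hp t ht
    rw [hu] at this
    exact ev_mem_Body_iff.1 this
  have hext : ∀ p : Fin n × Fin n, ∃ l, p ∈ edges G → Ext K (q p) 0 1 (φ p.1) (φ p.2) l := by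
    intro p
    by_cases hp : p ∈ edges G
    · obtain ⟨l, hl⟩ := extract (hqc p hp) (hqB p hp) (hqfin p hp) (hqvfin p hp) _ 0 1
        (φ p.1) (φ p.2) one_pos le_rfl le_rfl
        (by rw [hqt p 0 (by simp), pt_zero, hFv]) (by rw [hqt p 1 (by simp), pt_one, hFv]) rfl
      exact ⟨l, fun _ => hl⟩
    · exact ⟨[], fun h => absurd h hp⟩
  choose P hP using hext
  -- the number of preimages
  have hcn : ∀ p ∈ edges G, ∀ x, cnt (fun t => F (pt p.1 p.2 t)) x = (num (q p) 0 1 x : ℕ∞) := by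
    intro p hp x
    have h1 : {t ∈ Ioo (0 : ℝ) 1 | q p t = x}.Finite :=
      (hqfin p hp x).subset fun t ht => ⟨⟨ht.1.1.le, ht.1.2.le⟩, ht.2⟩
    rw [num, h1.cast_ncard_eq]
    exact cnt_congr (fun t ht => by rw [hqt p t ⟨ht.1.le, ht.2.le⟩])
  have hvert : ∀ y z, K.Adj y z →
      {v | φ v = y}.ncard + ∑ p ∈ edges G, num (q p) 0 1 (ev y) = k := by
    intro y z hyz
    have h1 := hF (ev y) (ev_mem_Body hyz)
    have h2 : {v | F (ev v) = ev y} = {v | φ v = y} := by
      ext v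
      show F (ev v) = ev y ↔ φ v = y
      rw [hFv, ev_inj]
    rw [fibre_formula G hG, h2, ← (toFinite {v | φ v = y}).cast_ncard_eq,
      Finset.sum_congr rfl fun p hp => hcn p hp _] at h1
    exact_mod_cast h1
  have hedge : ∀ y z, K.Adj y z → ∀ c ∈ Ioo (0 : ℝ) 1,
      ∑ p ∈ edges G, num (q p) 0 1 (pt y z c) = k := by
    intro y z hyz c hc
    have h1 := hF (pt y z c) (pt_mem_Body hyz ⟨hc.1.le, hc.2.le⟩)
    have h2 : {v | F (ev v) = pt y z c} = ∅ := by
      ext v
      simp only [mem_empty_iff_false, iff_false]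
      show ¬ F (ev v) = pt y z c
      rw [hFv]
      exact pt_ne_ev hyz.ne hc
    rw [fibre_formula G hG, h2, encard_empty, zero_add,
      Finset.sum_congr rfl fun p hp => hcn p hp _] at h1
    exact_mod_cast h1
  have hev : ∀ {Q : ℝ → Prop}, (∃ ε > 0, ∀ c ∈ Ioo (0 : ℝ) ε, Q c) → ∀ᶠ c in 𝓝[>] (0 : ℝ), Q c := by
    rintro Q ⟨ε, hε, h⟩
    filter_upwards [Ioo_mem_nhdsGT hε] with c hc
    exact h c hc
  refine ⟨fun v w => P (v, w), ?_, ?_, ?_⟩
  · intro p hp
    exact ⟨(hP p hp).ne, (hP p hp).walk⟩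
  · intro y z hyz
    rw [← hvert y z hyz]
    congr 1
    exact Finset.sum_congr rfl fun p hp => ((hP p hp).vert y).symm
  · intro y z hyz
    have hlow : ∀ᶠ c in 𝓝[>] (0 : ℝ), ∀ p ∈ edges G,
        uses y z (P p) ≤ num (q p) 0 1 (pt y z c) := by
      rw [Finset.eventually_all]
      exact fun p hp => hev ((hP p hp).low y z hyz)
    have h01 : ∀ᶠ c in 𝓝[>] (0 : ℝ), c ∈ Ioo (0 : ℝ) 1 := Ioo_mem_nhdsGT one_pos
    refine ⟨?_, ?_, ?_⟩
    · by_contra hcon
      have hz : ∀ p ∈ edges G, uses y z (P p) = 0 := by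
        have : ∑ p ∈ edges G, uses y z (P p) = 0 := by
          show ∑ p ∈ edges G, uses y z (P (p.1, p.2)) = 0
          omega
        rwa [Finset.sum_eq_zero_iff] at this
      have hzero : ∀ᶠ c in 𝓝[>] (0 : ℝ), ∀ p ∈ edges G, num (q p) 0 1 (pt y z c) = 0 := by
        rw [Finset.eventually_all]
        exact fun p hp => hev ((hP p hp).zero y z hyz (hz p hp))
      obtain ⟨c, hc1, hc2⟩ := (hzero.and h01).exists
      have := hedge y z hyz c hc2
      rw [Finset.sum_congr rfl hc1, Finset.sum_const_zero] at this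
      omega
    · obtain ⟨c, hc1, hc2⟩ := (hlow.and h01).exists
      rw [← hedge y z hyz c hc2]
      exact Finset.sum_le_sum hc1
    · have hpar : ∀ p : Fin n × Fin n, ∃ C : Set ℝ, C.Countable ∧ (p ∈ edges G →
          ∀ c ∈ Ioo (0 : ℝ) 1, c ∉ C → num (q p) 0 1 (pt y z c) % 2 = uses y z (P p) % 2) := by
        intro p
        by_cases hp : p ∈ edges G
        · obtain ⟨C, hC, h⟩ := (hP p hp).par y z hyz
          exact ⟨C, hC, fun _ => h⟩
        · exact ⟨∅, countable_empty, fun h => absurd h hp⟩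
      choose C hC hC' using hpar
      have hCc : (⋃ p, C p).Countable := countable_iUnion hC
      obtain ⟨c, hc1, hc2⟩ := (hCc.dense_compl ℝ).exists_mem_open (isOpen_Ioo (a := (0 : ℝ)) (b := 1))
        ⟨1 / 2, by norm_num, by norm_num⟩
      rw [← hedge y z hyz c hc2, Finset.sum_nat_mod, Finset.sum_nat_mod (edges G) 2
        (fun p => num (q p) 0 1 (pt y z c))]
      congr 1
      refine Finset.sum_congr rfl fun p hp => ?_
      rw [hC' p hp c hc2 (fun h => hc1 (mem_iUnion.2 ⟨p, h⟩))]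

end H905R2.KMap
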