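import Mathlib
import Pool.Agent.H905R2.KMapPath

/-!
# From schemes to `k`-to-1 maps
-/

namespace H905R2.KMap

open Set

variable {n : ℕ} {U : Type*}

/-- closed edge -/
def cedge (p : Fin n × Fin n) : Set (Fin n → ℝ) := pt p.1 p.2 '' Icc (0 : ℝ) 1

theorem isClosed_cedge (p : Fin n × Fin n) : IsClosed (cedge p) :=
  (isCompact_Icc.image (continuous_pt _ _)).isClosed

theorem Body_eq_iUnion (G : SimpleGraph (Fin n)) :
    Body G = ⋃ p : {p // p ∈ edges G}, cedge p.1 := by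
  ext x
  simp only [mem_iUnion]
  constructor
  · rintro ⟨v, w, h, t, ht, rfl⟩
    rcases lt_or_gt_of_ne h.ne with hlt | hgt
    · exact ⟨⟨(v, w), mem_edges.2 ⟨hlt, h⟩⟩, t, ht, rfl⟩
    · refine ⟨⟨(w, v), mem_edges.2 ⟨hgt, h.symm⟩⟩, 1 - t, ⟨by linarith [ht.2], by linarith [ht.1]⟩, ?_⟩
      show pt w v (1 - t) = _
      rw [pt_symm, sub_sub_cancel]
  · rintro ⟨⟨p, hp⟩, t, ht, rfl⟩
    exact pt_mem_Body (mem_edges.1 hp).2 ht

theorem isCompact_Body (G : SimpleGraph (Fin n)) : IsCompact (Body G) := by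
  rw [Body_eq_iUnion]
  exact isCompact_iUnion fun p => isCompact_Icc.image (continuous_pt _ _)

open Classical in
/-- gluing paths along the edges -/
theorem glue (G : SimpleGraph (Fin n)) (hG : ∀ v, ∃ w, G.Adj v w) (φ : Fin n → U)
    (q : Fin n × Fin n → ℝ → (U → ℝ)) (hc : ∀ p ∈ edges G, Continuous (q p))
    (h0 : ∀ p ∈ edges G, q p 0 = ev (φ p.1)) (h1 : ∀ p ∈ edges G, q p 1 = ev (φ p.2)) :
    ∃ F : (Fin n → ℝ) → (U → ℝ), ContinuousOn F (Body G) ∧ (∀ v, F (ev v) = ev (φ v)) ∧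
      ∀ p ∈ edges G, ∀ t ∈ Icc (0 : ℝ) 1, F (pt p.1 p.2 t) = q p t := by
  let Q : (Fin n → ℝ) → Prop := fun x => ∃ p : Fin n × Fin n, ∃ t : ℝ,
    p ∈ edges G ∧ t ∈ Icc (0 : ℝ) 1 ∧ x = pt p.1 p.2 t
  let F : (Fin n → ℝ) → (U → ℝ) := fun x =>
    if h : Q x then q h.choose h.choose_spec.choose else 0
  have key : ∀ p ∈ edges G, ∀ t ∈ Icc (0 : ℝ) 1, ∀ p' ∈ edges G, ∀ t' : ℝ,
      pt p.1 p.2 t = pt p'.1 p'.2 t' → q p' t' = q p t := by
    intro p hp t ht p' hp' t' he
    have hne := (mem_edges.1 hp).2.ne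
    have hne' := (mem_edges.1 hp').2.ne
    rcases eq_or_lt_of_le ht.1 with rfl | ht0
    · rw [pt_zero] at he
      rcases (pt_eq_ev hne' t').1 he.symm with ⟨rfl, h2⟩ | ⟨rfl, h2⟩
      · rw [h0 p hp, h0 p' hp', h2]
      · rw [h0 p hp, h1 p' hp', h2]
    rcases eq_or_lt_of_le ht.2 with rfl | ht1
    · rw [pt_one] at he
      rcases (pt_eq_ev hne' t').1 he.symm with ⟨rfl, h2⟩ | ⟨rfl, h2⟩
      · rw [h1 p hp, h0 p' hp', h2]
      · rw [h1 p hp, h1 p' hp', h2]
    · rcases (pt_eq_pt hne' hne ⟨ht0, ht1⟩).1 he.symm with ⟨h2, h3, rfl⟩ | ⟨h2, h3, -⟩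
      · rw [Prod.ext h2 h3]
      · have h4 := (mem_edges.1 hp).1
        have h5 := (mem_edges.1 hp').1
        rw [h2, h3] at h5
        exact absurd h4 (lt_asymm h5)
  have hF : ∀ p ∈ edges G, ∀ t ∈ Icc (0 : ℝ) 1, F (pt p.1 p.2 t) = q p t := by
    intro p hp t ht
    have hQ : Q (pt p.1 p.2 t) := ⟨p, t, hp, ht, rfl⟩
    have hs := hQ.choose_spec.choose_spec
    simp only [F, dif_pos hQ]
    exact key p hp t ht _ hs.1 _ hs.2.2
  refine ⟨F, ?_, ?_, hF⟩
  · rw [Body_eq_iUnion]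
    refine (locallyFinite_of_finite _).continuousOn_iUnion (fun p => isClosed_cedge p.1) ?_
    rintro ⟨p, hp⟩
    have hne := (mem_edges.1 hp).2.ne
    have h2 : ContinuousOn (fun x : Fin n → ℝ => q p (x p.2)) (cedge p) :=
      ((hc p hp).comp (continuous_apply _)).continuousOn
    refine h2.congr ?_
    rintro x ⟨t, ht, rfl⟩
    show F (pt p.1 p.2 t) = q p (pt p.1 p.2 t p.2)
    rw [pt_right hne]
    exact hF p hp t ht
  · intro v
    obtain ⟨w, hw⟩ := hG v
    rcases lt_or_gt_of_ne hw.ne with hlt | hgt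
    · have hp : (v, w) ∈ edges G := mem_edges.2 ⟨hlt, hw⟩
      have := hF _ hp 0 (by simp)
      rwa [pt_zero, h0 _ hp] at this
    · have hp : (w, v) ∈ edges G := mem_edges.2 ⟨hgt, hw.symm⟩
      have := hF _ hp 1 (by simp)
      rwa [pt_one, h1 _ hp] at this

open Classical in
/-- **Sufficiency.** A `k`-scheme gives a continuous map all of whose fibres have `k` points. -/
theorem exists_map_of_scheme (G : SimpleGraph (Fin n)) (hG : ∀ v, ∃ w, G.Adj v w)
    (K : SimpleGraph U) {k : ℕ} (φ : Fin n → U) (P : Fin n → Fin n → List (Step U))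
    (h : IsScheme G K k φ P) :
    ∃ F : (Fin n → ℝ) → (U → ℝ), ContinuousOn F (Body G) ∧ MapsTo F (Body G) (Body K) ∧
      ∀ x ∈ Body K, {y ∈ Body G | F y = x}.encard = k := by
  set a : U → U → ℕ := fun y z => ∑ p ∈ edges G, uses y z (P p.1 p.2) with ha
  have hex : ∀ y z, K.Adj y z → ∃ p ∈ edges G, 1 ≤ uses y z (P p.1 p.2) := by
    intro y z hyz
    have h1 := (h.edge y z hyz).1
    obtain ⟨p, hp, hp'⟩ := Finset.exists_ne_zero_of_sum_ne_zero
      (s := edges G) (f := fun p => uses y z (P p.1 p.2)) (by omega)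
    exact ⟨p, hp, by omega⟩
  let r : Fin n × Fin n → U → U → ℕ := fun p y z =>
    if hyz : K.Adj y z then (if p = (hex y z hyz).choose then (k - a y z) / 2 else 0) else 0
  have hpath : ∀ p : Fin n × Fin n, ∃ γ : ℝ → (U → ℝ), p ∈ edges G →
      Prof K γ (φ p.1) (φ p.2) (fun u => visits u (P p.1 p.2))
        (fun y z => uses y z (P p.1 p.2) +
          2 * if 1 ≤ uses y z (P p.1 p.2) then r p y z else 0) := by
    intro p
    by_cases hp : p ∈ edges G
    · obtain ⟨γ, hγ⟩ := prof_walk (P p.1 p.2) (φ p.1) (φ p.2) (r p) (h.walk p hp).1 (h.walk p hp).2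
      exact ⟨γ, fun _ => hγ⟩
    · exact ⟨fun _ => 0, fun h' => absurd h' hp⟩
  choose q hq using hpath
  obtain ⟨F, hFc, hFv, hFe⟩ := glue G hG φ q (fun p hp => (hq p hp).cont)
    (fun p hp => (hq p hp).zero) (fun p hp => (hq p hp).one)
  have hmaps : MapsTo F (Body G) (Body K) := by
    intro x hx
    rw [Body_eq_iUnion] at hx
    obtain ⟨⟨p, hp⟩, t, ht, rfl⟩ := mem_iUnion.1 hx
    rw [hFe p hp t ht]
    exact (hq p hp).mem t ht
  have hcnt : ∀ x, ∑ p ∈ edges G, cnt (fun t => F (pt p.1 p.2 t)) x = ∑ p ∈ edges G, cnt (q p) x := by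
    intro x
    refine Finset.sum_congr rfl fun p hp => ?_
    refine cnt_congr fun t ht => ?_
    rw [hFe p hp t ⟨ht.1.le, ht.2.le⟩]
  -- total profile
  have hA : ∀ y z, K.Adj y z → ∑ p ∈ edges G, (uses y z (P p.1 p.2) +
      2 * if 1 ≤ uses y z (P p.1 p.2) then r p y z else 0) = k := by
    intro y z hyz
    have h2 : ∑ p ∈ edges G, (if 1 ≤ uses y z (P p.1 p.2) then r p y z else 0) =
        (k - a y z) / 2 := by
      rw [Finset.sum_eq_single (hex y z hyz).choose]
      · rw [if_pos (hex y z hyz).choose_spec.2]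
        simp only [r, dif_pos hyz, if_true]
      · intro p _ hp
        simp only [r, dif_pos hyz, if_neg hp, ite_self]
      · intro hp
        exact absurd (hex y z hyz).choose_spec.1 hp
    rw [Finset.sum_add_distrib, ← Finset.mul_sum, h2]
    obtain ⟨-, h3, h4⟩ := h.edge y z hyz
    show a y z + _ = k
    have h3' : a y z ≤ k := h3
    have h4' : a y z % 2 = k % 2 := h4
    omega
  refine ⟨F, hFc, hmaps, fun x hx => ?_⟩
  rw [fibre_formula G hG, hcnt]
  rcases Body_cases hx with ⟨y, z, hyz, rfl⟩ | ⟨y, z, hyz, c, hc, rfl⟩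
  · have h1 : {v | F (ev v) = ev y} = {v | φ v = y} := by
      ext v
      show F (ev v) = ev y ↔ φ v = y
      rw [hFv, ev_inj]
    rw [h1, ← (toFinite {v | φ v = y}).cast_ncard_eq, ← h.vertex y z hyz, Nat.cast_add,
      Nat.cast_sum]
    congr 1
    exact Finset.sum_congr rfl fun p hp => (hq p hp).vert y
  · have h1 : {v | F (ev v) = pt y z c} = ∅ := by
      ext v
      simp only [mem_empty_iff_false, iff_false]
      show ¬ F (ev v) = pt y z c
      rw [hFv]
      exact pt_ne_ev hyz.ne hc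
    rw [h1, encard_empty, zero_add]
    have hlow : ∀ y z, K.Adj y z → ∀ c ∈ Ioo (0 : ℝ) (1 / 2),
        ∑ p ∈ edges G, cnt (q p) (pt y z c) = k := by
      intro y z hyz c hc
      rw [Finset.sum_congr rfl fun p hp => (hq p hp).low y z hyz.ne c hc, ← Nat.cast_sum,
        hA y z hyz]
    rcases lt_trichotomy c (1 / 2) with hl | he | hg
    · exact hlow y z hyz c ⟨hc.1, hl⟩
    · subst he
      have h2 : 2 * ∑ p ∈ edges G, cnt (q p) (pt y z (1 / 2)) = ((2 * k : ℕ) : ℕ∞) := by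
        rw [Finset.mul_sum, Finset.sum_congr rfl fun p hp => (hq p hp).half y z hyz.ne,
          Finset.sum_add_distrib, ← Nat.cast_sum, ← Nat.cast_sum, hA y z hyz, hA z y hyz.symm]
        push_cast
        ring
      generalize ∑ p ∈ edges G, cnt (q p) (pt y z (1 / 2)) = S at h2
      induction S using ENat.recTopCoe with
      | top =>
        exfalso
        rw [show (2 : ℕ∞) * ⊤ = ⊤ from ENat.mul_top (by norm_num)] at h2
        exact absurd h2.symm (ENat.coe_ne_top _)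
      | coe m =>
        norm_cast at h2 ⊢
        omega
    · rw [pt_symm]
      exact hlow z y hyz.symm (1 - c) ⟨by linarith [hc.2], by linarith⟩

end H905R2.KMap
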