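import Mathlib
import Pool.Agent.H905R2.KMapSuff

/-!
# The body of a subdivision is homeomorphic to the body of the graph, with arbitrary marks
-/

namespace H905R2.KMap

open Set

/-- a strictly increasing sequence `0 = τ 0 < τ 1 < ⋯ < τ M = 1` -/
structure Marks (M : ℕ) (τ : ℕ → ℝ) : Prop where
  zero : τ 0 = 0
  last : τ M = 1
  lt : ∀ i j, i < j → j ≤ M → τ i < τ j

theorem Marks.nonneg {M : ℕ} {τ : ℕ → ℝ} (h : Marks M τ) {j : ℕ} (hj : j ≤ M) : 0 ≤ τ j := by
  rcases Nat.eq_zero_or_pos j with rfl | h0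
  · rw [h.zero]
  · rw [← h.zero]; exact (h.lt 0 j h0 hj).le

theorem Marks.le_one {M : ℕ} {τ : ℕ → ℝ} (h : Marks M τ) {j : ℕ} (hj : j ≤ M) : τ j ≤ 1 := by
  rcases Nat.eq_or_lt_of_le hj with rfl | h0
  · rw [h.last]
  · rw [← h.last]; exact (h.lt j M h0 le_rfl).le

theorem exists_marks (n : ℕ) (A : Set ℝ) (hA : A ⊆ Ioo 0 1) (hfin : A.Finite)
    (hc : A.ncard ≤ n) : ∃ τ : ℕ → ℝ, Marks (n + 1) τ ∧ ∀ a ∈ A, ∃ j ≤ n + 1, τ j = a := by
  obtain ⟨B, hAB, hB, hBn⟩ := (Ioo_infinite (show (0 : ℝ) < 1 by norm_num)).exists_superset_ncard_eq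
    hA hfin hc
  rcases Nat.eq_zero_or_pos n with rfl | hn
  · have hA0 : A = ∅ := by
      rw [← ncard_eq_zero hfin]; omega
    refine ⟨fun j => j, ⟨by simp, by simp, fun i j hij _ => by exact_mod_cast hij⟩, ?_⟩
    rw [hA0]; simp
  have hBfin : B.Finite := finite_of_ncard_ne_zero (by omega)
  set S : Finset ℝ := insert 0 (insert 1 hBfin.toFinset) with hS
  have h1 : (1 : ℝ) ∉ hBfin.toFinset := by
    intro h
    exact lt_irrefl _ (hB (hBfin.mem_toFinset.1 h)).2
  have h0 : (0 : ℝ) ∉ insert 1 hBfin.toFinset := by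
    intro h
    rcases Finset.mem_insert.1 h with h | h
    · norm_num at h
    · exact lt_irrefl _ (hB (hBfin.mem_toFinset.1 h)).1
  have hcard : S.card = n + 2 := by
    rw [hS, Finset.card_insert_of_notMem h0, Finset.card_insert_of_notMem h1,
      ← ncard_eq_toFinset_card B hBfin, hBn]
  have hSle : ∀ x ∈ S, 0 ≤ x ∧ x ≤ 1 := by
    intro x hx
    rw [hS, Finset.mem_insert, Finset.mem_insert] at hx
    rcases hx with rfl | rfl | hx
    · exact ⟨le_rfl, zero_le_one⟩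
    · exact ⟨zero_le_one, le_rfl⟩
    · have := hB (hBfin.mem_toFinset.1 hx)
      exact ⟨this.1.le, this.2.le⟩
  let e := S.orderEmbOfFin hcard
  let τ : ℕ → ℝ := fun j => if h : j < n + 2 then e ⟨j, h⟩ else 2
  have hsurj : ∀ x ∈ S, ∃ j ≤ n + 1, τ j = x := by
    intro x hx
    have : x ∈ Set.range (S.orderEmbOfFin hcard) := by
      rw [Finset.range_orderEmbOfFin]; exact hx
    obtain ⟨j, hj⟩ := this
    refine ⟨j, by omega, ?_⟩
    simp only [τ, dif_pos j.2]
    exact hj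
  have hlt : ∀ i j, i < j → j ≤ n + 1 → τ i < τ j := by
    intro i j hij hj
    simp only [τ]
    rw [dif_pos (by omega), dif_pos (by omega)]
    exact (S.orderEmbOfFin hcard).strictMono (Fin.mk_lt_mk.2 hij)
  have hmem : ∀ j ≤ n + 1, τ j ∈ S := by
    intro j hj
    simp only [τ]
    rw [dif_pos (by omega)]
    exact S.orderEmbOfFin_mem hcard _
  refine ⟨τ, ⟨?_, ?_, hlt⟩, ?_⟩
  · obtain ⟨j, hj, h⟩ := hsurj 0 (by simp [hS])
    rcases Nat.eq_zero_or_pos j with rfl | h'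
    · exact h
    · have h2 := hlt 0 j h' hj
      have h3 := (hSle _ (hmem 0 (by omega))).1
      linarith
  · obtain ⟨j, hj, h⟩ := hsurj 1 (by simp [hS])
    rcases Nat.eq_or_lt_of_le hj with rfl | h'
    · exact h
    · have h2 := hlt j (n + 1) h' le_rfl
      have h3 := (hSle _ (hmem (n + 1) le_rfl)).2
      linarith
  · intro a ha
    refine hsurj a ?_
    rw [hS, Finset.mem_insert, Finset.mem_insert]
    right; right
    exact hBfin.mem_toFinset.2 (hAB ha)

variable {m : ℕ}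

/-- `lat M v w j` is `M` times the point `j / M` of the edge. -/
theorem lat_cast {W : Type*} {M : ℕ} (hM : 1 ≤ M) (v w : W) {j : ℕ} (hj : j ≤ M) (u : W) :
    ((lat M v w j u : ℕ) : ℝ) = M * pt v w (j / M) u := by
  have hM' : (M : ℝ) ≠ 0 := by positivity
  simp only [lat, pt]
  split_ifs <;> push_cast [Nat.cast_sub hj] <;> field_simp <;> ring

theorem lat_eq_imp {W : Type*} {M : ℕ} (hM : 1 ≤ M) {v w v' w' : W} {j j' : ℕ} (hj : j ≤ M)
    (hj' : j' ≤ M) (h : lat M v w j = lat M v' w' j') :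
    pt v w ((j : ℝ) / M) = pt v' w' ((j' : ℝ) / M) := by
  have hM' : (M : ℝ) ≠ 0 := by positivity
  funext u
  have h1 := lat_cast hM v w hj u
  have h2 := lat_cast hM v' w' hj' u
  rw [h, h2] at h1
  exact (mul_left_cancel₀ hM' h1).symm

/-- For oriented edges: `lat` determines the point with any marks. -/
theorem lat_wd {H : SimpleGraph (Fin m)} {M : ℕ} (hM : 1 ≤ M) {τ : Fin m × Fin m → ℕ → ℝ}
    (hτ : ∀ p, Marks M (τ p)) {p p' : Fin m × Fin m} (hp : p ∈ edges H) (hp' : p' ∈ edges H)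
    {j j' : ℕ} (hj : j ≤ M) (hj' : j' ≤ M) (h : lat M p.1 p.2 j = lat M p'.1 p'.2 j') :
    pt p.1 p.2 (τ p j) = pt p'.1 p'.2 (τ p' j') := by
  have hM' : (0 : ℝ) < M := by exact_mod_cast hM
  have h1 := lat_eq_imp hM hj hj' h
  have hne := (mem_edges.1 hp).2.ne
  have hne' := (mem_edges.1 hp').2.ne
  rcases Nat.eq_zero_or_pos j with rfl | h0
  · rw [Nat.cast_zero, zero_div, pt_zero] at h1
    rw [(hτ p).zero, pt_zero]
    rcases (pt_eq_ev hne' _).1 h1.symm with ⟨h2, h3⟩ | ⟨h2, h3⟩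
    · have : j' = 0 := by
        rw [div_eq_zero_iff] at h2
        rcases h2 with h2 | h2
        · exact_mod_cast h2
        · exact absurd h2 hM'.ne'
      rw [this, (hτ p').zero, pt_zero, h3]
    · have : j' = M := by
        rw [div_eq_one_iff_eq hM'.ne'] at h2
        exact_mod_cast h2
      rw [this, (hτ p').last, pt_one, h3]
  rcases Nat.eq_or_lt_of_le hj with rfl | hlt
  · rw [div_self hM'.ne', pt_one] at h1
    rw [(hτ p).last, pt_one]
    rcases (pt_eq_ev hne' _).1 h1.symm with ⟨h2, h3⟩ | ⟨h2, h3⟩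
    · have : j' = 0 := by
        rw [div_eq_zero_iff] at h2
        rcases h2 with h2 | h2
        · exact_mod_cast h2
        · exact absurd h2 hM'.ne'
      rw [this, (hτ p').zero, pt_zero, h3]
    · have : j' = j := by
        rw [div_eq_one_iff_eq hM'.ne'] at h2
        exact_mod_cast h2
      rw [this, (hτ p').last, pt_one, h3]
  · have hc : (j : ℝ) / M ∈ Ioo (0 : ℝ) 1 :=
      ⟨by positivity, by rw [div_lt_one hM']; exact_mod_cast hlt⟩
    rcases (pt_eq_pt hne' hne hc).1 h1.symm with ⟨h2, h3, h4⟩ | ⟨h2, h3, -⟩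
    · have : j' = j := by
        rw [div_left_inj' hM'.ne'] at h4
        exact_mod_cast h4
      rw [this, Prod.ext h2 h3]
    · have h4 := (mem_edges.1 hp).1
      have h5 := (mem_edges.1 hp').1
      rw [h2, h3] at h5
      exact absurd h4 (lt_asymm h5)

/-- adjacency in the subdivision, along oriented edges -/
theorem subdiv_adj {H : SimpleGraph (Fin m)} {M : ℕ} {a b : Fin m → ℕ}
    (h : (subdiv M H).Adj a b) : ∃ p ∈ edges H, ∃ j < M,
      (a = lat M p.1 p.2 j ∧ b = lat M p.1 p.2 (j + 1)) ∨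
      (b = lat M p.1 p.2 j ∧ a = lat M p.1 p.2 (j + 1)) := by
  obtain ⟨v, w, hvw, j, hj, rfl, rfl⟩ := h
  rcases lt_or_gt_of_ne hvw.ne with hlt | hgt
  · exact ⟨(v, w), mem_edges.2 ⟨hlt, hvw⟩, j, hj, Or.inl ⟨rfl, rfl⟩⟩
  · refine ⟨(w, v), mem_edges.2 ⟨hgt, hvw.symm⟩, M - (j + 1), by omega, Or.inr ⟨?_, ?_⟩⟩
    · exact lat_symm (by omega)
    · rw [lat_symm (by omega), show M - (j + 1) + 1 = M - j by omega]

theorem subdiv_adj_lat {H : SimpleGraph (Fin m)} {M : ℕ} {p : Fin m × Fin m} (hp : p ∈ edges H)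
    {j : ℕ} (hj : j < M) : (subdiv M H).Adj (lat M p.1 p.2 j) (lat M p.1 p.2 (j + 1)) :=
  ⟨p.1, p.2, (mem_edges.1 hp).2, j, hj, rfl, rfl⟩

/-- Points of the body of the subdivision. -/
theorem mem_Body_subdiv {H : SimpleGraph (Fin m)} {M : ℕ} {x : (Fin m → ℕ) → ℝ} :
    x ∈ Body (subdiv M H) ↔ ∃ p ∈ edges H, ∃ j < M, ∃ t ∈ Icc (0 : ℝ) 1,
      x = pt (lat M p.1 p.2 j) (lat M p.1 p.2 (j + 1)) t := by
  constructor
  · rintro ⟨a, b, hab, t, ht, rfl⟩
    obtain ⟨p, hp, j, hj, ⟨rfl, rfl⟩ | ⟨rfl, rfl⟩⟩ := subdiv_adj hab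
    · exact ⟨p, hp, j, hj, t, ht, rfl⟩
    · exact ⟨p, hp, j, hj, 1 - t, ⟨by linarith [ht.2], by linarith [ht.1]⟩, pt_symm _ _ _⟩
  · rintro ⟨p, hp, j, hj, t, ht, rfl⟩
    exact pt_mem_Body (subdiv_adj_lat hp hj) ht

theorem isCompact_Body_subdiv (H : SimpleGraph (Fin m)) (M : ℕ) :
    IsCompact (Body (subdiv M H)) := by
  have : Body (subdiv M H) = ⋃ p : {p // p ∈ edges H}, ⋃ j : Fin M,
      pt (lat M p.1.1 p.1.2 j) (lat M p.1.1 p.1.2 (j + 1)) '' Icc (0 : ℝ) 1 := by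
    ext x
    rw [mem_Body_subdiv]
    simp only [mem_iUnion]
    constructor
    · rintro ⟨p, hp, j, hj, t, ht, rfl⟩
      exact ⟨⟨p, hp⟩, ⟨j, hj⟩, t, ht, rfl⟩
    · rintro ⟨⟨p, hp⟩, ⟨j, hj⟩, t, ht, rfl⟩
      exact ⟨p, hp, j, hj, t, ht, rfl⟩
  rw [this]
  exact isCompact_iUnion fun p => isCompact_iUnion fun j =>
    isCompact_Icc.image (continuous_pt _ _)

/-- the vertices of the subdivision -/
theorem finite_verts (H : SimpleGraph (Fin m)) (M : ℕ) :
    {y | ∃ z, (subdiv M H).Adj y z}.Finite := by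
  have : {y | ∃ z, (subdiv M H).Adj y z} ⊆
      (fun q : (Fin m × Fin m) × ℕ => lat M q.1.1 q.1.2 q.2) ''
        ((edges H ×ˢ Finset.range (M + 1) : Finset _) : Set _) := by
    rintro y ⟨z, hyz⟩
    obtain ⟨p, hp, j, hj, ⟨rfl, rfl⟩ | ⟨rfl, rfl⟩⟩ := subdiv_adj hyz
    · exact ⟨(p, j), by simp [hp]; omega, rfl⟩
    · exact ⟨(p, j + 1), by simp [hp]; omega, rfl⟩
  exact (Finite.image _ (Finset.finite_toSet _)).subset this

theorem pt_affine {V : Type*} (v w : V) (s s' t : ℝ) :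
    (1 - t) • pt v w s + t • pt v w s' = pt v w ((1 - t) * s + t * s') := by
  funext u
  simp only [pt, Pi.add_apply, Pi.smul_apply, smul_eq_mul]
  split_ifs <;> ring

/-- finding the interval between marks -/
theorem Marks.exists_between {M : ℕ} {τ : ℕ → ℝ} (h : Marks M τ) (hM : 1 ≤ M) {s : ℝ}
    (hs : s ∈ Icc (0 : ℝ) 1) : ∃ j < M, ∃ t ∈ Icc (0 : ℝ) 1, s = (1 - t) * τ j + t * τ (j + 1) := by
  classical
  have hex : ∃ j, s ≤ τ (j + 1) ∧ j + 1 ≤ M :=
    ⟨M - 1, by rw [Nat.sub_add_cancel hM, h.last]; exact hs.2, by omega⟩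
  have hj := Nat.find_spec hex
  set j := Nat.find hex with hjdef
  have hlow : τ j ≤ s := by
    rcases Nat.eq_zero_or_pos j with h0 | h0
    · rw [h0, h.zero]; exact hs.1
    · have := Nat.find_min hex (m := j - 1) (by omega)
      rw [not_and] at this
      by_contra hcon
      rw [not_le] at hcon
      have h2 : j - 1 + 1 = j := by omega
      rw [h2] at this
      exact this hcon.le (by omega)
  have hlt := h.lt j (j + 1) (by omega) hj.2
  have hpos : 0 < τ (j + 1) - τ j := by linarith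
  refine ⟨j, by omega, (s - τ j) / (τ (j + 1) - τ j), ⟨div_nonneg (by linarith) hpos.le, ?_⟩, ?_⟩
  · rw [div_le_one hpos]; linarith [hj.1]
  · field_simp; ring

/-- uniqueness of the position between marks -/
theorem Marks.unique {V : Type*} {M : ℕ} {τ : ℕ → ℝ} (h : Marks M τ) (e : ℕ → V) {j j' : ℕ}
    (hj : j < M) (hj' : j' < M) {t t' : ℝ} (ht : t ∈ Icc (0 : ℝ) 1) (ht' : t' ∈ Icc (0 : ℝ) 1)
    (heq : (1 - t) * τ j + t * τ (j + 1) = (1 - t') * τ j' + t' * τ (j' + 1)) :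
    pt (e j) (e (j + 1)) t = pt (e j') (e (j' + 1)) t' := by
  wlog hle : j ≤ j' generalizing j j' t t'
  · exact (this hj' hj ht' ht heq.symm (by omega)).symm
  have h1 := h.lt j (j + 1) (by omega) hj
  have h2 := h.lt j' (j' + 1) (by omega) hj'
  rcases Nat.eq_or_lt_of_le hle with rfl | hlt
  · have : (t - t') * (τ (j + 1) - τ j) = 0 := by linarith
    rcases mul_eq_zero.1 this with h3 | h3
    · rw [sub_eq_zero.1 h3]
    · linarith
  · have h3 : τ (j + 1) ≤ τ j' := by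
      rcases Nat.eq_or_lt_of_le (show j + 1 ≤ j' from hlt) with h4 | h4
      · rw [h4]
      · exact (h.lt _ _ h4 hj'.le).le
    have h4 : (1 - t) * (τ (j + 1) - τ j) + (τ j' - τ (j + 1)) + t' * (τ (j' + 1) - τ j') = 0 := by
      linarith
    have h5 : 0 ≤ (1 - t) * (τ (j + 1) - τ j) := mul_nonneg (by linarith [ht.2]) (by linarith)
    have h6 : 0 ≤ t' * (τ (j' + 1) - τ j') := mul_nonneg ht'.1 (by linarith)
    have h7 : (1 - t) * (τ (j + 1) - τ j) = 0 := by linarith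
    have h8 : t' * (τ (j' + 1) - τ j') = 0 := by linarith
    have h9 : τ j' = τ (j + 1) := by linarith
    have ht1 : t = 1 := by
      rcases mul_eq_zero.1 h7 with h | h <;> linarith
    have ht0 : t' = 0 := by
      rcases mul_eq_zero.1 h8 with h | h <;> linarith
    have hjj : j' = j + 1 := by
      by_contra hcon
      have := h.lt (j + 1) j' (by omega) hj'.le
      linarith
    rw [ht1, ht0, pt_one, pt_zero, hjj]

open Classical in
/-- The map from the body of the subdivision onto the body of the graph, for given marks. -/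
theorem exists_subdiv_map (H : SimpleGraph (Fin m)) {M : ℕ} (hM : 1 ≤ M)
    (τ : Fin m × Fin m → ℕ → ℝ) (hτ : ∀ p, Marks M (τ p)) :
    ∃ Φ : ((Fin m → ℕ) → ℝ) → (Fin m → ℝ), Continuous Φ ∧
      MapsTo Φ (Body (subdiv M H)) (Body H) ∧ InjOn Φ (Body (subdiv M H)) ∧
      SurjOn Φ (Body (subdiv M H)) (Body H) ∧
      ∀ p ∈ edges H, ∀ j ≤ M, Φ (ev (lat M p.1 p.2 j)) = pt p.1 p.2 (τ p j) := by
  let Q : (Fin m → ℕ) → Prop := fun u => ∃ p : Fin m × Fin m, ∃ j : ℕ,
    p ∈ edges H ∧ j ≤ M ∧ u = lat M p.1 p.2 j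
  let g : (Fin m → ℕ) → (Fin m → ℝ) := fun u =>
    if h : Q u then pt h.choose.1 h.choose.2 (τ h.choose h.choose_spec.choose) else 0
  have hg : ∀ p ∈ edges H, ∀ j ≤ M, g (lat M p.1 p.2 j) = pt p.1 p.2 (τ p j) := by
    intro p hp j hj
    have hQ : Q (lat M p.1 p.2 j) := ⟨p, j, hp, hj, rfl⟩
    have hs := hQ.choose_spec.choose_spec
    simp only [g, dif_pos hQ]
    exact (lat_wd hM hτ hp hs.1 hj hs.2.1 hs.2.2).symm
  let T := (finite_verts H M).toFinset
  let Φ : ((Fin m → ℕ) → ℝ) → (Fin m → ℝ) := fun x => ∑ u ∈ T, x u • g u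
  have hΦpt : ∀ a ∈ T, ∀ b ∈ T, ∀ t, Φ (pt a b t) = (1 - t) • g a + t • g b := by
    intro a ha b hb t
    simp only [Φ, pt, add_smul, Finset.sum_add_distrib, ite_smul, zero_smul]
    rw [Finset.sum_ite_eq' T a, Finset.sum_ite_eq' T b, if_pos ha, if_pos hb]
  have hΦ : ∀ p ∈ edges H, ∀ j < M, ∀ t, Φ (pt (lat M p.1 p.2 j) (lat M p.1 p.2 (j + 1)) t) =
      pt p.1 p.2 ((1 - t) * τ p j + t * τ p (j + 1)) := by
    intro p hp j hj t
    rw [hΦpt _ _ _ _, hg p hp j hj.le, hg p hp (j + 1) hj, pt_affine]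
    · exact (finite_verts H M).mem_toFinset.2 ⟨_, subdiv_adj_lat hp hj⟩
    · exact (finite_verts H M).mem_toFinset.2 ⟨_, (subdiv_adj_lat hp hj).symm⟩
  have hpos : ∀ p, ∀ j < M, ∀ t ∈ Icc (0 : ℝ) 1,
      (1 - t) * τ p j + t * τ p (j + 1) ∈ Icc (0 : ℝ) 1 := by
    intro p j hj t ht
    have h1 := (hτ p).nonneg hj.le
    have h2 := (hτ p).nonneg (show j + 1 ≤ M from hj)
    have h3 := (hτ p).le_one hj.le
    have h4 := (hτ p).le_one (show j + 1 ≤ M from hj)
    constructor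
    · nlinarith [ht.1, ht.2]
    · nlinarith [ht.1, ht.2]
  -- the vertices of `H`
  have hvertex : ∀ p ∈ edges H, ∀ j < M, ∀ t ∈ Icc (0 : ℝ) 1, ∀ u,
      pt p.1 p.2 ((1 - t) * τ p j + t * τ p (j + 1)) = ev u →
      pt (lat M p.1 p.2 j) (lat M p.1 p.2 (j + 1)) t = ev (fun a => if a = u then M else 0) := by
    intro p hp j hj t ht u hu
    have hne := (mem_edges.1 hp).2.ne
    rcases (pt_eq_ev hne _).1 hu with ⟨h1, rfl⟩ | ⟨h1, rfl⟩
    · have := (hτ p).unique (fun i => lat M p.1 p.2 i) (j := j) (j' := 0) (t := t) (t' := 0) hj hM ht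
        (by simp) (by rw [h1, (hτ p).zero]; ring)
      simp only [pt_zero] at this
      rw [this]
      congr 1
      funext a
      simp [lat]
    · have := (hτ p).unique (fun i => lat M p.1 p.2 i) (j := j) (j' := M - 1) (t := t) (t' := 1) hj
        (by omega) ht (by simp) (by
          rw [h1, Nat.sub_add_cancel hM, (hτ p).last]; ring)
      simp only [pt_one, Nat.sub_add_cancel hM] at this
      rw [this]
      congr 1
      funext a
      simp [lat]
  refine ⟨Φ, ?_, ?_, ?_, ?_, ?_⟩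
  · refine continuous_finsetSum _ fun u _ => ?_
    exact (continuous_apply u).smul continuous_const
  · intro x hx
    obtain ⟨p, hp, j, hj, t, ht, rfl⟩ := mem_Body_subdiv.1 hx
    rw [hΦ p hp j hj t]
    exact pt_mem_Body (mem_edges.1 hp).2 (hpos p j hj t ht)
  · intro x hx x' hx' heq
    obtain ⟨p, hp, j, hj, t, ht, rfl⟩ := mem_Body_subdiv.1 hx
    obtain ⟨p', hp', j', hj', t', ht', rfl⟩ := mem_Body_subdiv.1 hx'
    rw [hΦ p hp j hj t, hΦ p' hp' j' hj' t'] at heq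
    have hne := (mem_edges.1 hp).2.ne
    have hne' := (mem_edges.1 hp').2.ne
    have hs := hpos p j hj t ht
    rcases eq_or_lt_of_le hs.1 with h0 | h0
    · have h1 : pt p.1 p.2 ((1 - t) * τ p j + t * τ p (j + 1)) = ev p.1 := by rw [← h0, pt_zero]
      rw [hvertex p hp j hj t ht _ h1, hvertex p' hp' j' hj' t' ht' _ (heq ▸ h1)]
    rcases eq_or_lt_of_le hs.2 with h1 | h1
    · have h1 : pt p.1 p.2 ((1 - t) * τ p j + t * τ p (j + 1)) = ev p.2 := by rw [h1, pt_one]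
      rw [hvertex p hp j hj t ht _ h1, hvertex p' hp' j' hj' t' ht' _ (heq ▸ h1)]
    · rcases (pt_eq_pt hne' hne ⟨h0, h1⟩).1 heq.symm with ⟨h2, h3, h4⟩ | ⟨h2, h3, -⟩
      · have hpp : p' = p := Prod.ext h2 h3
        subst hpp
        exact (hτ p').unique (fun i => lat M p'.1 p'.2 i) hj hj' ht ht' h4.symm
      · have h4 := (mem_edges.1 hp).1
        have h5 := (mem_edges.1 hp').1
        rw [h2, h3] at h5
        exact absurd h4 (lt_asymm h5)
  · intro y hy
    rw [Body_eq_iUnion] at hy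
    obtain ⟨⟨p, hp⟩, s, hs, rfl⟩ := mem_iUnion.1 hy
    obtain ⟨j, hj, t, ht, rfl⟩ := (hτ p).exists_between hM hs
    exact ⟨_, mem_Body_subdiv.2 ⟨p, hp, j, hj, t, ht, rfl⟩, hΦ p hp j hj t⟩
  · intro p hp j hj
    rcases Nat.eq_or_lt_of_le hj with rfl | hlt
    · have := hΦ p hp (j - 1) (by omega) 1
      rw [Nat.sub_add_cancel hM, pt_one] at this
      rw [this]
      congr 1
      ring
    · have := hΦ p hp j hlt 0
      rw [pt_zero] at this
      rw [this]
      congr 1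
      ring

end H905R2.KMap
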