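import Mathlib
import Pool.Agent.H905R2.KMapSubdiv
import Pool.Agent.H905R2.KMapNec

/-!
# The characterisation of `k`-to-1 maps
-/

namespace H905R2.KMap

open Set

variable {n m : ℕ}

/-- The homeomorphism between the body of the subdivision and the body of the graph. -/
theorem exists_homeo (H : SimpleGraph (Fin m)) {M : ℕ} (hM : 1 ≤ M)
    (τ : Fin m × Fin m → ℕ → ℝ) (hτ : ∀ p, Marks M (τ p)) :
    ∃ e : Body (subdiv M H) ≃ₜ Body H,
      ∀ p ∈ edges H, ∀ j ≤ M, ∀ x : Body (subdiv M H), (x : (Fin m → ℕ) → ℝ) = ev (lat M p.1 p.2 j) →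
        (e x : Fin m → ℝ) = pt p.1 p.2 (τ p j) := by
  obtain ⟨Φ, hc, hmaps, hinj, hsurj, hmark⟩ := exists_subdiv_map H hM τ hτ
  have : CompactSpace (Body (subdiv M H)) := isCompact_iff_compactSpace.1 (isCompact_Body_subdiv H M)
  let g : Body (subdiv M H) → Body H := fun x => ⟨Φ x, hmaps x.2⟩
  have hg : Continuous g := (hc.comp continuous_subtype_val).subtype_mk _
  have hbij : Function.Bijective g := by
    constructor
    · intro x y hxy
      exact Subtype.ext (hinj x.2 y.2 (congrArg Subtype.val hxy))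
    · rintro ⟨y, hy⟩
      obtain ⟨x, hx, rfl⟩ := hsurj hy
      exact ⟨⟨x, hx⟩, rfl⟩
  let E : Body (subdiv M H) ≃ Body H := Equiv.ofBijective g hbij
  have hE : Continuous E := hg
  refine ⟨hE.homeoOfEquivCompactToT2, ?_⟩
  intro p hp j hj x hx
  show Φ x = _
  rw [hx]
  exact hmark p hp j hj

theorem exists_scheme_of_map {k : ℕ} (hk : 0 < k) (G : SimpleGraph (Fin n))
    (hG : ∀ v, ∃ w, G.Adj v w) (H : SimpleGraph (Fin m)) (f : Body G → Body H)
    (hf : Continuous f) (hfib : ∀ y, (f ⁻¹' {y}).ncard = k) :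
    ∃ φ P, IsScheme G (subdiv (n + 1) H) k φ P := by
  classical
  have hevG : ∀ v : Fin n, ev v ∈ Body G := fun v => by
    obtain ⟨w, hw⟩ := hG v
    exact ev_mem_Body hw
  let a : Fin n → (Fin m → ℝ) := fun v => f ⟨ev v, hevG v⟩
  have ha : ∀ v, a v ∈ Body H := fun v => (f ⟨ev v, hevG v⟩).2
  -- the marks
  have hmarks : ∀ p : Fin m × Fin m, ∃ τ : ℕ → ℝ, Marks (n + 1) τ ∧ (p.1 ≠ p.2 →
      ∀ s ∈ Ioo (0 : ℝ) 1, (∃ v, a v = pt p.1 p.2 s) → ∃ j ≤ n + 1, τ j = s) := by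
    intro p
    by_cases hp : p.1 ≠ p.2
    · let A : Set ℝ := {s | s ∈ Ioo (0 : ℝ) 1 ∧ ∃ v, a v = pt p.1 p.2 s}
      have hA : A ⊆ Ioo 0 1 := fun s hs => hs.1
      have himg : A ⊆ (fun v => a v p.2) '' (univ : Set (Fin n)) := by
        rintro s ⟨-, v, hv⟩
        exact ⟨v, mem_univ _, by show a v p.2 = s; rw [hv, pt_right hp]⟩
      have hAfin : A.Finite := (Finite.image _ finite_univ).subset himg
      have hAcard : A.ncard ≤ n := by
        refine (ncard_le_ncard himg (Finite.image _ finite_univ)).trans ?_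
        refine (ncard_image_le finite_univ).trans ?_
        rw [ncard_univ, Nat.card_eq_fintype_card, Fintype.card_fin]
      obtain ⟨τ, hτ, h⟩ := exists_marks n A hA hAfin hAcard
      exact ⟨τ, hτ, fun _ s hs hv => h s ⟨hs, hv⟩⟩
    · obtain ⟨τ, hτ, -⟩ := exists_marks n ∅ (empty_subset _) finite_empty (by simp)
      exact ⟨τ, hτ, fun h => absurd h hp⟩
  choose τ hτ hτA using hmarks
  obtain ⟨e, he⟩ := exists_homeo H (show 1 ≤ n + 1 by omega) τ hτ
  -- the vertex map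
  have hφ : ∀ v, ∃ u : Fin m → ℕ, (e.symm (f ⟨ev v, hevG v⟩) : (Fin m → ℕ) → ℝ) = ev u := by
    intro v
    have hav := ha v
    rw [Body_eq_iUnion] at hav
    obtain ⟨⟨p, hp⟩, s, hs, hsv⟩ := mem_iUnion.1 hav
    have hne := (mem_edges.1 hp).2.ne
    have hj : ∃ j ≤ n + 1, τ p j = s := by
      rcases eq_or_lt_of_le hs.1 with h0 | h0
      · exact ⟨0, by omega, by rw [(hτ p).zero, h0]⟩
      rcases eq_or_lt_of_le hs.2 with h1 | h1
      · exact ⟨n + 1, le_rfl, by rw [(hτ p).last, h1]⟩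
      · exact hτA p hne s ⟨h0, h1⟩ ⟨v, hsv.symm⟩
    obtain ⟨j, hj, rfl⟩ := hj
    have hmem : ev (lat (n + 1) p.1 p.2 j) ∈ Body (subdiv (n + 1) H) := by
      rcases Nat.eq_or_lt_of_le hj with rfl | hlt
      · exact ev_mem_Body (subdiv_adj_lat hp (show n < n + 1 by omega)).symm
      · exact ev_mem_Body (subdiv_adj_lat hp hlt)
    refine ⟨lat (n + 1) p.1 p.2 j, ?_⟩
    have h1 := he p hp j hj ⟨_, hmem⟩ rfl
    have h2 : f ⟨ev v, hevG v⟩ = e ⟨ev (lat (n + 1) p.1 p.2 j), hmem⟩ := by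
      apply Subtype.ext
      rw [h1]
      exact hsv.symm
    rw [h2, Homeomorph.symm_apply_apply]
  choose φ hφ using hφ
  let F : (Fin n → ℝ) → ((Fin m → ℕ) → ℝ) := fun x =>
    if h : x ∈ Body G then (e.symm (f ⟨x, h⟩) : (Fin m → ℕ) → ℝ) else 0
  have hFeq : ∀ x : Body G, F x = e.symm (f x) := fun x => by
    simp only [F, dif_pos x.2]
  have hFc : ContinuousOn F (Body G) := by
    rw [continuousOn_iff_continuous_domRestrict]
    have : (Body G).domRestrict F = fun x : Body G => (e.symm (f x) : (Fin m → ℕ) → ℝ) := by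
      funext x
      exact hFeq x
    rw [this]
    exact continuous_subtype_val.comp (e.symm.continuous.comp hf)
  have hFm : MapsTo F (Body G) (Body (subdiv (n + 1) H)) := by
    intro x hx
    rw [show F x = e.symm (f ⟨x, hx⟩) from hFeq ⟨x, hx⟩]
    exact (e.symm (f ⟨x, hx⟩)).2
  have hFv : ∀ v, F (ev v) = ev (φ v) := by
    intro v
    rw [show F (ev v) = e.symm (f ⟨ev v, hevG v⟩) from hFeq ⟨ev v, hevG v⟩]
    exact hφ v
  have hFib : ∀ x ∈ Body (subdiv (n + 1) H), {y ∈ Body G | F y = x}.encard = k := by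
    intro x hx
    have hset : {y ∈ Body G | F y = x} = Subtype.val '' (f ⁻¹' {e ⟨x, hx⟩}) := by
      ext y
      constructor
      · rintro ⟨hy, h⟩
        refine ⟨⟨y, hy⟩, ?_, rfl⟩
        rw [mem_preimage, mem_singleton_iff]
        have : e.symm (f ⟨y, hy⟩) = ⟨x, hx⟩ := Subtype.ext ((hFeq ⟨y, hy⟩).symm.trans h)
        rw [← this, Homeomorph.apply_symm_apply]
      · rintro ⟨⟨y, hy⟩, h, rfl⟩
        refine ⟨hy, ?_⟩
        rw [mem_preimage, mem_singleton_iff] at h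
        rw [hFeq ⟨y, hy⟩, h, Homeomorph.symm_apply_apply]
    rw [hset, Subtype.val_injective.encard_image]
    have h1 := hfib (e ⟨x, hx⟩)
    rw [← h1, (finite_of_ncard_pos (by rw [h1]; exact hk)).cast_ncard_eq]
  obtain ⟨P, hP⟩ := scheme_of_map G hG (subdiv (n + 1) H) (finite_verts H (n + 1)) hk φ F hFc hFm
    hFv hFib
  exact ⟨φ, P, hP⟩

theorem exists_map_of_scheme' {k : ℕ} (G : SimpleGraph (Fin n))
    (hG : ∀ v, ∃ w, G.Adj v w) (H : SimpleGraph (Fin m)) {M : ℕ} (hM : 1 ≤ M)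
    (φ : Fin n → (Fin m → ℕ)) (P : Fin n → Fin n → List (Step (Fin m → ℕ)))
    (h : IsScheme G (subdiv M H) k φ P) :
    ∃ f : Body G → Body H, Continuous f ∧ ∀ y, (f ⁻¹' {y}).ncard = k := by
  obtain ⟨τ₀, hτ₀⟩ : ∃ τ : ℕ → ℝ, Marks M τ := by
    obtain ⟨M, rfl⟩ : ∃ M', M = M' + 1 := ⟨M - 1, by omega⟩
    obtain ⟨τ, hτ, -⟩ := exists_marks M ∅ (empty_subset _) finite_empty (by simp)
    exact ⟨τ, hτ⟩
  obtain ⟨e, -⟩ := exists_homeo H hM (fun _ => τ₀) (fun _ => hτ₀)
  obtain ⟨F, hFc, hFm, hF⟩ := exists_map_of_scheme G hG (subdiv M H) φ P h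
  refine ⟨fun x => e ⟨F x, hFm x.2⟩, ?_, fun y => ?_⟩
  · refine e.continuous.comp (Continuous.subtype_mk ?_ _)
    exact continuousOn_iff_continuous_domRestrict.1 hFc
  · have hset : Subtype.val '' ((fun x : Body G => e ⟨F x, hFm x.2⟩) ⁻¹' {y}) =
        {x ∈ Body G | F x = e.symm y} := by
      ext x
      constructor
      · rintro ⟨⟨x, hx⟩, h, rfl⟩
        rw [mem_preimage, mem_singleton_iff] at h
        refine ⟨hx, ?_⟩
        rw [← h, Homeomorph.symm_apply_apply]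
      · rintro ⟨hx, h⟩
        refine ⟨⟨x, hx⟩, ?_, rfl⟩
        rw [mem_preimage, mem_singleton_iff]
        have : (⟨F x, hFm hx⟩ : Body (subdiv M H)) = e.symm y := Subtype.ext h
        rw [this, Homeomorph.apply_symm_apply]
    rw [← ncard_image_of_injective _ Subtype.val_injective, hset, ncard, hF _ (e.symm y).2]
    rfl

open Classical in
theorem sum_use {U : Type*} (D : Finset (U × U)) (s : Step U) (h1 : (s.1, s.2.1) ∈ D)
    (h2 : (s.2.1, s.1) ∈ D) : ∑ d ∈ D, use d.1 d.2 s = 2 := by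
  obtain ⟨y, z, b⟩ := s
  have e1 : ∑ d ∈ D, (if y = d.1 ∧ z = d.2 then 1 else 0) = 1 := by
    rw [Finset.sum_eq_single (y, z)]
    · simp
    · rintro ⟨a, b⟩ _ hne
      rw [if_neg]
      rintro ⟨h1, h2⟩
      exact hne (Prod.ext h1.symm h2.symm)
    · intro hn
      exact absurd h1 hn
  have e2 : ∑ d ∈ D, (if y = d.2 ∧ z = d.1 then 1 else 0) = 1 := by
    rw [Finset.sum_eq_single (z, y)]
    · simp
    · rintro ⟨a, b⟩ _ hne
      rw [if_neg]
      rintro ⟨h1, h2⟩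
      exact hne (Prod.ext h2.symm h1.symm)
    · intro hn
      exact absurd h2 hn
  cases b with
  | true =>
    simp only [use, if_true]
    rw [Finset.sum_add_distrib, e1, e2]
  | false =>
    simp only [use, Bool.false_eq_true, if_false]
    have : ∀ d : U × U, (if y = d.1 ∧ z = d.2 then 2 else 0) =
        2 * (if y = d.1 ∧ z = d.2 then 1 else 0) := by
      intro d; split_ifs <;> rfl
    rw [Finset.sum_congr rfl fun d _ => this d, ← Finset.mul_sum, e1, mul_one]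

open Classical in
/-- Schemes have bounded size. -/
theorem length_bound {k : ℕ} (G : SimpleGraph (Fin n)) (H : SimpleGraph (Fin m)) (M : ℕ)
    (φ : Fin n → (Fin m → ℕ)) (P : Fin n → Fin n → List (Step (Fin m → ℕ)))
    (h : IsScheme G (subdiv M H) k φ P) :
    ∑ p ∈ edges G, (P p.1 p.2).length ≤ k * (M * (edges H).card) := by
  set K := subdiv M H with hK
  let D : Finset ((Fin m → ℕ) × (Fin m → ℕ)) :=
    ((edges H ×ˢ Finset.range M).image fun q => (lat M q.1.1 q.1.2 q.2, lat M q.1.1 q.1.2 (q.2 + 1))) ∪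
    ((edges H ×ˢ Finset.range M).image fun q => (lat M q.1.1 q.1.2 (q.2 + 1), lat M q.1.1 q.1.2 q.2))
  have hDcard : D.card ≤ 2 * (M * (edges H).card) := by
    refine (Finset.card_union_le _ _).trans ?_
    have h1 := Finset.card_image_le (s := edges H ×ˢ Finset.range M)
      (f := fun q => (lat M q.1.1 q.1.2 q.2, lat M q.1.1 q.1.2 (q.2 + 1)))
    have h2 := Finset.card_image_le (s := edges H ×ˢ Finset.range M)
      (f := fun q => (lat M q.1.1 q.1.2 (q.2 + 1), lat M q.1.1 q.1.2 q.2))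
    rw [Finset.card_product, Finset.card_range] at h1 h2
    rw [mul_comm M]
    omega
  have hD : ∀ d, d ∈ D ↔ K.Adj d.1 d.2 := by
    intro d
    simp only [D, Finset.mem_union, Finset.mem_image, Finset.mem_product, Finset.mem_range,
      Prod.exists]
    constructor
    · rintro (⟨v, w, j, ⟨hp, hj⟩, rfl⟩ | ⟨v, w, j, ⟨hp, hj⟩, rfl⟩)
      · exact subdiv_adj_lat hp hj
      · exact (subdiv_adj_lat hp hj).symm
    · intro hd
      obtain ⟨p, hp, j, hj, ⟨h1, h2⟩ | ⟨h1, h2⟩⟩ := subdiv_adj hd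
      · exact Or.inl ⟨p.1, p.2, j, ⟨hp, hj⟩, (Prod.ext h1 h2).symm⟩
      · exact Or.inr ⟨p.1, p.2, j, ⟨hp, hj⟩, (Prod.ext h2 h1).symm⟩
  have hstep : ∀ s : Step (Fin m → ℕ), K.Adj s.1 s.2.1 → ∑ d ∈ D, use d.1 d.2 s = 2 := by
    intro s hs
    exact sum_use D s ((hD _).2 hs) ((hD _).2 hs.symm)
  have hwalk : ∀ (l : List (Step (Fin m → ℕ))) (a b : Fin m → ℕ), IsWalk K a l b →
      ∑ d ∈ D, uses d.1 d.2 l = 2 * l.length := by
    intro l
    induction l with
    | nil => intro a b _; simp [uses]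
    | cons s l ih =>
      rintro a b ⟨-, h2, h3⟩
      simp only [uses_cons, Finset.sum_add_distrib, List.length_cons]
      rw [hstep s h2, ih _ _ h3]
      ring
  have h1 : ∑ d ∈ D, ∑ p ∈ edges G, uses d.1 d.2 (P p.1 p.2) ≤ D.card * k := by
    rw [← smul_eq_mul]
    exact Finset.sum_le_card_nsmul _ _ _ fun d hd => (h.edge d.1 d.2 ((hD d).1 hd)).2.1
  rw [Finset.sum_comm] at h1
  have h2 : ∑ p ∈ edges G, ∑ d ∈ D, uses d.1 d.2 (P p.1 p.2) =
      2 * ∑ p ∈ edges G, (P p.1 p.2).length := by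
    rw [Finset.mul_sum]
    exact Finset.sum_congr rfl fun p hp => hwalk _ _ _ (h.walk p hp).2
  rw [h2] at h1
  have h3 : D.card * k ≤ 2 * (M * (edges H).card) * k := Nat.mul_le_mul_right _ hDcard
  nlinarith

/-- **Main theorem.** -/
theorem main {k : ℕ} (hk : 0 < k) (G : SimpleGraph (Fin n)) (hG : ∀ v, ∃ w, G.Adj v w)
    (H : SimpleGraph (Fin m)) :
    ((∃ f : Body G → Body H, Continuous f ∧ ∀ y, (f ⁻¹' {y}).ncard = k) ↔
      ∃ φ P, IsScheme G (subdiv (n + 1) H) k φ P) ∧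
    ∀ φ P, IsScheme G (subdiv (n + 1) H) k φ P →
      ∑ p ∈ edges G, (P p.1 p.2).length ≤ k * ((n + 1) * (edges H).card) := by
  refine ⟨⟨?_, ?_⟩, fun φ P h => length_bound G H (n + 1) φ P h⟩
  · rintro ⟨f, hf, hfib⟩
    exact exists_scheme_of_map hk G hG H f hf hfib
  · rintro ⟨φ, P, h⟩
    exact exists_map_of_scheme' G hG H (by omega) φ P h

end H905R2.KMap
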