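import Pool.Agent.H905R2.LamBasic

set_option autoImplicit false

namespace Pool.Agent.H905R2.Lam

/-- explicit bound beyond which `K` has no zero on the positive side -/
lemma K_pos {u v n : ℤ} (hv : 1 ≤ v)
    (h : |u| + (|u| + 3 * v) * v + v ^ 3 + 1 ≤ n) : 0 < K u v n := by
  have hu : u ≤ |u| := le_abs_self u
  have hu0 : 0 ≤ |u| := abs_nonneg u
  generalize hU : |u| = U at *
  have hv3 : 0 < v ^ 3 := by positivity
  have hUv : 0 ≤ (U + 3 * v) * v := by positivity
  have hn1 : 1 ≤ n := by linarith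
  -- n^2 (n - u) ≥ n^2 ((U+3v)v + v^3 + 1)
  have h1 : (U + 3 * v) * v + v ^ 3 + 1 ≤ n - u := by linarith
  have h2 : n ^ 2 * ((U + 3 * v) * v + v ^ 3 + 1) ≤ n ^ 2 * (n - u) :=
    mul_le_mul_of_nonneg_left h1 (by positivity)
  have h3 : (u + 3 * v) * v * n ≤ (U + 3 * v) * v * n := by
    have : (u + 3 * v) ≤ (U + 3 * v) := by linarith
    have := mul_le_mul_of_nonneg_right this (by linarith : (0:ℤ) ≤ v)
    exact mul_le_mul_of_nonneg_right this (by linarith)
  have hn2 : n ≤ n ^ 2 := by nlinarith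
  have h4 : (U + 3 * v) * v * n ≤ (U + 3 * v) * v * n ^ 2 := mul_le_mul_of_nonneg_left hn2 hUv
  have h5 : v ^ 3 * 1 ≤ v ^ 3 * n ^ 2 := mul_le_mul_of_nonneg_left (by nlinarith) hv3.le
  have hK : K u v n = n ^ 2 * (n - u) - (u + 3 * v) * v * n - v ^ 3 := by unfold K; ring
  rw [hK]
  nlinarith

lemma partA_pos (u v : ℤ) (hv : 1 ≤ v) (N : ℤ) : ∃ n, N ≤ n ∧ e u v n = 1 := by
  by_contra hcon
  push Not at hcon
  have hall : ∀ n, N ≤ n → e u v n = -1 := fun n hn =>
    (e_pm u v n).resolve_left (hcon n hn)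
  have hv0 : v ≠ 0 := by omega
  -- a large parameter
  obtain ⟨B, hB⟩ : ∃ B : ℤ, B = |N| + |u| + (|u| + 3 * v) * v + v ^ 3 + 10 := ⟨_, rfl⟩
  have hu0 : 0 ≤ |u| := abs_nonneg u
  have hN0 : N ≤ |N| := le_abs_self N
  have hNn : 0 ≤ |N| := abs_nonneg N
  have hv3 : 0 < v ^ 3 := by positivity
  have hUv : 0 ≤ (|u| + 3 * v) * v := by positivity
  have hUv' : 3 * v ≤ (|u| + 3 * v) * v := by nlinarith
  have hu1 : u ≤ |u| := le_abs_self u
  have hu2 : -|u| ≤ u := neg_abs_le u
  have hgood : ∀ n, B ≤ n → K u v n ≠ 0 := fun n hn => (K_pos hv (by linarith)).ne'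
  have hgoodN : ∀ n, B ≤ n → N ≤ n := fun n hn => by linarith
  have hB10 : 10 ≤ B := by linarith
  have hBv : 3 * v + 10 ≤ B := by linarith
  have hBu : |u| + 10 ≤ B := by linarith
  -- points; t = 2 B
  set t : ℤ := 2 * B with ht
  have ht20 : 20 ≤ t := by linarith
  have hvt : t ≤ v * t := by nlinarith
  have hvvt : v * t ≤ v * (v * t) := by nlinarith
  -- n = v^2 t
  set n : ℤ := v * (v * t) with hn
  have hnB : B ≤ n := by linarith
  have hn'B : B ≤ n + v := by linarith
  -- R at n + v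
  have hR1 := @rel_R u v (n + v) ((v * t + 1) * (n + v - u)) hv0 (by rw [hn]; ring)
  have key1 : B ≤ (v * t + 1) * (n + v - u) - (n + v) - 2 * v := by
    have : (v * t + 1) * (n + v - u) - (n + v) - 2 * v = (v * t) * (n + v - u) - u - 2 * v := by ring
    rw [this]
    have h1 : B ≤ n + v - u := by linarith
    have h2 : 2 * B ≤ v * t := by linarith
    have h3 : (2 * B) * (n + v - u) ≤ (v * t) * (n + v - u) :=
      mul_le_mul_of_nonneg_right h2 (by linarith)
    nlinarith
  have hR1' := hR1 (hgood _ key1)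
  rw [hall _ (hgoodN _ hn'B), hall _ (hgoodN _ key1)] at hR1'
  have hA : e u v (u - n) = 1 := by
    have : u + v - (n + v) = u - n := by ring
    rw [this] at hR1'
    linarith
  -- n2 = v q, q = v^2 t^2 - u t - 1
  set q : ℤ := t * (n - u) - 1 with hq
  have hqB : 4 * B ≤ q := by
    have h1 : B ≤ n - u := by nlinarith
    nlinarith
  have hvq : q ≤ v * q := by nlinarith
  have hR2 := @rel_R u v (v * q) (q * (v * q - u)) hv0 (by ring)
  have key2 : B ≤ q * (v * q - u) - v * q - 2 * v := by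
    have h1 : 2 * B ≤ v * q - u := by linarith
    have h2 : q * (v * q - u) - v * q = (q - 1) * (v * q - u) - u := by ring
    rw [h2]
    have h3 : (4 * B - 1) * (v * q - u) ≤ (q - 1) * (v * q - u) :=
      mul_le_mul_of_nonneg_right (by linarith) (by linarith)
    nlinarith
  have hR2' := hR2 (hgood _ key2)
  rw [hall _ (hgoodN _ (by linarith)), hall _ (hgoodN _ key2)] at hR2'
  have hC : e u v (u + v - v * q) = 1 := by linarith
  -- S at n : rho(n) = u + v - v q
  have hρ : u + 2 * v - v * t * (n - u) = u + v - v * q := by rw [hq]; ring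
  have hρ0 : K u v (u + v - v * q) ≠ 0 := by
    -- since K (σ (v q)) ≠ 0
    intro h0
    have := id_R u v (v * q) (q * (v * q - u)) (by ring)
    rw [h0, mul_zero, neg_zero] at this
    exact mul_ne_zero (pow_ne_zero 3 hv0) (hgood _ key2) this
  have hS := @rel_S u v n (v * t * (n - u)) hv0 (by rw [hn]; ring) (by rw [hρ]; exact hρ0)
  rw [hρ, hA, hC, hall _ (hgoodN _ hnB)] at hS
  norm_num at hS

lemma partA (u v : ℤ) (hv : 1 ≤ v) (N : ℤ) :
    (∃ n, N ≤ n ∧ lam (K u v n) = lam v) ∧ (∃ n, n ≤ N ∧ lam (K u v n) = lam v) := by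
  have conv : ∀ u n, e u v n = 1 → lam (K u v n) = lam v := by
    intro u n h
    unfold e at h
    have := lam_mul_self v
    have h2 : lam v * (lam v * lam (K u v n)) = lam v * 1 := by rw [h]
    rw [← mul_assoc, this] at h2
    linarith
  constructor
  · obtain ⟨n, hn, h⟩ := partA_pos u v hv N
    exact ⟨n, hn, conv _ _ h⟩
  · obtain ⟨n, hn, h⟩ := partA_pos (-3 * v - u) v hv (-v - N)
    refine ⟨-v - n, by linarith, ?_⟩
    have h2 := conv _ _ h
    have h3 : K (-3 * v - u) v n = - K u v (-v - n) := by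
      have := K_refl u v (-v - n)
      have h4 : -v - (-v - n) = n := by ring
      rw [h4] at this
      exact this
    rw [h3, lam_neg] at h2
    exact h2

end Pool.Agent.H905R2.Lam
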