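import Pool.Agent.H905R2.LamA

set_option autoImplicit false

namespace Pool.Agent.H905R2.Lam

/-- the sign of the simplest cubic `x^3 - a x^2 - (a+3) x - 1` -/
def s (a n : ℤ) : ℤ := lam (n ^ 3 - a * n ^ 2 - (a + 3) * n - 1)

lemma f_ne (a n : ℤ) : n ^ 3 - a * n ^ 2 - (a + 3) * n - 1 ≠ 0 := by
  intro h
  have h2 : (n ^ 3 - a * n ^ 2 - (a + 3) * n - 1) % 2 = 0 := by rw [h]; rfl
  have h3 : Odd (n ^ 3 - a * n ^ 2 - (a + 3) * n - 1) := by
    rcases Int.even_or_odd n with hn | hn <;> rcases Int.even_or_odd a with ha | ha <;>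
      obtain ⟨m, rfl⟩ := hn <;> obtain ⟨b, rfl⟩ := ha
    · exact ⟨4 * m ^ 3 - 4 * b * m ^ 2 - (b + b + 3) * m - 1, by ring⟩
    · exact ⟨4 * m ^ 3 - 2 * (2 * b + 1) * m ^ 2 - (2 * b + 1 + 3) * m - 1, by ring⟩
    · exact ⟨4 * m ^ 3 + 6 * m ^ 2 + 3 * m - 4 * b * m ^ 2 - 4 * b * m - b - 2 * b * m - b
        - 3 * m - 2, by ring⟩
    · exact ⟨4 * m ^ 3 + 6 * m ^ 2 + 3 * m - (2 * b + 1) * (2 * m ^ 2 + 2 * m) - b
        - (2 * b + 4) * m - b - 3, by ring⟩
  rw [Int.odd_iff] at h3
  omega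

lemma s_pm (a n : ℤ) : s a n = 1 ∨ s a n = -1 := lam_pm _

/-- `f(n) f(a - n) = f(-n^2 + a n + a + 2)` -/
lemma s_S (a n : ℤ) : s a n * s a (a - n) = s a (a + 2 + n * (a - n)) := by
  unfold s
  rw [← lam_mul (f_ne a n) (f_ne a _)]
  congr 1
  ring

/-- `f(n) f(a + 1 - n) = - f(n^2 - (a+1) n - 2)` -/
lemma s_R (a n : ℤ) : s a n * s a (a + 1 - n) = s a (n * (n - a - 1) - 2) := by
  unfold s
  rw [← lam_mul (f_ne a n) (f_ne a _), ← lam_neg]
  congr 1
  ring

lemma s_refl (a n : ℤ) : s (-3 - a) (-1 - n) = s a n := by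
  unfold s
  rw [← lam_neg]
  congr 1
  ring

lemma s_zero (a : ℤ) : s a 0 = 1 := by
  unfold s
  have : (0:ℤ) ^ 3 - a * 0 ^ 2 - (a + 3) * 0 - 1 = -1 := by ring
  rw [this, lam_neg, lam_one]

lemma s_neg_one (a : ℤ) : s a (-1) = 1 := by
  unfold s
  have : (-1:ℤ) ^ 3 - a * (-1) ^ 2 - (a + 3) * (-1) - 1 = 1 := by ring
  rw [this, lam_one]

/-- Downward induction in the two outer ranges. -/
lemma outer {a N M : ℤ} (ha : -1 ≤ a) (hN : 0 ≤ N) (hM : (N + a + 5) ^ 2 ≤ M)
    (H : ∀ n, N < |n| → |n| ≤ M → s a n = 1) :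
    ∀ j : ℕ, ∀ k : ℤ, 3 ≤ k → N + 2 - j ≤ k → k + a + 1 ≤ M →
      s a (-k) = 1 ∧ s a (a + k) = 1 := by
  intro j
  induction j with
  | zero =>
    intro k hk3 hk hkM
    simp only [Nat.cast_zero, sub_zero] at hk
    constructor
    · apply H
      · rw [abs_neg, abs_of_pos (by linarith)]; linarith
      · rw [abs_neg, abs_of_pos (by linarith)]; linarith
    · apply H
      · rw [abs_of_pos (by linarith)]; linarith
      · rw [abs_of_pos (by linarith)]; linarith
  | succ j ih =>
    intro k hk3 hk hkM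
    by_cases hkj : N + 2 - (j:ℤ) ≤ k
    · exact ih k hk3 hkj hkM
    push Not at hkj
    push_cast at hk
    have hkN : k ≤ N + 1 := by
      have : (0:ℤ) ≤ (j:ℤ) := by positivity
      linarith
    have hup : ∀ k', k < k' → k' + a + 1 ≤ M → s a (-k') = 1 ∧ s a (a + k') = 1 := by
      intro k' h1 h2
      exact ih k' (by linarith) (by linarith) h2
    have hbd : k * (k + a) + k + a + 10 ≤ M := by
      have h1 : k * (k + a) ≤ (N + 1) * (N + 1 + a) := by
        apply mul_le_mul hkN (by linarith) (by linarith) (by linarith)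
      nlinarith
    have hka : k ≤ k * (k + a) - k := by
      have h1 : 2 ≤ k + a := by linarith
      have : k * 2 ≤ k * (k + a) := mul_le_mul_of_nonneg_left h1 (by linarith)
      linarith
    have hkka : k + a + 3 ≤ k * (k + a) := by
      nlinarith
    -- S at -k
    have e1 := s_S a (-k)
    have e1' : a + 2 + -k * (a - -k) = -(k * (k + a) - a - 2) := by ring
    have e1'' : a - -k = a + k := by ring
    rw [e1', e1''] at e1
    rw [(hup (k * (k + a) - a - 2) (by linarith) (by linarith)).1] at e1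
    -- R at -k
    have e2 := s_R a (-k)
    have e2' : -k * (-k - a - 1) - 2 = a + (k * (k + a) + k - 2 - a) := by ring
    have e2'' : a + 1 - -k = a + (k + 1) := by ring
    rw [e2', e2''] at e2
    rw [(hup (k * (k + a) + k - 2 - a) (by linarith) (by linarith)).2,
      (hup (k + 1) (by linarith) (by linarith)).2] at e2
    have h1 : s a (-k) = 1 := by linarith
    refine ⟨h1, ?_⟩
    rw [h1] at e1
    linarith

/-- If `s a` is `1` on `N < |n| ≤ M`, with `M ≥ (N+a+5)^2`, it is `1` on `|n| ≤ N`. -/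
lemma two_sided {a N M : ℤ} (ha : -1 ≤ a) (hN : 0 ≤ N) (hM : (N + a + 5) ^ 2 ≤ M)
    (H : ∀ n, N < |n| → |n| ≤ M → s a n = 1) :
    ∀ n, |n| ≤ N → s a n = 1 := by
  have Q : ∀ k, 3 ≤ k → k + a + 1 ≤ M → s a (-k) = 1 ∧ s a (a + k) = 1 := by
    intro k hk hkM
    exact outer ha hN hM H (N + 2).toNat k hk (by
      have : N + 2 ≤ ((N + 2).toNat : ℤ) := Int.self_le_toNat _
      linarith) hkM
  have hM1 : 3 * (N + a + 5) + 4 ≤ M := by nlinarith
  have hM2 : a * a + 10 * a + 20 ≤ M := by nlinarith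
  have m2 : s a (-2) = 1 := by
    have e2 := s_R a (-2)
    have e2' : (-2:ℤ) * (-2 - a - 1) - 2 = a + (a + 4) := by ring
    have e2'' : a + 1 - -2 = a + 3 := by ring
    rw [e2', e2'', (Q 3 le_rfl (by linarith)).2, (Q (a + 4) (by linarith) (by linarith)).2] at e2
    linarith
  have a2 : s a (a + 2) = 1 := by
    have e1 := s_S a (-2)
    have e1' : a + 2 + -2 * (a - -2) = -(a + 2) := by ring
    have e1'' : a - -2 = a + 2 := by ring
    rw [e1', e1'', m2, one_mul] at e1
    rw [e1]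
    by_cases h1 : 1 ≤ a
    · exact (Q (a + 2) (by linarith) (by linarith)).1
    · have : a = 0 ∨ a = -1 := by omega
      rcases this with rfl | rfl
      · simpa using m2
      · simpa using s_neg_one (-1)
  have a1 : s a (a + 1) = 1 := by
    have e2 := s_R a 0
    have e2' : (0:ℤ) * (0 - a - 1) - 2 = -2 := by ring
    have e2'' : a + 1 - 0 = a + 1 := by ring
    rw [e2', e2'', m2, s_zero, one_mul] at e2
    exact e2
  have mid : ∀ j : ℕ, (j:ℤ) ≤ a → s a (j:ℤ) = 1 := by
    intro j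
    induction j with
    | zero => intro _; simpa using s_zero a
    | succ j ih =>
      intro hj
      push_cast at hj ⊢
      have hj0 : (0:ℤ) ≤ (j:ℤ) := by positivity
      have hj1 := ih (by linarith)
      generalize (j:ℤ) = m at *
      have hmul : 0 ≤ m * (a - m) := mul_nonneg hj0 (by linarith)
      have hmul2 : m * (a - m) ≤ a * a := by nlinarith
      have e1 := s_S a m
      rw [hj1, one_mul] at e1
      have e1' : s a (a + 2 + m * (a - m)) = 1 := by
        by_cases h0 : m * (a - m) = 0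
        · rw [h0, add_zero]; exact a2
        · have : a + 2 + m * (a - m) = a + (2 + m * (a - m)) := by ring
          rw [this]
          exact (Q _ (by omega) (by linarith)).2
      rw [e1'] at e1
      have e2 := s_R a (m + 1)
      have e2' : (m + 1) * (m + 1 - a - 1) - 2 = -((m + 1) * (a - m) + 2) := by ring
      have e2'' : a + 1 - (m + 1) = a - m := by ring
      have h3 : 1 ≤ (m + 1) * (a - m) := by nlinarith
      have h4 : (m + 1) * (a - m) ≤ a * a + a := by nlinarith
      rw [e2', e2'', e1, (Q _ (by linarith) (by linarith)).1] at e2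
      linarith
  intro n hn
  rw [abs_le] at hn
  by_cases c1 : n ≤ -3
  · have := (Q (-n) (by linarith) (by linarith)).1
    rwa [neg_neg] at this
  by_cases c2 : n = -2
  · rw [c2]; exact m2
  by_cases c3 : n = -1
  · rw [c3]; exact s_neg_one a
  have hn0 : 0 ≤ n := by omega
  by_cases c4 : n ≤ a
  · have := mid n.toNat (by rw [Int.toNat_of_nonneg hn0]; exact c4)
    rwa [Int.toNat_of_nonneg hn0] at this
  by_cases c5 : n = a + 1
  · rw [c5]; exact a1
  by_cases c6 : n = a + 2
  · rw [c6]; exact a2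
  by_cases c7 : n = 0
  · rw [c7]; exact s_zero a
  have := (Q (n - a) (by omega) (by linarith)).2
  have h8 : a + (n - a) = n := by ring
  rwa [h8] at this

/-- Two sided statement for all `a`. -/
lemma two_sided_all {a N M : ℤ} (hN : 0 ≤ N) (hM : (N + |a| + 7) ^ 2 ≤ M)
    (H : ∀ n, N < |n| → |n| ≤ M → s a n = 1) :
    ∀ n, |n| ≤ N → s a n = 1 := by
  by_cases ha : -1 ≤ a
  · apply two_sided ha hN _ H
    have h1 : a ≤ |a| := le_abs_self a
    have h2 : 0 ≤ N + a + 5 := by linarith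
    nlinarith [abs_nonneg a]
  · push Not at ha
    have habs : |a| = -a := abs_of_neg (by linarith)
    rw [habs] at hM
    intro n hn
    rw [← s_refl a n]
    apply two_sided (a := -3 - a) (N := N + 1) (M := M - 1) (by linarith) (by linarith)
      (by nlinarith) _ _ _
    · intro m h1 h2
      have : s (-3 - a) m = s a (-1 - m) := by
        rw [← s_refl a (-1 - m)]
        congr 1
        ring
      rw [this]
      apply H
      · rcases abs_cases m with ⟨h3, _⟩ | ⟨h3, _⟩ <;> rcases abs_cases (-1 - m) with ⟨h4, _⟩ | ⟨h4, _⟩ <;>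
          omega
      · rcases abs_cases m with ⟨h3, _⟩ | ⟨h3, _⟩ <;> rcases abs_cases (-1 - m) with ⟨h4, _⟩ | ⟨h4, _⟩ <;>
          omega
    · rcases abs_cases n with ⟨h3, _⟩ | ⟨h3, _⟩ <;> rcases abs_cases (-1 - n) with ⟨h4, _⟩ | ⟨h4, _⟩ <;>
          omega

/-- The sign `-1` once implies the sign `-1` again, soon after (positive side). -/
lemma neg_pos {a n0 N : ℤ} (hw : s a n0 = -1) (hN : |n0| ≤ N) :
    ∃ n, N < n ∧ n ≤ (N + 2 * |a| + 11) ^ 4 ∧ s a n = -1 := by
  by_contra hcon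
  push Not at hcon
  have hall : ∀ n, N < n → n ≤ (N + 2 * |a| + 11) ^ 4 → s a n = 1 := fun n h1 h2 =>
    (s_pm a n).resolve_right (hcon n h1 h2)
  have hN0 : 0 ≤ N := le_trans (abs_nonneg _) hN
  have hA0 := abs_nonneg a
  have hA1 := le_abs_self a
  have hA2 := neg_abs_le a
  generalize hA : |a| = A at *
  have hfour : ∀ x : ℤ, (N + 2 * A + 10) ^ 2 ≤ x ^ 2 → True := fun _ _ => trivial
  set P : ℤ := (N + 2 * A + 10) ^ 2 with hP
  have hP1 : 10 * (N + 2 * A + 10) ≤ P := by rw [hP]; nlinarith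
  have hP2 : P + A + 1 ≤ (N + 2 * A + 11) ^ 2 := by rw [hP]; nlinarith
  have hP3 : (P + A + 1) ^ 2 ≤ (N + 2 * A + 11) ^ 4 := by
    have : (N + 2 * A + 11) ^ 4 = ((N + 2 * A + 11) ^ 2) ^ 2 := by ring
    rw [this]
    exact pow_le_pow_left₀ (by linarith) hP2 2
  have hP4 : P ≤ (P + A + 1) ^ 2 := by nlinarith
  have hneg : ∀ k, N + A + 3 < k → k ≤ P → s a (-k) = 1 := by
    intro k h1 h2
    have e2 := s_R a (a + 1 + k)
    have e2' : a + 1 - (a + 1 + k) = -k := by ring
    have e2'' : (a + 1 + k) * (a + 1 + k - a - 1) - 2 = (a + 1 + k) * k - 2 := by ring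
    rw [e2', e2''] at e2
    have h3 : (4:ℤ) * k ≤ (a + 1 + k) * k := mul_le_mul_of_nonneg_right (by linarith) (by linarith)
    have h4 : (a + 1 + k) * k ≤ (P + A + 1) * (P + A + 1) :=
      mul_le_mul (by linarith) (by linarith) (by linarith) (by linarith)
    rw [hall (a + 1 + k) (by linarith) (by nlinarith), hall ((a + 1 + k) * k - 2) (by linarith)
      (by nlinarith)] at e2
    linarith
  have := two_sided_all (a := a) (N := N + A + 3) (M := P) (by linarith)
    (by rw [hA, hP]; apply pow_le_pow_left₀ (by linarith); linarith) (by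
      intro n h1 h2
      rcases abs_cases n with ⟨h3, h4⟩ | ⟨h3, h4⟩
      · rw [h3] at h1 h2
        exact hall n (by linarith) (by linarith)
      · rw [h3] at h1 h2
        have := hneg (-n) h1 h2
        rwa [neg_neg] at this) n0 (by linarith)
  rw [hw] at this
  norm_num at this

/-- The sign `+1` occurs in every long interval (positive side). -/
lemma pos_pos (a : ℤ) {N : ℤ} (hN0 : 0 ≤ N) :
    ∃ n, N < n ∧ n ≤ (N + 2 * |a| + 11) ^ 4 ∧ s a n = 1 := by
  by_contra hcon
  push Not at hcon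
  have hall : ∀ n, N < n → n ≤ (N + 2 * |a| + 11) ^ 4 → s a n = -1 := fun n h1 h2 =>
    (s_pm a n).resolve_left (hcon n h1 h2)
  have hA0 := abs_nonneg a
  have hA1 := le_abs_self a
  have hA2 := neg_abs_le a
  generalize hA : |a| = A at *
  set P : ℤ := (N + 2 * A + 10) ^ 2 with hP
  have hP1 : 10 * (N + 2 * A + 10) ≤ P := by rw [hP]; nlinarith
  have hP2 : P + A + 1 ≤ (N + 2 * A + 11) ^ 2 := by rw [hP]; nlinarith
  have hP3 : (P + A + 1) ^ 2 ≤ (N + 2 * A + 11) ^ 4 := by
    have : (N + 2 * A + 11) ^ 4 = ((N + 2 * A + 11) ^ 2) ^ 2 := by ring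
    rw [this]
    exact pow_le_pow_left₀ (by linarith) hP2 2
  have hP4 : P ≤ (P + A + 1) ^ 2 := by nlinarith
  -- t = N + A + 5
  obtain ⟨t, ht⟩ : ∃ t : ℤ, t = N + A + 5 := ⟨_, rfl⟩
  have hneg : ∀ k, N + A + 3 < k → k ≤ P → s a (-k) = 1 := by
    intro k h1 h2
    have e2 := s_R a (a + 1 + k)
    have e2' : a + 1 - (a + 1 + k) = -k := by ring
    have e2'' : (a + 1 + k) * (a + 1 + k - a - 1) - 2 = (a + 1 + k) * k - 2 := by ring
    rw [e2', e2''] at e2
    have h3 : (4:ℤ) * k ≤ (a + 1 + k) * k := mul_le_mul_of_nonneg_right (by linarith) (by linarith)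
    have h4 : (a + 1 + k) * k ≤ (P + A + 1) * (P + A + 1) :=
      mul_le_mul (by linarith) (by linarith) (by linarith) (by linarith)
    rw [hall (a + 1 + k) (by linarith) (by nlinarith), hall ((a + 1 + k) * k - 2) (by linarith)
      (by nlinarith)] at e2
    linarith
  -- S at x = a + k, k = N + A + 5 : a - x = -k
  have e1 := s_S a (a + t)
  have e1' : a - (a + t) = -t := by ring
  rw [e1'] at e1
  have hx : s a (a + t) * s a (-t) = s a (-((a + t) * t - a - 2)) := by
    rw [e1]; congr 1; ring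
  have b1 : (5:ℤ) * t ≤ (a + t) * t := mul_le_mul_of_nonneg_right (by linarith) (by linarith)
  have b2 : (a + t) * t ≤ (N + 2 * A + 5) * (N + A + 5) :=
    mul_le_mul (by linarith) (by linarith) (by linarith) (by linarith)
  have b3 : (N + 2 * A + 5) * (N + A + 5) + A + 2 ≤ P := by rw [hP]; nlinarith
  rw [hneg t (by linarith) (by linarith), hneg ((a + t) * t - a - 2) (by linarith) (by linarith)] at hx
  by_cases hc : N < a + t
  · rw [hall (a + t) hc (by nlinarith)] at hx
    norm_num at hx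
  · linarith

end Pool.Agent.H905R2.Lam
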