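import Mathlib

set_option autoImplicit false

namespace Pool.Agent.H905R2.Lam

/-- The Liouville function of `|n|`. -/
def lam (n : ℤ) : ℤ := (-1) ^ (ArithmeticFunction.cardFactors n.natAbs)

/-- The cubic `x^3 - u x^2 - (u + 3 v) v x - v^3`. -/
def K (u v x : ℤ) : ℤ := x ^ 3 - u * x ^ 2 - (u + 3 * v) * v * x - v ^ 3

lemma lam_mul {x y : ℤ} (hx : x ≠ 0) (hy : y ≠ 0) : lam (x * y) = lam x * lam y := by
  unfold lam
  rw [Int.natAbs_mul, ArithmeticFunction.cardFactors_mul (by simpa using hx) (by simpa using hy),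
    pow_add]

lemma lam_neg (x : ℤ) : lam (-x) = lam x := by
  unfold lam; rw [Int.natAbs_neg]

lemma lam_pm (x : ℤ) : lam x = 1 ∨ lam x = -1 := by
  unfold lam; exact neg_one_pow_eq_or ℤ _

lemma lam_mul_self (x : ℤ) : lam x * lam x = 1 := by
  rcases lam_pm x with h | h <;> rw [h] <;> norm_num

lemma lam_cube {x : ℤ} (hx : x ≠ 0) : lam (x ^ 3) = lam x := by
  have : x ^ 3 = x * (x * x) := by ring
  rw [this, lam_mul hx (mul_ne_zero hx hx), lam_mul hx hx, lam_mul_self, mul_one]

lemma lam_one : lam 1 = 1 := by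
  unfold lam; simp

lemma K_refl (u v x : ℤ) : K (-3 * v - u) v (-v - x) = - K u v x := by
  unfold K; ring

/-- First reflection identity. -/
lemma id_S (u v n w : ℤ) (h : n * (n - u) = v * w) :
    v ^ 3 * K u v (u + 2 * v - w) = K u v n * K u v (u - n) := by
  have e : v ^ 3 * K u v (u + 2 * v - w)
      = (u * v + 2 * v ^ 2 - v * w) ^ 3 - u * v * (u * v + 2 * v ^ 2 - v * w) ^ 2
        - (u + 3 * v) * v ^ 3 * (u * v + 2 * v ^ 2 - v * w) - v ^ 6 := by
    unfold K; ring
  rw [e, ← h]; unfold K; ring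

/-- Second reflection identity. -/
lemma id_R (u v n w : ℤ) (h : n * (n - u) = v * w) :
    v ^ 3 * K u v (w - n - 2 * v) = - (K u v n * K u v (u + v - n)) := by
  have e : v ^ 3 * K u v (w - n - 2 * v)
      = (v * w - v * n - 2 * v ^ 2) ^ 3 - u * v * (v * w - v * n - 2 * v ^ 2) ^ 2
        - (u + 3 * v) * v ^ 3 * (v * w - v * n - 2 * v ^ 2) - v ^ 6 := by
    unfold K; ring
  rw [e, ← h]; unfold K; ring

/-- normalised sign -/
def e (u v n : ℤ) : ℤ := lam v * lam (K u v n)

lemma e_pm (u v n : ℤ) : e u v n = 1 ∨ e u v n = -1 := by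
  unfold e
  rcases lam_pm v with h | h <;> rcases lam_pm (K u v n) with h' | h' <;> rw [h, h'] <;> norm_num

lemma rel_S {u v n w : ℤ} (hv : v ≠ 0) (h : n * (n - u) = v * w)
    (h0 : K u v (u + 2 * v - w) ≠ 0) :
    e u v n * e u v (u - n) = e u v (u + 2 * v - w) := by
  have h1 := id_S u v n w h
  have hprod : K u v n * K u v (u - n) ≠ 0 := by
    rw [← h1]; exact mul_ne_zero (pow_ne_zero _ hv) h0
  have hn := left_ne_zero_of_mul hprod
  have hn' := right_ne_zero_of_mul hprod
  have h2 := congrArg lam h1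
  rw [lam_mul (pow_ne_zero _ hv) h0, lam_mul hn hn', lam_cube hv] at h2
  unfold e
  rw [h2]
  have := lam_mul_self v
  linear_combination (lam (K u v n) * lam (K u v (u - n))) * this

lemma rel_R {u v n w : ℤ} (hv : v ≠ 0) (h : n * (n - u) = v * w)
    (h0 : K u v (w - n - 2 * v) ≠ 0) :
    e u v n * e u v (u + v - n) = e u v (w - n - 2 * v) := by
  have h1 := id_R u v n w h
  have hprod : K u v n * K u v (u + v - n) ≠ 0 := by
    have : -(K u v n * K u v (u + v - n)) ≠ 0 := by
      rw [← h1]; exact mul_ne_zero (pow_ne_zero _ hv) h0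
    simpa using this
  have hn := left_ne_zero_of_mul hprod
  have hn' := right_ne_zero_of_mul hprod
  have h2 := congrArg lam h1
  rw [lam_neg, lam_mul (pow_ne_zero _ hv) h0, lam_mul hn hn', lam_cube hv] at h2
  unfold e
  rw [h2]
  have := lam_mul_self v
  linear_combination (lam (K u v n) * lam (K u v (u + v - n))) * this

end Pool.Agent.H905R2.Lam
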