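import Pool.Agent.H905R2.LamB

set_option autoImplicit false

namespace Pool.Agent.H905R2.Lam

lemma K2_ne {u : ℤ} (hu : Odd u) (hu3 : u ≠ -3) (n : ℤ) : K u 2 n ≠ 0 := by
  intro h
  unfold K at h
  have hd : n ∣ 8 := ⟨n ^ 2 - u * n - 2 * (u + 6), by linarith⟩
  have h1 := Int.le_of_dvd (by norm_num) hd
  have h2 := Int.le_of_dvd (by norm_num) ((neg_dvd).mpr hd)
  have h3 : -8 ≤ n := by linarith
  interval_cases n <;> omega

lemma exists_half {u : ℤ} (hu : Odd u) (n : ℤ) : ∃ w, n * (n - u) = 2 * w := by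
  have : Even (n * (n - u)) := by
    rcases Int.even_or_odd n with h | h
    · exact h.mul_right _
    · exact (h.sub_odd hu).mul_left _
  obtain ⟨w, hw⟩ := this
  exact ⟨w, by linarith⟩

/-- Downward induction. -/
lemma descent2 {u N : ℤ} (hu : Odd u) (hu3 : u ≠ -3)
    (H : ∀ n, N < |n| → e u 2 n = 1) :
    ∀ j : ℕ, ∀ k : ℤ, |u| + 10 ≤ k → N + 1 - j ≤ k → e u 2 k = 1 ∧ e u 2 (-k) = 1 := by
  intro j
  have hA0 := abs_nonneg u
  have hA1 := le_abs_self u
  have hA2 := neg_abs_le u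
  induction j with
  | zero =>
    intro k hk0 hk
    simp only [Nat.cast_zero, sub_zero] at hk
    constructor
    · apply H
      rw [abs_of_pos (by linarith)]; linarith
    · apply H
      rw [abs_neg, abs_of_pos (by linarith)]; linarith
  | succ j ih =>
    intro k hk0 hk
    by_cases hkj : N + 1 - (j:ℤ) ≤ k
    · exact ih k hk0 hkj
    push Not at hkj
    push_cast at hk
    have hup : ∀ k', k < k' → e u 2 k' = 1 ∧ e u 2 (-k') = 1 := by
      intro k' h1
      exact ih k' (by linarith) (by linarith)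
    have hne := K2_ne hu hu3
    constructor
    · obtain ⟨w, hw⟩ := exists_half hu k
      have hw5 : 5 * k ≤ w := by nlinarith
      have e1 := @rel_S u 2 k w (by norm_num) hw (hne _)
      have e2 := @rel_R u 2 (u - k) w (by norm_num) (by linarith) (hne _)
      have r1 : u + 2 * 2 - w = -(w - u - 4) := by ring
      have r2 : u + 2 - (u - k) = k + 2 := by ring
      rw [r1, (hup (w - u - 4) (by linarith)).2] at e1
      rw [r2, (hup (k + 2) (by linarith)).1,
        (hup (w - (u - k) - 2 * 2) (by linarith)).1, mul_one] at e2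
      rw [e2, mul_one] at e1
      exact e1
    · obtain ⟨w1, hw1⟩ := exists_half hu (-k)
      obtain ⟨w2, hw2⟩ := exists_half hu (u + 2 + k)
      have hw15 : 5 * k ≤ w1 := by nlinarith
      have hw25 : 6 * (k + 2) ≤ w2 := by nlinarith
      have e1 := @rel_R u 2 (-k) w1 (by norm_num) hw1 (hne _)
      have e2 := @rel_S u 2 (u + 2 + k) w2 (by norm_num) hw2 (hne _)
      have r1 : u + 2 - -k = u + 2 + k := by ring
      have r2 : u - (u + 2 + k) = -(k + 2) := by ring
      have r3 : u + 2 * 2 - w2 = -(w2 - u - 4) := by ring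
      rw [r1, (hup (w1 - -k - 2 * 2) (by linarith)).1] at e1
      rw [r2, r3, (hup (k + 2) (by linarith)).2, (hup (w2 - u - 4) (by linarith)).2,
        mul_one] at e2
      rw [e2, mul_one] at e1
      exact e1

lemma C_pos {u n0 : ℤ} (hu : Odd u) (hu3 : u ≠ -3) (hn0 : |u| + 10 ≤ |n0|)
    (hw : e u 2 n0 = -1) (N : ℤ) : ∃ n, N ≤ n ∧ e u 2 n = -1 := by
  by_contra hcon
  push Not at hcon
  have hall : ∀ n, N ≤ n → e u 2 n = 1 := fun n h1 => (e_pm u 2 n).resolve_right (hcon n h1)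
  have hA0 := abs_nonneg u
  have hA1 := le_abs_self u
  have hA2 := neg_abs_le u
  have hN1 := le_abs_self N
  have hN0 := abs_nonneg N
  have hne := K2_ne hu hu3
  have H : ∀ n, |N| + |u| + 10 < |n| → e u 2 n = 1 := by
    intro n hn
    rcases abs_cases n with ⟨h3, h4⟩ | ⟨h3, h4⟩
    · rw [h3] at hn
      exact hall n (by linarith)
    · rw [h3] at hn
      obtain ⟨w, hw'⟩ := exists_half hu (u + 2 - n)
      have e1 := @rel_R u 2 (u + 2 - n) w (by norm_num) hw' (hne _)
      have r1 : u + 2 - (u + 2 - n) = n := by ring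
      have hw6 : 6 * (u + 2 - n) ≤ w := by nlinarith
      rw [r1, hall (u + 2 - n) (by linarith), hall (w - (u + 2 - n) - 2 * 2) (by linarith),
        one_mul] at e1
      exact e1
  have hD := descent2 hu hu3 H (|N| + |u| + 10 + 1).toNat |n0| hn0 (by
    have : |N| + |u| + 10 + 1 ≤ (((|N| + |u| + 10 + 1).toNat : ℕ) : ℤ) := Int.self_le_toNat _
    linarith)
  have : e u 2 n0 = 1 := by
    rcases abs_cases n0 with ⟨h3, h4⟩ | ⟨h3, h4⟩
    · rw [h3] at hD; exact hD.1
    · rw [h3, neg_neg] at hD; exact hD.2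
  rw [this] at hw
  norm_num at hw

lemma lam_two : lam 2 = -1 := by
  unfold lam
  have : ((2:ℤ).natAbs) = 2 := rfl
  rw [this, ArithmeticFunction.cardFactors_apply_prime Nat.prime_two]
  norm_num

lemma e_two (u n : ℤ) : e u 2 n = - lam (K u 2 n) := by
  unfold e; rw [lam_two]; ring

theorem partC {u n0 : ℤ} (hu : Odd u) (hu3 : u ≠ -3) (hn0 : |u| + 18 ≤ |n0|)
    (hw : lam (K u 2 n0) = 1) (N : ℤ) :
    (∃ n, N ≤ n ∧ lam (K u 2 n) = 1) ∧ (∃ n, n ≤ N ∧ lam (K u 2 n) = 1) := by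
  constructor
  · obtain ⟨n, h1, h2⟩ := C_pos hu hu3 (by linarith) (by rw [e_two, hw]) N
    refine ⟨n, h1, ?_⟩
    rw [e_two] at h2; linarith
  · have hu' : Odd (-6 - u) := by
      obtain ⟨m, rfl⟩ := hu
      exact ⟨-m - 4, by ring⟩
    have hr : ∀ n, lam (K (-6 - u) 2 (-2 - n)) = lam (K u 2 n) := by
      intro n
      have := K_refl u 2 n
      have h1 : (-3 * 2 - u : ℤ) = -6 - u := by ring
      rw [h1] at this
      rw [this, lam_neg]
    obtain ⟨n, h1, h2⟩ := C_pos (u := -6 - u) (n0 := -2 - n0) hu' (by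
        intro h; apply hu3; linarith) (by
        rcases abs_cases u with ⟨a1, _⟩ | ⟨a1, _⟩ <;> rcases abs_cases n0 with ⟨a2, _⟩ | ⟨a2, _⟩ <;>
        rcases abs_cases (-6 - u) with ⟨a3, _⟩ | ⟨a3, _⟩ <;>
        rcases abs_cases (-2 - n0) with ⟨a4, _⟩ | ⟨a4, _⟩ <;> omega)
        (by rw [e_two, hr, hw]) (-2 - N)
    refine ⟨-2 - n, by linarith, ?_⟩
    rw [e_two] at h2
    rw [← hr (-2 - n)]
    have h3 : -2 - (-2 - n) = n := by ring
    rw [h3]
    linarith

end Pool.Agent.H905R2.Lam
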