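import Pool.Agent.H905R2.LamC

set_option autoImplicit false

namespace Pool.Agent.H905R2.Lam

open Polynomial

/-- The simplest cubic polynomials are irreducible. -/
theorem irred (a : ℤ) :
    Irreducible (X ^ 3 - C a * X ^ 2 - C (a + 3) * X - 1 : ℤ[X]) := by
  have hd : (X ^ 3 - C a * X ^ 2 - C (a + 3) * X - 1 : ℤ[X]).natDegree = 3 := by compute_degree!
  have hm : (X ^ 3 - C a * X ^ 2 - C (a + 3) * X - 1 : ℤ[X]).Monic := by monicity!
  rw [hm.irreducible_iff_roots_eq_zero_of_degree_le_three (by omega) (by omega)]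
  apply Multiset.eq_zero_of_forall_notMem
  intro r hr
  have h := (Polynomial.mem_roots'.mp hr).2
  rw [Polynomial.IsRoot.def] at h
  simp at h
  exact f_ne a r (by linarith)

lemma five_term (a n : ℤ) :
    s a n * s a (n + 1) * s a ((n + 1) * (n - a) - 2) * s a (n * (n - a) - 1) *
      s a ((n * (n - a) - 1) * (n * (n - a) - a - 2) - 2) = 1 := by
  have h1 := s_S a n
  have h2 := s_R a (n + 1)
  have h3 := s_R a (n * (n - a) - 1)
  have r1 : a + 1 - (n + 1) = a - n := by ring
  have r2 : (n + 1) * (n + 1 - a - 1) - 2 = (n + 1) * (n - a) - 2 := by ring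
  have r3 : a + 1 - (n * (n - a) - 1) = a + 2 + n * (a - n) := by ring
  have r4 : (n * (n - a) - 1) * (n * (n - a) - 1 - a - 1) - 2
      = (n * (n - a) - 1) * (n * (n - a) - a - 2) - 2 := by ring
  rw [r1, r2] at h2
  rw [r3, r4] at h3
  rw [← h2, ← h3, ← h1]
  rcases s_pm a n with e1 | e1 <;> rcases s_pm a (n + 1) with e2 | e2 <;>
    rcases s_pm a (a - n) with e3 | e3 <;> rcases s_pm a (n * (n - a) - 1) with e4 | e4 <;>
    simp only [e1, e2, e3, e4] <;> norm_num

/-- parity sign -/
def par (n : ℤ) : ℤ := if Even n then 1 else -1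

lemma par_succ (n : ℤ) : par (n + 1) = - par n := by
  unfold par
  by_cases h : Even n
  · rw [if_pos h, if_neg (by simpa [Int.even_add_one] using h)]
  · rw [if_neg h, if_pos (by simpa [Int.even_add_one] using h)]; norm_num

lemma par_even {x : ℤ} (h : Even x) : par x = 1 := if_pos h

lemma par_odd {x : ℤ} (h : Odd x) : par x = -1 := if_neg (by simpa using h)

lemma consec (a N : ℤ) : ∃ n, N ≤ n ∧ s a n * s a (n + 1) = 1 := by
  by_contra hcon
  push Not at hcon
  have hall : ∀ n, N ≤ n → s a n * s a (n + 1) = -1 := by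
    intro n hn
    have := hcon n hn
    rcases s_pm a n with e1 | e1 <;> rcases s_pm a (n + 1) with e2 | e2
    · rw [e1, e2] at this; norm_num at this
    · rw [e1, e2]; norm_num
    · rw [e1, e2]; norm_num
    · rw [e1, e2] at this; norm_num at this
  obtain ⟨c, hc⟩ : ∃ c, c = s a N * par N := ⟨_, rfl⟩
  have hform : ∀ n, N ≤ n → s a n = c * par n := by
    intro n hn
    induction n, hn using Int.leInduction with
    | base =>
      rw [hc]
      unfold par
      by_cases h : Even N
      · rw [if_pos h]; norm_num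
      · rw [if_neg h]; norm_num
    | succ n hn ih =>
      have h1 := hall n hn
      have h2 : s a (n + 1) = - s a n := by
        rcases s_pm a n with e1 | e1 <;> rcases s_pm a (n + 1) with e2 | e2 <;>
          rw [e1, e2] at h1 <;> rw [e1, e2] <;> norm_num at h1 <;> norm_num
      rw [h2, ih, par_succ]; ring
  -- large n
  obtain ⟨n, hn⟩ : ∃ n : ℤ, n = |N| + |a| + 10 := ⟨_, rfl⟩
  have hN1 := le_abs_self N
  have hN0 := abs_nonneg N
  have hA0 := abs_nonneg a
  have hA1 := le_abs_self a
  have hA2 := neg_abs_le a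
  have key : ∀ n, |N| + |a| + 10 ≤ n → c * par n = 1 := by
    intro n hn
    have hna : 10 ≤ n - a := by linarith
    have b1 : n * 10 ≤ n * (n - a) := mul_le_mul_of_nonneg_left hna (by linarith)
    have b2 : 10 ≤ n * (n - a) - a - 2 := by linarith
    have b3 : (n * (n - a) - 1) * 10 ≤ (n * (n - a) - 1) * (n * (n - a) - a - 2) :=
      mul_le_mul_of_nonneg_left b2 (by linarith)
    have h5 := five_term a n
    rw [hform n (by linarith), hform (n + 1) (by linarith),
      hform ((n + 1) * (n - a) - 2) (by linarith), hform (n * (n - a) - 1) (by linarith),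
      hform ((n * (n - a) - 1) * (n * (n - a) - a - 2) - 2) (by linarith)] at h5
    have hcc : c * c = 1 := by
      rw [hc]; unfold par
      rcases s_pm a N with e | e <;> rw [e] <;> split_ifs <;> norm_num
    have hp : par n * par (n + 1) * par ((n + 1) * (n - a) - 2) * par (n * (n - a) - 1) *
        par ((n * (n - a) - 1) * (n * (n - a) - a - 2) - 2) = par n := by
      rcases Int.even_or_odd n with ⟨m, rfl⟩ | ⟨m, rfl⟩ <;>
        rcases Int.even_or_odd a with ⟨b, rfl⟩ | ⟨b, rfl⟩
      · rw [par_even (x := m + m) ⟨m, rfl⟩, par_odd (x := m + m + 1) ⟨m, by ring⟩,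
          par_even (x := (m + m + 1) * (m + m - (b + b)) - 2)
            ⟨(2 * m + 1) * (m - b) - 1, by ring⟩,
          par_odd (x := (m + m) * (m + m - (b + b)) - 1) ⟨2 * m * (m - b) - 1, by ring⟩,
          par_even (x := ((m + m) * (m + m - (b + b)) - 1) *
            ((m + m) * (m + m - (b + b)) - (b + b) - 2) - 2)
            ⟨((m + m) * (m + m - (b + b)) - 1) * (m * (m + m - (b + b)) - b - 1) - 1, by ring⟩]
        norm_num
      · rw [par_even (x := m + m) ⟨m, rfl⟩, par_odd (x := m + m + 1) ⟨m, by ring⟩,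
          par_odd (x := (m + m + 1) * (m + m - (2 * b + 1)) - 2)
            ⟨(2 * m + 1) * (m - b) - m - 2, by ring⟩,
          par_odd (x := (m + m) * (m + m - (2 * b + 1)) - 1)
            ⟨m * (m + m - (2 * b + 1)) - 1, by ring⟩,
          par_odd (x := ((m + m) * (m + m - (2 * b + 1)) - 1) *
            ((m + m) * (m + m - (2 * b + 1)) - (2 * b + 1) - 2) - 2)
            ⟨((m + m) * (m + m - (2 * b + 1)) - 1) * (m * (m + m - (2 * b + 1)) - b - 1)
              - m * (m + m - (2 * b + 1)) - 1, by ring⟩]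
        norm_num
      · rw [par_odd (x := 2 * m + 1) ⟨m, rfl⟩, par_even (x := 2 * m + 1 + 1) ⟨m + 1, by ring⟩,
          par_even (x := (2 * m + 1 + 1) * (2 * m + 1 - (b + b)) - 2)
            ⟨(m + 1) * (2 * m + 1 - (b + b)) - 1, by ring⟩,
          par_even (x := (2 * m + 1) * (2 * m + 1 - (b + b)) - 1)
            ⟨(2 * m + 1) * (m - b) + m, by ring⟩,
          par_even (x := ((2 * m + 1) * (2 * m + 1 - (b + b)) - 1) *
            ((2 * m + 1) * (2 * m + 1 - (b + b)) - (b + b) - 2) - 2)
            ⟨((2 * m + 1) * (m - b) + m) * ((2 * m + 1) * (2 * m + 1 - (b + b)) - (b + b) - 2)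
              - 1, by ring⟩]
        norm_num
      · rw [par_odd (x := 2 * m + 1) ⟨m, rfl⟩, par_even (x := 2 * m + 1 + 1) ⟨m + 1, by ring⟩,
          par_even (x := (2 * m + 1 + 1) * (2 * m + 1 - (2 * b + 1)) - 2)
            ⟨(m + 1) * (2 * m - 2 * b) - 1, by ring⟩,
          par_odd (x := (2 * m + 1) * (2 * m + 1 - (2 * b + 1)) - 1)
            ⟨(2 * m + 1) * (m - b) - 1, by ring⟩,
          par_odd (x := ((2 * m + 1) * (2 * m + 1 - (2 * b + 1)) - 1) *
            ((2 * m + 1) * (2 * m + 1 - (2 * b + 1)) - (2 * b + 1) - 2) - 2)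
            ⟨((2 * m + 1) * (2 * m + 1 - (2 * b + 1)) - 1) * ((2 * m + 1) * (m - b) - b - 1)
              - (2 * m + 1) * (m - b) - 1, by ring⟩]
        norm_num
    have : c * par n * (c * par (n + 1)) * (c * par ((n + 1) * (n - a) - 2)) *
        (c * par (n * (n - a) - 1)) * (c * par ((n * (n - a) - 1) * (n * (n - a) - a - 2) - 2))
        = (c * c) * (c * c) * c * (par n * par (n + 1) * par ((n + 1) * (n - a) - 2) *
          par (n * (n - a) - 1) * par ((n * (n - a) - 1) * (n * (n - a) - a - 2) - 2)) := by ring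
    rw [this, hcc, hp] at h5
    linarith
  have k1 := key n (by linarith)
  have k2 := key (n + 1) (by linarith)
  rw [par_succ] at k2
  linarith

end Pool.Agent.H905R2.Lam
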