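import Pool.Agent.H905R2.LamD

set_option autoImplicit false

namespace Pool.Agent.H905R2.Lam

lemma wit_aux {x : ℤ} (h : x.natAbs.Prime) : lam x = -1 := by
  unfold lam
  rw [ArithmeticFunction.cardFactors_apply_prime h]
  norm_num

/-- For `|a| ≤ 1000` the cubic takes a prime value at some `|n| ≤ 60`. -/
theorem witness (a : ℤ) (h1 : -1000 ≤ a) (h2 : a ≤ 1000) : ∃ n, |n| ≤ 60 ∧ s a n = -1 := by
  unfold s
  interval_cases a
  · exact ⟨1, by norm_num, wit_aux (by norm_num)⟩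
  · exact ⟨-36, by norm_num, wit_aux (by norm_num)⟩
  · exact ⟨1, by norm_num, wit_aux (by norm_num)⟩
  · exact ⟨3, by norm_num, wit_aux (by norm_num)⟩
  · exact ⟨3, by norm_num, wit_aux (by norm_num)⟩
  · exact ⟨1, by norm_num, wit_aux (by norm_num)⟩
  · exact ⟨-11, by norm_num, wit_aux (by norm_num)⟩
  · exact ⟨-3, by norm_num, wit_aux (by norm_num)⟩
  · exact ⟨2, by norm_num, wit_aux (by norm_num)⟩
  · exact ⟨1, by norm_num, wit_aux (by norm_num)⟩
  · exact ⟨-4, by norm_num, wit_aux (by norm_num)⟩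
  · exact ⟨-15, by norm_num, wit_aux (by norm_num)⟩
  · exact ⟨1, by norm_num, wit_aux (by norm_num)⟩
  · exact ⟨-3, by norm_num, wit_aux (by norm_num)⟩
  · exact ⟨-3, by norm_num, wit_aux (by norm_num)⟩
  · exact ⟨4, by norm_num, wit_aux (by norm_num)⟩
  · exact ⟨5, by norm_num, wit_aux (by norm_num)⟩
  · exact ⟨-3, by norm_num, wit_aux (by norm_num)⟩
  · exact ⟨-4, by norm_num, wit_aux (by norm_num)⟩
  · exact ⟨-3, by norm_num, wit_aux (by norm_num)⟩
  · exact ⟨-3, by norm_num, wit_aux (by norm_num)⟩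
  · exact ⟨-5, by norm_num, wit_aux (by norm_num)⟩
  · exact ⟨-3, by norm_num, wit_aux (by norm_num)⟩
  · exact ⟨1, by norm_num, wit_aux (by norm_num)⟩
  · exact ⟨1, by norm_num, wit_aux (by norm_num)⟩
  · exact ⟨2, by norm_num, wit_aux (by norm_num)⟩
  · exact ⟨4, by norm_num, wit_aux (by norm_num)⟩
  · exact ⟨2, by norm_num, wit_aux (by norm_num)⟩
  · exact ⟨-3, by norm_num, wit_aux (by norm_num)⟩
  · exact ⟨-3, by norm_num, wit_aux (by norm_num)⟩
  · exact ⟨-3, by norm_num, wit_aux (by norm_num)⟩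
  · exact ⟨-6, by norm_num, wit_aux (by norm_num)⟩
  · exact ⟨1, by norm_num, wit_aux (by norm_num)⟩
  · exact ⟨1, by norm_num, wit_aux (by norm_num)⟩
  · exact ⟨8, by norm_num, wit_aux (by norm_num)⟩
  · exact ⟨2, by norm_num, wit_aux (by norm_num)⟩
  · exact ⟨-15, by norm_num, wit_aux (by norm_num)⟩
  · exact ⟨2, by norm_num, wit_aux (by norm_num)⟩
  · exact ⟨-4, by norm_num, wit_aux (by norm_num)⟩
  · exact ⟨3, by norm_num, wit_aux (by norm_num)⟩
  · exact ⟨-3, by norm_num, wit_aux (by norm_num)⟩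
  · exact ⟨-5, by norm_num, wit_aux (by norm_num)⟩
  · exact ⟨1, by norm_num, wit_aux (by norm_num)⟩
  · exact ⟨2, by norm_num, wit_aux (by norm_num)⟩
  · exact ⟨-3, by norm_num, wit_aux (by norm_num)⟩
  · exact ⟨1, by norm_num, wit_aux (by norm_num)⟩
  · exact ⟨5, by norm_num, wit_aux (by norm_num)⟩
  · exact ⟨-4, by norm_num, wit_aux (by norm_num)⟩
  · exact ⟨1, by norm_num, wit_aux (by norm_num)⟩
  · exact ⟨-7, by norm_num, wit_aux (by norm_num)⟩
  · exact ⟨2, by norm_num, wit_aux (by norm_num)⟩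
  · exact ⟨-5, by norm_num, wit_aux (by norm_num)⟩
  · exact ⟨-3, by norm_num, wit_aux (by norm_num)⟩
  · exact ⟨2, by norm_num, wit_aux (by norm_num)⟩
  · exact ⟨1, by norm_num, wit_aux (by norm_num)⟩
  · exact ⟨-3, by norm_num, wit_aux (by norm_num)⟩
  · exact ⟨5, by norm_num, wit_aux (by norm_num)⟩
  · exact ⟨-3, by norm_num, wit_aux (by norm_num)⟩
  · exact ⟨2, by norm_num, wit_aux (by norm_num)⟩
  · exact ⟨1, by norm_num, wit_aux (by norm_num)⟩
  · exact ⟨1, by norm_num, wit_aux (by norm_num)⟩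
  · exact ⟨5, by norm_num, wit_aux (by norm_num)⟩
  · exact ⟨1, by norm_num, wit_aux (by norm_num)⟩
  · exact ⟨1, by norm_num, wit_aux (by norm_num)⟩
  · exact ⟨6, by norm_num, wit_aux (by norm_num)⟩
  · exact ⟨1, by norm_num, wit_aux (by norm_num)⟩
  · exact ⟨4, by norm_num, wit_aux (by norm_num)⟩
  · exact ⟨3, by norm_num, wit_aux (by norm_num)⟩
  · exact ⟨1, by norm_num, wit_aux (by norm_num)⟩
  · exact ⟨-4, by norm_num, wit_aux (by norm_num)⟩
  · exact ⟨2, by norm_num, wit_aux (by norm_num)⟩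
  · exact ⟨20, by norm_num, wit_aux (by norm_num)⟩
  · exact ⟨2, by norm_num, wit_aux (by norm_num)⟩
  · exact ⟨2, by norm_num, wit_aux (by norm_num)⟩
  · exact ⟨2, by norm_num, wit_aux (by norm_num)⟩
  · exact ⟨1, by norm_num, wit_aux (by norm_num)⟩
  · exact ⟨-10, by norm_num, wit_aux (by norm_num)⟩
  · exact ⟨-3, by norm_num, wit_aux (by norm_num)⟩
  · exact ⟨-5, by norm_num, wit_aux (by norm_num)⟩
  · exact ⟨-3, by norm_num, wit_aux (by norm_num)⟩
  · exact ⟨-3, by norm_num, wit_aux (by norm_num)⟩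
  · exact ⟨-5, by norm_num, wit_aux (by norm_num)⟩
  · exact ⟨-9, by norm_num, wit_aux (by norm_num)⟩
  · exact ⟨1, by norm_num, wit_aux (by norm_num)⟩
  · exact ⟨-3, by norm_num, wit_aux (by norm_num)⟩
  · exact ⟨-3, by norm_num, wit_aux (by norm_num)⟩
  · exact ⟨-5, by norm_num, wit_aux (by norm_num)⟩
  · exact ⟨1, by norm_num, wit_aux (by norm_num)⟩
  · exact ⟨-4, by norm_num, wit_aux (by norm_num)⟩
  · exact ⟨3, by norm_num, wit_aux (by norm_num)⟩
  · exact ⟨-3, by norm_num, wit_aux (by norm_num)⟩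
  · exact ⟨-15, by norm_num, wit_aux (by norm_num)⟩
  · exact ⟨2, by norm_num, wit_aux (by norm_num)⟩
  · exact ⟨1, by norm_num, wit_aux (by norm_num)⟩
  · exact ⟨-3, by norm_num, wit_aux (by norm_num)⟩
  · exact ⟨2, by norm_num, wit_aux (by norm_num)⟩
  · exact ⟨4, by norm_num, wit_aux (by norm_num)⟩
  · exact ⟨-3, by norm_num, wit_aux (by norm_num)⟩
  · exact ⟨1, by norm_num, wit_aux (by norm_num)⟩
  · exact ⟨-3, by norm_num, wit_aux (by norm_num)⟩
  · exact ⟨-3, by norm_num, wit_aux (by norm_num)⟩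
  · exact ⟨-10, by norm_num, wit_aux (by norm_num)⟩
  · exact ⟨-4, by norm_num, wit_aux (by norm_num)⟩
  · exact ⟨-4, by norm_num, wit_aux (by norm_num)⟩
  · exact ⟨1, by norm_num, wit_aux (by norm_num)⟩
  · exact ⟨1, by norm_num, wit_aux (by norm_num)⟩
  · exact ⟨-15, by norm_num, wit_aux (by norm_num)⟩
  · exact ⟨1, by norm_num, wit_aux (by norm_num)⟩
  · exact ⟨-3, by norm_num, wit_aux (by norm_num)⟩
  · exact ⟨2, by norm_num, wit_aux (by norm_num)⟩
  · exact ⟨1, by norm_num, wit_aux (by norm_num)⟩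
  · exact ⟨-5, by norm_num, wit_aux (by norm_num)⟩
  · exact ⟨-3, by norm_num, wit_aux (by norm_num)⟩
  · exact ⟨-3, by norm_num, wit_aux (by norm_num)⟩
  · exact ⟨-3, by norm_num, wit_aux (by norm_num)⟩
  · exact ⟨-4, by norm_num, wit_aux (by norm_num)⟩
  · exact ⟨-5, by norm_num, wit_aux (by norm_num)⟩
  · exact ⟨-3, by norm_num, wit_aux (by norm_num)⟩
  · exact ⟨-3, by norm_num, wit_aux (by norm_num)⟩
  · exact ⟨1, by norm_num, wit_aux (by norm_num)⟩
  · exact ⟨-3, by norm_num, wit_aux (by norm_num)⟩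
  · exact ⟨-6, by norm_num, wit_aux (by norm_num)⟩
  · exact ⟨1, by norm_num, wit_aux (by norm_num)⟩
  · exact ⟨-6, by norm_num, wit_aux (by norm_num)⟩
  · exact ⟨-3, by norm_num, wit_aux (by norm_num)⟩
  · exact ⟨1, by norm_num, wit_aux (by norm_num)⟩
  · exact ⟨-6, by norm_num, wit_aux (by norm_num)⟩
  · exact ⟨-7, by norm_num, wit_aux (by norm_num)⟩
  · exact ⟨1, by norm_num, wit_aux (by norm_num)⟩
  · exact ⟨2, by norm_num, wit_aux (by norm_num)⟩
  · exact ⟨3, by norm_num, wit_aux (by norm_num)⟩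
  · exact ⟨4, by norm_num, wit_aux (by norm_num)⟩
  · exact ⟨1, by norm_num, wit_aux (by norm_num)⟩
  · exact ⟨5, by norm_num, wit_aux (by norm_num)⟩
  · exact ⟨2, by norm_num, wit_aux (by norm_num)⟩
  · exact ⟨-3, by norm_num, wit_aux (by norm_num)⟩
  · exact ⟨5, by norm_num, wit_aux (by norm_num)⟩
  · exact ⟨1, by norm_num, wit_aux (by norm_num)⟩
  · exact ⟨1, by norm_num, wit_aux (by norm_num)⟩
  · exact ⟨-3, by norm_num, wit_aux (by norm_num)⟩
  · exact ⟨-4, by norm_num, wit_aux (by norm_num)⟩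
  · exact ⟨4, by norm_num, wit_aux (by norm_num)⟩
  · exact ⟨-4, by norm_num, wit_aux (by norm_num)⟩
  · exact ⟨3, by norm_num, wit_aux (by norm_num)⟩
  · exact ⟨1, by norm_num, wit_aux (by norm_num)⟩
  · exact ⟨5, by norm_num, wit_aux (by norm_num)⟩
  · exact ⟨-11, by norm_num, wit_aux (by norm_num)⟩
  · exact ⟨-3, by norm_num, wit_aux (by norm_num)⟩
  · exact ⟨2, by norm_num, wit_aux (by norm_num)⟩
  · exact ⟨1, by norm_num, wit_aux (by norm_num)⟩
  · exact ⟨1, by norm_num, wit_aux (by norm_num)⟩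
  · exact ⟨5, by norm_num, wit_aux (by norm_num)⟩
  · exact ⟨1, by norm_num, wit_aux (by norm_num)⟩
  · exact ⟨-4, by norm_num, wit_aux (by norm_num)⟩
  · exact ⟨2, by norm_num, wit_aux (by norm_num)⟩
  · exact ⟨-3, by norm_num, wit_aux (by norm_num)⟩
  · exact ⟨4, by norm_num, wit_aux (by norm_num)⟩
  · exact ⟨-3, by norm_num, wit_aux (by norm_num)⟩
  · exact ⟨-5, by norm_num, wit_aux (by norm_num)⟩
  · exact ⟨-4, by norm_num, wit_aux (by norm_num)⟩
  · exact ⟨-3, by norm_num, wit_aux (by norm_num)⟩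
  · exact ⟨4, by norm_num, wit_aux (by norm_num)⟩
  · exact ⟨-3, by norm_num, wit_aux (by norm_num)⟩
  · exact ⟨-3, by norm_num, wit_aux (by norm_num)⟩
  · exact ⟨1, by norm_num, wit_aux (by norm_num)⟩
  · exact ⟨1, by norm_num, wit_aux (by norm_num)⟩
  · exact ⟨-6, by norm_num, wit_aux (by norm_num)⟩
  · exact ⟨1, by norm_num, wit_aux (by norm_num)⟩
  · exact ⟨-3, by norm_num, wit_aux (by norm_num)⟩
  · exact ⟨-3, by norm_num, wit_aux (by norm_num)⟩
  · exact ⟨1, by norm_num, wit_aux (by norm_num)⟩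
  · exact ⟨4, by norm_num, wit_aux (by norm_num)⟩
  · exact ⟨2, by norm_num, wit_aux (by norm_num)⟩
  · exact ⟨-3, by norm_num, wit_aux (by norm_num)⟩
  · exact ⟨-3, by norm_num, wit_aux (by norm_num)⟩
  · exact ⟨-3, by norm_num, wit_aux (by norm_num)⟩
  · exact ⟨-5, by norm_num, wit_aux (by norm_num)⟩
  · exact ⟨-3, by norm_num, wit_aux (by norm_num)⟩
  · exact ⟨2, by norm_num, wit_aux (by norm_num)⟩
  · exact ⟨-7, by norm_num, wit_aux (by norm_num)⟩
  · exact ⟨1, by norm_num, wit_aux (by norm_num)⟩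
  · exact ⟨-6, by norm_num, wit_aux (by norm_num)⟩
  · exact ⟨-3, by norm_num, wit_aux (by norm_num)⟩
  · exact ⟨2, by norm_num, wit_aux (by norm_num)⟩
  · exact ⟨-3, by norm_num, wit_aux (by norm_num)⟩
  · exact ⟨1, by norm_num, wit_aux (by norm_num)⟩
  · exact ⟨9, by norm_num, wit_aux (by norm_num)⟩
  · exact ⟨5, by norm_num, wit_aux (by norm_num)⟩
  · exact ⟨1, by norm_num, wit_aux (by norm_num)⟩
  · exact ⟨1, by norm_num, wit_aux (by norm_num)⟩
  · exact ⟨2, by norm_num, wit_aux (by norm_num)⟩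
  · exact ⟨-5, by norm_num, wit_aux (by norm_num)⟩
  · exact ⟨1, by norm_num, wit_aux (by norm_num)⟩
  · exact ⟨-4, by norm_num, wit_aux (by norm_num)⟩
  · exact ⟨1, by norm_num, wit_aux (by norm_num)⟩
  · exact ⟨1, by norm_num, wit_aux (by norm_num)⟩
  · exact ⟨5, by norm_num, wit_aux (by norm_num)⟩
  · exact ⟨-3, by norm_num, wit_aux (by norm_num)⟩
  · exact ⟨1, by norm_num, wit_aux (by norm_num)⟩
  · exact ⟨-3, by norm_num, wit_aux (by norm_num)⟩
  · exact ⟨1, by norm_num, wit_aux (by norm_num)⟩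
  · exact ⟨-16, by norm_num, wit_aux (by norm_num)⟩
  · exact ⟨2, by norm_num, wit_aux (by norm_num)⟩
  · exact ⟨2, by norm_num, wit_aux (by norm_num)⟩
  · exact ⟨-5, by norm_num, wit_aux (by norm_num)⟩
  · exact ⟨-3, by norm_num, wit_aux (by norm_num)⟩
  · exact ⟨5, by norm_num, wit_aux (by norm_num)⟩
  · exact ⟨1, by norm_num, wit_aux (by norm_num)⟩
  · exact ⟨-3, by norm_num, wit_aux (by norm_num)⟩
  · exact ⟨1, by norm_num, wit_aux (by norm_num)⟩
  · exact ⟨-3, by norm_num, wit_aux (by norm_num)⟩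
  · exact ⟨-10, by norm_num, wit_aux (by norm_num)⟩
  · exact ⟨2, by norm_num, wit_aux (by norm_num)⟩
  · exact ⟨1, by norm_num, wit_aux (by norm_num)⟩
  · exact ⟨5, by norm_num, wit_aux (by norm_num)⟩
  · exact ⟨1, by norm_num, wit_aux (by norm_num)⟩
  · exact ⟨-5, by norm_num, wit_aux (by norm_num)⟩
  · exact ⟨-3, by norm_num, wit_aux (by norm_num)⟩
  · exact ⟨-3, by norm_num, wit_aux (by norm_num)⟩
  · exact ⟨1, by norm_num, wit_aux (by norm_num)⟩
  · exact ⟨3, by norm_num, wit_aux (by norm_num)⟩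
  · exact ⟨-11, by norm_num, wit_aux (by norm_num)⟩
  · exact ⟨1, by norm_num, wit_aux (by norm_num)⟩
  · exact ⟨-3, by norm_num, wit_aux (by norm_num)⟩
  · exact ⟨1, by norm_num, wit_aux (by norm_num)⟩
  · exact ⟨2, by norm_num, wit_aux (by norm_num)⟩
  · exact ⟨-6, by norm_num, wit_aux (by norm_num)⟩
  · exact ⟨1, by norm_num, wit_aux (by norm_num)⟩
  · exact ⟨3, by norm_num, wit_aux (by norm_num)⟩
  · exact ⟨-4, by norm_num, wit_aux (by norm_num)⟩
  · exact ⟨2, by norm_num, wit_aux (by norm_num)⟩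
  · exact ⟨-5, by norm_num, wit_aux (by norm_num)⟩
  · exact ⟨9, by norm_num, wit_aux (by norm_num)⟩
  · exact ⟨1, by norm_num, wit_aux (by norm_num)⟩
  · exact ⟨2, by norm_num, wit_aux (by norm_num)⟩
  · exact ⟨2, by norm_num, wit_aux (by norm_num)⟩
  · exact ⟨4, by norm_num, wit_aux (by norm_num)⟩
  · exact ⟨1, by norm_num, wit_aux (by norm_num)⟩
  · exact ⟨-4, by norm_num, wit_aux (by norm_num)⟩
  · exact ⟨-3, by norm_num, wit_aux (by norm_num)⟩
  · exact ⟨2, by norm_num, wit_aux (by norm_num)⟩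
  · exact ⟨-6, by norm_num, wit_aux (by norm_num)⟩
  · exact ⟨2, by norm_num, wit_aux (by norm_num)⟩
  · exact ⟨1, by norm_num, wit_aux (by norm_num)⟩
  · exact ⟨-3, by norm_num, wit_aux (by norm_num)⟩
  · exact ⟨-4, by norm_num, wit_aux (by norm_num)⟩
  · exact ⟨-5, by norm_num, wit_aux (by norm_num)⟩
  · exact ⟨2, by norm_num, wit_aux (by norm_num)⟩
  · exact ⟨-3, by norm_num, wit_aux (by norm_num)⟩
  · exact ⟨1, by norm_num, wit_aux (by norm_num)⟩
  · exact ⟨-3, by norm_num, wit_aux (by norm_num)⟩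
  · exact ⟨-5, by norm_num, wit_aux (by norm_num)⟩
  · exact ⟨1, by norm_num, wit_aux (by norm_num)⟩
  · exact ⟨-3, by norm_num, wit_aux (by norm_num)⟩
  · exact ⟨1, by norm_num, wit_aux (by norm_num)⟩
  · exact ⟨1, by norm_num, wit_aux (by norm_num)⟩
  · exact ⟨-15, by norm_num, wit_aux (by norm_num)⟩
  · exact ⟨1, by norm_num, wit_aux (by norm_num)⟩
  · exact ⟨1, by norm_num, wit_aux (by norm_num)⟩
  · exact ⟨2, by norm_num, wit_aux (by norm_num)⟩
  · exact ⟨-3, by norm_num, wit_aux (by norm_num)⟩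
  · exact ⟨-5, by norm_num, wit_aux (by norm_num)⟩
  · exact ⟨-3, by norm_num, wit_aux (by norm_num)⟩
  · exact ⟨1, by norm_num, wit_aux (by norm_num)⟩
  · exact ⟨-3, by norm_num, wit_aux (by norm_num)⟩
  · exact ⟨-3, by norm_num, wit_aux (by norm_num)⟩
  · exact ⟨4, by norm_num, wit_aux (by norm_num)⟩
  · exact ⟨-5, by norm_num, wit_aux (by norm_num)⟩
  · exact ⟨-3, by norm_num, wit_aux (by norm_num)⟩
  · exact ⟨1, by norm_num, wit_aux (by norm_num)⟩
  · exact ⟨-4, by norm_num, wit_aux (by norm_num)⟩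
  · exact ⟨-15, by norm_num, wit_aux (by norm_num)⟩
  · exact ⟨1, by norm_num, wit_aux (by norm_num)⟩
  · exact ⟨1, by norm_num, wit_aux (by norm_num)⟩
  · exact ⟨-3, by norm_num, wit_aux (by norm_num)⟩
  · exact ⟨1, by norm_num, wit_aux (by norm_num)⟩
  · exact ⟨-5, by norm_num, wit_aux (by norm_num)⟩
  · exact ⟨2, by norm_num, wit_aux (by norm_num)⟩
  · exact ⟨3, by norm_num, wit_aux (by norm_num)⟩
  · exact ⟨1, by norm_num, wit_aux (by norm_num)⟩
  · exact ⟨-6, by norm_num, wit_aux (by norm_num)⟩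
  · exact ⟨4, by norm_num, wit_aux (by norm_num)⟩
  · exact ⟨1, by norm_num, wit_aux (by norm_num)⟩
  · exact ⟨-3, by norm_num, wit_aux (by norm_num)⟩
  · exact ⟨1, by norm_num, wit_aux (by norm_num)⟩
  · exact ⟨1, by norm_num, wit_aux (by norm_num)⟩
  · exact ⟨-6, by norm_num, wit_aux (by norm_num)⟩
  · exact ⟨1, by norm_num, wit_aux (by norm_num)⟩
  · exact ⟨-3, by norm_num, wit_aux (by norm_num)⟩
  · exact ⟨6, by norm_num, wit_aux (by norm_num)⟩
  · exact ⟨-3, by norm_num, wit_aux (by norm_num)⟩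
  · exact ⟨5, by norm_num, wit_aux (by norm_num)⟩
  · exact ⟨-3, by norm_num, wit_aux (by norm_num)⟩
  · exact ⟨2, by norm_num, wit_aux (by norm_num)⟩
  · exact ⟨1, by norm_num, wit_aux (by norm_num)⟩
  · exact ⟨-3, by norm_num, wit_aux (by norm_num)⟩
  · exact ⟨-6, by norm_num, wit_aux (by norm_num)⟩
  · exact ⟨2, by norm_num, wit_aux (by norm_num)⟩
  · exact ⟨5, by norm_num, wit_aux (by norm_num)⟩
  · exact ⟨1, by norm_num, wit_aux (by norm_num)⟩
  · exact ⟨2, by norm_num, wit_aux (by norm_num)⟩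
  · exact ⟨-6, by norm_num, wit_aux (by norm_num)⟩
  · exact ⟨4, by norm_num, wit_aux (by norm_num)⟩
  · exact ⟨-4, by norm_num, wit_aux (by norm_num)⟩
  · exact ⟨-3, by norm_num, wit_aux (by norm_num)⟩
  · exact ⟨-4, by norm_num, wit_aux (by norm_num)⟩
  · exact ⟨4, by norm_num, wit_aux (by norm_num)⟩
  · exact ⟨-3, by norm_num, wit_aux (by norm_num)⟩
  · exact ⟨1, by norm_num, wit_aux (by norm_num)⟩
  · exact ⟨-3, by norm_num, wit_aux (by norm_num)⟩
  · exact ⟨3, by norm_num, wit_aux (by norm_num)⟩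
  · exact ⟨-5, by norm_num, wit_aux (by norm_num)⟩
  · exact ⟨1, by norm_num, wit_aux (by norm_num)⟩
  · exact ⟨-4, by norm_num, wit_aux (by norm_num)⟩
  · exact ⟨-4, by norm_num, wit_aux (by norm_num)⟩
  · exact ⟨1, by norm_num, wit_aux (by norm_num)⟩
  · exact ⟨-10, by norm_num, wit_aux (by norm_num)⟩
  · exact ⟨-3, by norm_num, wit_aux (by norm_num)⟩
  · exact ⟨1, by norm_num, wit_aux (by norm_num)⟩
  · exact ⟨-6, by norm_num, wit_aux (by norm_num)⟩
  · exact ⟨-6, by norm_num, wit_aux (by norm_num)⟩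
  · exact ⟨-5, by norm_num, wit_aux (by norm_num)⟩
  · exact ⟨-3, by norm_num, wit_aux (by norm_num)⟩
  · exact ⟨4, by norm_num, wit_aux (by norm_num)⟩
  · exact ⟨2, by norm_num, wit_aux (by norm_num)⟩
  · exact ⟨2, by norm_num, wit_aux (by norm_num)⟩
  · exact ⟨-6, by norm_num, wit_aux (by norm_num)⟩
  · exact ⟨-3, by norm_num, wit_aux (by norm_num)⟩
  · exact ⟨-3, by norm_num, wit_aux (by norm_num)⟩
  · exact ⟨-3, by norm_num, wit_aux (by norm_num)⟩
  · exact ⟨-3, by norm_num, wit_aux (by norm_num)⟩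
  · exact ⟨-10, by norm_num, wit_aux (by norm_num)⟩
  · exact ⟨-3, by norm_num, wit_aux (by norm_num)⟩
  · exact ⟨2, by norm_num, wit_aux (by norm_num)⟩
  · exact ⟨3, by norm_num, wit_aux (by norm_num)⟩
  · exact ⟨1, by norm_num, wit_aux (by norm_num)⟩
  · exact ⟨4, by norm_num, wit_aux (by norm_num)⟩
  · exact ⟨-10, by norm_num, wit_aux (by norm_num)⟩
  · exact ⟨1, by norm_num, wit_aux (by norm_num)⟩
  · exact ⟨1, by norm_num, wit_aux (by norm_num)⟩
  · exact ⟨-4, by norm_num, wit_aux (by norm_num)⟩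
  · exact ⟨-6, by norm_num, wit_aux (by norm_num)⟩
  · exact ⟨-3, by norm_num, wit_aux (by norm_num)⟩
  · exact ⟨-3, by norm_num, wit_aux (by norm_num)⟩
  · exact ⟨-3, by norm_num, wit_aux (by norm_num)⟩
  · exact ⟨1, by norm_num, wit_aux (by norm_num)⟩
  · exact ⟨-6, by norm_num, wit_aux (by norm_num)⟩
  · exact ⟨1, by norm_num, wit_aux (by norm_num)⟩
  · exact ⟨1, by norm_num, wit_aux (by norm_num)⟩
  · exact ⟨2, by norm_num, wit_aux (by norm_num)⟩
  · exact ⟨1, by norm_num, wit_aux (by norm_num)⟩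
  · exact ⟨-31, by norm_num, wit_aux (by norm_num)⟩
  · exact ⟨2, by norm_num, wit_aux (by norm_num)⟩
  · exact ⟨1, by norm_num, wit_aux (by norm_num)⟩
  · exact ⟨1, by norm_num, wit_aux (by norm_num)⟩
  · exact ⟨-3, by norm_num, wit_aux (by norm_num)⟩
  · exact ⟨-6, by norm_num, wit_aux (by norm_num)⟩
  · exact ⟨1, by norm_num, wit_aux (by norm_num)⟩
  · exact ⟨-3, by norm_num, wit_aux (by norm_num)⟩
  · exact ⟨1, by norm_num, wit_aux (by norm_num)⟩
  · exact ⟨1, by norm_num, wit_aux (by norm_num)⟩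
  · exact ⟨9, by norm_num, wit_aux (by norm_num)⟩
  · exact ⟨-4, by norm_num, wit_aux (by norm_num)⟩
  · exact ⟨-3, by norm_num, wit_aux (by norm_num)⟩
  · exact ⟨-3, by norm_num, wit_aux (by norm_num)⟩
  · exact ⟨-5, by norm_num, wit_aux (by norm_num)⟩
  · exact ⟨-5, by norm_num, wit_aux (by norm_num)⟩
  · exact ⟨-3, by norm_num, wit_aux (by norm_num)⟩
  · exact ⟨2, by norm_num, wit_aux (by norm_num)⟩
  · exact ⟨1, by norm_num, wit_aux (by norm_num)⟩
  · exact ⟨-3, by norm_num, wit_aux (by norm_num)⟩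
  · exact ⟨-6, by norm_num, wit_aux (by norm_num)⟩
  · exact ⟨2, by norm_num, wit_aux (by norm_num)⟩
  · exact ⟨3, by norm_num, wit_aux (by norm_num)⟩
  · exact ⟨1, by norm_num, wit_aux (by norm_num)⟩
  · exact ⟨3, by norm_num, wit_aux (by norm_num)⟩
  · exact ⟨-6, by norm_num, wit_aux (by norm_num)⟩
  · exact ⟨-3, by norm_num, wit_aux (by norm_num)⟩
  · exact ⟨2, by norm_num, wit_aux (by norm_num)⟩
  · exact ⟨2, by norm_num, wit_aux (by norm_num)⟩
  · exact ⟨1, by norm_num, wit_aux (by norm_num)⟩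
  · exact ⟨-5, by norm_num, wit_aux (by norm_num)⟩
  · exact ⟨2, by norm_num, wit_aux (by norm_num)⟩
  · exact ⟨1, by norm_num, wit_aux (by norm_num)⟩
  · exact ⟨1, by norm_num, wit_aux (by norm_num)⟩
  · exact ⟨-3, by norm_num, wit_aux (by norm_num)⟩
  · exact ⟨14, by norm_num, wit_aux (by norm_num)⟩
  · exact ⟨1, by norm_num, wit_aux (by norm_num)⟩
  · exact ⟨2, by norm_num, wit_aux (by norm_num)⟩
  · exact ⟨3, by norm_num, wit_aux (by norm_num)⟩
  · exact ⟨1, by norm_num, wit_aux (by norm_num)⟩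
  · exact ⟨5, by norm_num, wit_aux (by norm_num)⟩
  · exact ⟨1, by norm_num, wit_aux (by norm_num)⟩
  · exact ⟨-3, by norm_num, wit_aux (by norm_num)⟩
  · exact ⟨-3, by norm_num, wit_aux (by norm_num)⟩
  · exact ⟨2, by norm_num, wit_aux (by norm_num)⟩
  · exact ⟨-5, by norm_num, wit_aux (by norm_num)⟩
  · exact ⟨3, by norm_num, wit_aux (by norm_num)⟩
  · exact ⟨1, by norm_num, wit_aux (by norm_num)⟩
  · exact ⟨2, by norm_num, wit_aux (by norm_num)⟩
  · exact ⟨-3, by norm_num, wit_aux (by norm_num)⟩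
  · exact ⟨-11, by norm_num, wit_aux (by norm_num)⟩
  · exact ⟨1, by norm_num, wit_aux (by norm_num)⟩
  · exact ⟨2, by norm_num, wit_aux (by norm_num)⟩
  · exact ⟨-3, by norm_num, wit_aux (by norm_num)⟩
  · exact ⟨1, by norm_num, wit_aux (by norm_num)⟩
  · exact ⟨5, by norm_num, wit_aux (by norm_num)⟩
  · exact ⟨-3, by norm_num, wit_aux (by norm_num)⟩
  · exact ⟨1, by norm_num, wit_aux (by norm_num)⟩
  · exact ⟨-3, by norm_num, wit_aux (by norm_num)⟩
  · exact ⟨2, by norm_num, wit_aux (by norm_num)⟩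
  · exact ⟨4, by norm_num, wit_aux (by norm_num)⟩
  · exact ⟨2, by norm_num, wit_aux (by norm_num)⟩
  · exact ⟨1, by norm_num, wit_aux (by norm_num)⟩
  · exact ⟨2, by norm_num, wit_aux (by norm_num)⟩
  · exact ⟨-3, by norm_num, wit_aux (by norm_num)⟩
  · exact ⟨4, by norm_num, wit_aux (by norm_num)⟩
  · exact ⟨1, by norm_num, wit_aux (by norm_num)⟩
  · exact ⟨3, by norm_num, wit_aux (by norm_num)⟩
  · exact ⟨-3, by norm_num, wit_aux (by norm_num)⟩
  · exact ⟨-3, by norm_num, wit_aux (by norm_num)⟩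
  · exact ⟨-15, by norm_num, wit_aux (by norm_num)⟩
  · exact ⟨1, by norm_num, wit_aux (by norm_num)⟩
  · exact ⟨1, by norm_num, wit_aux (by norm_num)⟩
  · exact ⟨2, by norm_num, wit_aux (by norm_num)⟩
  · exact ⟨3, by norm_num, wit_aux (by norm_num)⟩
  · exact ⟨-5, by norm_num, wit_aux (by norm_num)⟩
  · exact ⟨-4, by norm_num, wit_aux (by norm_num)⟩
  · exact ⟨-3, by norm_num, wit_aux (by norm_num)⟩
  · exact ⟨-3, by norm_num, wit_aux (by norm_num)⟩
  · exact ⟨3, by norm_num, wit_aux (by norm_num)⟩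
  · exact ⟨-6, by norm_num, wit_aux (by norm_num)⟩
  · exact ⟨-3, by norm_num, wit_aux (by norm_num)⟩
  · exact ⟨-6, by norm_num, wit_aux (by norm_num)⟩
  · exact ⟨1, by norm_num, wit_aux (by norm_num)⟩
  · exact ⟨-3, by norm_num, wit_aux (by norm_num)⟩
  · exact ⟨5, by norm_num, wit_aux (by norm_num)⟩
  · exact ⟨1, by norm_num, wit_aux (by norm_num)⟩
  · exact ⟨2, by norm_num, wit_aux (by norm_num)⟩
  · exact ⟨-3, by norm_num, wit_aux (by norm_num)⟩
  · exact ⟨1, by norm_num, wit_aux (by norm_num)⟩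
  · exact ⟨-5, by norm_num, wit_aux (by norm_num)⟩
  · exact ⟨-3, by norm_num, wit_aux (by norm_num)⟩
  · exact ⟨-3, by norm_num, wit_aux (by norm_num)⟩
  · exact ⟨1, by norm_num, wit_aux (by norm_num)⟩
  · exact ⟨2, by norm_num, wit_aux (by norm_num)⟩
  · exact ⟨4, by norm_num, wit_aux (by norm_num)⟩
  · exact ⟨1, by norm_num, wit_aux (by norm_num)⟩
  · exact ⟨2, by norm_num, wit_aux (by norm_num)⟩
  · exact ⟨2, by norm_num, wit_aux (by norm_num)⟩
  · exact ⟨1, by norm_num, wit_aux (by norm_num)⟩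
  · exact ⟨9, by norm_num, wit_aux (by norm_num)⟩
  · exact ⟨1, by norm_num, wit_aux (by norm_num)⟩
  · exact ⟨1, by norm_num, wit_aux (by norm_num)⟩
  · exact ⟨-3, by norm_num, wit_aux (by norm_num)⟩
  · exact ⟨1, by norm_num, wit_aux (by norm_num)⟩
  · exact ⟨-15, by norm_num, wit_aux (by norm_num)⟩
  · exact ⟨2, by norm_num, wit_aux (by norm_num)⟩
  · exact ⟨2, by norm_num, wit_aux (by norm_num)⟩
  · exact ⟨-5, by norm_num, wit_aux (by norm_num)⟩
  · exact ⟨-3, by norm_num, wit_aux (by norm_num)⟩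
  · exact ⟨4, by norm_num, wit_aux (by norm_num)⟩
  · exact ⟨-3, by norm_num, wit_aux (by norm_num)⟩
  · exact ⟨-3, by norm_num, wit_aux (by norm_num)⟩
  · exact ⟨1, by norm_num, wit_aux (by norm_num)⟩
  · exact ⟨-3, by norm_num, wit_aux (by norm_num)⟩
  · exact ⟨9, by norm_num, wit_aux (by norm_num)⟩
  · exact ⟨1, by norm_num, wit_aux (by norm_num)⟩
  · exact ⟨1, by norm_num, wit_aux (by norm_num)⟩
  · exact ⟨-3, by norm_num, wit_aux (by norm_num)⟩
  · exact ⟨2, by norm_num, wit_aux (by norm_num)⟩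
  · exact ⟨4, by norm_num, wit_aux (by norm_num)⟩
  · exact ⟨2, by norm_num, wit_aux (by norm_num)⟩
  · exact ⟨1, by norm_num, wit_aux (by norm_num)⟩
  · exact ⟨1, by norm_num, wit_aux (by norm_num)⟩
  · exact ⟨-4, by norm_num, wit_aux (by norm_num)⟩
  · exact ⟨-5, by norm_num, wit_aux (by norm_num)⟩
  · exact ⟨-3, by norm_num, wit_aux (by norm_num)⟩
  · exact ⟨-4, by norm_num, wit_aux (by norm_num)⟩
  · exact ⟨1, by norm_num, wit_aux (by norm_num)⟩
  · exact ⟨2, by norm_num, wit_aux (by norm_num)⟩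
  · exact ⟨5, by norm_num, wit_aux (by norm_num)⟩
  · exact ⟨1, by norm_num, wit_aux (by norm_num)⟩
  · exact ⟨1, by norm_num, wit_aux (by norm_num)⟩
  · exact ⟨-21, by norm_num, wit_aux (by norm_num)⟩
  · exact ⟨3, by norm_num, wit_aux (by norm_num)⟩
  · exact ⟨-5, by norm_num, wit_aux (by norm_num)⟩
  · exact ⟨2, by norm_num, wit_aux (by norm_num)⟩
  · exact ⟨1, by norm_num, wit_aux (by norm_num)⟩
  · exact ⟨1, by norm_num, wit_aux (by norm_num)⟩
  · exact ⟨-3, by norm_num, wit_aux (by norm_num)⟩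
  · exact ⟨-5, by norm_num, wit_aux (by norm_num)⟩
  · exact ⟨1, by norm_num, wit_aux (by norm_num)⟩
  · exact ⟨-3, by norm_num, wit_aux (by norm_num)⟩
  · exact ⟨1, by norm_num, wit_aux (by norm_num)⟩
  · exact ⟨-3, by norm_num, wit_aux (by norm_num)⟩
  · exact ⟨-10, by norm_num, wit_aux (by norm_num)⟩
  · exact ⟨-3, by norm_num, wit_aux (by norm_num)⟩
  · exact ⟨-5, by norm_num, wit_aux (by norm_num)⟩
  · exact ⟨3, by norm_num, wit_aux (by norm_num)⟩
  · exact ⟨1, by norm_num, wit_aux (by norm_num)⟩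
  · exact ⟨-6, by norm_num, wit_aux (by norm_num)⟩
  · exact ⟨-3, by norm_num, wit_aux (by norm_num)⟩
  · exact ⟨1, by norm_num, wit_aux (by norm_num)⟩
  · exact ⟨-3, by norm_num, wit_aux (by norm_num)⟩
  · exact ⟨2, by norm_num, wit_aux (by norm_num)⟩
  · exact ⟨-5, by norm_num, wit_aux (by norm_num)⟩
  · exact ⟨1, by norm_num, wit_aux (by norm_num)⟩
  · exact ⟨2, by norm_num, wit_aux (by norm_num)⟩
  · exact ⟨-3, by norm_num, wit_aux (by norm_num)⟩
  · exact ⟨1, by norm_num, wit_aux (by norm_num)⟩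
  · exact ⟨5, by norm_num, wit_aux (by norm_num)⟩
  · exact ⟨-3, by norm_num, wit_aux (by norm_num)⟩
  · exact ⟨1, by norm_num, wit_aux (by norm_num)⟩
  · exact ⟨-3, by norm_num, wit_aux (by norm_num)⟩
  · exact ⟨1, by norm_num, wit_aux (by norm_num)⟩
  · exact ⟨-6, by norm_num, wit_aux (by norm_num)⟩
  · exact ⟨-3, by norm_num, wit_aux (by norm_num)⟩
  · exact ⟨3, by norm_num, wit_aux (by norm_num)⟩
  · exact ⟨2, by norm_num, wit_aux (by norm_num)⟩
  · exact ⟨-3, by norm_num, wit_aux (by norm_num)⟩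
  · exact ⟨4, by norm_num, wit_aux (by norm_num)⟩
  · exact ⟨1, by norm_num, wit_aux (by norm_num)⟩
  · exact ⟨-3, by norm_num, wit_aux (by norm_num)⟩
  · exact ⟨-3, by norm_num, wit_aux (by norm_num)⟩
  · exact ⟨1, by norm_num, wit_aux (by norm_num)⟩
  · exact ⟨14, by norm_num, wit_aux (by norm_num)⟩
  · exact ⟨-3, by norm_num, wit_aux (by norm_num)⟩
  · exact ⟨1, by norm_num, wit_aux (by norm_num)⟩
  · exact ⟨3, by norm_num, wit_aux (by norm_num)⟩
  · exact ⟨1, by norm_num, wit_aux (by norm_num)⟩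
  · exact ⟨4, by norm_num, wit_aux (by norm_num)⟩
  · exact ⟨-3, by norm_num, wit_aux (by norm_num)⟩
  · exact ⟨2, by norm_num, wit_aux (by norm_num)⟩
  · exact ⟨1, by norm_num, wit_aux (by norm_num)⟩
  · exact ⟨2, by norm_num, wit_aux (by norm_num)⟩
  · exact ⟨-6, by norm_num, wit_aux (by norm_num)⟩
  · exact ⟨-4, by norm_num, wit_aux (by norm_num)⟩
  · exact ⟨-3, by norm_num, wit_aux (by norm_num)⟩
  · exact ⟨1, by norm_num, wit_aux (by norm_num)⟩
  · exact ⟨-3, by norm_num, wit_aux (by norm_num)⟩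
  · exact ⟨5, by norm_num, wit_aux (by norm_num)⟩
  · exact ⟨-3, by norm_num, wit_aux (by norm_num)⟩
  · exact ⟨1, by norm_num, wit_aux (by norm_num)⟩
  · exact ⟨-4, by norm_num, wit_aux (by norm_num)⟩
  · exact ⟨1, by norm_num, wit_aux (by norm_num)⟩
  · exact ⟨-5, by norm_num, wit_aux (by norm_num)⟩
  · exact ⟨-3, by norm_num, wit_aux (by norm_num)⟩
  · exact ⟨-3, by norm_num, wit_aux (by norm_num)⟩
  · exact ⟨-3, by norm_num, wit_aux (by norm_num)⟩
  · exact ⟨-4, by norm_num, wit_aux (by norm_num)⟩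
  · exact ⟨-10, by norm_num, wit_aux (by norm_num)⟩
  · exact ⟨2, by norm_num, wit_aux (by norm_num)⟩
  · exact ⟨-3, by norm_num, wit_aux (by norm_num)⟩
  · exact ⟨-3, by norm_num, wit_aux (by norm_num)⟩
  · exact ⟨1, by norm_num, wit_aux (by norm_num)⟩
  · exact ⟨-6, by norm_num, wit_aux (by norm_num)⟩
  · exact ⟨1, by norm_num, wit_aux (by norm_num)⟩
  · exact ⟨1, by norm_num, wit_aux (by norm_num)⟩
  · exact ⟨2, by norm_num, wit_aux (by norm_num)⟩
  · exact ⟨1, by norm_num, wit_aux (by norm_num)⟩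
  · exact ⟨-5, by norm_num, wit_aux (by norm_num)⟩
  · exact ⟨-3, by norm_num, wit_aux (by norm_num)⟩
  · exact ⟨3, by norm_num, wit_aux (by norm_num)⟩
  · exact ⟨2, by norm_num, wit_aux (by norm_num)⟩
  · exact ⟨-3, by norm_num, wit_aux (by norm_num)⟩
  · exact ⟨4, by norm_num, wit_aux (by norm_num)⟩
  · exact ⟨1, by norm_num, wit_aux (by norm_num)⟩
  · exact ⟨2, by norm_num, wit_aux (by norm_num)⟩
  · exact ⟨1, by norm_num, wit_aux (by norm_num)⟩
  · exact ⟨1, by norm_num, wit_aux (by norm_num)⟩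
  · exact ⟨-6, by norm_num, wit_aux (by norm_num)⟩
  · exact ⟨1, by norm_num, wit_aux (by norm_num)⟩
  · exact ⟨-3, by norm_num, wit_aux (by norm_num)⟩
  · exact ⟨2, by norm_num, wit_aux (by norm_num)⟩
  · exact ⟨-3, by norm_num, wit_aux (by norm_num)⟩
  · exact ⟨-5, by norm_num, wit_aux (by norm_num)⟩
  · exact ⟨2, by norm_num, wit_aux (by norm_num)⟩
  · exact ⟨-4, by norm_num, wit_aux (by norm_num)⟩
  · exact ⟨1, by norm_num, wit_aux (by norm_num)⟩
  · exact ⟨2, by norm_num, wit_aux (by norm_num)⟩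
  · exact ⟨-5, by norm_num, wit_aux (by norm_num)⟩
  · exact ⟨9, by norm_num, wit_aux (by norm_num)⟩
  · exact ⟨2, by norm_num, wit_aux (by norm_num)⟩
  · exact ⟨1, by norm_num, wit_aux (by norm_num)⟩
  · exact ⟨1, by norm_num, wit_aux (by norm_num)⟩
  · exact ⟨-15, by norm_num, wit_aux (by norm_num)⟩
  · exact ⟨1, by norm_num, wit_aux (by norm_num)⟩
  · exact ⟨1, by norm_num, wit_aux (by norm_num)⟩
  · exact ⟨-3, by norm_num, wit_aux (by norm_num)⟩
  · exact ⟨-3, by norm_num, wit_aux (by norm_num)⟩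
  · exact ⟨-5, by norm_num, wit_aux (by norm_num)⟩
  · exact ⟨-6, by norm_num, wit_aux (by norm_num)⟩
  · exact ⟨1, by norm_num, wit_aux (by norm_num)⟩
  · exact ⟨1, by norm_num, wit_aux (by norm_num)⟩
  · exact ⟨-3, by norm_num, wit_aux (by norm_num)⟩
  · exact ⟨9, by norm_num, wit_aux (by norm_num)⟩
  · exact ⟨-3, by norm_num, wit_aux (by norm_num)⟩
  · exact ⟨-3, by norm_num, wit_aux (by norm_num)⟩
  · exact ⟨-4, by norm_num, wit_aux (by norm_num)⟩
  · exact ⟨1, by norm_num, wit_aux (by norm_num)⟩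
  · exact ⟨-10, by norm_num, wit_aux (by norm_num)⟩
  · exact ⟨2, by norm_num, wit_aux (by norm_num)⟩
  · exact ⟨2, by norm_num, wit_aux (by norm_num)⟩
  · exact ⟨-3, by norm_num, wit_aux (by norm_num)⟩
  · exact ⟨1, by norm_num, wit_aux (by norm_num)⟩
  · exact ⟨-6, by norm_num, wit_aux (by norm_num)⟩
  · exact ⟨-3, by norm_num, wit_aux (by norm_num)⟩
  · exact ⟨-3, by norm_num, wit_aux (by norm_num)⟩
  · exact ⟨2, by norm_num, wit_aux (by norm_num)⟩
  · exact ⟨2, by norm_num, wit_aux (by norm_num)⟩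
  · exact ⟨-5, by norm_num, wit_aux (by norm_num)⟩
  · exact ⟨1, by norm_num, wit_aux (by norm_num)⟩
  · exact ⟨-4, by norm_num, wit_aux (by norm_num)⟩
  · exact ⟨1, by norm_num, wit_aux (by norm_num)⟩
  · exact ⟨2, by norm_num, wit_aux (by norm_num)⟩
  · exact ⟨-6, by norm_num, wit_aux (by norm_num)⟩
  · exact ⟨-5, by norm_num, wit_aux (by norm_num)⟩
  · exact ⟨1, by norm_num, wit_aux (by norm_num)⟩
  · exact ⟨-3, by norm_num, wit_aux (by norm_num)⟩
  · exact ⟨1, by norm_num, wit_aux (by norm_num)⟩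
  · exact ⟨-6, by norm_num, wit_aux (by norm_num)⟩
  · exact ⟨2, by norm_num, wit_aux (by norm_num)⟩
  · exact ⟨1, by norm_num, wit_aux (by norm_num)⟩
  · exact ⟨-3, by norm_num, wit_aux (by norm_num)⟩
  · exact ⟨2, by norm_num, wit_aux (by norm_num)⟩
  · exact ⟨-5, by norm_num, wit_aux (by norm_num)⟩
  · exact ⟨1, by norm_num, wit_aux (by norm_num)⟩
  · exact ⟨-3, by norm_num, wit_aux (by norm_num)⟩
  · exact ⟨1, by norm_num, wit_aux (by norm_num)⟩
  · exact ⟨2, by norm_num, wit_aux (by norm_num)⟩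
  · exact ⟨9, by norm_num, wit_aux (by norm_num)⟩
  · exact ⟨1, by norm_num, wit_aux (by norm_num)⟩
  · exact ⟨2, by norm_num, wit_aux (by norm_num)⟩
  · exact ⟨-4, by norm_num, wit_aux (by norm_num)⟩
  · exact ⟨1, by norm_num, wit_aux (by norm_num)⟩
  · exact ⟨4, by norm_num, wit_aux (by norm_num)⟩
  · exact ⟨2, by norm_num, wit_aux (by norm_num)⟩
  · exact ⟨-3, by norm_num, wit_aux (by norm_num)⟩
  · exact ⟨1, by norm_num, wit_aux (by norm_num)⟩
  · exact ⟨-3, by norm_num, wit_aux (by norm_num)⟩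
  · exact ⟨-5, by norm_num, wit_aux (by norm_num)⟩
  · exact ⟨-3, by norm_num, wit_aux (by norm_num)⟩
  · exact ⟨2, by norm_num, wit_aux (by norm_num)⟩
  · exact ⟨1, by norm_num, wit_aux (by norm_num)⟩
  · exact ⟨-3, by norm_num, wit_aux (by norm_num)⟩
  · exact ⟨5, by norm_num, wit_aux (by norm_num)⟩
  · exact ⟨-3, by norm_num, wit_aux (by norm_num)⟩
  · exact ⟨1, by norm_num, wit_aux (by norm_num)⟩
  · exact ⟨-3, by norm_num, wit_aux (by norm_num)⟩
  · exact ⟨-3, by norm_num, wit_aux (by norm_num)⟩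
  · exact ⟨-5, by norm_num, wit_aux (by norm_num)⟩
  · exact ⟨-3, by norm_num, wit_aux (by norm_num)⟩
  · exact ⟨1, by norm_num, wit_aux (by norm_num)⟩
  · exact ⟨-4, by norm_num, wit_aux (by norm_num)⟩
  · exact ⟨3, by norm_num, wit_aux (by norm_num)⟩
  · exact ⟨5, by norm_num, wit_aux (by norm_num)⟩
  · exact ⟨1, by norm_num, wit_aux (by norm_num)⟩
  · exact ⟨2, by norm_num, wit_aux (by norm_num)⟩
  · exact ⟨-3, by norm_num, wit_aux (by norm_num)⟩
  · exact ⟨1, by norm_num, wit_aux (by norm_num)⟩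
  · exact ⟨30, by norm_num, wit_aux (by norm_num)⟩
  · exact ⟨1, by norm_num, wit_aux (by norm_num)⟩
  · exact ⟨-3, by norm_num, wit_aux (by norm_num)⟩
  · exact ⟨-3, by norm_num, wit_aux (by norm_num)⟩
  · exact ⟨2, by norm_num, wit_aux (by norm_num)⟩
  · exact ⟨-5, by norm_num, wit_aux (by norm_num)⟩
  · exact ⟨-3, by norm_num, wit_aux (by norm_num)⟩
  · exact ⟨1, by norm_num, wit_aux (by norm_num)⟩
  · exact ⟨1, by norm_num, wit_aux (by norm_num)⟩
  · exact ⟨-4, by norm_num, wit_aux (by norm_num)⟩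
  · exact ⟨-5, by norm_num, wit_aux (by norm_num)⟩
  · exact ⟨1, by norm_num, wit_aux (by norm_num)⟩
  · exact ⟨-7, by norm_num, wit_aux (by norm_num)⟩
  · exact ⟨3, by norm_num, wit_aux (by norm_num)⟩
  · exact ⟨1, by norm_num, wit_aux (by norm_num)⟩
  · exact ⟨-6, by norm_num, wit_aux (by norm_num)⟩
  · exact ⟨1, by norm_num, wit_aux (by norm_num)⟩
  · exact ⟨1, by norm_num, wit_aux (by norm_num)⟩
  · exact ⟨-3, by norm_num, wit_aux (by norm_num)⟩
  · exact ⟨-3, by norm_num, wit_aux (by norm_num)⟩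
  · exact ⟨-5, by norm_num, wit_aux (by norm_num)⟩
  · exact ⟨-3, by norm_num, wit_aux (by norm_num)⟩
  · exact ⟨1, by norm_num, wit_aux (by norm_num)⟩
  · exact ⟨-3, by norm_num, wit_aux (by norm_num)⟩
  · exact ⟨-3, by norm_num, wit_aux (by norm_num)⟩
  · exact ⟨-6, by norm_num, wit_aux (by norm_num)⟩
  · exact ⟨2, by norm_num, wit_aux (by norm_num)⟩
  · exact ⟨2, by norm_num, wit_aux (by norm_num)⟩
  · exact ⟨1, by norm_num, wit_aux (by norm_num)⟩
  · exact ⟨1, by norm_num, wit_aux (by norm_num)⟩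
  · exact ⟨-10, by norm_num, wit_aux (by norm_num)⟩
  · exact ⟨1, by norm_num, wit_aux (by norm_num)⟩
  · exact ⟨-3, by norm_num, wit_aux (by norm_num)⟩
  · exact ⟨6, by norm_num, wit_aux (by norm_num)⟩
  · exact ⟨1, by norm_num, wit_aux (by norm_num)⟩
  · exact ⟨4, by norm_num, wit_aux (by norm_num)⟩
  · exact ⟨-4, by norm_num, wit_aux (by norm_num)⟩
  · exact ⟨1, by norm_num, wit_aux (by norm_num)⟩
  · exact ⟨1, by norm_num, wit_aux (by norm_num)⟩
  · exact ⟨2, by norm_num, wit_aux (by norm_num)⟩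
  · exact ⟨-5, by norm_num, wit_aux (by norm_num)⟩
  · exact ⟨1, by norm_num, wit_aux (by norm_num)⟩
  · exact ⟨2, by norm_num, wit_aux (by norm_num)⟩
  · exact ⟨2, by norm_num, wit_aux (by norm_num)⟩
  · exact ⟨1, by norm_num, wit_aux (by norm_num)⟩
  · exact ⟨5, by norm_num, wit_aux (by norm_num)⟩
  · exact ⟨2, by norm_num, wit_aux (by norm_num)⟩
  · exact ⟨-3, by norm_num, wit_aux (by norm_num)⟩
  · exact ⟨2, by norm_num, wit_aux (by norm_num)⟩
  · exact ⟨1, by norm_num, wit_aux (by norm_num)⟩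
  · exact ⟨-5, by norm_num, wit_aux (by norm_num)⟩
  · exact ⟨-3, by norm_num, wit_aux (by norm_num)⟩
  · exact ⟨1, by norm_num, wit_aux (by norm_num)⟩
  · exact ⟨1, by norm_num, wit_aux (by norm_num)⟩
  · exact ⟨11, by norm_num, wit_aux (by norm_num)⟩
  · exact ⟨-5, by norm_num, wit_aux (by norm_num)⟩
  · exact ⟨1, by norm_num, wit_aux (by norm_num)⟩
  · exact ⟨2, by norm_num, wit_aux (by norm_num)⟩
  · exact ⟨-3, by norm_num, wit_aux (by norm_num)⟩
  · exact ⟨1, by norm_num, wit_aux (by norm_num)⟩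
  · exact ⟨-6, by norm_num, wit_aux (by norm_num)⟩
  · exact ⟨2, by norm_num, wit_aux (by norm_num)⟩
  · exact ⟨2, by norm_num, wit_aux (by norm_num)⟩
  · exact ⟨-3, by norm_num, wit_aux (by norm_num)⟩
  · exact ⟨1, by norm_num, wit_aux (by norm_num)⟩
  · exact ⟨4, by norm_num, wit_aux (by norm_num)⟩
  · exact ⟨-3, by norm_num, wit_aux (by norm_num)⟩
  · exact ⟨1, by norm_num, wit_aux (by norm_num)⟩
  · exact ⟨-3, by norm_num, wit_aux (by norm_num)⟩
  · exact ⟨-3, by norm_num, wit_aux (by norm_num)⟩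
  · exact ⟨4, by norm_num, wit_aux (by norm_num)⟩
  · exact ⟨2, by norm_num, wit_aux (by norm_num)⟩
  · exact ⟨-3, by norm_num, wit_aux (by norm_num)⟩
  · exact ⟨2, by norm_num, wit_aux (by norm_num)⟩
  · exact ⟨-3, by norm_num, wit_aux (by norm_num)⟩
  · exact ⟨-21, by norm_num, wit_aux (by norm_num)⟩
  · exact ⟨1, by norm_num, wit_aux (by norm_num)⟩
  · exact ⟨1, by norm_num, wit_aux (by norm_num)⟩
  · exact ⟨2, by norm_num, wit_aux (by norm_num)⟩
  · exact ⟨-4, by norm_num, wit_aux (by norm_num)⟩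
  · exact ⟨4, by norm_num, wit_aux (by norm_num)⟩
  · exact ⟨2, by norm_num, wit_aux (by norm_num)⟩
  · exact ⟨-3, by norm_num, wit_aux (by norm_num)⟩
  · exact ⟨1, by norm_num, wit_aux (by norm_num)⟩
  · exact ⟨-3, by norm_num, wit_aux (by norm_num)⟩
  · exact ⟨-5, by norm_num, wit_aux (by norm_num)⟩
  · exact ⟨1, by norm_num, wit_aux (by norm_num)⟩
  · exact ⟨-3, by norm_num, wit_aux (by norm_num)⟩
  · exact ⟨1, by norm_num, wit_aux (by norm_num)⟩
  · exact ⟨-3, by norm_num, wit_aux (by norm_num)⟩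
  · exact ⟨-16, by norm_num, wit_aux (by norm_num)⟩
  · exact ⟨2, by norm_num, wit_aux (by norm_num)⟩
  · exact ⟨1, by norm_num, wit_aux (by norm_num)⟩
  · exact ⟨3, by norm_num, wit_aux (by norm_num)⟩
  · exact ⟨1, by norm_num, wit_aux (by norm_num)⟩
  · exact ⟨4, by norm_num, wit_aux (by norm_num)⟩
  · exact ⟨-3, by norm_num, wit_aux (by norm_num)⟩
  · exact ⟨-3, by norm_num, wit_aux (by norm_num)⟩
  · exact ⟨1, by norm_num, wit_aux (by norm_num)⟩
  · exact ⟨3, by norm_num, wit_aux (by norm_num)⟩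
  · exact ⟨4, by norm_num, wit_aux (by norm_num)⟩
  · exact ⟨-3, by norm_num, wit_aux (by norm_num)⟩
  · exact ⟨2, by norm_num, wit_aux (by norm_num)⟩
  · exact ⟨7, by norm_num, wit_aux (by norm_num)⟩
  · exact ⟨1, by norm_num, wit_aux (by norm_num)⟩
  · exact ⟨5, by norm_num, wit_aux (by norm_num)⟩
  · exact ⟨1, by norm_num, wit_aux (by norm_num)⟩
  · exact ⟨1, by norm_num, wit_aux (by norm_num)⟩
  · exact ⟨-3, by norm_num, wit_aux (by norm_num)⟩
  · exact ⟨1, by norm_num, wit_aux (by norm_num)⟩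
  · exact ⟨-21, by norm_num, wit_aux (by norm_num)⟩
  · exact ⟨-4, by norm_num, wit_aux (by norm_num)⟩
  · exact ⟨-4, by norm_num, wit_aux (by norm_num)⟩
  · exact ⟨1, by norm_num, wit_aux (by norm_num)⟩
  · exact ⟨-4, by norm_num, wit_aux (by norm_num)⟩
  · exact ⟨-6, by norm_num, wit_aux (by norm_num)⟩
  · exact ⟨1, by norm_num, wit_aux (by norm_num)⟩
  · exact ⟨-7, by norm_num, wit_aux (by norm_num)⟩
  · exact ⟨1, by norm_num, wit_aux (by norm_num)⟩
  · exact ⟨-3, by norm_num, wit_aux (by norm_num)⟩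
  · exact ⟨5, by norm_num, wit_aux (by norm_num)⟩
  · exact ⟨1, by norm_num, wit_aux (by norm_num)⟩
  · exact ⟨1, by norm_num, wit_aux (by norm_num)⟩
  · exact ⟨-3, by norm_num, wit_aux (by norm_num)⟩
  · exact ⟨2, by norm_num, wit_aux (by norm_num)⟩
  · exact ⟨-6, by norm_num, wit_aux (by norm_num)⟩
  · exact ⟨-3, by norm_num, wit_aux (by norm_num)⟩
  · exact ⟨1, by norm_num, wit_aux (by norm_num)⟩
  · exact ⟨1, by norm_num, wit_aux (by norm_num)⟩
  · exact ⟨-4, by norm_num, wit_aux (by norm_num)⟩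
  · exact ⟨4, by norm_num, wit_aux (by norm_num)⟩
  · exact ⟨-3, by norm_num, wit_aux (by norm_num)⟩
  · exact ⟨-3, by norm_num, wit_aux (by norm_num)⟩
  · exact ⟨1, by norm_num, wit_aux (by norm_num)⟩
  · exact ⟨2, by norm_num, wit_aux (by norm_num)⟩
  · exact ⟨5, by norm_num, wit_aux (by norm_num)⟩
  · exact ⟨-4, by norm_num, wit_aux (by norm_num)⟩
  · exact ⟨1, by norm_num, wit_aux (by norm_num)⟩
  · exact ⟨-3, by norm_num, wit_aux (by norm_num)⟩
  · exact ⟨1, by norm_num, wit_aux (by norm_num)⟩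
  · exact ⟨5, by norm_num, wit_aux (by norm_num)⟩
  · exact ⟨3, by norm_num, wit_aux (by norm_num)⟩
  · exact ⟨-3, by norm_num, wit_aux (by norm_num)⟩
  · exact ⟨1, by norm_num, wit_aux (by norm_num)⟩
  · exact ⟨-3, by norm_num, wit_aux (by norm_num)⟩
  · exact ⟨-5, by norm_num, wit_aux (by norm_num)⟩
  · exact ⟨1, by norm_num, wit_aux (by norm_num)⟩
  · exact ⟨2, by norm_num, wit_aux (by norm_num)⟩
  · exact ⟨1, by norm_num, wit_aux (by norm_num)⟩
  · exact ⟨3, by norm_num, wit_aux (by norm_num)⟩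
  · exact ⟨-6, by norm_num, wit_aux (by norm_num)⟩
  · exact ⟨1, by norm_num, wit_aux (by norm_num)⟩
  · exact ⟨-3, by norm_num, wit_aux (by norm_num)⟩
  · exact ⟨-3, by norm_num, wit_aux (by norm_num)⟩
  · exact ⟨1, by norm_num, wit_aux (by norm_num)⟩
  · exact ⟨-16, by norm_num, wit_aux (by norm_num)⟩
  · exact ⟨-4, by norm_num, wit_aux (by norm_num)⟩
  · exact ⟨2, by norm_num, wit_aux (by norm_num)⟩
  · exact ⟨1, by norm_num, wit_aux (by norm_num)⟩
  · exact ⟨-3, by norm_num, wit_aux (by norm_num)⟩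
  · exact ⟨-5, by norm_num, wit_aux (by norm_num)⟩
  · exact ⟨1, by norm_num, wit_aux (by norm_num)⟩
  · exact ⟨2, by norm_num, wit_aux (by norm_num)⟩
  · exact ⟨1, by norm_num, wit_aux (by norm_num)⟩
  · exact ⟨1, by norm_num, wit_aux (by norm_num)⟩
  · exact ⟨-6, by norm_num, wit_aux (by norm_num)⟩
  · exact ⟨-3, by norm_num, wit_aux (by norm_num)⟩
  · exact ⟨-3, by norm_num, wit_aux (by norm_num)⟩
  · exact ⟨-4, by norm_num, wit_aux (by norm_num)⟩
  · exact ⟨1, by norm_num, wit_aux (by norm_num)⟩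
  · exact ⟨-6, by norm_num, wit_aux (by norm_num)⟩
  · exact ⟨2, by norm_num, wit_aux (by norm_num)⟩
  · exact ⟨1, by norm_num, wit_aux (by norm_num)⟩
  · exact ⟨-3, by norm_num, wit_aux (by norm_num)⟩
  · exact ⟨-3, by norm_num, wit_aux (by norm_num)⟩
  · exact ⟨-5, by norm_num, wit_aux (by norm_num)⟩
  · exact ⟨3, by norm_num, wit_aux (by norm_num)⟩
  · exact ⟨-3, by norm_num, wit_aux (by norm_num)⟩
  · exact ⟨-3, by norm_num, wit_aux (by norm_num)⟩
  · exact ⟨1, by norm_num, wit_aux (by norm_num)⟩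
  · exact ⟨-10, by norm_num, wit_aux (by norm_num)⟩
  · exact ⟨1, by norm_num, wit_aux (by norm_num)⟩
  · exact ⟨1, by norm_num, wit_aux (by norm_num)⟩
  · exact ⟨2, by norm_num, wit_aux (by norm_num)⟩
  · exact ⟨1, by norm_num, wit_aux (by norm_num)⟩
  · exact ⟨-5, by norm_num, wit_aux (by norm_num)⟩
  · exact ⟨2, by norm_num, wit_aux (by norm_num)⟩
  · exact ⟨6, by norm_num, wit_aux (by norm_num)⟩
  · exact ⟨-3, by norm_num, wit_aux (by norm_num)⟩
  · exact ⟨-3, by norm_num, wit_aux (by norm_num)⟩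
  · exact ⟨-6, by norm_num, wit_aux (by norm_num)⟩
  · exact ⟨1, by norm_num, wit_aux (by norm_num)⟩
  · exact ⟨-3, by norm_num, wit_aux (by norm_num)⟩
  · exact ⟨-3, by norm_num, wit_aux (by norm_num)⟩
  · exact ⟨-5, by norm_num, wit_aux (by norm_num)⟩
  · exact ⟨14, by norm_num, wit_aux (by norm_num)⟩
  · exact ⟨1, by norm_num, wit_aux (by norm_num)⟩
  · exact ⟨1, by norm_num, wit_aux (by norm_num)⟩
  · exact ⟨-3, by norm_num, wit_aux (by norm_num)⟩
  · exact ⟨1, by norm_num, wit_aux (by norm_num)⟩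
  · exact ⟨-16, by norm_num, wit_aux (by norm_num)⟩
  · exact ⟨-3, by norm_num, wit_aux (by norm_num)⟩
  · exact ⟨1, by norm_num, wit_aux (by norm_num)⟩
  · exact ⟨1, by norm_num, wit_aux (by norm_num)⟩
  · exact ⟨2, by norm_num, wit_aux (by norm_num)⟩
  · exact ⟨4, by norm_num, wit_aux (by norm_num)⟩
  · exact ⟨1, by norm_num, wit_aux (by norm_num)⟩
  · exact ⟨-3, by norm_num, wit_aux (by norm_num)⟩
  · exact ⟨2, by norm_num, wit_aux (by norm_num)⟩
  · exact ⟨1, by norm_num, wit_aux (by norm_num)⟩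
  · exact ⟨-6, by norm_num, wit_aux (by norm_num)⟩
  · exact ⟨2, by norm_num, wit_aux (by norm_num)⟩
  · exact ⟨1, by norm_num, wit_aux (by norm_num)⟩
  · exact ⟨2, by norm_num, wit_aux (by norm_num)⟩
  · exact ⟨2, by norm_num, wit_aux (by norm_num)⟩
  · exact ⟨4, by norm_num, wit_aux (by norm_num)⟩
  · exact ⟨-3, by norm_num, wit_aux (by norm_num)⟩
  · exact ⟨1, by norm_num, wit_aux (by norm_num)⟩
  · exact ⟨1, by norm_num, wit_aux (by norm_num)⟩
  · exact ⟨-3, by norm_num, wit_aux (by norm_num)⟩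
  · exact ⟨-5, by norm_num, wit_aux (by norm_num)⟩
  · exact ⟨1, by norm_num, wit_aux (by norm_num)⟩
  · exact ⟨-3, by norm_num, wit_aux (by norm_num)⟩
  · exact ⟨1, by norm_num, wit_aux (by norm_num)⟩
  · exact ⟨1, by norm_num, wit_aux (by norm_num)⟩
  · exact ⟨-6, by norm_num, wit_aux (by norm_num)⟩
  · exact ⟨1, by norm_num, wit_aux (by norm_num)⟩
  · exact ⟨-3, by norm_num, wit_aux (by norm_num)⟩
  · exact ⟨-3, by norm_num, wit_aux (by norm_num)⟩
  · exact ⟨-3, by norm_num, wit_aux (by norm_num)⟩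
  · exact ⟨-5, by norm_num, wit_aux (by norm_num)⟩
  · exact ⟨-6, by norm_num, wit_aux (by norm_num)⟩
  · exact ⟨1, by norm_num, wit_aux (by norm_num)⟩
  · exact ⟨-3, by norm_num, wit_aux (by norm_num)⟩
  · exact ⟨2, by norm_num, wit_aux (by norm_num)⟩
  · exact ⟨4, by norm_num, wit_aux (by norm_num)⟩
  · exact ⟨-3, by norm_num, wit_aux (by norm_num)⟩
  · exact ⟨-3, by norm_num, wit_aux (by norm_num)⟩
  · exact ⟨1, by norm_num, wit_aux (by norm_num)⟩
  · exact ⟨1, by norm_num, wit_aux (by norm_num)⟩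
  · exact ⟨5, by norm_num, wit_aux (by norm_num)⟩
  · exact ⟨1, by norm_num, wit_aux (by norm_num)⟩
  · exact ⟨1, by norm_num, wit_aux (by norm_num)⟩
  · exact ⟨-3, by norm_num, wit_aux (by norm_num)⟩
  · exact ⟨2, by norm_num, wit_aux (by norm_num)⟩
  · exact ⟨4, by norm_num, wit_aux (by norm_num)⟩
  · exact ⟨-4, by norm_num, wit_aux (by norm_num)⟩
  · exact ⟨1, by norm_num, wit_aux (by norm_num)⟩
  · exact ⟨1, by norm_num, wit_aux (by norm_num)⟩
  · exact ⟨-3, by norm_num, wit_aux (by norm_num)⟩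
  · exact ⟨-5, by norm_num, wit_aux (by norm_num)⟩
  · exact ⟨1, by norm_num, wit_aux (by norm_num)⟩
  · exact ⟨-3, by norm_num, wit_aux (by norm_num)⟩
  · exact ⟨3, by norm_num, wit_aux (by norm_num)⟩
  · exact ⟨1, by norm_num, wit_aux (by norm_num)⟩
  · exact ⟨-16, by norm_num, wit_aux (by norm_num)⟩
  · exact ⟨1, by norm_num, wit_aux (by norm_num)⟩
  · exact ⟨-7, by norm_num, wit_aux (by norm_num)⟩
  · exact ⟨-3, by norm_num, wit_aux (by norm_num)⟩
  · exact ⟨1, by norm_num, wit_aux (by norm_num)⟩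
  · exact ⟨-15, by norm_num, wit_aux (by norm_num)⟩
  · exact ⟨-3, by norm_num, wit_aux (by norm_num)⟩
  · exact ⟨1, by norm_num, wit_aux (by norm_num)⟩
  · exact ⟨1, by norm_num, wit_aux (by norm_num)⟩
  · exact ⟨-3, by norm_num, wit_aux (by norm_num)⟩
  · exact ⟨4, by norm_num, wit_aux (by norm_num)⟩
  · exact ⟨-3, by norm_num, wit_aux (by norm_num)⟩
  · exact ⟨2, by norm_num, wit_aux (by norm_num)⟩
  · exact ⟨1, by norm_num, wit_aux (by norm_num)⟩
  · exact ⟨1, by norm_num, wit_aux (by norm_num)⟩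
  · exact ⟨-6, by norm_num, wit_aux (by norm_num)⟩
  · exact ⟨-3, by norm_num, wit_aux (by norm_num)⟩
  · exact ⟨1, by norm_num, wit_aux (by norm_num)⟩
  · exact ⟨2, by norm_num, wit_aux (by norm_num)⟩
  · exact ⟨1, by norm_num, wit_aux (by norm_num)⟩
  · exact ⟨-6, by norm_num, wit_aux (by norm_num)⟩
  · exact ⟨-3, by norm_num, wit_aux (by norm_num)⟩
  · exact ⟨-3, by norm_num, wit_aux (by norm_num)⟩
  · exact ⟨-3, by norm_num, wit_aux (by norm_num)⟩
  · exact ⟨-6, by norm_num, wit_aux (by norm_num)⟩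
  · exact ⟨-5, by norm_num, wit_aux (by norm_num)⟩
  · exact ⟨1, by norm_num, wit_aux (by norm_num)⟩
  · exact ⟨-4, by norm_num, wit_aux (by norm_num)⟩
  · exact ⟨1, by norm_num, wit_aux (by norm_num)⟩
  · exact ⟨1, by norm_num, wit_aux (by norm_num)⟩
  · exact ⟨-10, by norm_num, wit_aux (by norm_num)⟩
  · exact ⟨1, by norm_num, wit_aux (by norm_num)⟩
  · exact ⟨1, by norm_num, wit_aux (by norm_num)⟩
  · exact ⟨2, by norm_num, wit_aux (by norm_num)⟩
  · exact ⟨1, by norm_num, wit_aux (by norm_num)⟩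
  · exact ⟨4, by norm_num, wit_aux (by norm_num)⟩
  · exact ⟨-3, by norm_num, wit_aux (by norm_num)⟩
  · exact ⟨-3, by norm_num, wit_aux (by norm_num)⟩
  · exact ⟨1, by norm_num, wit_aux (by norm_num)⟩
  · exact ⟨-3, by norm_num, wit_aux (by norm_num)⟩
  · exact ⟨-5, by norm_num, wit_aux (by norm_num)⟩
  · exact ⟨1, by norm_num, wit_aux (by norm_num)⟩
  · exact ⟨-3, by norm_num, wit_aux (by norm_num)⟩
  · exact ⟨1, by norm_num, wit_aux (by norm_num)⟩
  · exact ⟨2, by norm_num, wit_aux (by norm_num)⟩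
  · exact ⟨-6, by norm_num, wit_aux (by norm_num)⟩
  · exact ⟨1, by norm_num, wit_aux (by norm_num)⟩
  · exact ⟨1, by norm_num, wit_aux (by norm_num)⟩
  · exact ⟨-3, by norm_num, wit_aux (by norm_num)⟩
  · exact ⟨1, by norm_num, wit_aux (by norm_num)⟩
  · exact ⟨-5, by norm_num, wit_aux (by norm_num)⟩
  · exact ⟨-3, by norm_num, wit_aux (by norm_num)⟩
  · exact ⟨1, by norm_num, wit_aux (by norm_num)⟩
  · exact ⟨1, by norm_num, wit_aux (by norm_num)⟩
  · exact ⟨2, by norm_num, wit_aux (by norm_num)⟩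
  · exact ⟨4, by norm_num, wit_aux (by norm_num)⟩
  · exact ⟨1, by norm_num, wit_aux (by norm_num)⟩
  · exact ⟨2, by norm_num, wit_aux (by norm_num)⟩
  · exact ⟨-3, by norm_num, wit_aux (by norm_num)⟩
  · exact ⟨1, by norm_num, wit_aux (by norm_num)⟩
  · exact ⟨-6, by norm_num, wit_aux (by norm_num)⟩
  · exact ⟨1, by norm_num, wit_aux (by norm_num)⟩
  · exact ⟨1, by norm_num, wit_aux (by norm_num)⟩
  · exact ⟨-3, by norm_num, wit_aux (by norm_num)⟩
  · exact ⟨1, by norm_num, wit_aux (by norm_num)⟩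
  · exact ⟨-5, by norm_num, wit_aux (by norm_num)⟩
  · exact ⟨-3, by norm_num, wit_aux (by norm_num)⟩
  · exact ⟨1, by norm_num, wit_aux (by norm_num)⟩
  · exact ⟨1, by norm_num, wit_aux (by norm_num)⟩
  · exact ⟨-3, by norm_num, wit_aux (by norm_num)⟩
  · exact ⟨-11, by norm_num, wit_aux (by norm_num)⟩
  · exact ⟨1, by norm_num, wit_aux (by norm_num)⟩
  · exact ⟨-3, by norm_num, wit_aux (by norm_num)⟩
  · exact ⟨1, by norm_num, wit_aux (by norm_num)⟩
  · exact ⟨1, by norm_num, wit_aux (by norm_num)⟩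
  · exact ⟨-6, by norm_num, wit_aux (by norm_num)⟩
  · exact ⟨1, by norm_num, wit_aux (by norm_num)⟩
  · exact ⟨1, by norm_num, wit_aux (by norm_num)⟩
  · exact ⟨-3, by norm_num, wit_aux (by norm_num)⟩
  · exact ⟨1, by norm_num, wit_aux (by norm_num)⟩
  · exact ⟨1, by norm_num, wit_aux (by norm_num)⟩
  · exact ⟨1, by norm_num, wit_aux (by norm_num)⟩
  · exact ⟨-3, by norm_num, wit_aux (by norm_num)⟩
  · exact ⟨2, by norm_num, wit_aux (by norm_num)⟩
  · exact ⟨1, by norm_num, wit_aux (by norm_num)⟩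
  · exact ⟨1, by norm_num, wit_aux (by norm_num)⟩
  · exact ⟨1, by norm_num, wit_aux (by norm_num)⟩
  · exact ⟨2, by norm_num, wit_aux (by norm_num)⟩
  · exact ⟨1, by norm_num, wit_aux (by norm_num)⟩
  · exact ⟨1, by norm_num, wit_aux (by norm_num)⟩
  · exact ⟨5, by norm_num, wit_aux (by norm_num)⟩
  · exact ⟨1, by norm_num, wit_aux (by norm_num)⟩
  · exact ⟨1, by norm_num, wit_aux (by norm_num)⟩
  · exact ⟨2, by norm_num, wit_aux (by norm_num)⟩
  · exact ⟨1, by norm_num, wit_aux (by norm_num)⟩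
  · exact ⟨10, by norm_num, wit_aux (by norm_num)⟩
  · exact ⟨2, by norm_num, wit_aux (by norm_num)⟩
  · exact ⟨1, by norm_num, wit_aux (by norm_num)⟩
  · exact ⟨1, by norm_num, wit_aux (by norm_num)⟩
  · exact ⟨2, by norm_num, wit_aux (by norm_num)⟩
  · exact ⟨4, by norm_num, wit_aux (by norm_num)⟩
  · exact ⟨1, by norm_num, wit_aux (by norm_num)⟩
  · exact ⟨2, by norm_num, wit_aux (by norm_num)⟩
  · exact ⟨1, by norm_num, wit_aux (by norm_num)⟩
  · exact ⟨1, by norm_num, wit_aux (by norm_num)⟩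
  · exact ⟨5, by norm_num, wit_aux (by norm_num)⟩
  · exact ⟨1, by norm_num, wit_aux (by norm_num)⟩
  · exact ⟨2, by norm_num, wit_aux (by norm_num)⟩
  · exact ⟨-3, by norm_num, wit_aux (by norm_num)⟩
  · exact ⟨1, by norm_num, wit_aux (by norm_num)⟩
  · exact ⟨-5, by norm_num, wit_aux (by norm_num)⟩
  · exact ⟨-3, by norm_num, wit_aux (by norm_num)⟩
  · exact ⟨1, by norm_num, wit_aux (by norm_num)⟩
  · exact ⟨1, by norm_num, wit_aux (by norm_num)⟩
  · exact ⟨2, by norm_num, wit_aux (by norm_num)⟩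
  · exact ⟨4, by norm_num, wit_aux (by norm_num)⟩
  · exact ⟨1, by norm_num, wit_aux (by norm_num)⟩
  · exact ⟨2, by norm_num, wit_aux (by norm_num)⟩
  · exact ⟨1, by norm_num, wit_aux (by norm_num)⟩
  · exact ⟨1, by norm_num, wit_aux (by norm_num)⟩
  · exact ⟨5, by norm_num, wit_aux (by norm_num)⟩
  · exact ⟨-3, by norm_num, wit_aux (by norm_num)⟩
  · exact ⟨1, by norm_num, wit_aux (by norm_num)⟩
  · exact ⟨2, by norm_num, wit_aux (by norm_num)⟩
  · exact ⟨1, by norm_num, wit_aux (by norm_num)⟩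
  · exact ⟨4, by norm_num, wit_aux (by norm_num)⟩
  · exact ⟨2, by norm_num, wit_aux (by norm_num)⟩
  · exact ⟨1, by norm_num, wit_aux (by norm_num)⟩
  · exact ⟨2, by norm_num, wit_aux (by norm_num)⟩
  · exact ⟨2, by norm_num, wit_aux (by norm_num)⟩
  · exact ⟨-5, by norm_num, wit_aux (by norm_num)⟩
  · exact ⟨1, by norm_num, wit_aux (by norm_num)⟩
  · exact ⟨-3, by norm_num, wit_aux (by norm_num)⟩
  · exact ⟨1, by norm_num, wit_aux (by norm_num)⟩
  · exact ⟨1, by norm_num, wit_aux (by norm_num)⟩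
  · exact ⟨9, by norm_num, wit_aux (by norm_num)⟩
  · exact ⟨1, by norm_num, wit_aux (by norm_num)⟩
  · exact ⟨1, by norm_num, wit_aux (by norm_num)⟩
  · exact ⟨3, by norm_num, wit_aux (by norm_num)⟩
  · exact ⟨1, by norm_num, wit_aux (by norm_num)⟩
  · exact ⟨4, by norm_num, wit_aux (by norm_num)⟩
  · exact ⟨5, by norm_num, wit_aux (by norm_num)⟩
  · exact ⟨2, by norm_num, wit_aux (by norm_num)⟩
  · exact ⟨2, by norm_num, wit_aux (by norm_num)⟩
  · exact ⟨2, by norm_num, wit_aux (by norm_num)⟩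
  · exact ⟨5, by norm_num, wit_aux (by norm_num)⟩
  · exact ⟨1, by norm_num, wit_aux (by norm_num)⟩
  · exact ⟨-3, by norm_num, wit_aux (by norm_num)⟩
  · exact ⟨1, by norm_num, wit_aux (by norm_num)⟩
  · exact ⟨2, by norm_num, wit_aux (by norm_num)⟩
  · exact ⟨5, by norm_num, wit_aux (by norm_num)⟩
  · exact ⟨1, by norm_num, wit_aux (by norm_num)⟩
  · exact ⟨1, by norm_num, wit_aux (by norm_num)⟩
  · exact ⟨-3, by norm_num, wit_aux (by norm_num)⟩
  · exact ⟨2, by norm_num, wit_aux (by norm_num)⟩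
  · exact ⟨-5, by norm_num, wit_aux (by norm_num)⟩
  · exact ⟨2, by norm_num, wit_aux (by norm_num)⟩
  · exact ⟨1, by norm_num, wit_aux (by norm_num)⟩
  · exact ⟨1, by norm_num, wit_aux (by norm_num)⟩
  · exact ⟨2, by norm_num, wit_aux (by norm_num)⟩
  · exact ⟨14, by norm_num, wit_aux (by norm_num)⟩
  · exact ⟨1, by norm_num, wit_aux (by norm_num)⟩
  · exact ⟨2, by norm_num, wit_aux (by norm_num)⟩
  · exact ⟨6, by norm_num, wit_aux (by norm_num)⟩
  · exact ⟨1, by norm_num, wit_aux (by norm_num)⟩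
  · exact ⟨15, by norm_num, wit_aux (by norm_num)⟩
  · exact ⟨1, by norm_num, wit_aux (by norm_num)⟩
  · exact ⟨-4, by norm_num, wit_aux (by norm_num)⟩
  · exact ⟨2, by norm_num, wit_aux (by norm_num)⟩
  · exact ⟨1, by norm_num, wit_aux (by norm_num)⟩
  · exact ⟨4, by norm_num, wit_aux (by norm_num)⟩
  · exact ⟨2, by norm_num, wit_aux (by norm_num)⟩
  · exact ⟨1, by norm_num, wit_aux (by norm_num)⟩
  · exact ⟨1, by norm_num, wit_aux (by norm_num)⟩
  · exact ⟨3, by norm_num, wit_aux (by norm_num)⟩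
  · exact ⟨-5, by norm_num, wit_aux (by norm_num)⟩
  · exact ⟨-3, by norm_num, wit_aux (by norm_num)⟩
  · exact ⟨2, by norm_num, wit_aux (by norm_num)⟩
  · exact ⟨1, by norm_num, wit_aux (by norm_num)⟩
  · exact ⟨1, by norm_num, wit_aux (by norm_num)⟩
  · exact ⟨-6, by norm_num, wit_aux (by norm_num)⟩
  · exact ⟨1, by norm_num, wit_aux (by norm_num)⟩
  · exact ⟨1, by norm_num, wit_aux (by norm_num)⟩
  · exact ⟨2, by norm_num, wit_aux (by norm_num)⟩
  · exact ⟨2, by norm_num, wit_aux (by norm_num)⟩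
  · exact ⟨-5, by norm_num, wit_aux (by norm_num)⟩
  · exact ⟨-3, by norm_num, wit_aux (by norm_num)⟩
  · exact ⟨2, by norm_num, wit_aux (by norm_num)⟩
  · exact ⟨1, by norm_num, wit_aux (by norm_num)⟩
  · exact ⟨5, by norm_num, wit_aux (by norm_num)⟩
  · exact ⟨4, by norm_num, wit_aux (by norm_num)⟩
  · exact ⟨2, by norm_num, wit_aux (by norm_num)⟩
  · exact ⟨2, by norm_num, wit_aux (by norm_num)⟩
  · exact ⟨2, by norm_num, wit_aux (by norm_num)⟩
  · exact ⟨1, by norm_num, wit_aux (by norm_num)⟩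
  · exact ⟨5, by norm_num, wit_aux (by norm_num)⟩
  · exact ⟨1, by norm_num, wit_aux (by norm_num)⟩
  · exact ⟨1, by norm_num, wit_aux (by norm_num)⟩
  · exact ⟨2, by norm_num, wit_aux (by norm_num)⟩
  · exact ⟨1, by norm_num, wit_aux (by norm_num)⟩
  · exact ⟨4, by norm_num, wit_aux (by norm_num)⟩
  · exact ⟨2, by norm_num, wit_aux (by norm_num)⟩
  · exact ⟨1, by norm_num, wit_aux (by norm_num)⟩
  · exact ⟨1, by norm_num, wit_aux (by norm_num)⟩
  · exact ⟨2, by norm_num, wit_aux (by norm_num)⟩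
  · exact ⟨-5, by norm_num, wit_aux (by norm_num)⟩
  · exact ⟨-3, by norm_num, wit_aux (by norm_num)⟩
  · exact ⟨-3, by norm_num, wit_aux (by norm_num)⟩
  · exact ⟨1, by norm_num, wit_aux (by norm_num)⟩
  · exact ⟨-3, by norm_num, wit_aux (by norm_num)⟩
  · exact ⟨5, by norm_num, wit_aux (by norm_num)⟩
  · exact ⟨1, by norm_num, wit_aux (by norm_num)⟩
  · exact ⟨-3, by norm_num, wit_aux (by norm_num)⟩
  · exact ⟨2, by norm_num, wit_aux (by norm_num)⟩
  · exact ⟨1, by norm_num, wit_aux (by norm_num)⟩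
  · exact ⟨-5, by norm_num, wit_aux (by norm_num)⟩
  · exact ⟨-3, by norm_num, wit_aux (by norm_num)⟩
  · exact ⟨1, by norm_num, wit_aux (by norm_num)⟩
  · exact ⟨1, by norm_num, wit_aux (by norm_num)⟩
  · exact ⟨2, by norm_num, wit_aux (by norm_num)⟩
  · exact ⟨15, by norm_num, wit_aux (by norm_num)⟩
  · exact ⟨1, by norm_num, wit_aux (by norm_num)⟩
  · exact ⟨2, by norm_num, wit_aux (by norm_num)⟩
  · exact ⟨1, by norm_num, wit_aux (by norm_num)⟩
  · exact ⟨1, by norm_num, wit_aux (by norm_num)⟩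
  · exact ⟨-15, by norm_num, wit_aux (by norm_num)⟩
  · exact ⟨4, by norm_num, wit_aux (by norm_num)⟩
  · exact ⟨2, by norm_num, wit_aux (by norm_num)⟩
  · exact ⟨2, by norm_num, wit_aux (by norm_num)⟩
  · exact ⟨1, by norm_num, wit_aux (by norm_num)⟩
  · exact ⟨5, by norm_num, wit_aux (by norm_num)⟩
  · exact ⟨2, by norm_num, wit_aux (by norm_num)⟩
  · exact ⟨2, by norm_num, wit_aux (by norm_num)⟩
  · exact ⟨-7, by norm_num, wit_aux (by norm_num)⟩
  · exact ⟨-3, by norm_num, wit_aux (by norm_num)⟩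
  · exact ⟨4, by norm_num, wit_aux (by norm_num)⟩
  · exact ⟨1, by norm_num, wit_aux (by norm_num)⟩
  · exact ⟨-3, by norm_num, wit_aux (by norm_num)⟩
  · exact ⟨1, by norm_num, wit_aux (by norm_num)⟩
  · exact ⟨1, by norm_num, wit_aux (by norm_num)⟩
  · exact ⟨9, by norm_num, wit_aux (by norm_num)⟩
  · exact ⟨1, by norm_num, wit_aux (by norm_num)⟩
  · exact ⟨2, by norm_num, wit_aux (by norm_num)⟩
  · exact ⟨2, by norm_num, wit_aux (by norm_num)⟩
  · exact ⟨-4, by norm_num, wit_aux (by norm_num)⟩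
  · exact ⟨4, by norm_num, wit_aux (by norm_num)⟩
  · exact ⟨2, by norm_num, wit_aux (by norm_num)⟩
  · exact ⟨2, by norm_num, wit_aux (by norm_num)⟩
  · exact ⟨1, by norm_num, wit_aux (by norm_num)⟩
  · exact ⟨-3, by norm_num, wit_aux (by norm_num)⟩
  · exact ⟨5, by norm_num, wit_aux (by norm_num)⟩
  · exact ⟨1, by norm_num, wit_aux (by norm_num)⟩
  · exact ⟨3, by norm_num, wit_aux (by norm_num)⟩
  · exact ⟨2, by norm_num, wit_aux (by norm_num)⟩
  · exact ⟨2, by norm_num, wit_aux (by norm_num)⟩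
  · exact ⟨5, by norm_num, wit_aux (by norm_num)⟩
  · exact ⟨1, by norm_num, wit_aux (by norm_num)⟩
  · exact ⟨1, by norm_num, wit_aux (by norm_num)⟩
  · exact ⟨-3, by norm_num, wit_aux (by norm_num)⟩
  · exact ⟨1, by norm_num, wit_aux (by norm_num)⟩
  · exact ⟨4, by norm_num, wit_aux (by norm_num)⟩
  · exact ⟨2, by norm_num, wit_aux (by norm_num)⟩
  · exact ⟨1, by norm_num, wit_aux (by norm_num)⟩
  · exact ⟨-3, by norm_num, wit_aux (by norm_num)⟩
  · exact ⟨3, by norm_num, wit_aux (by norm_num)⟩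
  · exact ⟨15, by norm_num, wit_aux (by norm_num)⟩
  · exact ⟨1, by norm_num, wit_aux (by norm_num)⟩
  · exact ⟨2, by norm_num, wit_aux (by norm_num)⟩
  · exact ⟨2, by norm_num, wit_aux (by norm_num)⟩
  · exact ⟨1, by norm_num, wit_aux (by norm_num)⟩
  · exact ⟨5, by norm_num, wit_aux (by norm_num)⟩
  · exact ⟨-4, by norm_num, wit_aux (by norm_num)⟩
  · exact ⟨1, by norm_num, wit_aux (by norm_num)⟩
  · exact ⟨-3, by norm_num, wit_aux (by norm_num)⟩
  · exact ⟨1, by norm_num, wit_aux (by norm_num)⟩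
  · exact ⟨4, by norm_num, wit_aux (by norm_num)⟩
  · exact ⟨2, by norm_num, wit_aux (by norm_num)⟩
  · exact ⟨1, by norm_num, wit_aux (by norm_num)⟩
  · exact ⟨2, by norm_num, wit_aux (by norm_num)⟩
  · exact ⟨-4, by norm_num, wit_aux (by norm_num)⟩
  · exact ⟨-6, by norm_num, wit_aux (by norm_num)⟩
  · exact ⟨1, by norm_num, wit_aux (by norm_num)⟩
  · exact ⟨2, by norm_num, wit_aux (by norm_num)⟩
  · exact ⟨1, by norm_num, wit_aux (by norm_num)⟩
  · exact ⟨3, by norm_num, wit_aux (by norm_num)⟩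
  · exact ⟨-6, by norm_num, wit_aux (by norm_num)⟩
  · exact ⟨-3, by norm_num, wit_aux (by norm_num)⟩
  · exact ⟨1, by norm_num, wit_aux (by norm_num)⟩
  · exact ⟨2, by norm_num, wit_aux (by norm_num)⟩
  · exact ⟨2, by norm_num, wit_aux (by norm_num)⟩
  · exact ⟨-5, by norm_num, wit_aux (by norm_num)⟩
  · exact ⟨3, by norm_num, wit_aux (by norm_num)⟩
  · exact ⟨1, by norm_num, wit_aux (by norm_num)⟩
  · exact ⟨1, by norm_num, wit_aux (by norm_num)⟩
  · exact ⟨2, by norm_num, wit_aux (by norm_num)⟩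
  · exact ⟨5, by norm_num, wit_aux (by norm_num)⟩
  · exact ⟨-3, by norm_num, wit_aux (by norm_num)⟩
  · exact ⟨2, by norm_num, wit_aux (by norm_num)⟩
  · exact ⟨1, by norm_num, wit_aux (by norm_num)⟩
  · exact ⟨1, by norm_num, wit_aux (by norm_num)⟩
  · exact ⟨-6, by norm_num, wit_aux (by norm_num)⟩
  · exact ⟨2, by norm_num, wit_aux (by norm_num)⟩
  · exact ⟨1, by norm_num, wit_aux (by norm_num)⟩
  · exact ⟨6, by norm_num, wit_aux (by norm_num)⟩
  · exact ⟨1, by norm_num, wit_aux (by norm_num)⟩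
  · exact ⟨5, by norm_num, wit_aux (by norm_num)⟩
  · exact ⟨3, by norm_num, wit_aux (by norm_num)⟩
  · exact ⟨1, by norm_num, wit_aux (by norm_num)⟩
  · exact ⟨3, by norm_num, wit_aux (by norm_num)⟩
  · exact ⟨3, by norm_num, wit_aux (by norm_num)⟩
  · exact ⟨20, by norm_num, wit_aux (by norm_num)⟩
  · exact ⟨1, by norm_num, wit_aux (by norm_num)⟩
  · exact ⟨2, by norm_num, wit_aux (by norm_num)⟩
  · exact ⟨1, by norm_num, wit_aux (by norm_num)⟩
  · exact ⟨1, by norm_num, wit_aux (by norm_num)⟩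
  · exact ⟨-6, by norm_num, wit_aux (by norm_num)⟩
  · exact ⟨1, by norm_num, wit_aux (by norm_num)⟩
  · exact ⟨-8, by norm_num, wit_aux (by norm_num)⟩
  · exact ⟨-3, by norm_num, wit_aux (by norm_num)⟩
  · exact ⟨2, by norm_num, wit_aux (by norm_num)⟩
  · exact ⟨-5, by norm_num, wit_aux (by norm_num)⟩
  · exact ⟨-4, by norm_num, wit_aux (by norm_num)⟩
  · exact ⟨1, by norm_num, wit_aux (by norm_num)⟩
  · exact ⟨2, by norm_num, wit_aux (by norm_num)⟩
  · exact ⟨2, by norm_num, wit_aux (by norm_num)⟩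
  · exact ⟨-5, by norm_num, wit_aux (by norm_num)⟩
  · exact ⟨1, by norm_num, wit_aux (by norm_num)⟩
  · exact ⟨-4, by norm_num, wit_aux (by norm_num)⟩
  · exact ⟨1, by norm_num, wit_aux (by norm_num)⟩
  · exact ⟨-3, by norm_num, wit_aux (by norm_num)⟩
  · exact ⟨15, by norm_num, wit_aux (by norm_num)⟩
  · exact ⟨2, by norm_num, wit_aux (by norm_num)⟩
  · exact ⟨1, by norm_num, wit_aux (by norm_num)⟩
  · exact ⟨2, by norm_num, wit_aux (by norm_num)⟩
  · exact ⟨1, by norm_num, wit_aux (by norm_num)⟩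
  · exact ⟨4, by norm_num, wit_aux (by norm_num)⟩
  · exact ⟨2, by norm_num, wit_aux (by norm_num)⟩
  · exact ⟨1, by norm_num, wit_aux (by norm_num)⟩
  · exact ⟨2, by norm_num, wit_aux (by norm_num)⟩
  · exact ⟨-3, by norm_num, wit_aux (by norm_num)⟩
  · exact ⟨-5, by norm_num, wit_aux (by norm_num)⟩
  · exact ⟨3, by norm_num, wit_aux (by norm_num)⟩
  · exact ⟨-3, by norm_num, wit_aux (by norm_num)⟩
  · exact ⟨1, by norm_num, wit_aux (by norm_num)⟩
  · exact ⟨1, by norm_num, wit_aux (by norm_num)⟩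
  · exact ⟨20, by norm_num, wit_aux (by norm_num)⟩
  · exact ⟨2, by norm_num, wit_aux (by norm_num)⟩
  · exact ⟨-3, by norm_num, wit_aux (by norm_num)⟩
  · exact ⟨2, by norm_num, wit_aux (by norm_num)⟩
  · exact ⟨-3, by norm_num, wit_aux (by norm_num)⟩
  · exact ⟨-5, by norm_num, wit_aux (by norm_num)⟩
  · exact ⟨2, by norm_num, wit_aux (by norm_num)⟩
  · exact ⟨2, by norm_num, wit_aux (by norm_num)⟩
  · exact ⟨1, by norm_num, wit_aux (by norm_num)⟩
  · exact ⟨2, by norm_num, wit_aux (by norm_num)⟩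
  · exact ⟨-5, by norm_num, wit_aux (by norm_num)⟩
  · exact ⟨1, by norm_num, wit_aux (by norm_num)⟩
  · exact ⟨2, by norm_num, wit_aux (by norm_num)⟩
  · exact ⟨-3, by norm_num, wit_aux (by norm_num)⟩
  · exact ⟨-3, by norm_num, wit_aux (by norm_num)⟩
  · exact ⟨5, by norm_num, wit_aux (by norm_num)⟩
  · exact ⟨1, by norm_num, wit_aux (by norm_num)⟩
  · exact ⟨2, by norm_num, wit_aux (by norm_num)⟩
  · exact ⟨-3, by norm_num, wit_aux (by norm_num)⟩
  · exact ⟨1, by norm_num, wit_aux (by norm_num)⟩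
  · exact ⟨4, by norm_num, wit_aux (by norm_num)⟩
  · exact ⟨-12, by norm_num, wit_aux (by norm_num)⟩
  · exact ⟨1, by norm_num, wit_aux (by norm_num)⟩
  · exact ⟨1, by norm_num, wit_aux (by norm_num)⟩
  · exact ⟨2, by norm_num, wit_aux (by norm_num)⟩
  · exact ⟨4, by norm_num, wit_aux (by norm_num)⟩
  · exact ⟨1, by norm_num, wit_aux (by norm_num)⟩
  · exact ⟨-3, by norm_num, wit_aux (by norm_num)⟩
  · exact ⟨2, by norm_num, wit_aux (by norm_num)⟩
  · exact ⟨-3, by norm_num, wit_aux (by norm_num)⟩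
  · exact ⟨-6, by norm_num, wit_aux (by norm_num)⟩
  · exact ⟨1, by norm_num, wit_aux (by norm_num)⟩
  · exact ⟨-3, by norm_num, wit_aux (by norm_num)⟩
  · exact ⟨-3, by norm_num, wit_aux (by norm_num)⟩
  · exact ⟨1, by norm_num, wit_aux (by norm_num)⟩
  · exact ⟨4, by norm_num, wit_aux (by norm_num)⟩
  · exact ⟨-3, by norm_num, wit_aux (by norm_num)⟩
  · exact ⟨1, by norm_num, wit_aux (by norm_num)⟩
  · exact ⟨1, by norm_num, wit_aux (by norm_num)⟩
  · exact ⟨3, by norm_num, wit_aux (by norm_num)⟩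
  · exact ⟨-5, by norm_num, wit_aux (by norm_num)⟩
  · exact ⟨1, by norm_num, wit_aux (by norm_num)⟩
  · exact ⟨-7, by norm_num, wit_aux (by norm_num)⟩
  · exact ⟨2, by norm_num, wit_aux (by norm_num)⟩
  · exact ⟨1, by norm_num, wit_aux (by norm_num)⟩
  · exact ⟨9, by norm_num, wit_aux (by norm_num)⟩
  · exact ⟨1, by norm_num, wit_aux (by norm_num)⟩
  · exact ⟨1, by norm_num, wit_aux (by norm_num)⟩
  · exact ⟨-3, by norm_num, wit_aux (by norm_num)⟩
  · exact ⟨-3, by norm_num, wit_aux (by norm_num)⟩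
  · exact ⟨5, by norm_num, wit_aux (by norm_num)⟩
  · exact ⟨2, by norm_num, wit_aux (by norm_num)⟩
  · exact ⟨2, by norm_num, wit_aux (by norm_num)⟩
  · exact ⟨1, by norm_num, wit_aux (by norm_num)⟩
  · exact ⟨2, by norm_num, wit_aux (by norm_num)⟩
  · exact ⟨4, by norm_num, wit_aux (by norm_num)⟩
  · exact ⟨2, by norm_num, wit_aux (by norm_num)⟩
  · exact ⟨2, by norm_num, wit_aux (by norm_num)⟩
  · exact ⟨1, by norm_num, wit_aux (by norm_num)⟩
  · exact ⟨1, by norm_num, wit_aux (by norm_num)⟩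
  · exact ⟨5, by norm_num, wit_aux (by norm_num)⟩
  · exact ⟨1, by norm_num, wit_aux (by norm_num)⟩
  · exact ⟨-4, by norm_num, wit_aux (by norm_num)⟩
  · exact ⟨6, by norm_num, wit_aux (by norm_num)⟩
  · exact ⟨1, by norm_num, wit_aux (by norm_num)⟩
  · exact ⟨4, by norm_num, wit_aux (by norm_num)⟩
  · exact ⟨3, by norm_num, wit_aux (by norm_num)⟩
  · exact ⟨1, by norm_num, wit_aux (by norm_num)⟩
  · exact ⟨1, by norm_num, wit_aux (by norm_num)⟩
  · exact ⟨2, by norm_num, wit_aux (by norm_num)⟩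
  · exact ⟨4, by norm_num, wit_aux (by norm_num)⟩
  · exact ⟨-3, by norm_num, wit_aux (by norm_num)⟩
  · exact ⟨2, by norm_num, wit_aux (by norm_num)⟩
  · exact ⟨2, by norm_num, wit_aux (by norm_num)⟩
  · exact ⟨1, by norm_num, wit_aux (by norm_num)⟩
  · exact ⟨-31, by norm_num, wit_aux (by norm_num)⟩
  · exact ⟨1, by norm_num, wit_aux (by norm_num)⟩
  · exact ⟨2, by norm_num, wit_aux (by norm_num)⟩
  · exact ⟨-3, by norm_num, wit_aux (by norm_num)⟩
  · exact ⟨1, by norm_num, wit_aux (by norm_num)⟩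
  · exact ⟨-6, by norm_num, wit_aux (by norm_num)⟩
  · exact ⟨-4, by norm_num, wit_aux (by norm_num)⟩
  · exact ⟨3, by norm_num, wit_aux (by norm_num)⟩
  · exact ⟨1, by norm_num, wit_aux (by norm_num)⟩
  · exact ⟨2, by norm_num, wit_aux (by norm_num)⟩
  · exact ⟨4, by norm_num, wit_aux (by norm_num)⟩
  · exact ⟨2, by norm_num, wit_aux (by norm_num)⟩
  · exact ⟨2, by norm_num, wit_aux (by norm_num)⟩
  · exact ⟨1, by norm_num, wit_aux (by norm_num)⟩
  · exact ⟨2, by norm_num, wit_aux (by norm_num)⟩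
  · exact ⟨-6, by norm_num, wit_aux (by norm_num)⟩
  · exact ⟨2, by norm_num, wit_aux (by norm_num)⟩
  · exact ⟨1, by norm_num, wit_aux (by norm_num)⟩
  · exact ⟨-3, by norm_num, wit_aux (by norm_num)⟩
  · exact ⟨2, by norm_num, wit_aux (by norm_num)⟩
  · exact ⟨4, by norm_num, wit_aux (by norm_num)⟩
  · exact ⟨2, by norm_num, wit_aux (by norm_num)⟩
  · exact ⟨1, by norm_num, wit_aux (by norm_num)⟩
  · exact ⟨2, by norm_num, wit_aux (by norm_num)⟩
  · exact ⟨-3, by norm_num, wit_aux (by norm_num)⟩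
  · exact ⟨-5, by norm_num, wit_aux (by norm_num)⟩
  · exact ⟨1, by norm_num, wit_aux (by norm_num)⟩
  · exact ⟨3, by norm_num, wit_aux (by norm_num)⟩
  · exact ⟨-3, by norm_num, wit_aux (by norm_num)⟩
  · exact ⟨1, by norm_num, wit_aux (by norm_num)⟩
  · exact ⟨-10, by norm_num, wit_aux (by norm_num)⟩
  · exact ⟨-3, by norm_num, wit_aux (by norm_num)⟩
  · exact ⟨1, by norm_num, wit_aux (by norm_num)⟩
  · exact ⟨2, by norm_num, wit_aux (by norm_num)⟩
  · exact ⟨1, by norm_num, wit_aux (by norm_num)⟩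
  · exact ⟨4, by norm_num, wit_aux (by norm_num)⟩
  · exact ⟨-3, by norm_num, wit_aux (by norm_num)⟩
  · exact ⟨2, by norm_num, wit_aux (by norm_num)⟩
  · exact ⟨1, by norm_num, wit_aux (by norm_num)⟩
  · exact ⟨-3, by norm_num, wit_aux (by norm_num)⟩
  · exact ⟨5, by norm_num, wit_aux (by norm_num)⟩
  · exact ⟨1, by norm_num, wit_aux (by norm_num)⟩
  · exact ⟨2, by norm_num, wit_aux (by norm_num)⟩
  · exact ⟨1, by norm_num, wit_aux (by norm_num)⟩
  · exact ⟨4, by norm_num, wit_aux (by norm_num)⟩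
  · exact ⟨5, by norm_num, wit_aux (by norm_num)⟩
  · exact ⟨-3, by norm_num, wit_aux (by norm_num)⟩
  · exact ⟨1, by norm_num, wit_aux (by norm_num)⟩
  · exact ⟨3, by norm_num, wit_aux (by norm_num)⟩
  · exact ⟨1, by norm_num, wit_aux (by norm_num)⟩
  · exact ⟨4, by norm_num, wit_aux (by norm_num)⟩
  · exact ⟨-3, by norm_num, wit_aux (by norm_num)⟩
  · exact ⟨-3, by norm_num, wit_aux (by norm_num)⟩
  · exact ⟨2, by norm_num, wit_aux (by norm_num)⟩
  · exact ⟨2, by norm_num, wit_aux (by norm_num)⟩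
  · exact ⟨5, by norm_num, wit_aux (by norm_num)⟩
  · exact ⟨1, by norm_num, wit_aux (by norm_num)⟩
  · exact ⟨2, by norm_num, wit_aux (by norm_num)⟩
  · exact ⟨-3, by norm_num, wit_aux (by norm_num)⟩
  · exact ⟨-3, by norm_num, wit_aux (by norm_num)⟩
  · exact ⟨9, by norm_num, wit_aux (by norm_num)⟩
  · exact ⟨1, by norm_num, wit_aux (by norm_num)⟩
  · exact ⟨3, by norm_num, wit_aux (by norm_num)⟩
  · exact ⟨2, by norm_num, wit_aux (by norm_num)⟩
  · exact ⟨2, by norm_num, wit_aux (by norm_num)⟩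
  · exact ⟨-10, by norm_num, wit_aux (by norm_num)⟩
  · exact ⟨2, by norm_num, wit_aux (by norm_num)⟩
  · exact ⟨1, by norm_num, wit_aux (by norm_num)⟩
  · exact ⟨1, by norm_num, wit_aux (by norm_num)⟩
  · exact ⟨5, by norm_num, wit_aux (by norm_num)⟩
  · exact ⟨4, by norm_num, wit_aux (by norm_num)⟩
  · exact ⟨2, by norm_num, wit_aux (by norm_num)⟩
  · exact ⟨2, by norm_num, wit_aux (by norm_num)⟩
  · exact ⟨1, by norm_num, wit_aux (by norm_num)⟩
  · exact ⟨1, by norm_num, wit_aux (by norm_num)⟩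
  · exact ⟨14, by norm_num, wit_aux (by norm_num)⟩
  · exact ⟨1, by norm_num, wit_aux (by norm_num)⟩
  · exact ⟨1, by norm_num, wit_aux (by norm_num)⟩
  · exact ⟨-3, by norm_num, wit_aux (by norm_num)⟩
  · exact ⟨-10, by norm_num, wit_aux (by norm_num)⟩
  · exact ⟨4, by norm_num, wit_aux (by norm_num)⟩
  · exact ⟨-3, by norm_num, wit_aux (by norm_num)⟩
  · exact ⟨1, by norm_num, wit_aux (by norm_num)⟩
  · exact ⟨3, by norm_num, wit_aux (by norm_num)⟩
  · exact ⟨-3, by norm_num, wit_aux (by norm_num)⟩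
  · exact ⟨4, by norm_num, wit_aux (by norm_num)⟩
  · exact ⟨2, by norm_num, wit_aux (by norm_num)⟩
  · exact ⟨-3, by norm_num, wit_aux (by norm_num)⟩
  · exact ⟨2, by norm_num, wit_aux (by norm_num)⟩
  · exact ⟨1, by norm_num, wit_aux (by norm_num)⟩
  · exact ⟨5, by norm_num, wit_aux (by norm_num)⟩
  · exact ⟨1, by norm_num, wit_aux (by norm_num)⟩
  · exact ⟨1, by norm_num, wit_aux (by norm_num)⟩
  · exact ⟨-3, by norm_num, wit_aux (by norm_num)⟩
  · exact ⟨1, by norm_num, wit_aux (by norm_num)⟩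
  · exact ⟨-5, by norm_num, wit_aux (by norm_num)⟩
  · exact ⟨2, by norm_num, wit_aux (by norm_num)⟩
  · exact ⟨-3, by norm_num, wit_aux (by norm_num)⟩
  · exact ⟨-4, by norm_num, wit_aux (by norm_num)⟩
  · exact ⟨2, by norm_num, wit_aux (by norm_num)⟩
  · exact ⟨4, by norm_num, wit_aux (by norm_num)⟩
  · exact ⟨1, by norm_num, wit_aux (by norm_num)⟩
  · exact ⟨-3, by norm_num, wit_aux (by norm_num)⟩
  · exact ⟨1, by norm_num, wit_aux (by norm_num)⟩
  · exact ⟨1, by norm_num, wit_aux (by norm_num)⟩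
  · exact ⟨5, by norm_num, wit_aux (by norm_num)⟩
  · exact ⟨1, by norm_num, wit_aux (by norm_num)⟩
  · exact ⟨2, by norm_num, wit_aux (by norm_num)⟩
  · exact ⟨2, by norm_num, wit_aux (by norm_num)⟩
  · exact ⟨-3, by norm_num, wit_aux (by norm_num)⟩
  · exact ⟨9, by norm_num, wit_aux (by norm_num)⟩
  · exact ⟨3, by norm_num, wit_aux (by norm_num)⟩
  · exact ⟨2, by norm_num, wit_aux (by norm_num)⟩
  · exact ⟨2, by norm_num, wit_aux (by norm_num)⟩
  · exact ⟨2, by norm_num, wit_aux (by norm_num)⟩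
  · exact ⟨4, by norm_num, wit_aux (by norm_num)⟩
  · exact ⟨1, by norm_num, wit_aux (by norm_num)⟩
  · exact ⟨3, by norm_num, wit_aux (by norm_num)⟩
  · exact ⟨1, by norm_num, wit_aux (by norm_num)⟩
  · exact ⟨2, by norm_num, wit_aux (by norm_num)⟩
  · exact ⟨-6, by norm_num, wit_aux (by norm_num)⟩
  · exact ⟨2, by norm_num, wit_aux (by norm_num)⟩
  · exact ⟨1, by norm_num, wit_aux (by norm_num)⟩
  · exact ⟨2, by norm_num, wit_aux (by norm_num)⟩
  · exact ⟨3, by norm_num, wit_aux (by norm_num)⟩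
  · exact ⟨5, by norm_num, wit_aux (by norm_num)⟩
  · exact ⟨-3, by norm_num, wit_aux (by norm_num)⟩
  · exact ⟨1, by norm_num, wit_aux (by norm_num)⟩
  · exact ⟨-3, by norm_num, wit_aux (by norm_num)⟩
  · exact ⟨2, by norm_num, wit_aux (by norm_num)⟩
  · exact ⟨-5, by norm_num, wit_aux (by norm_num)⟩
  · exact ⟨1, by norm_num, wit_aux (by norm_num)⟩
  · exact ⟨-4, by norm_num, wit_aux (by norm_num)⟩
  · exact ⟨1, by norm_num, wit_aux (by norm_num)⟩
  · exact ⟨2, by norm_num, wit_aux (by norm_num)⟩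
  · exact ⟨-15, by norm_num, wit_aux (by norm_num)⟩
  · exact ⟨1, by norm_num, wit_aux (by norm_num)⟩
  · exact ⟨2, by norm_num, wit_aux (by norm_num)⟩
  · exact ⟨2, by norm_num, wit_aux (by norm_num)⟩
  · exact ⟨1, by norm_num, wit_aux (by norm_num)⟩
  · exact ⟨-5, by norm_num, wit_aux (by norm_num)⟩
  · exact ⟨2, by norm_num, wit_aux (by norm_num)⟩
  · exact ⟨-3, by norm_num, wit_aux (by norm_num)⟩
  · exact ⟨-4, by norm_num, wit_aux (by norm_num)⟩
  · exact ⟨2, by norm_num, wit_aux (by norm_num)⟩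
  · exact ⟨5, by norm_num, wit_aux (by norm_num)⟩
  · exact ⟨1, by norm_num, wit_aux (by norm_num)⟩
  · exact ⟨2, by norm_num, wit_aux (by norm_num)⟩
  · exact ⟨1, by norm_num, wit_aux (by norm_num)⟩
  · exact ⟨2, by norm_num, wit_aux (by norm_num)⟩
  · exact ⟨-6, by norm_num, wit_aux (by norm_num)⟩
  · exact ⟨1, by norm_num, wit_aux (by norm_num)⟩
  · exact ⟨2, by norm_num, wit_aux (by norm_num)⟩
  · exact ⟨-3, by norm_num, wit_aux (by norm_num)⟩
  · exact ⟨1, by norm_num, wit_aux (by norm_num)⟩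
  · exact ⟨4, by norm_num, wit_aux (by norm_num)⟩
  · exact ⟨-3, by norm_num, wit_aux (by norm_num)⟩
  · exact ⟨2, by norm_num, wit_aux (by norm_num)⟩
  · exact ⟨1, by norm_num, wit_aux (by norm_num)⟩
  · exact ⟨2, by norm_num, wit_aux (by norm_num)⟩
  · exact ⟨5, by norm_num, wit_aux (by norm_num)⟩
  · exact ⟨1, by norm_num, wit_aux (by norm_num)⟩
  · exact ⟨-4, by norm_num, wit_aux (by norm_num)⟩
  · exact ⟨4, by norm_num, wit_aux (by norm_num)⟩
  · exact ⟨2, by norm_num, wit_aux (by norm_num)⟩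
  · exact ⟨9, by norm_num, wit_aux (by norm_num)⟩
  · exact ⟨2, by norm_num, wit_aux (by norm_num)⟩
  · exact ⟨1, by norm_num, wit_aux (by norm_num)⟩
  · exact ⟨2, by norm_num, wit_aux (by norm_num)⟩
  · exact ⟨1, by norm_num, wit_aux (by norm_num)⟩
  · exact ⟨4, by norm_num, wit_aux (by norm_num)⟩
  · exact ⟨2, by norm_num, wit_aux (by norm_num)⟩
  · exact ⟨1, by norm_num, wit_aux (by norm_num)⟩
  · exact ⟨1, by norm_num, wit_aux (by norm_num)⟩
  · exact ⟨-3, by norm_num, wit_aux (by norm_num)⟩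
  · exact ⟨4, by norm_num, wit_aux (by norm_num)⟩
  · exact ⟨-4, by norm_num, wit_aux (by norm_num)⟩
  · exact ⟨20, by norm_num, wit_aux (by norm_num)⟩
  · exact ⟨1, by norm_num, wit_aux (by norm_num)⟩
  · exact ⟨1, by norm_num, wit_aux (by norm_num)⟩
  · exact ⟨-6, by norm_num, wit_aux (by norm_num)⟩
  · exact ⟨-3, by norm_num, wit_aux (by norm_num)⟩
  · exact ⟨1, by norm_num, wit_aux (by norm_num)⟩
  · exact ⟨3, by norm_num, wit_aux (by norm_num)⟩
  · exact ⟨2, by norm_num, wit_aux (by norm_num)⟩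
  · exact ⟨4, by norm_num, wit_aux (by norm_num)⟩
  · exact ⟨3, by norm_num, wit_aux (by norm_num)⟩
  · exact ⟨1, by norm_num, wit_aux (by norm_num)⟩
  · exact ⟨1, by norm_num, wit_aux (by norm_num)⟩
  · exact ⟨-3, by norm_num, wit_aux (by norm_num)⟩
  · exact ⟨-5, by norm_num, wit_aux (by norm_num)⟩
  · exact ⟨-3, by norm_num, wit_aux (by norm_num)⟩
  · exact ⟨2, by norm_num, wit_aux (by norm_num)⟩
  · exact ⟨1, by norm_num, wit_aux (by norm_num)⟩
  · exact ⟨1, by norm_num, wit_aux (by norm_num)⟩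
  · exact ⟨-10, by norm_num, wit_aux (by norm_num)⟩
  · exact ⟨2, by norm_num, wit_aux (by norm_num)⟩
  · exact ⟨1, by norm_num, wit_aux (by norm_num)⟩
  · exact ⟨2, by norm_num, wit_aux (by norm_num)⟩
  · exact ⟨2, by norm_num, wit_aux (by norm_num)⟩
  · exact ⟨-5, by norm_num, wit_aux (by norm_num)⟩
  · exact ⟨2, by norm_num, wit_aux (by norm_num)⟩
  · exact ⟨4, by norm_num, wit_aux (by norm_num)⟩
  · exact ⟨-3, by norm_num, wit_aux (by norm_num)⟩
  · exact ⟨-3, by norm_num, wit_aux (by norm_num)⟩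
  · exact ⟨14, by norm_num, wit_aux (by norm_num)⟩
  · exact ⟨1, by norm_num, wit_aux (by norm_num)⟩
  · exact ⟨2, by norm_num, wit_aux (by norm_num)⟩
  · exact ⟨1, by norm_num, wit_aux (by norm_num)⟩
  · exact ⟨1, by norm_num, wit_aux (by norm_num)⟩
  · exact ⟨-10, by norm_num, wit_aux (by norm_num)⟩
  · exact ⟨1, by norm_num, wit_aux (by norm_num)⟩
  · exact ⟨-3, by norm_num, wit_aux (by norm_num)⟩
  · exact ⟨-3, by norm_num, wit_aux (by norm_num)⟩
  · exact ⟨1, by norm_num, wit_aux (by norm_num)⟩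
  · exact ⟨-5, by norm_num, wit_aux (by norm_num)⟩
  · exact ⟨-3, by norm_num, wit_aux (by norm_num)⟩
  · exact ⟨1, by norm_num, wit_aux (by norm_num)⟩
  · exact ⟨2, by norm_num, wit_aux (by norm_num)⟩
  · exact ⟨2, by norm_num, wit_aux (by norm_num)⟩
  · exact ⟨4, by norm_num, wit_aux (by norm_num)⟩
  · exact ⟨1, by norm_num, wit_aux (by norm_num)⟩
  · exact ⟨2, by norm_num, wit_aux (by norm_num)⟩
  · exact ⟨-3, by norm_num, wit_aux (by norm_num)⟩
  · exact ⟨1, by norm_num, wit_aux (by norm_num)⟩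
  · exact ⟨-6, by norm_num, wit_aux (by norm_num)⟩
  · exact ⟨2, by norm_num, wit_aux (by norm_num)⟩
  · exact ⟨1, by norm_num, wit_aux (by norm_num)⟩
  · exact ⟨5, by norm_num, wit_aux (by norm_num)⟩
  · exact ⟨2, by norm_num, wit_aux (by norm_num)⟩
  · exact ⟨5, by norm_num, wit_aux (by norm_num)⟩
  · exact ⟨-4, by norm_num, wit_aux (by norm_num)⟩
  · exact ⟨2, by norm_num, wit_aux (by norm_num)⟩
  · exact ⟨2, by norm_num, wit_aux (by norm_num)⟩
  · exact ⟨3, by norm_num, wit_aux (by norm_num)⟩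
  · exact ⟨4, by norm_num, wit_aux (by norm_num)⟩
  · exact ⟨-4, by norm_num, wit_aux (by norm_num)⟩
  · exact ⟨-3, by norm_num, wit_aux (by norm_num)⟩
  · exact ⟨1, by norm_num, wit_aux (by norm_num)⟩
  · exact ⟨1, by norm_num, wit_aux (by norm_num)⟩
  · exact ⟨14, by norm_num, wit_aux (by norm_num)⟩
  · exact ⟨2, by norm_num, wit_aux (by norm_num)⟩
  · exact ⟨2, by norm_num, wit_aux (by norm_num)⟩
  · exact ⟨-4, by norm_num, wit_aux (by norm_num)⟩
  · exact ⟨1, by norm_num, wit_aux (by norm_num)⟩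
  · exact ⟨-5, by norm_num, wit_aux (by norm_num)⟩
  · exact ⟨2, by norm_num, wit_aux (by norm_num)⟩
  · exact ⟨-3, by norm_num, wit_aux (by norm_num)⟩
  · exact ⟨1, by norm_num, wit_aux (by norm_num)⟩
  · exact ⟨-3, by norm_num, wit_aux (by norm_num)⟩
  · exact ⟨-5, by norm_num, wit_aux (by norm_num)⟩
  · exact ⟨-3, by norm_num, wit_aux (by norm_num)⟩
  · exact ⟨2, by norm_num, wit_aux (by norm_num)⟩
  · exact ⟨1, by norm_num, wit_aux (by norm_num)⟩
  · exact ⟨2, by norm_num, wit_aux (by norm_num)⟩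
  · exact ⟨-6, by norm_num, wit_aux (by norm_num)⟩
  · exact ⟨1, by norm_num, wit_aux (by norm_num)⟩
  · exact ⟨2, by norm_num, wit_aux (by norm_num)⟩
  · exact ⟨-3, by norm_num, wit_aux (by norm_num)⟩
  · exact ⟨1, by norm_num, wit_aux (by norm_num)⟩
  · exact ⟨10, by norm_num, wit_aux (by norm_num)⟩
  · exact ⟨2, by norm_num, wit_aux (by norm_num)⟩
  · exact ⟨-3, by norm_num, wit_aux (by norm_num)⟩
  · exact ⟨1, by norm_num, wit_aux (by norm_num)⟩
  · exact ⟨-4, by norm_num, wit_aux (by norm_num)⟩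
  · exact ⟨4, by norm_num, wit_aux (by norm_num)⟩
  · exact ⟨-3, by norm_num, wit_aux (by norm_num)⟩
  · exact ⟨2, by norm_num, wit_aux (by norm_num)⟩
  · exact ⟨2, by norm_num, wit_aux (by norm_num)⟩
  · exact ⟨1, by norm_num, wit_aux (by norm_num)⟩
  · exact ⟨-6, by norm_num, wit_aux (by norm_num)⟩
  · exact ⟨1, by norm_num, wit_aux (by norm_num)⟩
  · exact ⟨-4, by norm_num, wit_aux (by norm_num)⟩
  · exact ⟨-3, by norm_num, wit_aux (by norm_num)⟩
  · exact ⟨1, by norm_num, wit_aux (by norm_num)⟩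
  · exact ⟨-15, by norm_num, wit_aux (by norm_num)⟩
  · exact ⟨2, by norm_num, wit_aux (by norm_num)⟩
  · exact ⟨1, by norm_num, wit_aux (by norm_num)⟩
  · exact ⟨1, by norm_num, wit_aux (by norm_num)⟩
  · exact ⟨-3, by norm_num, wit_aux (by norm_num)⟩
  · exact ⟨4, by norm_num, wit_aux (by norm_num)⟩
  · exact ⟨1, by norm_num, wit_aux (by norm_num)⟩
  · exact ⟨-3, by norm_num, wit_aux (by norm_num)⟩
  · exact ⟨-3, by norm_num, wit_aux (by norm_num)⟩
  · exact ⟨2, by norm_num, wit_aux (by norm_num)⟩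
  · exact ⟨5, by norm_num, wit_aux (by norm_num)⟩
  · exact ⟨-4, by norm_num, wit_aux (by norm_num)⟩
  · exact ⟨1, by norm_num, wit_aux (by norm_num)⟩
  · exact ⟨-4, by norm_num, wit_aux (by norm_num)⟩
  · exact ⟨-3, by norm_num, wit_aux (by norm_num)⟩
  · exact ⟨5, by norm_num, wit_aux (by norm_num)⟩
  · exact ⟨2, by norm_num, wit_aux (by norm_num)⟩
  · exact ⟨1, by norm_num, wit_aux (by norm_num)⟩
  · exact ⟨-3, by norm_num, wit_aux (by norm_num)⟩
  · exact ⟨2, by norm_num, wit_aux (by norm_num)⟩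
  · exact ⟨4, by norm_num, wit_aux (by norm_num)⟩
  · exact ⟨4, by norm_num, wit_aux (by norm_num)⟩
  · exact ⟨2, by norm_num, wit_aux (by norm_num)⟩
  · exact ⟨2, by norm_num, wit_aux (by norm_num)⟩
  · exact ⟨3, by norm_num, wit_aux (by norm_num)⟩
  · exact ⟨-10, by norm_num, wit_aux (by norm_num)⟩
  · exact ⟨1, by norm_num, wit_aux (by norm_num)⟩
  · exact ⟨1, by norm_num, wit_aux (by norm_num)⟩
  · exact ⟨2, by norm_num, wit_aux (by norm_num)⟩
  · exact ⟨1, by norm_num, wit_aux (by norm_num)⟩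
  · exact ⟨5, by norm_num, wit_aux (by norm_num)⟩
  · exact ⟨2, by norm_num, wit_aux (by norm_num)⟩
  · exact ⟨1, by norm_num, wit_aux (by norm_num)⟩
  · exact ⟨1, by norm_num, wit_aux (by norm_num)⟩
  · exact ⟨-3, by norm_num, wit_aux (by norm_num)⟩
  · exact ⟨30, by norm_num, wit_aux (by norm_num)⟩
  · exact ⟨1, by norm_num, wit_aux (by norm_num)⟩
  · exact ⟨-3, by norm_num, wit_aux (by norm_num)⟩
  · exact ⟨1, by norm_num, wit_aux (by norm_num)⟩
  · exact ⟨1, by norm_num, wit_aux (by norm_num)⟩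
  · exact ⟨5, by norm_num, wit_aux (by norm_num)⟩
  · exact ⟨1, by norm_num, wit_aux (by norm_num)⟩
  · exact ⟨2, by norm_num, wit_aux (by norm_num)⟩
  · exact ⟨2, by norm_num, wit_aux (by norm_num)⟩
  · exact ⟨2, by norm_num, wit_aux (by norm_num)⟩
  · exact ⟨5, by norm_num, wit_aux (by norm_num)⟩
  · exact ⟨3, by norm_num, wit_aux (by norm_num)⟩
  · exact ⟨1, by norm_num, wit_aux (by norm_num)⟩
  · exact ⟨1, by norm_num, wit_aux (by norm_num)⟩
  · exact ⟨9, by norm_num, wit_aux (by norm_num)⟩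
  · exact ⟨-5, by norm_num, wit_aux (by norm_num)⟩
  · exact ⟨1, by norm_num, wit_aux (by norm_num)⟩
  · exact ⟨-4, by norm_num, wit_aux (by norm_num)⟩
  · exact ⟨-3, by norm_num, wit_aux (by norm_num)⟩
  · exact ⟨2, by norm_num, wit_aux (by norm_num)⟩
  · exact ⟨9, by norm_num, wit_aux (by norm_num)⟩
  · exact ⟨2, by norm_num, wit_aux (by norm_num)⟩
  · exact ⟨2, by norm_num, wit_aux (by norm_num)⟩
  · exact ⟨2, by norm_num, wit_aux (by norm_num)⟩
  · exact ⟨2, by norm_num, wit_aux (by norm_num)⟩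
  · exact ⟨5, by norm_num, wit_aux (by norm_num)⟩
  · exact ⟨-3, by norm_num, wit_aux (by norm_num)⟩
  · exact ⟨-3, by norm_num, wit_aux (by norm_num)⟩
  · exact ⟨-5, by norm_num, wit_aux (by norm_num)⟩
  · exact ⟨2, by norm_num, wit_aux (by norm_num)⟩
  · exact ⟨4, by norm_num, wit_aux (by norm_num)⟩
  · exact ⟨5, by norm_num, wit_aux (by norm_num)⟩
  · exact ⟨5, by norm_num, wit_aux (by norm_num)⟩
  · exact ⟨1, by norm_num, wit_aux (by norm_num)⟩
  · exact ⟨2, by norm_num, wit_aux (by norm_num)⟩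
  · exact ⟨9, by norm_num, wit_aux (by norm_num)⟩
  · exact ⟨1, by norm_num, wit_aux (by norm_num)⟩
  · exact ⟨3, by norm_num, wit_aux (by norm_num)⟩
  · exact ⟨3, by norm_num, wit_aux (by norm_num)⟩
  · exact ⟨1, by norm_num, wit_aux (by norm_num)⟩
  · exact ⟨4, by norm_num, wit_aux (by norm_num)⟩
  · exact ⟨-4, by norm_num, wit_aux (by norm_num)⟩
  · exact ⟨2, by norm_num, wit_aux (by norm_num)⟩
  · exact ⟨1, by norm_num, wit_aux (by norm_num)⟩
  · exact ⟨2, by norm_num, wit_aux (by norm_num)⟩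
  · exact ⟨-5, by norm_num, wit_aux (by norm_num)⟩
  · exact ⟨3, by norm_num, wit_aux (by norm_num)⟩
  · exact ⟨2, by norm_num, wit_aux (by norm_num)⟩
  · exact ⟨3, by norm_num, wit_aux (by norm_num)⟩
  · exact ⟨-5, by norm_num, wit_aux (by norm_num)⟩
  · exact ⟨5, by norm_num, wit_aux (by norm_num)⟩
  · exact ⟨-3, by norm_num, wit_aux (by norm_num)⟩
  · exact ⟨1, by norm_num, wit_aux (by norm_num)⟩
  · exact ⟨-6, by norm_num, wit_aux (by norm_num)⟩
  · exact ⟨-3, by norm_num, wit_aux (by norm_num)⟩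
  · exact ⟨5, by norm_num, wit_aux (by norm_num)⟩
  · exact ⟨2, by norm_num, wit_aux (by norm_num)⟩
  · exact ⟨1, by norm_num, wit_aux (by norm_num)⟩
  · exact ⟨-3, by norm_num, wit_aux (by norm_num)⟩
  · exact ⟨2, by norm_num, wit_aux (by norm_num)⟩
  · exact ⟨-6, by norm_num, wit_aux (by norm_num)⟩
  · exact ⟨2, by norm_num, wit_aux (by norm_num)⟩
  · exact ⟨-7, by norm_num, wit_aux (by norm_num)⟩
  · exact ⟨2, by norm_num, wit_aux (by norm_num)⟩
  · exact ⟨1, by norm_num, wit_aux (by norm_num)⟩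
  · exact ⟨5, by norm_num, wit_aux (by norm_num)⟩
  · exact ⟨1, by norm_num, wit_aux (by norm_num)⟩
  · exact ⟨1, by norm_num, wit_aux (by norm_num)⟩
  · exact ⟨2, by norm_num, wit_aux (by norm_num)⟩
  · exact ⟨1, by norm_num, wit_aux (by norm_num)⟩
  · exact ⟨-5, by norm_num, wit_aux (by norm_num)⟩
  · exact ⟨5, by norm_num, wit_aux (by norm_num)⟩
  · exact ⟨1, by norm_num, wit_aux (by norm_num)⟩
  · exact ⟨-4, by norm_num, wit_aux (by norm_num)⟩
  · exact ⟨-3, by norm_num, wit_aux (by norm_num)⟩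
  · exact ⟨4, by norm_num, wit_aux (by norm_num)⟩
  · exact ⟨1, by norm_num, wit_aux (by norm_num)⟩
  · exact ⟨2, by norm_num, wit_aux (by norm_num)⟩
  · exact ⟨1, by norm_num, wit_aux (by norm_num)⟩
  · exact ⟨1, by norm_num, wit_aux (by norm_num)⟩
  · exact ⟨14, by norm_num, wit_aux (by norm_num)⟩
  · exact ⟨3, by norm_num, wit_aux (by norm_num)⟩
  · exact ⟨1, by norm_num, wit_aux (by norm_num)⟩
  · exact ⟨2, by norm_num, wit_aux (by norm_num)⟩
  · exact ⟨4, by norm_num, wit_aux (by norm_num)⟩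
  · exact ⟨-5, by norm_num, wit_aux (by norm_num)⟩
  · exact ⟨2, by norm_num, wit_aux (by norm_num)⟩
  · exact ⟨2, by norm_num, wit_aux (by norm_num)⟩
  · exact ⟨1, by norm_num, wit_aux (by norm_num)⟩
  · exact ⟨2, by norm_num, wit_aux (by norm_num)⟩
  · exact ⟨4, by norm_num, wit_aux (by norm_num)⟩
  · exact ⟨2, by norm_num, wit_aux (by norm_num)⟩
  · exact ⟨-3, by norm_num, wit_aux (by norm_num)⟩
  · exact ⟨1, by norm_num, wit_aux (by norm_num)⟩
  · exact ⟨1, by norm_num, wit_aux (by norm_num)⟩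
  · exact ⟨14, by norm_num, wit_aux (by norm_num)⟩
  · exact ⟨1, by norm_num, wit_aux (by norm_num)⟩
  · exact ⟨1, by norm_num, wit_aux (by norm_num)⟩
  · exact ⟨2, by norm_num, wit_aux (by norm_num)⟩
  · exact ⟨1, by norm_num, wit_aux (by norm_num)⟩
  · exact ⟨4, by norm_num, wit_aux (by norm_num)⟩
  · exact ⟨2, by norm_num, wit_aux (by norm_num)⟩
  · exact ⟨1, by norm_num, wit_aux (by norm_num)⟩
  · exact ⟨2, by norm_num, wit_aux (by norm_num)⟩
  · exact ⟨-3, by norm_num, wit_aux (by norm_num)⟩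
  · exact ⟨4, by norm_num, wit_aux (by norm_num)⟩
  · exact ⟨3, by norm_num, wit_aux (by norm_num)⟩
  · exact ⟨2, by norm_num, wit_aux (by norm_num)⟩
  · exact ⟨1, by norm_num, wit_aux (by norm_num)⟩
  · exact ⟨-3, by norm_num, wit_aux (by norm_num)⟩
  · exact ⟨5, by norm_num, wit_aux (by norm_num)⟩
  · exact ⟨-3, by norm_num, wit_aux (by norm_num)⟩
  · exact ⟨2, by norm_num, wit_aux (by norm_num)⟩
  · exact ⟨3, by norm_num, wit_aux (by norm_num)⟩
  · exact ⟨1, by norm_num, wit_aux (by norm_num)⟩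
  · exact ⟨-5, by norm_num, wit_aux (by norm_num)⟩
  · exact ⟨-3, by norm_num, wit_aux (by norm_num)⟩
  · exact ⟨-3, by norm_num, wit_aux (by norm_num)⟩
  · exact ⟨1, by norm_num, wit_aux (by norm_num)⟩
  · exact ⟨-10, by norm_num, wit_aux (by norm_num)⟩
  · exact ⟨4, by norm_num, wit_aux (by norm_num)⟩
  · exact ⟨-3, by norm_num, wit_aux (by norm_num)⟩
  · exact ⟨3, by norm_num, wit_aux (by norm_num)⟩
  · exact ⟨-4, by norm_num, wit_aux (by norm_num)⟩
  · exact ⟨1, by norm_num, wit_aux (by norm_num)⟩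
  · exact ⟨5, by norm_num, wit_aux (by norm_num)⟩
  · exact ⟨-3, by norm_num, wit_aux (by norm_num)⟩
  · exact ⟨1, by norm_num, wit_aux (by norm_num)⟩
  · exact ⟨2, by norm_num, wit_aux (by norm_num)⟩
  · exact ⟨1, by norm_num, wit_aux (by norm_num)⟩
  · exact ⟨10, by norm_num, wit_aux (by norm_num)⟩
  · exact ⟨-4, by norm_num, wit_aux (by norm_num)⟩
  · exact ⟨1, by norm_num, wit_aux (by norm_num)⟩
  · exact ⟨2, by norm_num, wit_aux (by norm_num)⟩
  · exact ⟨2, by norm_num, wit_aux (by norm_num)⟩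
  · exact ⟨4, by norm_num, wit_aux (by norm_num)⟩
  · exact ⟨1, by norm_num, wit_aux (by norm_num)⟩
  · exact ⟨-6, by norm_num, wit_aux (by norm_num)⟩
  · exact ⟨1, by norm_num, wit_aux (by norm_num)⟩
  · exact ⟨-3, by norm_num, wit_aux (by norm_num)⟩
  · exact ⟨9, by norm_num, wit_aux (by norm_num)⟩
  · exact ⟨2, by norm_num, wit_aux (by norm_num)⟩
  · exact ⟨1, by norm_num, wit_aux (by norm_num)⟩
  · exact ⟨2, by norm_num, wit_aux (by norm_num)⟩
  · exact ⟨1, by norm_num, wit_aux (by norm_num)⟩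
  · exact ⟨-6, by norm_num, wit_aux (by norm_num)⟩
  · exact ⟨2, by norm_num, wit_aux (by norm_num)⟩
  · exact ⟨4, by norm_num, wit_aux (by norm_num)⟩
  · exact ⟨-3, by norm_num, wit_aux (by norm_num)⟩
  · exact ⟨-3, by norm_num, wit_aux (by norm_num)⟩
  · exact ⟨15, by norm_num, wit_aux (by norm_num)⟩
  · exact ⟨1, by norm_num, wit_aux (by norm_num)⟩
  · exact ⟨2, by norm_num, wit_aux (by norm_num)⟩
  · exact ⟨1, by norm_num, wit_aux (by norm_num)⟩
  · exact ⟨2, by norm_num, wit_aux (by norm_num)⟩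
  · exact ⟨-6, by norm_num, wit_aux (by norm_num)⟩
  · exact ⟨1, by norm_num, wit_aux (by norm_num)⟩
  · exact ⟨1, by norm_num, wit_aux (by norm_num)⟩
  · exact ⟨3, by norm_num, wit_aux (by norm_num)⟩
  · exact ⟨1, by norm_num, wit_aux (by norm_num)⟩
  · exact ⟨4, by norm_num, wit_aux (by norm_num)⟩
  · exact ⟨-3, by norm_num, wit_aux (by norm_num)⟩
  · exact ⟨1, by norm_num, wit_aux (by norm_num)⟩
  · exact ⟨1, by norm_num, wit_aux (by norm_num)⟩
  · exact ⟨-6, by norm_num, wit_aux (by norm_num)⟩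
  · exact ⟨-10, by norm_num, wit_aux (by norm_num)⟩
  · exact ⟨1, by norm_num, wit_aux (by norm_num)⟩
  · exact ⟨2, by norm_num, wit_aux (by norm_num)⟩
  · exact ⟨-3, by norm_num, wit_aux (by norm_num)⟩
  · exact ⟨2, by norm_num, wit_aux (by norm_num)⟩
  · exact ⟨5, by norm_num, wit_aux (by norm_num)⟩
  · exact ⟨1, by norm_num, wit_aux (by norm_num)⟩
  · exact ⟨6, by norm_num, wit_aux (by norm_num)⟩
  · exact ⟨-3, by norm_num, wit_aux (by norm_num)⟩
  · exact ⟨2, by norm_num, wit_aux (by norm_num)⟩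
  · exact ⟨4, by norm_num, wit_aux (by norm_num)⟩
  · exact ⟨2, by norm_num, wit_aux (by norm_num)⟩
  · exact ⟨2, by norm_num, wit_aux (by norm_num)⟩
  · exact ⟨2, by norm_num, wit_aux (by norm_num)⟩
  · exact ⟨-3, by norm_num, wit_aux (by norm_num)⟩
  · exact ⟨-5, by norm_num, wit_aux (by norm_num)⟩
  · exact ⟨1, by norm_num, wit_aux (by norm_num)⟩
  · exact ⟨2, by norm_num, wit_aux (by norm_num)⟩
  · exact ⟨2, by norm_num, wit_aux (by norm_num)⟩
  · exact ⟨1, by norm_num, wit_aux (by norm_num)⟩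
  · exact ⟨5, by norm_num, wit_aux (by norm_num)⟩
  · exact ⟨1, by norm_num, wit_aux (by norm_num)⟩
  · exact ⟨1, by norm_num, wit_aux (by norm_num)⟩
  · exact ⟨2, by norm_num, wit_aux (by norm_num)⟩
  · exact ⟨2, by norm_num, wit_aux (by norm_num)⟩
  · exact ⟨-5, by norm_num, wit_aux (by norm_num)⟩
  · exact ⟨2, by norm_num, wit_aux (by norm_num)⟩
  · exact ⟨3, by norm_num, wit_aux (by norm_num)⟩
  · exact ⟨4, by norm_num, wit_aux (by norm_num)⟩
  · exact ⟨2, by norm_num, wit_aux (by norm_num)⟩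
  · exact ⟨-5, by norm_num, wit_aux (by norm_num)⟩
  · exact ⟨2, by norm_num, wit_aux (by norm_num)⟩
  · exact ⟨-3, by norm_num, wit_aux (by norm_num)⟩
  · exact ⟨3, by norm_num, wit_aux (by norm_num)⟩
  · exact ⟨1, by norm_num, wit_aux (by norm_num)⟩
  · exact ⟨-6, by norm_num, wit_aux (by norm_num)⟩
  · exact ⟨1, by norm_num, wit_aux (by norm_num)⟩
  · exact ⟨1, by norm_num, wit_aux (by norm_num)⟩
  · exact ⟨-3, by norm_num, wit_aux (by norm_num)⟩
  · exact ⟨2, by norm_num, wit_aux (by norm_num)⟩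
  · exact ⟨10, by norm_num, wit_aux (by norm_num)⟩
  · exact ⟨-6, by norm_num, wit_aux (by norm_num)⟩
  · exact ⟨1, by norm_num, wit_aux (by norm_num)⟩
  · exact ⟨-4, by norm_num, wit_aux (by norm_num)⟩
  · exact ⟨3, by norm_num, wit_aux (by norm_num)⟩
  · exact ⟨-5, by norm_num, wit_aux (by norm_num)⟩
  · exact ⟨3, by norm_num, wit_aux (by norm_num)⟩
  · exact ⟨2, by norm_num, wit_aux (by norm_num)⟩
  · exact ⟨1, by norm_num, wit_aux (by norm_num)⟩
  · exact ⟨1, by norm_num, wit_aux (by norm_num)⟩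
  · exact ⟨-6, by norm_num, wit_aux (by norm_num)⟩
  · exact ⟨2, by norm_num, wit_aux (by norm_num)⟩
  · exact ⟨-3, by norm_num, wit_aux (by norm_num)⟩
  · exact ⟨-6, by norm_num, wit_aux (by norm_num)⟩
  · exact ⟨1, by norm_num, wit_aux (by norm_num)⟩
  · exact ⟨-5, by norm_num, wit_aux (by norm_num)⟩
  · exact ⟨-4, by norm_num, wit_aux (by norm_num)⟩
  · exact ⟨-3, by norm_num, wit_aux (by norm_num)⟩
  · exact ⟨1, by norm_num, wit_aux (by norm_num)⟩
  · exact ⟨6, by norm_num, wit_aux (by norm_num)⟩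
  · exact ⟨5, by norm_num, wit_aux (by norm_num)⟩
  · exact ⟨1, by norm_num, wit_aux (by norm_num)⟩
  · exact ⟨2, by norm_num, wit_aux (by norm_num)⟩
  · exact ⟨5, by norm_num, wit_aux (by norm_num)⟩
  · exact ⟨1, by norm_num, wit_aux (by norm_num)⟩
  · exact ⟨5, by norm_num, wit_aux (by norm_num)⟩
  · exact ⟨2, by norm_num, wit_aux (by norm_num)⟩
  · exact ⟨1, by norm_num, wit_aux (by norm_num)⟩
  · exact ⟨2, by norm_num, wit_aux (by norm_num)⟩
  · exact ⟨2, by norm_num, wit_aux (by norm_num)⟩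
  · exact ⟨4, by norm_num, wit_aux (by norm_num)⟩
  · exact ⟨3, by norm_num, wit_aux (by norm_num)⟩
  · exact ⟨2, by norm_num, wit_aux (by norm_num)⟩
  · exact ⟨2, by norm_num, wit_aux (by norm_num)⟩
  · exact ⟨2, by norm_num, wit_aux (by norm_num)⟩
  · exact ⟨4, by norm_num, wit_aux (by norm_num)⟩
  · exact ⟨1, by norm_num, wit_aux (by norm_num)⟩
  · exact ⟨-3, by norm_num, wit_aux (by norm_num)⟩
  · exact ⟨2, by norm_num, wit_aux (by norm_num)⟩
  · exact ⟨1, by norm_num, wit_aux (by norm_num)⟩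
  · exact ⟨14, by norm_num, wit_aux (by norm_num)⟩
  · exact ⟨1, by norm_num, wit_aux (by norm_num)⟩
  · exact ⟨1, by norm_num, wit_aux (by norm_num)⟩
  · exact ⟨3, by norm_num, wit_aux (by norm_num)⟩
  · exact ⟨3, by norm_num, wit_aux (by norm_num)⟩
  · exact ⟨9, by norm_num, wit_aux (by norm_num)⟩
  · exact ⟨2, by norm_num, wit_aux (by norm_num)⟩
  · exact ⟨2, by norm_num, wit_aux (by norm_num)⟩
  · exact ⟨1, by norm_num, wit_aux (by norm_num)⟩
  · exact ⟨2, by norm_num, wit_aux (by norm_num)⟩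
  · exact ⟨-5, by norm_num, wit_aux (by norm_num)⟩
  · exact ⟨-3, by norm_num, wit_aux (by norm_num)⟩
  · exact ⟨2, by norm_num, wit_aux (by norm_num)⟩
  · exact ⟨1, by norm_num, wit_aux (by norm_num)⟩
  · exact ⟨-3, by norm_num, wit_aux (by norm_num)⟩
  · exact ⟨14, by norm_num, wit_aux (by norm_num)⟩
  · exact ⟨2, by norm_num, wit_aux (by norm_num)⟩
  · exact ⟨-4, by norm_num, wit_aux (by norm_num)⟩
  · exact ⟨3, by norm_num, wit_aux (by norm_num)⟩
  · exact ⟨1, by norm_num, wit_aux (by norm_num)⟩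
  · exact ⟨4, by norm_num, wit_aux (by norm_num)⟩
  · exact ⟨2, by norm_num, wit_aux (by norm_num)⟩
  · exact ⟨2, by norm_num, wit_aux (by norm_num)⟩
  · exact ⟨1, by norm_num, wit_aux (by norm_num)⟩
  · exact ⟨8, by norm_num, wit_aux (by norm_num)⟩
  · exact ⟨4, by norm_num, wit_aux (by norm_num)⟩
  · exact ⟨2, by norm_num, wit_aux (by norm_num)⟩
  · exact ⟨2, by norm_num, wit_aux (by norm_num)⟩
  · exact ⟨4, by norm_num, wit_aux (by norm_num)⟩
  · exact ⟨2, by norm_num, wit_aux (by norm_num)⟩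
  · exact ⟨9, by norm_num, wit_aux (by norm_num)⟩
  · exact ⟨1, by norm_num, wit_aux (by norm_num)⟩
  · exact ⟨-3, by norm_num, wit_aux (by norm_num)⟩
  · exact ⟨-3, by norm_num, wit_aux (by norm_num)⟩
  · exact ⟨-3, by norm_num, wit_aux (by norm_num)⟩
  · exact ⟨-21, by norm_num, wit_aux (by norm_num)⟩
  · exact ⟨-3, by norm_num, wit_aux (by norm_num)⟩
  · exact ⟨3, by norm_num, wit_aux (by norm_num)⟩
  · exact ⟨1, by norm_num, wit_aux (by norm_num)⟩
  · exact ⟨-4, by norm_num, wit_aux (by norm_num)⟩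
  · exact ⟨-5, by norm_num, wit_aux (by norm_num)⟩
  · exact ⟨1, by norm_num, wit_aux (by norm_num)⟩
  · exact ⟨-7, by norm_num, wit_aux (by norm_num)⟩
  · exact ⟨1, by norm_num, wit_aux (by norm_num)⟩
  · exact ⟨1, by norm_num, wit_aux (by norm_num)⟩
  · exact ⟨-6, by norm_num, wit_aux (by norm_num)⟩
  · exact ⟨1, by norm_num, wit_aux (by norm_num)⟩
  · exact ⟨1, by norm_num, wit_aux (by norm_num)⟩
  · exact ⟨-3, by norm_num, wit_aux (by norm_num)⟩
  · exact ⟨2, by norm_num, wit_aux (by norm_num)⟩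
  · exact ⟨-6, by norm_num, wit_aux (by norm_num)⟩
  · exact ⟨2, by norm_num, wit_aux (by norm_num)⟩
  · exact ⟨1, by norm_num, wit_aux (by norm_num)⟩
  · exact ⟨-3, by norm_num, wit_aux (by norm_num)⟩
  · exact ⟨2, by norm_num, wit_aux (by norm_num)⟩
  · exact ⟨4, by norm_num, wit_aux (by norm_num)⟩
  · exact ⟨-3, by norm_num, wit_aux (by norm_num)⟩
  · exact ⟨6, by norm_num, wit_aux (by norm_num)⟩
  · exact ⟨1, by norm_num, wit_aux (by norm_num)⟩
  · exact ⟨3, by norm_num, wit_aux (by norm_num)⟩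
  · exact ⟨-6, by norm_num, wit_aux (by norm_num)⟩
  · exact ⟨1, by norm_num, wit_aux (by norm_num)⟩
  · exact ⟨2, by norm_num, wit_aux (by norm_num)⟩
  · exact ⟨-3, by norm_num, wit_aux (by norm_num)⟩
  · exact ⟨1, by norm_num, wit_aux (by norm_num)⟩
  · exact ⟨4, by norm_num, wit_aux (by norm_num)⟩
  · exact ⟨2, by norm_num, wit_aux (by norm_num)⟩
  · exact ⟨-4, by norm_num, wit_aux (by norm_num)⟩
  · exact ⟨3, by norm_num, wit_aux (by norm_num)⟩
  · exact ⟨-3, by norm_num, wit_aux (by norm_num)⟩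
  · exact ⟨14, by norm_num, wit_aux (by norm_num)⟩
  · exact ⟨-3, by norm_num, wit_aux (by norm_num)⟩
  · exact ⟨-9, by norm_num, wit_aux (by norm_num)⟩
  · exact ⟨1, by norm_num, wit_aux (by norm_num)⟩
  · exact ⟨1, by norm_num, wit_aux (by norm_num)⟩
  · exact ⟨5, by norm_num, wit_aux (by norm_num)⟩
  · exact ⟨2, by norm_num, wit_aux (by norm_num)⟩
  · exact ⟨2, by norm_num, wit_aux (by norm_num)⟩
  · exact ⟨2, by norm_num, wit_aux (by norm_num)⟩
  · exact ⟨-3, by norm_num, wit_aux (by norm_num)⟩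
  · exact ⟨-5, by norm_num, wit_aux (by norm_num)⟩
  · exact ⟨-3, by norm_num, wit_aux (by norm_num)⟩
  · exact ⟨1, by norm_num, wit_aux (by norm_num)⟩
  · exact ⟨1, by norm_num, wit_aux (by norm_num)⟩
  · exact ⟨2, by norm_num, wit_aux (by norm_num)⟩
  · exact ⟨4, by norm_num, wit_aux (by norm_num)⟩
  · exact ⟨2, by norm_num, wit_aux (by norm_num)⟩
  · exact ⟨2, by norm_num, wit_aux (by norm_num)⟩
  · exact ⟨3, by norm_num, wit_aux (by norm_num)⟩
  · exact ⟨2, by norm_num, wit_aux (by norm_num)⟩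
  · exact ⟨-6, by norm_num, wit_aux (by norm_num)⟩
  · exact ⟨-5, by norm_num, wit_aux (by norm_num)⟩
  · exact ⟨2, by norm_num, wit_aux (by norm_num)⟩
  · exact ⟨2, by norm_num, wit_aux (by norm_num)⟩
  · exact ⟨1, by norm_num, wit_aux (by norm_num)⟩
  · exact ⟨14, by norm_num, wit_aux (by norm_num)⟩
  · exact ⟨3, by norm_num, wit_aux (by norm_num)⟩
  · exact ⟨1, by norm_num, wit_aux (by norm_num)⟩
  · exact ⟨-3, by norm_num, wit_aux (by norm_num)⟩
  · exact ⟨2, by norm_num, wit_aux (by norm_num)⟩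
  · exact ⟨10, by norm_num, wit_aux (by norm_num)⟩
  · exact ⟨1, by norm_num, wit_aux (by norm_num)⟩
  · exact ⟨-4, by norm_num, wit_aux (by norm_num)⟩
  · exact ⟨-4, by norm_num, wit_aux (by norm_num)⟩
  · exact ⟨1, by norm_num, wit_aux (by norm_num)⟩
  · exact ⟨35, by norm_num, wit_aux (by norm_num)⟩
  · exact ⟨1, by norm_num, wit_aux (by norm_num)⟩
  · exact ⟨1, by norm_num, wit_aux (by norm_num)⟩
  · exact ⟨3, by norm_num, wit_aux (by norm_num)⟩
  · exact ⟨1, by norm_num, wit_aux (by norm_num)⟩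
end Pool.Agent.H905R2.Lam
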