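import Pool.Agent.H905R2.LamE

set_option autoImplicit false

namespace Pool.Agent.H905R2.Lam

open Polynomial

lemma fourth_mono {x y : ℤ} (hx : 0 ≤ x) (h : x ≤ y) : x ^ 4 ≤ y ^ 4 := pow_le_pow_left₀ hx h 4

/-- Sign `+1`, both directions, with a bound. -/
theorem plus (a : ℤ) {N : ℤ} (hN : 0 ≤ N) :
    (∃ n, N < n ∧ n ≤ (N + 2 * |a| + 20) ^ 4 ∧ s a n = 1) ∧
    (∃ n, n < -N ∧ -(N + 2 * |a| + 20) ^ 4 ≤ n ∧ s a n = 1) := by
  have hA := abs_nonneg a
  constructor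
  · obtain ⟨n, h1, h2, h3⟩ := pos_pos a hN
    exact ⟨n, h1, h2.trans (fourth_mono (by linarith) (by linarith)), h3⟩
  · obtain ⟨n, h1, h2, h3⟩ := pos_pos (-3 - a) hN
    have hA' : |(-3 - a)| ≤ |a| + 3 := by
      rcases abs_cases (-3 - a) with ⟨h, _⟩ | ⟨h, _⟩ <;> rcases abs_cases a with ⟨h', _⟩ | ⟨h', _⟩ <;>
        omega
    have h4 : n ≤ (N + 2 * |a| + 17) ^ 4 :=
      h2.trans (fourth_mono (by have := abs_nonneg (-3 - a); linarith) (by linarith))
    have h5 : (N + 2 * |a| + 17) ^ 4 + 1 ≤ (N + 2 * |a| + 20) ^ 4 := by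
      nlinarith [pow_nonneg (by linarith : (0:ℤ) ≤ N + 2 * |a| + 17) 3,
        pow_nonneg (by linarith : (0:ℤ) ≤ N + 2 * |a| + 17) 2]
    refine ⟨-1 - n, by linarith, by linarith, ?_⟩
    rw [← s_refl a (-1 - n)]
    have : -1 - (-1 - n) = n := by ring
    rw [this]; exact h3

/-- Sign `-1`, both directions, with a bound. -/
theorem minus {a n0 N : ℤ} (hw : s a n0 = -1) (hN : |n0| ≤ N) :
    (∃ n, N < n ∧ n ≤ (N + 2 * |a| + 20) ^ 4 ∧ s a n = -1) ∧
    (∃ n, n < -N ∧ -(N + 2 * |a| + 20) ^ 4 ≤ n ∧ s a n = -1) := by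
  have hA := abs_nonneg a
  have hN0 : 0 ≤ N := le_trans (abs_nonneg _) hN
  constructor
  · obtain ⟨n, h1, h2, h3⟩ := neg_pos hw hN
    exact ⟨n, h1, h2.trans (fourth_mono (by linarith) (by linarith)), h3⟩
  · obtain ⟨n, h1, h2, h3⟩ := neg_pos (a := -3 - a) (n0 := -1 - n0) (N := N + 1)
      (by rw [s_refl]; exact hw) (by
        rcases abs_cases (-1 - n0) with ⟨h, _⟩ | ⟨h, _⟩ <;>
          rcases abs_cases n0 with ⟨h', _⟩ | ⟨h', _⟩ <;> omega)
    have hA' : |(-3 - a)| ≤ |a| + 3 := by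
      rcases abs_cases (-3 - a) with ⟨h, _⟩ | ⟨h, _⟩ <;> rcases abs_cases a with ⟨h', _⟩ | ⟨h', _⟩ <;>
        omega
    have h4 : n ≤ (N + 2 * |a| + 18) ^ 4 :=
      h2.trans (fourth_mono (by have := abs_nonneg (-3 - a); linarith) (by linarith))
    have h5 : (N + 2 * |a| + 18) ^ 4 + 1 ≤ (N + 2 * |a| + 20) ^ 4 := by
      nlinarith [pow_nonneg (by linarith : (0:ℤ) ≤ N + 2 * |a| + 18) 3,
        pow_nonneg (by linarith : (0:ℤ) ≤ N + 2 * |a| + 18) 2]
    refine ⟨-1 - n, by linarith, by linarith, ?_⟩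
    rw [← s_refl a (-1 - n)]
    have : -1 - (-1 - n) = n := by ring
    rw [this]; exact h3

/-- consecutive values with different signs -/
theorem consec_minus {a n0 : ℤ} (hw : s a n0 = -1) (N : ℤ) :
    ∃ n, N ≤ n ∧ s a n * s a (n + 1) = -1 := by
  by_contra hcon
  push Not at hcon
  obtain ⟨B, hB⟩ : ∃ B : ℤ, B = |N| + |n0| := ⟨_, rfl⟩
  have hB0 : 0 ≤ B := by rw [hB]; positivity
  have hBN : N ≤ B := by rw [hB]; linarith [le_abs_self N, abs_nonneg n0]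
  have hBn : |n0| ≤ B := by rw [hB]; linarith [abs_nonneg N]
  have hstep : ∀ n, B ≤ n → s a (n + 1) = s a n := by
    intro n hn
    have := hcon n (by linarith)
    rcases s_pm a n with e1 | e1 <;> rcases s_pm a (n + 1) with e2 | e2
    · rw [e1, e2]
    · rw [e1, e2] at this; norm_num at this
    · rw [e1, e2] at this; norm_num at this
    · rw [e1, e2]
  have hconst : ∀ n, B ≤ n → s a n = s a B := by
    intro n hn
    induction n, hn using Int.leInduction with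
    | base => rfl
    | succ n hn ih => rw [hstep n hn, ih]
  obtain ⟨⟨n, h1, _, h3⟩, _⟩ := plus a hB0
  obtain ⟨⟨m, h4, _, h6⟩, _⟩ := minus hw hBn
  rw [hconst n (by linarith)] at h3
  rw [hconst m (by linarith), h3] at h6
  norm_num at h6

lemma s_mul_lam (a n : ℤ) : s a n * s a (n + 1) =
    lam ((n ^ 3 - a * n ^ 2 - (a + 3) * n - 1) *
      ((n + 1) ^ 3 - a * (n + 1) ^ 2 - (a + 3) * (n + 1) - 1)) := by
  rw [lam_mul (f_ne a n) (f_ne a (n + 1))]; rfl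

end Pool.Agent.H905R2.Lam
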