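import Mathlib

/-!
# The masa of a bilateral shift (helper905, for MP_690138_an)

`u` is a Hilbert basis indexed by `ℤ`; `W k` the unitary `u n ↦ u (n + k)`; `D` the commutant of
all `W k`.  We prove that `D` is its own commutant, and set up the coefficient calculus.
-/

set_option autoImplicit false

open scoped InnerProductSpace
set_option linter.unusedSectionVars false
open Filter Topology

namespace H905Tri

variable {H : Type*} [NormedAddCommGroup H] [InnerProductSpace ℂ H] [CompleteSpace H]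

/-- the shifted basis -/
noncomputable def shiftBasis (u : HilbertBasis ℤ ℂ H) (k : ℤ) : HilbertBasis ℤ ℂ H :=
  HilbertBasis.mk (v := fun n => u (n + k))
    (u.orthonormal.comp (fun n => n + k) (add_left_injective k))
    (by
      have h : Set.range (fun n : ℤ => u (n + k)) = Set.range u := by
        ext x
        constructor
        · rintro ⟨n, rfl⟩; exact ⟨n + k, rfl⟩
        · rintro ⟨n, rfl⟩; exact ⟨n - k, by simp⟩
      rw [h]
      exact u.dense_span.ge)

lemma shiftBasis_apply (u : HilbertBasis ℤ ℂ H) (k n : ℤ) : shiftBasis u k n = u (n + k) := by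
  simp [shiftBasis]

/-- the shift unitary `u n ↦ u (n + k)` -/
noncomputable def Wiso (u : HilbertBasis ℤ ℂ H) (k : ℤ) : H ≃ₗᵢ[ℂ] H :=
  u.repr.trans (shiftBasis u k).repr.symm

noncomputable def W (u : HilbertBasis ℤ ℂ H) (k : ℤ) : H →L[ℂ] H :=
  (Wiso u k).toContinuousLinearEquiv.toContinuousLinearMap

lemma W_apply (u : HilbertBasis ℤ ℂ H) (k n : ℤ) : W u k (u n) = u (n + k) := by
  have : W u k (u n) = (shiftBasis u k).repr.symm (u.repr (u n)) := rfl
  rw [this, HilbertBasis.repr_self, HilbertBasis.repr_symm_single, shiftBasis_apply]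

lemma W_norm (u : HilbertBasis ℤ ℂ H) (k : ℤ) (x : H) : ‖W u k x‖ = ‖x‖ :=
  (Wiso u k).norm_map x

lemma ext_basis (u : HilbertBasis ℤ ℂ H) {X Y : H →L[ℂ] H} (h : ∀ n, X (u n) = Y (u n)) :
    X = Y := by
  have hd : Dense ((Submodule.span ℂ (Set.range u) : Submodule ℂ H) : Set H) := by
    rw [Submodule.dense_iff_topologicalClosure_eq_top]
    exact u.dense_span
  apply ContinuousLinearMap.ext_on hd
  rintro _ ⟨n, rfl⟩
  exact h n

lemma inner_ext (u : HilbertBasis ℤ ℂ H) {x y : H} (h : ∀ n, ⟪u n, x⟫_ℂ = ⟪u n, y⟫_ℂ) :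
    x = y := by
  apply u.repr.injective
  ext n
  rw [HilbertBasis.repr_apply_apply, HilbertBasis.repr_apply_apply]
  exact h n

lemma inner_W (u : HilbertBasis ℤ ℂ H) (k : ℤ) (x : H) (m : ℤ) :
    ⟪u m, W u k x⟫_ℂ = ⟪u (m - k), x⟫_ℂ := by
  have h1 : u m = W u k (u (m - k)) := by rw [W_apply]; congr 1; ring
  rw [h1]
  exact (Wiso u k).inner_map_map _ _

lemma W_comp (u : HilbertBasis ℤ ℂ H) (k l : ℤ) : W u k * W u l = W u (l + k) := by
  apply ext_basis u
  intro n
  show W u k (W u l (u n)) = _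
  rw [W_apply, W_apply, W_apply]
  congr 1
  ring

lemma W_zero (u : HilbertBasis ℤ ℂ H) : W u 0 = 1 := by
  apply ext_basis u
  intro n
  rw [W_apply]; simp

lemma star_W (u : HilbertBasis ℤ ℂ H) (k : ℤ) : star (W u k) = W u (-k) := by
  apply ext_basis u
  intro n
  apply inner_ext u
  intro m
  rw [ContinuousLinearMap.star_eq_adjoint, ContinuousLinearMap.adjoint_inner_right, W_apply,
    W_apply]
  have h1 : u n = W u k (u (n - k)) := by rw [W_apply]; congr 1; ring
  rw [← W_apply u k m, h1]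
  have := (Wiso u k).inner_map_map (u m) (u (n - k))
  show ⟪W u k (u m), W u k (u (n-k))⟫_ℂ = _
  rw [show (n + -k) = n - k by ring]
  exact this

/-- the masa -/
noncomputable def D (u : HilbertBasis ℤ ℂ H) : Subalgebra ℂ (H →L[ℂ] H) :=
  Subalgebra.centralizer ℂ (Set.range (W u))

lemma mem_D {u : HilbertBasis ℤ ℂ H} {X : H →L[ℂ] H} :
    X ∈ D u ↔ ∀ k, W u k * X = X * W u k := by
  unfold D
  rw [Subalgebra.mem_centralizer_iff]
  constructor
  · intro h k; exact h _ ⟨k, rfl⟩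
  · rintro h _ ⟨k, rfl⟩; exact h k

lemma W_mem_D (u : HilbertBasis ℤ ℂ H) (k : ℤ) : W u k ∈ D u := by
  rw [mem_D]; intro l; rw [W_comp, W_comp, add_comm]

lemma star_mem_D {u : HilbertBasis ℤ ℂ H} {X : H →L[ℂ] H} (hX : X ∈ D u) : star X ∈ D u := by
  rw [mem_D] at hX ⊢
  intro k
  have := congrArg star (hX (-k))
  rw [star_mul, star_mul, star_W, neg_neg] at this
  exact this.symm

/-- coefficient -/
noncomputable def coef (u : HilbertBasis ℤ ℂ H) (X : H →L[ℂ] H) (m : ℤ) : ℂ := ⟪u m, X (u 0)⟫_ℂ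

lemma D_apply {u : HilbertBasis ℤ ℂ H} {X : H →L[ℂ] H} (hX : X ∈ D u) (n : ℤ) :
    X (u n) = W u n (X (u 0)) := by
  have h1 := congrArg (fun T : H →L[ℂ] H => T (u 0)) (mem_D.1 hX n)
  change W u n (X (u 0)) = X (W u n (u 0)) at h1
  rw [W_apply, zero_add] at h1
  exact h1.symm

lemma inner_D {u : HilbertBasis ℤ ℂ H} {X : H →L[ℂ] H} (hX : X ∈ D u) (m n : ℤ) :
    ⟪u m, X (u n)⟫_ℂ = coef u X (m - n) := by
  rw [D_apply hX, inner_W]; rfl

lemma D_comm {u : HilbertBasis ℤ ℂ H} {X Y : H →L[ℂ] H} (hX : X ∈ D u) (hY : Y ∈ D u) :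
    X * Y = Y * X := by
  have key : ∀ {X Y : H →L[ℂ] H}, X ∈ D u → Y ∈ D u → ∀ m n : ℤ,
      ⟪u m, X (Y (u n))⟫_ℂ = ∑' k, coef u X (m - k) * coef u Y (k - n) := by
    intro X Y hX hY m n
    rw [← ContinuousLinearMap.adjoint_inner_left]
    rw [← u.tsum_inner_mul_inner]
    congr 1
    ext k
    rw [ContinuousLinearMap.adjoint_inner_left, inner_D hX, inner_D hY]
  apply ext_basis u
  intro n
  apply inner_ext u
  intro m
  show ⟪u m, X (Y (u n))⟫_ℂ = ⟪u m, Y (X (u n))⟫_ℂ
  rw [key hX hY, key hY hX]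
  rw [← (Equiv.subLeft (m + n)).tsum_eq]
  congr 1
  ext k
  simp only [Equiv.subLeft_apply]
  rw [mul_comm]
  congr 2 <;> ring

/-- `D` is its own commutant. -/
lemma D_masa (u : HilbertBasis ℤ ℂ H) :
    ((D u : Set (H →L[ℂ] H))) = Set.centralizer (D u : Set (H →L[ℂ] H)) := by
  ext X
  constructor
  · intro hX Y hY
    exact D_comm hY hX
  · intro hX
    show X ∈ D u
    rw [mem_D]
    intro k
    exact hX _ (W_mem_D u k)

lemma coef_injective {u : HilbertBasis ℤ ℂ H} {X : H →L[ℂ] H} (hX : X ∈ D u)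
    (h : ∀ m, coef u X m = 0) : X = 0 := by
  apply ext_basis u
  intro n
  apply inner_ext u
  intro m
  rw [inner_D hX, h]
  simp

/-- uniform finite truncation -/
lemma trunc {u : HilbertBasis ℤ ℂ H} {X : H →L[ℂ] H} (hX : X ∈ D u) {η : ℝ} (hη : 0 < η) :
    ∃ S : Finset ℤ, (∀ w ∉ S, ‖coef u X w‖ ≤ η) ∧
      ∀ q : ℤ, ‖X (u q) - ∑ w ∈ S, coef u X w • u (w + q)‖ ≤ η := by
  have hs := u.hasSum_repr (X (u 0))
  have h1 : ∀ᶠ S : Finset ℤ in atTop,
      ‖X (u 0) - ∑ w ∈ S, coef u X w • u w‖ < η := by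
    have h2 := (Metric.tendsto_nhds.1 hs) η hη
    filter_upwards [h2] with S hS
    rw [dist_comm, dist_eq_norm] at hS
    have h3 : ∀ w, (u.repr (X (u 0))) w = coef u X w := fun w => by
      rw [HilbertBasis.repr_apply_apply]; rfl
    simp only [h3] at hS
    exact hS
  obtain ⟨S, hS⟩ := h1.exists
  refine ⟨S, ?_, ?_⟩
  · intro w hw
    have h3 : coef u X w = ⟪u w, X (u 0) - ∑ w ∈ S, coef u X w • u w⟫_ℂ := by
      rw [inner_sub_right, inner_sum]
      rw [Finset.sum_eq_zero]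
      · simp [coef]
      · intro i hi
        rw [inner_smul_right, orthonormal_iff_ite.1 u.orthonormal, if_neg, mul_zero]
        rintro rfl; exact hw hi
    rw [h3]
    refine (norm_inner_le_norm _ _).trans ?_
    rw [u.orthonormal.1 w, one_mul]
    exact hS.le
  · intro q
    have h4 : X (u q) - ∑ w ∈ S, coef u X w • u (w + q) =
        W u q (X (u 0) - ∑ w ∈ S, coef u X w • u w) := by
      rw [map_sub, map_sum, ← D_apply hX]
      congr 1
      apply Finset.sum_congr rfl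
      intro w _
      rw [map_smul, W_apply]
    rw [h4, W_norm]
    exact hS.le

end H905Tri
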