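import Mathlib

/-!
# Realizable forms (helper905, for MP_690138_an)
-/

set_option autoImplicit false

open scoped InnerProductSpace ComplexConjugate
open Filter Topology
set_option linter.unusedSectionVars false

namespace H905Tri

variable {H : Type*} [NormedAddCommGroup H] [InnerProductSpace ℂ H] [CompleteSpace H]

/-- A non-compact operator is bounded below, in the weak sense, far out. -/
lemma exists_of_not_compact {T : H →L[ℂ] H} (hT : ¬ IsCompactOperator T) :
    ∃ c > 0, ∀ S : Finset H, ∃ x : H, ‖x‖ = 1 ∧ (∀ s ∈ S, ⟪s, x⟫_ℂ = 0) ∧ c ≤ ‖T x‖ := by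
  by_contra hcon
  push Not at hcon
  apply hT
  have h1 : ∀ n : ℕ, ∃ S : Finset H, ∀ x : H, ‖x‖ = 1 → (∀ s ∈ S, ⟪s, x⟫_ℂ = 0) →
      ‖T x‖ < 1 / ((n : ℝ) + 1) := fun n => hcon _ (by positivity)
  choose S hS using h1
  let K : ℕ → Submodule ℂ H := fun n => Submodule.span ℂ (S n : Set H)
  have hfin : ∀ n, FiniteDimensional ℂ (K n) := fun n => FiniteDimensional.span_finset ℂ (S n)
  let Tn : ℕ → (H →L[ℂ] H) := fun n => T ∘L (K n).starProjection
  have hcomp : ∀ n, IsCompactOperator (Tn n) := by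
    intro n
    have h2 : IsCompactOperator ((K n).starProjection : H → H) := by
      have h3 : IsCompactOperator ((K n).subtypeL : K n → H) :=
        isCompactOperator_of_locallyCompactSpace_rng _
      have h4 := h3.comp_clm ((K n).orthogonalProjectionOnto)
      exact h4
    exact h2.clm_comp T
  have hlim : Tendsto Tn atTop (𝓝 T) := by
    rw [tendsto_iff_norm_sub_tendsto_zero]
    have hb : ∀ n, ‖Tn n - T‖ ≤ 1 / ((n : ℝ) + 1) := by
      intro n
      apply ContinuousLinearMap.opNorm_le_bound _ (by positivity)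
      intro x
      have h5 : (Tn n - T) x = - T (x - (K n).starProjection x) := by
        simp [Tn]
      rw [h5, norm_neg]
      set z := x - (K n).starProjection x with hz
      have hzm : z ∈ (K n)ᗮ := Submodule.sub_starProjection_mem_orthogonal x
      have hzn : ‖z‖ ≤ ‖x‖ := by
        have h6 : ‖x‖ ^ 2 = ‖(K n).starProjection x‖ ^ 2 + ‖z‖ ^ 2 := by
          have h7 : x = (K n).starProjection x + z := by rw [hz]; abel
          have h8 : ⟪(K n).starProjection x, z⟫_ℂ = 0 :=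
            hzm _ (Submodule.starProjection_apply_mem _ _)
          calc ‖x‖ ^ 2 = ‖(K n).starProjection x + z‖ ^ 2 := by rw [← h7]
            _ = _ := by
              have := norm_add_sq_eq_norm_sq_add_norm_sq_of_inner_eq_zero _ _ h8
              nlinarith [this]
        nlinarith [norm_nonneg x, norm_nonneg z, sq_nonneg ‖(K n).starProjection x‖]
      by_cases hz0 : z = 0
      · rw [hz0]; simp; positivity
      · have hzpos : 0 < ‖z‖ := norm_pos_iff.2 hz0
        have h9 := hS n ((‖z‖⁻¹ : ℂ) • z) (by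
            rw [norm_smul]; simp [hzpos.ne']) (by
            intro s hs
            rw [inner_smul_right, hzm s (Submodule.subset_span hs), mul_zero])
        rw [map_smul, norm_smul] at h9
        simp only [norm_inv, Complex.norm_real, norm_norm] at h9
        have h10 : ‖T z‖ ≤ 1 / ((n:ℝ) + 1) * ‖z‖ := by
          have := mul_lt_mul_of_pos_right h9 hzpos
          rw [mul_comm (‖z‖⁻¹), mul_assoc, inv_mul_cancel₀ hzpos.ne', mul_one] at this
          exact this.le
        exact h10.trans (mul_le_mul_of_nonneg_left hzn (by positivity))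
    exact squeeze_zero (fun n => norm_nonneg _) hb tendsto_one_div_add_atTop_nhds_zero_nat
  exact isCompactOperator_of_tendsto hlim (Eventually.of_forall hcomp)

section forms

variable {E : Type*} [AddCommGroup E] [Module ℂ E] (L : E →ₗ[ℂ] (H →L[ℂ] H))

/-- realizable forms -/
def Rlz (G : E → E → ℂ) : Prop :=
  ∀ (S : Finset H) (P : Finset E) (ε : ℝ), 0 < ε → ∃ v : H,
    (∀ a ∈ P, ∀ b ∈ P, ‖⟪L a v, L b v⟫_ℂ - G a b‖ ≤ ε) ∧ ∀ s ∈ S, ∀ a ∈ P, ‖⟪s, L a v⟫_ℂ‖ ≤ ε

variable {L}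

/-- From a realizable form, a net. -/
lemma Rlz.net {G : E → E → ℂ} (h : Rlz L G) :
    ∃ v : Finset H × Finset E × ℕ → H,
      (∀ a b, Tendsto (fun i => ⟪L a (v i), L b (v i)⟫_ℂ) atTop (𝓝 (G a b))) ∧
      ∀ s a, Tendsto (fun i => ⟪s, L a (v i)⟫_ℂ) atTop (𝓝 0) := by
  classical
  have h1 : ∀ i : Finset H × Finset E × ℕ, ∃ v : H,
    (∀ a ∈ i.2.1, ∀ b ∈ i.2.1, ‖⟪L a v, L b v⟫_ℂ - G a b‖ ≤ 1 / ((i.2.2 : ℝ) + 1)) ∧
      ∀ s ∈ i.1, ∀ a ∈ i.2.1, ‖⟪s, L a v⟫_ℂ‖ ≤ 1 / ((i.2.2 : ℝ) + 1) := fun i =>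
    h i.1 i.2.1 _ (by positivity)
  choose v hv1 hv2 using h1
  refine ⟨v, ?_, ?_⟩
  · intro a b
    rw [Metric.tendsto_nhds]
    intro ε hε
    obtain ⟨n, hn⟩ := exists_nat_one_div_lt hε
    filter_upwards [Filter.Ici_mem_atTop ((∅, {a, b}, n) : Finset H × Finset E × ℕ)] with i hi
    obtain ⟨hi1, hi2, hi3⟩ := hi
    rw [dist_eq_norm]
    refine lt_of_le_of_lt (hv1 i a (hi2 (by simp)) b (hi2 (by simp))) (lt_of_le_of_lt ?_ hn)
    apply one_div_le_one_div_of_le (by positivity)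
    have : (n : ℝ) ≤ i.2.2 := by exact_mod_cast hi3
    linarith
  · intro s a
    rw [Metric.tendsto_nhds]
    intro ε hε
    obtain ⟨n, hn⟩ := exists_nat_one_div_lt hε
    filter_upwards [Filter.Ici_mem_atTop (({s}, {a}, n) : Finset H × Finset E × ℕ)] with i hi
    obtain ⟨hi1, hi2, hi3⟩ := hi
    rw [dist_eq_norm, sub_zero]
    refine lt_of_le_of_lt (hv2 i s (hi1 (by simp)) a (hi2 (by simp))) (lt_of_le_of_lt ?_ hn)
    apply one_div_le_one_div_of_le (by positivity)
    have : (n : ℝ) ≤ i.2.2 := by exact_mod_cast hi3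
    linarith

lemma Rlz.add_right {G : E → E → ℂ} (h : Rlz L G) (a b c : E) : G a (b + c) = G a b + G a c := by
  classical
  obtain ⟨v, h1, -⟩ := h.net
  refine tendsto_nhds_unique (h1 a (b + c)) ?_
  refine ((h1 a b).add (h1 a c)).congr ?_
  intro i
  rw [map_add, ContinuousLinearMap.add_apply, inner_add_right]

lemma Rlz.smul_right {G : E → E → ℂ} (h : Rlz L G) (a b : E) (z : ℂ) : G a (z • b) = z * G a b := by
  classical
  obtain ⟨v, h1, -⟩ := h.net
  refine tendsto_nhds_unique (h1 a (z • b)) ?_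
  refine ((h1 a b).const_mul z).congr ?_
  intro i
  rw [map_smul, ContinuousLinearMap.smul_apply, inner_smul_right]

lemma Rlz.symm {G : E → E → ℂ} (h : Rlz L G) (a b : E) : conj (G b a) = G a b := by
  classical
  obtain ⟨v, h1, -⟩ := h.net
  refine tendsto_nhds_unique ?_ (h1 a b)
  refine ((Complex.continuous_conj.tendsto _).comp (h1 b a)).congr ?_
  intro i
  simp [inner_conj_symm]

lemma Rlz.nonneg {G : E → E → ℂ} (h : Rlz L G) (a : E) : 0 ≤ (G a a).re := by
  classical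
  obtain ⟨v, h1, -⟩ := h.net
  refine ge_of_tendsto ((Complex.continuous_re.tendsto _).comp (h1 a a)) ?_
  filter_upwards with i
  simp only [Function.comp]
  exact inner_self_nonneg (𝕜 := ℂ)

lemma Rlz.im_zero {G : E → E → ℂ} (h : Rlz L G) (a : E) : (G a a).im = 0 := by
  have := h.symm a a
  exact Complex.conj_eq_iff_im.1 this

lemma Rlz.add_left {G : E → E → ℂ} (h : Rlz L G) (a b c : E) : G (a + b) c = G a c + G b c := by
  rw [← h.symm, h.add_right, map_add, h.symm, h.symm]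

lemma Rlz.smul_left {G : E → E → ℂ} (h : Rlz L G) (a b : E) (z : ℂ) :
    G (z • a) b = conj z * G a b := by
  rw [← h.symm, h.smul_right, map_mul, h.symm]

lemma Rlz.add {G G' : E → E → ℂ} (h : Rlz L G) (h' : Rlz L G') :
    Rlz L (fun a b => G a b + G' a b) := by
  classical
  intro S P ε hε
  obtain ⟨v, hv1, hv2⟩ := h S P (ε / 4) (by positivity)
  obtain ⟨w, hw1, hw2⟩ := h' (S ∪ P.image (fun a => L a v)) P (ε / 4) (by positivity)
  refine ⟨v + w, ?_, ?_⟩
  · intro a ha b hb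
    have e1 : ⟪L a (v + w), L b (v + w)⟫_ℂ - (G a b + G' a b) =
        (⟪L a v, L b v⟫_ℂ - G a b) + (⟪L a w, L b w⟫_ℂ - G' a b) + ⟪L a v, L b w⟫_ℂ +
          conj ⟪L b v, L a w⟫_ℂ := by
      rw [map_add, map_add, inner_add_left, inner_add_right, inner_add_right, inner_conj_symm]
      ring
    rw [e1]
    have h1 := hv1 a ha b hb
    have h2 := hw1 a ha b hb
    have h3 := hw2 (L a v) (by
      apply Finset.mem_union_right; exact Finset.mem_image_of_mem _ ha) b hb
    have h4 := hw2 (L b v) (by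
      apply Finset.mem_union_right; exact Finset.mem_image_of_mem _ hb) a ha
    have h5 : ‖(starRingEnd ℂ) ⟪L b v, L a w⟫_ℂ‖ ≤ ε / 4 := by
      rw [RCLike.norm_conj]; exact h4
    calc _ ≤ ‖⟪L a v, L b v⟫_ℂ - G a b‖ + ‖⟪L a w, L b w⟫_ℂ - G' a b‖ + ‖⟪L a v, L b w⟫_ℂ‖ +
        ‖(starRingEnd ℂ) ⟪L b v, L a w⟫_ℂ‖ := norm_add₄_le
      _ ≤ ε := by linarith
  · intro s hs a ha
    rw [map_add, inner_add_right]
    refine (norm_add_le _ _).trans ?_
    have h1 := hv2 s hs a ha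
    have h2 := hw2 s (Finset.mem_union_left _ hs) a ha
    linarith

lemma Rlz.scale {G : E → E → ℂ} (h : Rlz L G) {t : ℝ} (ht : 0 ≤ t) :
    Rlz L (fun a b => (t : ℂ) * G a b) := by
  intro S P ε hε
  set r := Real.sqrt t with hr
  have hrr : r * r = t := Real.mul_self_sqrt ht
  obtain ⟨v, hv1, hv2⟩ := h S P (ε / (t + r + 1)) (by positivity)
  refine ⟨(r : ℂ) • v, ?_, ?_⟩
  · intro a ha b hb
    have e1 : ⟪L a ((r : ℂ) • v), L b ((r : ℂ) • v)⟫_ℂ - (t : ℂ) * G a b =
        (t : ℂ) * (⟪L a v, L b v⟫_ℂ - G a b) := by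
      rw [map_smul, map_smul, inner_smul_left, inner_smul_right, Complex.conj_ofReal, ← hrr]
      push_cast; ring
    rw [e1, norm_mul, Complex.norm_real, Real.norm_of_nonneg ht]
    have h1 := hv1 a ha b hb
    calc t * ‖⟪L a v, L b v⟫_ℂ - G a b‖ ≤ t * (ε / (t + r + 1)) := by gcongr
      _ ≤ ε := by
        rw [mul_div_assoc', div_le_iff₀ (by positivity)]
        nlinarith [Real.sqrt_nonneg t, hε]
  · intro s hs a ha
    rw [map_smul, inner_smul_right, norm_mul, Complex.norm_real,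
      Real.norm_of_nonneg (Real.sqrt_nonneg t)]
    have h1 := hv2 s hs a ha
    calc r * ‖⟪s, L a v⟫_ℂ‖ ≤ r * (ε / (t + r + 1)) := by
          apply mul_le_mul_of_nonneg_left h1 (Real.sqrt_nonneg t)
      _ ≤ ε := by
        rw [mul_div_assoc', div_le_iff₀ (by positivity)]
        nlinarith [Real.sqrt_nonneg t, hε]

lemma Rlz.lim {G : ℕ → E → E → ℂ} {G' : E → E → ℂ} (h : ∀ n, Rlz L (G n))
    (hl : ∀ a b, Tendsto (fun n => G n a b) atTop (𝓝 (G' a b))) : Rlz L G' := by
  intro S P ε hε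
  have h1 : ∀ᶠ n in atTop, ∀ a ∈ P, ∀ b ∈ P, ‖G n a b - G' a b‖ ≤ ε / 2 := by
    rw [Filter.eventually_all_finset]
    intro a ha
    rw [Filter.eventually_all_finset]
    intro b hb
    filter_upwards [(Metric.tendsto_nhds.1 (hl a b)) (ε / 2) (by positivity)] with n hn
    rw [dist_eq_norm] at hn; exact hn.le
  obtain ⟨n, hn⟩ := h1.exists
  obtain ⟨v, hv1, hv2⟩ := h n S P (ε / 2) (by positivity)
  refine ⟨v, ?_, ?_⟩
  · intro a ha b hb
    have : ⟪L a v, L b v⟫_ℂ - G' a b = (⟪L a v, L b v⟫_ℂ - G n a b) + (G n a b - G' a b) := by ring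
    rw [this]
    refine (norm_add_le _ _).trans ?_
    linarith [hv1 a ha b hb, hn a ha b hb]
  · intro s hs a ha
    linarith [hv2 s hs a ha]

lemma exists_Rlz_of_not_compact {e : E} (he : ¬ IsCompactOperator (L e)) :
    ∃ G : E → E → ℂ, Rlz L G ∧ 0 < (G e e).re ∧ ∀ a b, ‖G a b‖ ≤ ‖L a‖ * ‖L b‖ := by
  classical
  obtain ⟨c, hc, h⟩ := exists_of_not_compact he
  choose x hx1 hx2 hx3 using h
  let 𝒰 : Ultrafilter (Finset H) := Ultrafilter.of atTop
  have h𝒰 : (𝒰 : Filter (Finset H)) ≤ atTop := Ultrafilter.of_le atTop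
  have hlim : ∀ a b : E, ∃ z : ℂ, z ∈ Metric.closedBall (0:ℂ) (‖L a‖ * ‖L b‖) ∧
      Tendsto (fun i => ⟪L a (x i), L b (x i)⟫_ℂ) 𝒰 (𝓝 z) := by
    intro a b
    have hb : ∀ i, ⟪L a (x i), L b (x i)⟫_ℂ ∈ Metric.closedBall (0:ℂ) (‖L a‖ * ‖L b‖) := by
      intro i
      rw [mem_closedBall_zero_iff]
      refine (norm_inner_le_norm _ _).trans ?_
      have h1 := (L a).le_opNorm (x i)
      have h2 := (L b).le_opNorm (x i)
      rw [hx1, mul_one] at h1 h2
      exact mul_le_mul h1 h2 (norm_nonneg _) (norm_nonneg _)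
    have := (isCompact_closedBall (0:ℂ) (‖L a‖ * ‖L b‖)).ultrafilter_le_nhds
      (𝒰.map (fun i => ⟪L a (x i), L b (x i)⟫_ℂ)) (by
        rw [le_principal_iff]
        exact Filter.mem_map.2 (Filter.univ_mem' hb))
    obtain ⟨z, hz1, hz2⟩ := this
    exact ⟨z, hz1, hz2⟩
  choose G hG1 hG2 using hlim
  refine ⟨G, ?_, ?_, ?_⟩
  · intro S P ε hε
    have e1 : ∀ᶠ i in (𝒰 : Filter (Finset H)), ∀ a ∈ P, ∀ b ∈ P,
        ‖⟪L a (x i), L b (x i)⟫_ℂ - G a b‖ ≤ ε := by
      rw [Filter.eventually_all_finset]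
      intro a ha
      rw [Filter.eventually_all_finset]
      intro b hb
      filter_upwards [(Metric.tendsto_nhds.1 (hG2 a b)) ε hε] with n hn
      rw [dist_eq_norm] at hn; exact hn.le
    have e2 : ∀ᶠ i in (𝒰 : Filter (Finset H)),
        ((S ×ˢ P).image (fun p => (ContinuousLinearMap.adjoint (L p.2)) p.1)) ≤ i :=
      h𝒰 (Filter.Ici_mem_atTop _)
    obtain ⟨i, hi1, hi2⟩ := (e1.and e2).exists
    refine ⟨x i, hi1, ?_⟩
    intro s hs a ha
    have : ⟪s, L a (x i)⟫_ℂ = 0 := by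
      rw [← ContinuousLinearMap.adjoint_inner_left]
      apply hx2
      apply hi2
      rw [Finset.mem_image]
      exact ⟨(s, a), Finset.mk_mem_product hs ha, rfl⟩
    rw [this]; simpa using hε.le
  · have h1 : c ^ 2 ≤ (G e e).re := by
      refine ge_of_tendsto ((Complex.continuous_re.tendsto _).comp (hG2 e e)) ?_
      filter_upwards with i
      simp only [Function.comp]
      have h2 : (⟪L e (x i), L e (x i)⟫_ℂ).re = ‖L e (x i)‖ ^ 2 := by
        rw [inner_self_eq_norm_sq_to_K]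
        norm_cast
      rw [h2]
      exact pow_le_pow_left₀ hc.le (hx3 i) 2
    exact lt_of_lt_of_le (by positivity) h1
  · intro a b
    have := hG1 a b
    rwa [mem_closedBall_zero_iff] at this

end forms

end H905Tri
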