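import Mathlib
import Pool.Agent.H905R2.Tri2

/-!
# A positive definite realizable form and the orthonormal letters (helper905, for MP_690138_an)
-/

set_option autoImplicit false

open scoped InnerProductSpace ComplexConjugate
open Filter Topology
set_option linter.unusedSectionVars false

namespace H905Tri

variable {H : Type*} [NormedAddCommGroup H] [InnerProductSpace ℂ H] [CompleteSpace H]

section forms

variable {E : Type*} [AddCommGroup E] [Module ℂ E] {L : E →ₗ[ℂ] (H →L[ℂ] H)}

lemma Rlz.par {G : E → E → ℂ} (h : Rlz L G) (a b : E) :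
    (G (a - b) (a - b)).re + (G (a + b) (a + b)).re = 2 * (G a a).re + 2 * (G b b).re := by
  have e1 : a - b = a + (-1 : ℂ) • b := by simp [sub_eq_add_neg]
  rw [e1]
  simp only [h.add_left, h.add_right, h.smul_left, h.smul_right]
  simp
  ring

lemma Rlz.smul_re {G : E → E → ℂ} (h : Rlz L G) (a : E) (c : ℂ) :
    (G (c • a) (c • a)).re = ‖c‖ ^ 2 * (G a a).re := by
  rw [h.smul_left, h.smul_right]
  have := h.im_zero a
  rw [← mul_assoc, ← Complex.normSq_eq_conj_mul_self, Complex.normSq_eq_norm_sq]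
  simp [Complex.mul_re, this]
  left
  norm_cast

lemma Rlz.zero : Rlz L (fun _ _ => (0 : ℂ)) := by
  intro S P ε hε
  exact ⟨0, by simp [hε.le], by simp [hε.le]⟩

end forms

variable {L : (ℕ →₀ ℂ) →ₗ[ℂ] (H →L[ℂ] H)}

lemma exists_pd_level (hL : ∀ e, e ≠ 0 → ¬ IsCompactOperator (L e)) (m : ℕ) :
    ∃ G : (ℕ →₀ ℂ) → (ℕ →₀ ℂ) → ℂ, Rlz L G ∧
      (∀ a : ℕ →₀ ℂ, (∀ i, m ≤ i → a i = 0) → a ≠ 0 → 0 < (G a a).re) ∧
      ∃ C : ℝ, 0 ≤ C ∧ ∀ a b, ‖G a b‖ ≤ C * (‖L a‖ * ‖L b‖) := by
  induction m with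
  | zero =>
    refine ⟨fun _ _ => 0, Rlz.zero, ?_, 0, le_refl _, by simp⟩
    intro a ha ha0
    exact absurd (Finsupp.ext fun i => ha i (Nat.zero_le _)) ha0
  | succ m ih =>
    obtain ⟨G, hG, hpd, C, hC, hb⟩ := ih
    by_cases hall : ∀ a : ℕ →₀ ℂ, (∀ i, m + 1 ≤ i → a i = 0) → a ≠ 0 → 0 < (G a a).re
    · exact ⟨G, hG, hall, C, hC, hb⟩
    · push Not at hall
      obtain ⟨a, hasup, ha0, hare⟩ := hall
      have ha1 : (G a a).re = 0 := le_antisymm hare (hG.nonneg a)
      have ham : a m ≠ 0 := by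
        intro h0
        have := hpd a (fun i hi => by
          rcases Nat.eq_or_lt_of_le hi with h | h
          · rw [← h]; exact h0
          · exact hasup i h) ha0
        linarith
      obtain ⟨G', hG', hG'a, hb'⟩ := exists_Rlz_of_not_compact (hL a ha0)
      refine ⟨_, hG.add hG', ?_, C + 1, by positivity, ?_⟩
      · intro b hbsup hb0
        by_contra hneg
        push Not at hneg
        rw [Complex.add_re] at hneg
        have h1 := hG.nonneg b
        have h2 := hG'.nonneg b
        have hb1 : (G b b).re = 0 := by linarith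
        have hb2 : (G' b b).re = 0 := by linarith
        set c := b m / a m with hc
        have hx : (G (c • a) (c • a)).re = 0 := by rw [hG.smul_re, ha1, mul_zero]
        have hpar := hG.par b (c • a)
        have h3 := hG.nonneg (b - c • a)
        have h4 := hG.nonneg (b + c • a)
        have h5 : (G (b - c • a) (b - c • a)).re = 0 := by
          rw [hb1, hx] at hpar; linarith
        have h6 : b - c • a = 0 := by
          by_contra hne
          have := hpd (b - c • a) (fun i hi => by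
            rw [Finsupp.sub_apply, Finsupp.smul_apply, smul_eq_mul]
            rcases Nat.eq_or_lt_of_le hi with h | h
            · rw [← h, hc]; field_simp; ring
            · rw [hbsup i h, hasup i h]; ring) hne
          linarith
        have h7 : b = c • a := sub_eq_zero.1 h6
        rw [h7, hG'.smul_re] at hb2
        have hc0 : c = 0 := by
          rcases mul_eq_zero.1 hb2 with h | h
          · simpa using h
          · linarith
        apply hb0
        rw [h7, hc0, zero_smul]
      · intro x y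
        refine (norm_add_le _ _).trans ?_
        have := hb x y
        have := hb' x y
        linarith

lemma exists_pd (hL : ∀ e, e ≠ 0 → ¬ IsCompactOperator (L e)) :
    ∃ G : (ℕ →₀ ℂ) → (ℕ →₀ ℂ) → ℂ, Rlz L G ∧
      (∀ a : ℕ →₀ ℂ, a ≠ 0 → 0 < (G a a).re) ∧
      G (Finsupp.single 0 1) (Finsupp.single 0 1) = 1 := by
  choose G hG hpd C hC hb using exists_pd_level hL
  let w : ℕ → ℝ := fun m => (1 / 2) ^ m / (C m + 1)
  have hw : ∀ m, 0 < w m := fun m => by
    have := hC m
    positivity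
  have hbound : ∀ a b m, ‖((w m : ℝ) : ℂ) * G m a b‖ ≤ (1 / 2) ^ m * (‖L a‖ * ‖L b‖) := by
    intro a b m
    rw [norm_mul, Complex.norm_real, Real.norm_of_nonneg (hw m).le]
    have h1 := hb m a b
    have h2 := hC m
    calc w m * ‖G m a b‖ ≤ w m * (C m * (‖L a‖ * ‖L b‖)) := by
          exact mul_le_mul_of_nonneg_left h1 (hw m).le
      _ = (1 / 2) ^ m * (C m / (C m + 1)) * (‖L a‖ * ‖L b‖) := by
          simp only [w]; field_simp
      _ ≤ (1 / 2) ^ m * 1 * (‖L a‖ * ‖L b‖) := by
          gcongr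
          rw [div_le_one (by positivity)]; linarith
      _ = _ := by ring
  have hsum : ∀ a b, Summable (fun m => ((w m : ℝ) : ℂ) * G m a b) := by
    intro a b
    apply Summable.of_norm_bounded _ (hbound a b)
    exact (summable_geometric_of_lt_one (by norm_num) (by norm_num)).mul_right _
  let G' : (ℕ →₀ ℂ) → (ℕ →₀ ℂ) → ℂ := fun a b => ∑' m, ((w m : ℝ) : ℂ) * G m a b
  have hR : Rlz L G' := by
    apply Rlz.lim (G := fun n a b => ∑ m ∈ Finset.range n, ((w m : ℝ) : ℂ) * G m a b)
    · intro n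
      induction n with
      | zero => simpa using Rlz.zero
      | succ n ih =>
        have := ih.add ((hG n).scale (hw n).le)
        simp only [Finset.sum_range_succ]
        exact this
    · intro a b
      exact (hsum a b).hasSum.tendsto_sum_nat
  have hPD : ∀ a : ℕ →₀ ℂ, a ≠ 0 → 0 < (G' a a).re := by
    intro a ha
    obtain ⟨m, hm⟩ : ∃ m, ∀ i, m ≤ i → a i = 0 := by
      refine ⟨a.support.sup id + 1, fun i hi => ?_⟩
      by_contra hne
      have : i ≤ a.support.sup id := Finset.le_sup (f := id) (Finsupp.mem_support_iff.2 hne)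
      omega
    have h1 : 0 < w m * (G m a a).re := mul_pos (hw m) (hpd m a hm ha)
    have h2 : HasSum (fun m => (((w m : ℝ) : ℂ) * G m a a).re) (G' a a).re :=
      Complex.hasSum_re (hsum a a).hasSum
    have h3 : (((w m : ℝ) : ℂ) * G m a a).re ≤ (G' a a).re := by
      apply le_hasSum h2
      intro j _
      rw [Complex.re_ofReal_mul]
      exact mul_nonneg (hw j).le ((hG j).nonneg a)
    rw [Complex.re_ofReal_mul] at h3
    linarith
  set g := (G' (Finsupp.single 0 1) (Finsupp.single 0 1)).re with hg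
  have hgpos : 0 < g := hPD _ (by simp)
  refine ⟨_, hR.scale (inv_nonneg.2 hgpos.le), ?_, ?_⟩
  · intro a ha
    rw [Complex.re_ofReal_mul]
    exact mul_pos (inv_pos.2 hgpos) (hPD a ha)
  · have h1 : G' (Finsupp.single 0 1) (Finsupp.single 0 1) = (g : ℂ) := by
      apply Complex.ext
      · simp [hg]
      · simp only [Complex.ofReal_im]; exact hR.im_zero _
    rw [h1]
    have : (g : ℂ) ≠ 0 := by exact_mod_cast hgpos.ne'
    push_cast
    field_simp

/-- the core -/
@[reducible] noncomputable def coreOf {G : (ℕ →₀ ℂ) → (ℕ →₀ ℂ) → ℂ} (hG : Rlz L G)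
    (hpd : ∀ a : ℕ →₀ ℂ, a ≠ 0 → 0 < (G a a).re) : InnerProductSpace.Core ℂ (ℕ →₀ ℂ) where
  inner := G
  conj_inner_symm x y := hG.symm x y
  re_inner_nonneg x := hG.nonneg x
  add_left x y z := hG.add_left x y z
  smul_left x y r := hG.smul_left x y r
  definite x hx := by
    by_contra hne
    have := hpd x hne
    rw [show G x x = 0 from hx] at this
    simp at this

lemma exists_gs {G : (ℕ →₀ ℂ) → (ℕ →₀ ℂ) → ℂ} (hG : Rlz L G)
    (hpd : ∀ a : ℕ →₀ ℂ, a ≠ 0 → 0 < (G a a).re)
    (h1 : G (Finsupp.single 0 1) (Finsupp.single 0 1) = 1) :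
    ∃ f : ℕ → (ℕ →₀ ℂ), f 0 = Finsupp.single 0 1 ∧ LinearIndependent ℂ f ∧
      Submodule.span ℂ (Set.range f) = ⊤ ∧ ∀ i j, G (f i) (f j) = if i = j then 1 else 0 := by
  classical
  let c := coreOf hG hpd
  let _ : NormedAddCommGroup (ℕ →₀ ℂ) := c.toNormedAddCommGroup
  let _ : InnerProductSpace ℂ (ℕ →₀ ℂ) := InnerProductSpace.ofCore c.toCore
  let t : ℕ → (ℕ →₀ ℂ) := fun i => Finsupp.single i 1
  have htl : LinearIndependent ℂ t := by
    have := (Finsupp.basisSingleOne (R := ℂ) (ι := ℕ)).linearIndependent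
    simpa [t, Finsupp.coe_basisSingleOne] using this
  have hts : Submodule.span ℂ (Set.range t) = ⊤ := by
    have := (Finsupp.basisSingleOne (R := ℂ) (ι := ℕ)).span_eq
    simpa [t, Finsupp.coe_basisSingleOne] using this
  refine ⟨InnerProductSpace.gramSchmidtNormed ℂ t, ?_, ?_, ?_, ?_⟩
  · have hn : ‖t 0‖ = 1 := by
      have h2 : ⟪t 0, t 0⟫_ℂ = 1 := h1
      rw [inner_self_eq_norm_sq_to_K] at h2
      have h2' : ((‖t 0‖ ^ 2 : ℝ) : ℂ) = ((1 : ℝ) : ℂ) := by
        rw [Complex.ofReal_pow, Complex.ofReal_one]; exact h2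
      have h3 : ‖t 0‖ ^ 2 = 1 := Complex.ofReal_injective h2'
      nlinarith [norm_nonneg (t 0)]
    have h4 : InnerProductSpace.gramSchmidt ℂ t 0 = t 0 := InnerProductSpace.gramSchmidt_bot ℂ t
    unfold InnerProductSpace.gramSchmidtNormed
    rw [h4, hn]
    simp [t]
  · exact InnerProductSpace.gramSchmidtNormed_linearIndependent htl
  · rw [InnerProductSpace.span_gramSchmidtNormed_range, InnerProductSpace.span_gramSchmidt, hts]
  · intro i j
    have := InnerProductSpace.gramSchmidtNormed_orthonormal htl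
    exact (orthonormal_iff_ite.1 this) i j

/-- The letters. -/
theorem exists_letters (hL : ∀ e, e ≠ 0 → ¬ IsCompactOperator (L e)) :
    ∃ F : ℕ → (H →L[ℂ] H), F 0 = L (Finsupp.single 0 1) ∧ LinearIndependent ℂ F ∧
      Submodule.span ℂ (Set.range F) = LinearMap.range L ∧
      ∀ (S : Finset H) (n : ℕ) (ε : ℝ), 0 < ε → ∃ v : H,
        (∀ i < n, ∀ j < n, ‖⟪F i v, F j v⟫_ℂ - (if i = j then 1 else 0)‖ ≤ ε) ∧
        ∀ s ∈ S, ∀ i < n, ‖⟪s, F i v⟫_ℂ‖ ≤ ε := by
  classical
  obtain ⟨G, hG, hpd, hG1⟩ := exists_pd hL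
  obtain ⟨f, hf0, hfl, hfs, hfo⟩ := exists_gs hG hpd hG1
  have hker : LinearMap.ker L = ⊥ := by
    rw [LinearMap.ker_eq_bot']
    intro m hm
    by_contra hne
    apply hL m hne
    rw [hm]
    exact isCompactOperator_zero
  refine ⟨fun i => L (f i), by show L (f 0) = _; rw [hf0], hfl.map' L hker, ?_, ?_⟩
  · have : Set.range (fun i => L (f i)) = L '' Set.range f := by
      rw [← Set.range_comp]; rfl
    rw [this, ← Submodule.map_span, hfs, Submodule.map_top]
  · intro S n ε hε
    obtain ⟨v, hv1, hv2⟩ := hG S ((Finset.range n).image f) ε hε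
    refine ⟨v, ?_, ?_⟩
    · intro i hi j hj
      have := hv1 (f i) (Finset.mem_image_of_mem _ (Finset.mem_range.2 hi)) (f j)
        (Finset.mem_image_of_mem _ (Finset.mem_range.2 hj))
      rw [hfo] at this
      exact this
    · intro s hs i hi
      exact hv2 s hs (f i) (Finset.mem_image_of_mem _ (Finset.mem_range.2 hi))

end H905Tri
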