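import Mathlib

/-!
# The generic basis (helper905, for MP_690138_an)
-/

set_option autoImplicit false

open scoped InnerProductSpace ComplexConjugate
open Filter Topology
set_option linter.unusedSectionVars false

namespace H905Tri

variable {H : Type*} [NormedAddCommGroup H] [InnerProductSpace ℂ H] [CompleteSpace H]

/-- finite partial orthonormal systems indexed by integers -/
structure PSys (H : Type*) [NormedAddCommGroup H] [InnerProductSpace ℂ H] where
  dom : Finset ℤ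
  val : ℤ → H
  orth : ∀ i ∈ dom, ∀ j ∈ dom, ⟪val i, val j⟫_ℂ = if i = j then 1 else 0

def PSys.le (s t : PSys H) : Prop := s.dom ⊆ t.dom ∧ ∀ i ∈ s.dom, t.val i = s.val i

lemma PSys.le_refl (s : PSys H) : s.le s := ⟨Finset.Subset.refl _, fun _ _ => rfl⟩

lemma PSys.le_trans {s t r : PSys H} (h1 : s.le t) (h2 : t.le r) : s.le r :=
  ⟨h1.1.trans h2.1, fun i hi => (h2.2 i (h1.1 hi)).trans (h1.2 i hi)⟩

lemma extend_one (s : PSys H) {q : ℤ} (hq : q ∉ s.dom) {y : H} (hy : ‖y‖ = 1)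
    (ho : ∀ i ∈ s.dom, ⟪s.val i, y⟫_ℂ = 0) :
    ∃ t : PSys H, s.le t ∧ t.dom = insert q s.dom ∧ t.val q = y := by
  classical
  have hne : ∀ i ∈ s.dom, i ≠ q := fun i hi h => hq (h ▸ hi)
  refine ⟨⟨insert q s.dom, Function.update s.val q y, ?_⟩, ⟨Finset.subset_insert _ _, ?_⟩, rfl, ?_⟩
  · intro i hi j hj
    rw [Finset.mem_insert] at hi hj
    have hyy : ⟪y, y⟫_ℂ = 1 := by
      rw [inner_self_eq_norm_sq_to_K, hy]; simp
    rcases hi with rfl | hi <;> rcases hj with rfl | hj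
    · rw [Function.update_self, if_pos rfl]; exact hyy
    · rw [Function.update_self, Function.update_of_ne (hne j hj), if_neg (hne j hj).symm]
      rw [← inner_conj_symm, ho j hj]; simp
    · rw [Function.update_self, Function.update_of_ne (hne i hi), if_neg (hne i hi)]
      exact ho i hi
    · rw [Function.update_of_ne (hne i hi), Function.update_of_ne (hne j hj)]
      exact s.orth i hi j hj
  · intro i hi
    exact Function.update_of_ne (hne i hi) _ _
  · exact Function.update_self _ _ _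

lemma resid_orth (s : PSys H) (x : H) {i : ℤ} (hi : i ∈ s.dom) :
    ⟪s.val i, x - ∑ j ∈ s.dom, ⟪s.val j, x⟫_ℂ • s.val j⟫_ℂ = 0 := by
  rw [inner_sub_right, inner_sum, Finset.sum_eq_single i]
  · rw [inner_smul_right, s.orth i hi i hi]; simp
  · intro j hj hji
    rw [inner_smul_right, s.orth i hi j hj, if_neg hji.symm, mul_zero]
  · intro h; exact absurd hi h

lemma norm_val (s : PSys H) {i : ℤ} (hi : i ∈ s.dom) : ‖s.val i‖ = 1 := by
  have h := s.orth i hi i hi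
  rw [if_pos rfl, inner_self_eq_norm_sq_to_K] at h
  have h2' : ((‖s.val i‖ ^ 2 : ℝ) : ℂ) = ((1 : ℝ) : ℂ) := by
    rw [Complex.ofReal_pow, Complex.ofReal_one]; exact h
  have h3 : ‖s.val i‖ ^ 2 = 1 := Complex.ofReal_injective h2'
  nlinarith [norm_nonneg (s.val i)]

/-- extension by one vector near `x`. -/
lemma extend_near (s : PSys H) {q : ℤ} (hq : q ∉ s.dom) (x : H) {δ η : ℝ}
    (hx : |‖x‖ - 1| ≤ δ) (hη : ∑ i ∈ s.dom, ‖⟪s.val i, x⟫_ℂ‖ ≤ η) (hlt : δ + η < 1) :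
    ∃ t : PSys H, s.le t ∧ t.dom = insert q s.dom ∧ ‖t.val q - x‖ ≤ δ + 2 * η := by
  set z := x - ∑ j ∈ s.dom, ⟪s.val j, x⟫_ℂ • s.val j with hz
  have h1 : ‖z - x‖ ≤ η := by
    have : z - x = - ∑ j ∈ s.dom, ⟪s.val j, x⟫_ℂ • s.val j := by rw [hz]; abel
    rw [this, norm_neg]
    refine (norm_sum_le _ _).trans (le_trans (Finset.sum_le_sum ?_) hη)
    intro i hi
    rw [norm_smul, norm_val s hi, mul_one]
  have h2 : |‖z‖ - 1| ≤ δ + η := by
    have h3 : |‖z‖ - ‖x‖| ≤ η := (abs_norm_sub_norm_le z x).trans h1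
    have h4 : ‖z‖ - 1 = (‖z‖ - ‖x‖) + (‖x‖ - 1) := by ring
    rw [h4]
    refine (abs_add_le _ _).trans ?_
    linarith
  have hzpos : 0 < ‖z‖ := by
    have := (abs_le.1 h2).1
    linarith
  obtain ⟨t, ht1, ht2, ht3⟩ := extend_one s hq (y := ((‖z‖⁻¹ : ℝ) : ℂ) • z) (by
      rw [norm_smul, Complex.norm_real, norm_inv, norm_norm, inv_mul_cancel₀ hzpos.ne']) (by
      intro i hi
      rw [inner_smul_right, hz, resid_orth s x hi, mul_zero])
  refine ⟨t, ht1, ht2, ?_⟩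
  rw [ht3]
  have h5 : ‖((‖z‖⁻¹ : ℝ) : ℂ) • z - z‖ ≤ δ + η := by
    have h6 : ((‖z‖⁻¹ : ℝ) : ℂ) • z - z = (((‖z‖⁻¹ - 1 : ℝ)) : ℂ) • z := by
      push_cast
      rw [sub_smul, one_smul]
    rw [h6, norm_smul, Complex.norm_real, Real.norm_eq_abs]
    have h7 : |‖z‖⁻¹ - 1| * ‖z‖ = |‖z‖ - 1| := by
      rw [← abs_of_pos hzpos, ← abs_mul, abs_of_pos hzpos, sub_mul, inv_mul_cancel₀ hzpos.ne',
        one_mul, abs_sub_comm]
    rw [h7]; exact h2
  calc ‖((‖z‖⁻¹ : ℝ) : ℂ) • z - x‖ = ‖(((‖z‖⁻¹ : ℝ) : ℂ) • z - z) + (z - x)‖ := by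
        congr 1; abel
    _ ≤ _ := norm_add_le _ _
    _ ≤ δ + 2 * η := by linarith

lemma fill (n : ℕ) : ∀ (s : PSys H) (q : ℕ → ℤ), (∀ i < n, q i ∉ s.dom) →
    (∀ i < n, ∀ j < n, q i = q j → i = j) → ∀ ε : ℝ, 0 < ε → ∃ δ : ℝ, 0 < δ ∧
    ∀ x : ℕ → H, (∀ i < n, ∀ j < n, ‖⟪x i, x j⟫_ℂ - (if i = j then 1 else 0)‖ ≤ δ) →
      (∀ i ∈ s.dom, ∀ j < n, ‖⟪s.val i, x j⟫_ℂ‖ ≤ δ) →
      ∃ t : PSys H, s.le t ∧ (∀ i, i ∈ t.dom ↔ i ∈ s.dom ∨ ∃ j < n, i = q j) ∧
        ∀ j < n, ‖t.val (q j) - x j‖ ≤ ε := by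
  induction n with
  | zero =>
    intro s q _ _ ε _
    exact ⟨1, one_pos, fun x _ _ => ⟨s, s.le_refl, by simp, by simp⟩⟩
  | succ n ih =>
    intro s q hq hinj ε hε
    set m := min ε 1 with hm
    have hmpos : 0 < m := lt_min hε one_pos
    set N : ℝ := (s.dom.card : ℝ) + n + 1 with hN
    have hNpos : 1 ≤ N := by
      rw [hN]
      have : (0:ℝ) ≤ s.dom.card := Nat.cast_nonneg _
      have : (0:ℝ) ≤ n := Nat.cast_nonneg _
      linarith
    obtain ⟨δ', hδ', hih⟩ := ih s q (fun i hi => hq i (Nat.lt_succ_of_lt hi))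
      (fun i hi j hj => hinj i (Nat.lt_succ_of_lt hi) j (Nat.lt_succ_of_lt hj))
      (m / (8 * N)) (by positivity)
    refine ⟨min δ' (m / (8 * N)), lt_min hδ' (by positivity), ?_⟩
    intro x hx1 hx2
    set δ := min δ' (m / (8 * N)) with hδ
    have hδ1 : δ ≤ δ' := min_le_left _ _
    have hδ2 : δ ≤ m / (8 * N) := min_le_right _ _
    have hδN : δ * N ≤ m / 8 := by
      calc δ * N ≤ m / (8 * N) * N := by gcongr
        _ = m / 8 := by field_simp
    have hδ0 : 0 < δ := lt_min hδ' (by positivity)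
    have hδ8 : δ ≤ m / 8 := by nlinarith
    have hm1 : m ≤ 1 := min_le_right _ _
    obtain ⟨t, ht1, ht2, ht3⟩ := hih x
      (fun i hi j hj => (hx1 i (Nat.lt_succ_of_lt hi) j (Nat.lt_succ_of_lt hj)).trans hδ1)
      (fun i hi j hj => (hx2 i hi j (Nat.lt_succ_of_lt hj)).trans hδ1)
    have hxn : |‖x n‖ - 1| ≤ δ := by
      have h1 := hx1 n (Nat.lt_succ_self n) n (Nat.lt_succ_self n)
      rw [if_pos rfl, inner_self_eq_norm_sq_to_K] at h1
      have h2 : ‖((‖x n‖ ^ 2 - 1 : ℝ) : ℂ)‖ ≤ δ := by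
        have : ((‖x n‖ ^ 2 - 1 : ℝ) : ℂ) = ((‖x n‖ : ℝ) : ℂ) ^ 2 - 1 := by push_cast; ring
        rw [this]; exact h1
      rw [Complex.norm_real, Real.norm_eq_abs] at h2
      have h3 : ‖x n‖ ^ 2 - 1 = (‖x n‖ - 1) * (‖x n‖ + 1) := by ring
      rw [h3, abs_mul] at h2
      have h4 : 1 ≤ |‖x n‖ + 1| := by
        rw [abs_of_nonneg (by positivity)]; linarith [norm_nonneg (x n)]
      nlinarith [abs_nonneg (‖x n‖ - 1)]
    have hxn2 : ‖x n‖ ≤ 2 := by
      have := (abs_le.1 hxn).2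
      linarith
    have hqn : q n ∉ t.dom := by
      rw [ht2]
      rintro (h | ⟨j, hj, h⟩)
      · exact hq n (Nat.lt_succ_self n) h
      · have := hinj n (Nat.lt_succ_self n) j (Nat.lt_succ_of_lt hj) h
        omega
    have hterm : ∀ i ∈ t.dom, ‖⟪t.val i, x n⟫_ℂ‖ ≤ δ + 2 * (m / (8 * N)) := by
      intro i hi
      rcases (ht2 i).1 hi with h | ⟨j, hj, rfl⟩
      · rw [ht1.2 i h]
        have := hx2 i h n (Nat.lt_succ_self n)
        have : 0 ≤ m / (8 * N) := by positivity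
        linarith
      · have e1 : ⟪t.val (q j), x n⟫_ℂ = ⟪x j, x n⟫_ℂ + ⟪t.val (q j) - x j, x n⟫_ℂ := by
          rw [inner_sub_left]; ring
        rw [e1]
        refine (norm_add_le _ _).trans ?_
        have h1 := hx1 j (Nat.lt_succ_of_lt hj) n (Nat.lt_succ_self n)
        rw [if_neg (by omega), sub_zero] at h1
        have h2 : ‖⟪t.val (q j) - x j, x n⟫_ℂ‖ ≤ m / (8 * N) * 2 :=
          (norm_inner_le_norm _ _).trans
            (mul_le_mul (ht3 j hj) hxn2 (norm_nonneg _) (by positivity))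
        linarith
    have hcard : (t.dom.card : ℝ) ≤ N := by
      have h1 : t.dom ⊆ s.dom ∪ (Finset.range n).image q := by
        intro i hi
        rcases (ht2 i).1 hi with h | ⟨j, hj, rfl⟩
        · exact Finset.mem_union_left _ h
        · exact Finset.mem_union_right _ (Finset.mem_image_of_mem _ (Finset.mem_range.2 hj))
      have h2 : t.dom.card ≤ s.dom.card + n := by
        refine (Finset.card_le_card h1).trans ((Finset.card_union_le _ _).trans ?_)
        have := Finset.card_image_le (s := Finset.range n) (f := q)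
        rw [Finset.card_range] at this
        omega
      have h3 : (t.dom.card : ℝ) ≤ s.dom.card + n := by exact_mod_cast h2
      rw [hN]; linarith
    have hη : ∑ i ∈ t.dom, ‖⟪t.val i, x n⟫_ℂ‖ ≤ 3 * m / 8 := by
      refine (Finset.sum_le_card_nsmul _ _ _ hterm).trans ?_
      rw [nsmul_eq_mul]
      have h0 : 0 ≤ δ + 2 * (m / (8 * N)) := by positivity
      calc (t.dom.card : ℝ) * (δ + 2 * (m / (8 * N))) ≤ N * (δ + 2 * (m / (8 * N))) := by gcongr
        _ = δ * N + 2 * (m / 8) := by field_simp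
        _ ≤ 3 * m / 8 := by linarith
    obtain ⟨r, hr1, hr2, hr3⟩ := extend_near t hqn (x n) (δ := m / 8) (hxn.trans hδ8) hη
      (by linarith)
    refine ⟨r, PSys.le_trans ht1 hr1, ?_, ?_⟩
    · intro i
      rw [hr2, Finset.mem_insert, ht2]
      constructor
      · rintro (rfl | h | ⟨j, hj, rfl⟩)
        · exact Or.inr ⟨n, Nat.lt_succ_self n, rfl⟩
        · exact Or.inl h
        · exact Or.inr ⟨j, Nat.lt_succ_of_lt hj, rfl⟩
      · rintro (h | ⟨j, hj, rfl⟩)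
        · exact Or.inr (Or.inl h)
        · rcases Nat.lt_succ_iff_lt_or_eq.1 hj with h | rfl
          · exact Or.inr (Or.inr ⟨j, h, rfl⟩)
          · exact Or.inl rfl
    · intro j hj
      rcases Nat.lt_succ_iff_lt_or_eq.1 hj with h | rfl
      · rw [hr1.2 (q j) ((ht2 _).2 (Or.inr ⟨j, h, rfl⟩))]
        refine (ht3 j h).trans ?_
        calc m / (8 * N) ≤ m / 1 := by gcongr; linarith
          _ ≤ ε := by rw [div_one]; exact min_le_left _ _
      · refine hr3.trans ?_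
        have : m ≤ ε := min_le_left _ _
        linarith

/-- the data from `exists_letters` that we need here -/
def FarOut (F : ℕ → (H →L[ℂ] H)) : Prop :=
  ∀ (S : Finset H) (n : ℕ) (ε : ℝ), 0 < ε → ∃ v : H,
        (∀ i < n, ∀ j < n, ‖⟪F i v, F j v⟫_ℂ - (if i = j then 1 else 0)‖ ≤ ε) ∧
        ∀ s ∈ S, ∀ i < n, ‖⟪s, F i v⟫_ℂ‖ ≤ ε

lemma fill_block {F : ℕ → (H →L[ℂ] H)} (hF : FarOut F) (hF0 : F 0 = 1) (k : ℕ) (s : PSys H)
    (q : ℕ → ℤ) (hq : ∀ i < k + 1, q i ∉ s.dom) (hinj : ∀ i < k + 1, ∀ j < k + 1, q i = q j → i = j)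
    {ε : ℝ} (hε : 0 < ε) :
    ∃ t : PSys H, s.le t ∧ (∀ i, i ∈ t.dom ↔ i ∈ s.dom ∨ ∃ j < k + 1, i = q j) ∧
      ∀ j < k + 1, ‖F j (t.val (q 0)) - t.val (q j)‖ ≤ ε := by
  classical
  set C : ℝ := 1 + ∑ j ∈ Finset.range (k + 1), ‖F j‖ with hC
  have hCpos : 0 < C := by
    have : 0 ≤ ∑ j ∈ Finset.range (k + 1), ‖F j‖ := Finset.sum_nonneg fun _ _ => norm_nonneg _
    linarith
  obtain ⟨δ, hδ, h⟩ := fill (k + 1) s q hq hinj (ε / C) (by positivity)
  obtain ⟨v, hv1, hv2⟩ := hF (s.dom.image s.val) (k + 1) δ hδ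
  obtain ⟨t, ht1, ht2, ht3⟩ := h (fun j => F j v) hv1 (fun i hi j hj =>
    hv2 _ (Finset.mem_image_of_mem _ hi) j hj)
  refine ⟨t, ht1, ht2, ?_⟩
  intro j hj
  have h0 : ‖t.val (q 0) - v‖ ≤ ε / C := by
    have := ht3 0 (Nat.succ_pos k)
    simpa [hF0] using this
  have h1 : F j (t.val (q 0)) - t.val (q j) = F j (t.val (q 0) - v) - (t.val (q j) - F j v) := by
    rw [map_sub]; abel
  rw [h1]
  refine (norm_sub_le _ _).trans ?_
  have h2 : ‖F j (t.val (q 0) - v)‖ ≤ ‖F j‖ * (ε / C) :=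
    ((F j).le_opNorm _).trans (mul_le_mul_of_nonneg_left h0 (norm_nonneg _))
  have h3 := ht3 j hj
  have h4 : ‖F j‖ ≤ ∑ j ∈ Finset.range (k + 1), ‖F j‖ :=
    Finset.single_le_sum (f := fun j => ‖F j‖) (fun _ _ => norm_nonneg _) (Finset.mem_range.2 hj)
  calc ‖F j (t.val (q 0) - v)‖ + ‖t.val (q j) - F j v‖ ≤ ‖F j‖ * (ε / C) + ε / C := by
        exact add_le_add h2 h3
    _ = (‖F j‖ + 1) * (ε / C) := by ring
    _ ≤ C * (ε / C) := by
        apply mul_le_mul_of_nonneg_right _ (by positivity)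
        rw [hC]; linarith
    _ = ε := by field_simp

/-! ### positions -/

/-- position of the `j`-th child of `q` -/
def kap (K : ℤ) (q : ℤ) (j : ℕ) : ℤ := K * ((Encodable.encode (q, j) : ℕ) + 1)

lemma kap_inj {K : ℤ} (hK : 0 < K) {q q' : ℤ} {j j' : ℕ} (h : kap K q j = kap K q' j') :
    q = q' ∧ j = j' := by
  unfold kap at h
  have h1 := mul_left_cancel₀ hK.ne' h
  have h2 : (Encodable.encode (q, j) : ℕ) = Encodable.encode (q', j') := by
    have : ((Encodable.encode (q, j) : ℕ) : ℤ) = ((Encodable.encode (q', j') : ℕ) : ℤ) := by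
      linarith
    exact_mod_cast this
  have h3 := Encodable.encode_injective h2
  exact ⟨congrArg Prod.fst h3, congrArg Prod.snd h3⟩

lemma kap_ge {K : ℤ} (hK : 0 < K) (q : ℤ) (j : ℕ) : K ≤ kap K q j := by
  unfold kap
  have : (0:ℤ) ≤ (Encodable.encode (q, j) : ℕ) := by positivity
  nlinarith

/-- the nodes to be treated at stage `k` -/
noncomputable def Qset (K : ℤ) (k : ℕ) : ℕ → Finset ℤ
  | 0 => (Finset.Icc (-(k:ℤ)) k).image (fun w => w - K)
  | (i + 1) => Qset K k i ∪ ((Qset K k i ×ˢ Finset.Icc 1 k) ×ˢ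
      ((Finset.Icc (-(k:ℤ)) k).filter (fun w => w ≠ 0))).image
        (fun p => p.2 + kap K p.1.1 p.1.2)

lemma Qset_prop {K : ℤ} {k : ℕ} {B : ℤ} (hB : 0 ≤ B) (hK : B + k < K) :
    ∀ i, ∀ q ∈ Qset K k i, B < |q| ∧ ∀ q' j', q ≠ kap K q' j' := by
  have hK0 : 0 < K := by
    have : (0:ℤ) ≤ k := by positivity
    linarith
  intro i
  induction i with
  | zero =>
    intro q hq
    simp only [Qset, Finset.mem_image, Finset.mem_Icc] at hq
    obtain ⟨w, ⟨hw1, hw2⟩, rfl⟩ := hq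
    constructor
    · rw [abs_of_neg (by linarith)]; linarith
    · intro q' j' h
      have := kap_ge hK0 q' j'
      linarith
  | succ i ih =>
    intro q hq
    simp only [Qset, Finset.mem_union, Finset.mem_image, Finset.mem_product, Finset.mem_filter,
      Finset.mem_Icc] at hq
    rcases hq with hq | ⟨⟨⟨q1, j1⟩, w⟩, ⟨⟨-, -⟩, ⟨hw1, hw2⟩, hw0⟩, rfl⟩
    · exact ih q hq
    · constructor
      · have := kap_ge hK0 q1 j1
        simp only
        rw [abs_of_pos (by linarith)]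
        linarith
      · intro q' j' h
        simp only at h hw1 hw2 hw0
        unfold kap at h
        set c : ℤ := ((Encodable.encode (q1, j1) : ℕ) : ℤ)
        set c' : ℤ := ((Encodable.encode (q', j') : ℕ) : ℤ)
        have hw : w = K * (c' - c) := by linarith
        have hcc : c' - c = 0 := by
          by_contra hne
          have h1 : 1 ≤ |c' - c| := Int.one_le_abs hne
          have h2 : |w| = K * |c' - c| := by rw [hw, abs_mul, abs_of_pos hK0]
          have h3 : |w| ≤ k := abs_le.2 ⟨hw1, hw2⟩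
          nlinarith
        apply hw0
        rw [hw, hcc, mul_zero]

lemma fill_many {F : ℕ → (H →L[ℂ] H)} (hF : FarOut F) (hF0 : F 0 = 1) (k : ℕ) {K : ℤ}
    (hK : 0 < K) {ε : ℝ} (hε : 0 < ε) (s : PSys H) (hs : ∀ q j, kap K q j ∉ s.dom)
    (𝒬 : Finset ℤ) (h1 : ∀ q ∈ 𝒬, q ∉ s.dom) (h2 : ∀ q ∈ 𝒬, ∀ q' j', q ≠ kap K q' j') :
    ∃ t : PSys H, s.le t ∧
      (∀ i ∈ t.dom, i ∈ s.dom ∨ i ∈ 𝒬 ∨ ∃ q ∈ 𝒬, ∃ j, i = kap K q j) ∧
      ∀ q ∈ 𝒬, q ∈ t.dom ∧ ∀ j, 1 ≤ j → j ≤ k → kap K q j ∈ t.dom ∧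
        ‖F j (t.val q) - t.val (kap K q j)‖ ≤ ε := by
  classical
  induction 𝒬 using Finset.induction_on with
  | empty => exact ⟨s, s.le_refl, fun i hi => Or.inl hi, by simp⟩
  | insert q 𝒬 hq ih =>
    obtain ⟨t, ht1, ht2, ht3⟩ := ih (fun p hp => h1 p (Finset.mem_insert_of_mem hp))
      (fun p hp => h2 p (Finset.mem_insert_of_mem hp))
    have hqq := h2 q (Finset.mem_insert_self _ _)
    let p : ℕ → ℤ := fun j => if j = 0 then q else kap K q j
    have hp0 : p 0 = q := by simp [p]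
    have hpj : ∀ j, 1 ≤ j → p j = kap K q j := fun j hj => by
      simp only [p]; rw [if_neg (by omega)]
    obtain ⟨r, hr1, hr2, hr3⟩ := fill_block hF hF0 k t p (by
        intro i _
        rcases Nat.eq_zero_or_pos i with rfl | hi
        · rw [hp0]
          intro hmem
          rcases ht2 q hmem with h | h | ⟨q', hq', j, h⟩
          · exact h1 q (Finset.mem_insert_self _ _) h
          · exact hq h
          · exact hqq _ _ h
        · rw [hpj i hi]
          intro hmem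
          rcases ht2 _ hmem with h | h | ⟨q', hq', j, h⟩
          · exact hs _ _ h
          · exact h2 _ (Finset.mem_insert_of_mem h) _ _ rfl
          · have := (kap_inj hK h).1
            exact hq (this ▸ hq')) (by
        intro i _ j _ h
        rcases Nat.eq_zero_or_pos i with rfl | hi <;> rcases Nat.eq_zero_or_pos j with rfl | hj
        · rfl
        · rw [hp0, hpj j hj] at h; exact absurd h (hqq _ _)
        · rw [hp0, hpj i hi] at h; exact absurd h.symm (hqq _ _)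
        · rw [hpj i hi, hpj j hj] at h; exact (kap_inj hK h).2) hε
    refine ⟨r, PSys.le_trans ht1 hr1, ?_, ?_⟩
    · intro i hi
      rcases (hr2 i).1 hi with h | ⟨j, hj, h⟩
      · rcases ht2 i h with h | h | ⟨q', hq', j, h⟩
        · exact Or.inl h
        · exact Or.inr (Or.inl (Finset.mem_insert_of_mem h))
        · exact Or.inr (Or.inr ⟨q', Finset.mem_insert_of_mem hq', j, h⟩)
      · rcases Nat.eq_zero_or_pos j with rfl | hj'
        · rw [hp0] at h
          exact Or.inr (Or.inl (h ▸ Finset.mem_insert_self _ _))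
        · rw [hpj j hj'] at h
          exact Or.inr (Or.inr ⟨q, Finset.mem_insert_self _ _, j, h⟩)
    · intro q' hq'
      rcases Finset.mem_insert.1 hq' with rfl | hq'
      · refine ⟨(hr2 _).2 (Or.inr ⟨0, Nat.succ_pos k, hp0.symm⟩), ?_⟩
        intro j hj1 hj2
        refine ⟨(hr2 _).2 (Or.inr ⟨j, by omega, (hpj j hj1).symm⟩), ?_⟩
        have := hr3 j (by omega)
        rw [hp0, hpj j hj1] at this
        exact this
      · obtain ⟨h3, h4⟩ := ht3 q' hq'
        refine ⟨hr1.1 h3, ?_⟩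
        intro j hj1 hj2
        obtain ⟨h5, h6⟩ := h4 j hj1 hj2
        refine ⟨hr1.1 h5, ?_⟩
        rw [hr1.2 _ h3, hr1.2 _ h5]
        exact h6

/-- the tree requirement -/
def TreeReq (F : ℕ → (H →L[ℂ] H)) (k : ℕ) (t : PSys H) : Prop :=
  ∃ K : ℤ, 2 * (k : ℤ) < K ∧ ∀ q ∈ Qset K k k, q ∈ t.dom ∧ ∀ j, 1 ≤ j → j ≤ k →
    kap K q j ∈ t.dom ∧ ‖F j (t.val q) - t.val (kap K q j)‖ ≤ 1 / ((k : ℝ) + 1)

lemma exists_tree {F : ℕ → (H →L[ℂ] H)} (hF : FarOut F) (hF0 : F 0 = 1) (k : ℕ) (s : PSys H) :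
    ∃ t : PSys H, s.le t ∧ TreeReq F k t := by
  classical
  set B : ℤ := ∑ i ∈ s.dom, |i| with hB
  have hB0 : 0 ≤ B := Finset.sum_nonneg fun _ _ => abs_nonneg _
  have hBi : ∀ i ∈ s.dom, |i| ≤ B := fun i hi =>
    Finset.single_le_sum (f := fun i : ℤ => |i|) (fun _ _ => abs_nonneg _) hi
  set K : ℤ := B + 2 * k + 1 with hK
  have hk : (0:ℤ) ≤ k := by positivity
  have hK0 : 0 < K := by linarith
  have hprop := Qset_prop (K := K) (k := k) hB0 (by linarith) k
  obtain ⟨t, ht1, -, ht3⟩ := fill_many hF hF0 k hK0 (ε := 1 / ((k : ℝ) + 1)) (by positivity) s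
    (by
      intro q j hmem
      have h1 := hBi _ hmem
      have h2 := kap_ge hK0 q j
      rw [abs_of_pos (by linarith)] at h1
      linarith) (Qset K k k) (by
      intro q hq hmem
      have h1 := hBi _ hmem
      have h2 := (hprop q hq).1
      linarith) (fun q hq => (hprop q hq).2)
  exact ⟨t, ht1, K, by linarith, ht3⟩

lemma TreeReq.mono {F : ℕ → (H →L[ℂ] H)} {k : ℕ} {s t : PSys H} (h : TreeReq F k s)
    (hst : s.le t) : TreeReq F k t := by
  obtain ⟨K, hK, h⟩ := h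
  refine ⟨K, hK, fun q hq => ?_⟩
  obtain ⟨h1, h2⟩ := h q hq
  refine ⟨hst.1 h1, fun j hj1 hj2 => ?_⟩
  obtain ⟨h3, h4⟩ := h2 j hj1 hj2
  refine ⟨hst.1 h3, ?_⟩
  rw [hst.2 _ h1, hst.2 _ h3]
  exact h4

lemma exists_pos {F : ℕ → (H →L[ℂ] H)} (hF : FarOut F) (hF0 : F 0 = 1) (q : ℤ) (s : PSys H) :
    ∃ t : PSys H, s.le t ∧ q ∈ t.dom := by
  by_cases hq : q ∈ s.dom
  · exact ⟨s, s.le_refl, hq⟩
  · obtain ⟨t, ht1, ht2, -⟩ := fill_block hF hF0 0 s (fun _ => q) (fun _ _ => hq)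
      (fun i hi j hj _ => by omega) (ε := 1) one_pos
    exact ⟨t, ht1, (ht2 q).2 (Or.inr ⟨0, Nat.one_pos, rfl⟩)⟩

lemma exists_span (h : H) (s : PSys H) :
    ∃ t : PSys H, s.le t ∧ h ∈ Submodule.span ℂ (t.val '' (t.dom : Set ℤ)) := by
  classical
  set z := h - ∑ j ∈ s.dom, ⟪s.val j, h⟫_ℂ • s.val j with hz
  have hsum : ∀ t : PSys H, s.le t → ∑ j ∈ s.dom, ⟪s.val j, h⟫_ℂ • s.val j ∈
      Submodule.span ℂ (t.val '' (t.dom : Set ℤ)) := by
    intro t ht
    apply Submodule.sum_mem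
    intro i hi
    apply Submodule.smul_mem
    apply Submodule.subset_span
    exact ⟨i, ht.1 hi, ht.2 i hi⟩
  by_cases hz0 : z = 0
  · refine ⟨s, s.le_refl, ?_⟩
    rw [hz, sub_eq_zero] at hz0
    rw [hz0]
    exact hsum s s.le_refl
  · have hzpos : 0 < ‖z‖ := norm_pos_iff.2 hz0
    obtain ⟨q, hq⟩ := Infinite.exists_notMem_finset s.dom
    obtain ⟨t, ht1, ht2, ht3⟩ := extend_one s hq (y := ((‖z‖⁻¹ : ℝ) : ℂ) • z) (by
      rw [norm_smul, Complex.norm_real, norm_inv, norm_norm, inv_mul_cancel₀ hzpos.ne']) (by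
      intro i hi
      rw [inner_smul_right, hz, resid_orth s h hi, mul_zero])
    refine ⟨t, ht1, ?_⟩
    have h1 : z = ((‖z‖ : ℝ) : ℂ) • t.val q := by
      rw [ht3, smul_smul, ← Complex.ofReal_mul, mul_inv_cancel₀ hzpos.ne']
      simp
    have h2 : h = z + ∑ j ∈ s.dom, ⟪s.val j, h⟫_ℂ • s.val j := by rw [hz]; abel
    rw [h2]
    apply Submodule.add_mem _ _ (hsum t ht1)
    rw [h1]
    apply Submodule.smul_mem
    apply Submodule.subset_span
    exact ⟨q, by rw [ht2]; simp, rfl⟩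

/-- The generic basis. -/
theorem exists_generic [TopologicalSpace.SeparableSpace H] {F : ℕ → (H →L[ℂ] H)} (hF : FarOut F)
    (hF0 : F 0 = 1) :
    ∃ u : HilbertBasis ℤ ℂ H, ∀ k : ℕ, ∃ K : ℤ, 2 * (k : ℤ) < K ∧ ∀ q ∈ Qset K k k,
      ∀ j, 1 ≤ j → j ≤ k → ‖F j (u q) - u (kap K q j)‖ ≤ 1 / ((k : ℝ) + 1) := by
  classical
  let hseq : ℕ → H := TopologicalSpace.denseSeq H
  have hdense : DenseRange hseq := TopologicalSpace.denseRange_denseSeq H
  have step : ∀ (k : ℕ) (s : PSys H), ∃ t : PSys H, s.le t ∧ ((k : ℤ) ∈ t.dom ∧ (-(k:ℤ)) ∈ t.dom) ∧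
      hseq k ∈ Submodule.span ℂ (t.val '' (t.dom : Set ℤ)) ∧ TreeReq F k t := by
    intro k s
    obtain ⟨t1, h1, h1'⟩ := exists_pos hF hF0 k s
    obtain ⟨t2, h2, h2'⟩ := exists_pos hF hF0 (-(k:ℤ)) t1
    obtain ⟨t3, h3, h3'⟩ := exists_tree hF hF0 k t2
    obtain ⟨t4, h4, h4'⟩ := exists_span (hseq k) t3
    exact ⟨t4, PSys.le_trans (PSys.le_trans (PSys.le_trans h1 h2) h3) h4,
      ⟨h4.1 (h3.1 (h2.1 h1')), h4.1 (h3.1 h2')⟩, h4', h3'.mono h4⟩
  choose nxt hn1 hn2 hn3 hn4 using step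
  let emp : PSys H := ⟨∅, fun _ => 0, by simp⟩
  let S : ℕ → PSys H := fun n => Nat.rec emp (fun k s => nxt k s) n
  have hS : ∀ n, S (n + 1) = nxt n (S n) := fun n => rfl
  have hmono1 : ∀ n m, n ≤ m → (S n).le (S m) := by
    intro n m hnm
    induction m, hnm using Nat.le_induction with
    | base => exact PSys.le_refl _
    | succ m hm ih => exact PSys.le_trans ih (by rw [hS]; exact hn1 _ _)
  have hmem : ∀ i : ℤ, i ∈ (S (i.natAbs + 1)).dom := by
    intro i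
    rw [hS]
    rcases Int.natAbs_eq i with h | h
    · have := (hn2 i.natAbs (S i.natAbs)).1
      rwa [← h] at this
    · have := (hn2 i.natAbs (S i.natAbs)).2
      rwa [← h] at this
  let u : ℤ → H := fun i => (S (i.natAbs + 1)).val i
  have hu : ∀ n i, i ∈ (S n).dom → u i = (S n).val i := by
    intro n i hi
    rcases le_total n (i.natAbs + 1) with h | h
    · exact (hmono1 _ _ h).2 i hi
    · exact ((hmono1 _ _ h).2 i (hmem i)).symm
  have horth : Orthonormal ℂ u := by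
    rw [orthonormal_iff_ite]
    intro i j
    have h1 := (hmono1 _ (max (i.natAbs + 1) (j.natAbs + 1)) (le_max_left _ _)).1 (hmem i)
    have h2 := (hmono1 _ (max (i.natAbs + 1) (j.natAbs + 1)) (le_max_right _ _)).1 (hmem j)
    rw [hu _ i h1, hu _ j h2]
    exact (S _).orth i h1 j h2
  have hspan : ∀ k, hseq k ∈ Submodule.span ℂ (Set.range u) := by
    intro k
    have h1 := hn3 k (S k)
    rw [← hS] at h1
    refine Submodule.span_mono ?_ h1
    rintro _ ⟨i, hi, rfl⟩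
    exact ⟨i, hu (k + 1) i hi⟩
  have htop : ⊤ ≤ (Submodule.span ℂ (Set.range u)).topologicalClosure := by
    rw [top_le_iff, ← Submodule.dense_iff_topologicalClosure_eq_top]
    exact hdense.mono (by rintro _ ⟨k, rfl⟩; exact hspan k)
  refine ⟨HilbertBasis.mk horth htop, ?_⟩
  intro k
  have hT := hn4 k (S k)
  rw [← hS] at hT
  obtain ⟨K, hK, hT⟩ := hT
  refine ⟨K, hK, ?_⟩
  intro q hq j hj1 hj2
  obtain ⟨h1, h2⟩ := hT q hq
  obtain ⟨h3, h4⟩ := h2 j hj1 hj2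
  rw [HilbertBasis.coe_mk]
  rw [hu (k + 1) q h1, hu (k + 1) _ h3]
  exact h4

end H905Tri
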