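import Mathlib
import Pool.Agent.H905R2.Tri1
import Pool.Agent.H905R2.Tri4

/-!
# Asymptotic symbols (helper905, for MP_690138_an)
-/

set_option autoImplicit false

open scoped InnerProductSpace ComplexConjugate
open Filter Topology
set_option linter.unusedSectionVars false

namespace H905Tri

variable {H : Type*} [NormedAddCommGroup H] [InnerProductSpace ℂ H] [CompleteSpace H]

abbrev Path := ℤ × List (ℕ × ℤ)

def posL (K w : ℤ) : List (ℕ × ℤ) → ℤ
  | [] => w - K
  | (x :: L) => x.2 + kap K (posL K w L) x.1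

def pos (K : ℤ) (p : Path) : ℤ := posL K p.1 p.2

def Bdd (k : ℕ) (p : Path) : Prop :=
  |p.1| ≤ k ∧ p.2.length ≤ k ∧ ∀ x ∈ p.2, x.1 ≤ k ∧ |x.2| ≤ k

def Glimm (p : Path) : Prop := ∀ x ∈ p.2, 1 ≤ x.1 ∧ x.2 ≠ 0

lemma eventually_Bdd (p : Path) : ∀ᶠ k : ℕ in atTop, Bdd k p := by
  classical
  have h1 : ∀ w : ℤ, ∀ᶠ k : ℕ in atTop, |w| ≤ k := by
    intro w
    filter_upwards [eventually_ge_atTop w.natAbs] with k hk
    rw [Int.abs_eq_natAbs]; exact_mod_cast hk
  have h2 : ∀ᶠ k : ℕ in atTop, ∀ x ∈ p.2.toFinset, x.1 ≤ k ∧ |x.2| ≤ k := by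
    rw [Filter.eventually_all_finset]
    intro x _
    exact (eventually_ge_atTop x.1).and (h1 x.2)
  filter_upwards [h1 p.1, eventually_ge_atTop p.2.length, h2] with k a b c
  exact ⟨a, b, fun x hx => c x (List.mem_toFinset.2 hx)⟩

lemma Qset_mono_succ (K : ℤ) (k i : ℕ) : Qset K k i ⊆ Qset K k (i + 1) := by
  intro q hq
  simp only [Qset, Finset.mem_union]
  exact Or.inl hq

lemma Qset_mono (K : ℤ) (k : ℕ) {i j : ℕ} (h : i ≤ j) : Qset K k i ⊆ Qset K k j := by
  induction j, h using Nat.le_induction with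
  | base => exact Finset.Subset.refl _
  | succ j hj ih => exact ih.trans (Qset_mono_succ K k j)

lemma posL_mem_Qset (K : ℤ) (k : ℕ) {w : ℤ} (hw : |w| ≤ k) :
    ∀ L : List (ℕ × ℤ), (∀ x ∈ L, x.1 ≤ k ∧ |x.2| ≤ k) → (∀ x ∈ L, 1 ≤ x.1 ∧ x.2 ≠ 0) →
      posL K w L ∈ Qset K k L.length := by
  intro L
  induction L with
  | nil =>
    intro _ _
    simp only [posL, List.length_nil, Qset, Finset.mem_image, Finset.mem_Icc]
    exact ⟨w, abs_le.1 hw, rfl⟩
  | cons x L ih =>
    intro h1 h2
    have h3 := ih (fun y hy => h1 y (List.mem_cons_of_mem _ hy))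
      (fun y hy => h2 y (List.mem_cons_of_mem _ hy))
    have hx1 := h1 x List.mem_cons_self
    have hx2 := h2 x List.mem_cons_self
    simp only [posL, List.length_cons, Qset, Finset.mem_union, Finset.mem_image,
      Finset.mem_product, Finset.mem_filter, Finset.mem_Icc]
    right
    exact ⟨((posL K w L, x.1), x.2), ⟨⟨h3, hx2.1, hx1.1⟩, abs_le.1 hx1.2, hx2.2⟩, rfl⟩

lemma pos_mem_Qset (K : ℤ) (k : ℕ) {p : Path} (hb : Bdd k p) (hg : Glimm p) :
    pos K p ∈ Qset K k k :=
  Qset_mono K k hb.2.1 (posL_mem_Qset K k hb.1 p.2 hb.2.2 hg)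

lemma posL_inj {K : ℤ} {k : ℕ} (hK : 2 * (k : ℤ) < K) {w w' : ℤ} (hw : |w| ≤ k) (hw' : |w'| ≤ k) :
    ∀ L L' : List (ℕ × ℤ), (∀ x ∈ L, x.1 ≤ k ∧ |x.2| ≤ k) → (∀ x ∈ L', x.1 ≤ k ∧ |x.2| ≤ k) →
      posL K w L = posL K w' L' → w = w' ∧ L = L' := by
  have hk : (0:ℤ) ≤ k := by positivity
  have hK0 : 0 < K := by linarith
  have hwk := abs_le.1 hw
  have hwk' := abs_le.1 hw'
  intro L
  induction L with
  | nil =>
    intro L' _ hL' h
    cases L' with
    | nil => simp only [posL] at h; exact ⟨by linarith, rfl⟩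
    | cons x L' =>
      exfalso
      simp only [posL] at h
      have h1 := kap_ge hK0 (posL K w' L') x.1
      have h2 := abs_le.1 (hL' x List.mem_cons_self).2
      linarith [hwk.2, h2.1]
  | cons x L ih =>
    intro L' hL hL' h
    cases L' with
    | nil =>
      exfalso
      simp only [posL] at h
      have h1 := kap_ge hK0 (posL K w L) x.1
      have h2 := abs_le.1 (hL x List.mem_cons_self).2
      linarith [hwk'.2, h2.1]
    | cons x' L' =>
      simp only [posL] at h
      have h2 := abs_le.1 (hL x List.mem_cons_self).2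
      have h3 := abs_le.1 (hL' x' List.mem_cons_self).2
      have hkk : kap K (posL K w L) x.1 = kap K (posL K w' L') x'.1 := by
        unfold kap at h ⊢
        set c : ℤ := ((Encodable.encode (posL K w L, x.1) : ℕ) : ℤ)
        set c' : ℤ := ((Encodable.encode (posL K w' L', x'.1) : ℕ) : ℤ)
        have hcc : c' - c = 0 := by
          by_contra hne
          have h4 : 1 ≤ |c' - c| := Int.one_le_abs hne
          have h5 : x.2 - x'.2 = K * (c' - c) := by linarith
          have h6 : |x.2 - x'.2| = K * |c' - c| := by rw [h5, abs_mul, abs_of_pos hK0]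
          have h7 : |x.2 - x'.2| ≤ 2 * k := abs_le.2 ⟨by linarith [h2.1, h3.2], by linarith [h2.2, h3.1]⟩
          nlinarith
        have : c' = c := by linarith
        rw [this]
      obtain ⟨h8, h9⟩ := kap_inj hK0 hkk
      obtain ⟨h10, h11⟩ := ih L' (fun y hy => hL y (List.mem_cons_of_mem _ hy))
        (fun y hy => hL' y (List.mem_cons_of_mem _ hy)) h8
      have h12 : x.2 = x'.2 := by rw [hkk] at h; linarith
      exact ⟨h10, by rw [h11, Prod.ext h9 h12]⟩

lemma pos_inj {K : ℤ} {k : ℕ} (hK : 2 * (k : ℤ) < K) {p p' : Path} (h : Bdd k p) (h' : Bdd k p')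
    (he : pos K p = pos K p') : p = p' := by
  obtain ⟨h1, h2⟩ := posL_inj hK h.1 h'.1 p.2 p'.2 h.2.2 h'.2.2 he
  exact Prod.ext h1 h2

/-- the generic data -/
structure Gen (F : ℕ → (H →L[ℂ] H)) (u : HilbertBasis ℤ ℂ H) (K : ℕ → ℤ) : Prop where
  big : ∀ k : ℕ, 2 * (k : ℤ) < K k
  rel : ∀ k : ℕ, ∀ q ∈ Qset (K k) k k, ∀ j, 1 ≤ j → j ≤ k →
    ‖F j (u q) - u (kap (K k) q j)‖ ≤ 1 / ((k : ℝ) + 1)

variable {F : ℕ → (H →L[ℂ] H)} {u : HilbertBasis ℤ ℂ H} {K : ℕ → ℤ}

lemma Gen.rel' (hG : Gen F u K) {p : Path} (hp : Glimm p) {j : ℕ} (hj : 1 ≤ j) :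
    ∀ᶠ k : ℕ in atTop, ‖F j (u (pos (K k) p)) - u (kap (K k) (pos (K k) p) j)‖ ≤
      1 / ((k : ℝ) + 1) := by
  filter_upwards [eventually_Bdd p, eventually_ge_atTop j] with k hk hjk
  exact hG.rel k _ (pos_mem_Qset _ _ hk hp) j hj hjk

/-- the realisation of a finitely supported symbol at stage `k` -/
noncomputable def J (u : HilbertBasis ℤ ℂ H) (K : ℕ → ℤ) (k : ℕ) : (Path →₀ ℂ) →ₗ[ℂ] H :=
  Finsupp.linearCombination ℂ (fun p => u (pos (K k) p))

lemma J_coef (hG : Gen F u K) (c : Path →₀ ℂ) (p : Path) :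
    ∀ᶠ k : ℕ in atTop, ⟪u (pos (K k) p), J u K k c⟫_ℂ = c p := by
  classical
  have h1 : ∀ᶠ k : ℕ in atTop, ∀ p' ∈ c.support, Bdd k p' := by
    rw [Filter.eventually_all_finset]
    intro p' _; exact eventually_Bdd p'
  filter_upwards [h1, eventually_Bdd p] with k hk hp
  unfold J
  rw [Finsupp.linearCombination_apply, Finsupp.sum, inner_sum]
  have h2 : ∀ p' ∈ c.support, ⟪u (pos (K k) p), c p' • u (pos (K k) p')⟫_ℂ =
      if p = p' then c p' else 0 := by
    intro p' hp'
    rw [inner_smul_right, orthonormal_iff_ite.1 u.orthonormal]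
    by_cases hpp : p = p'
    · rw [if_pos hpp, if_pos (by rw [hpp]), mul_one]
    · rw [if_neg hpp, if_neg (fun h => hpp (pos_inj (hG.big k) hp (hk p' hp') h)), mul_zero]
  rw [Finset.sum_congr rfl h2, Finset.sum_ite_eq]
  split_ifs with h3
  · rfl
  · exact (Finsupp.notMem_support_iff.1 h3).symm

/-- `y` has symbol `φ`, supported in `Z`. -/
def HasSym (u : HilbertBasis ℤ ℂ H) (K : ℕ → ℤ) (Z : Path → Prop) (y : ℕ → H) (φ : Path → ℂ) :
    Prop :=
  ∀ δ : ℝ, 0 < δ → ∃ c : Path →₀ ℂ, (∀ p ∈ c.support, Z p) ∧ (∀ p, ‖c p - φ p‖ ≤ δ) ∧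
    ∀ᶠ k : ℕ in atTop, ‖y k - J u K k c‖ ≤ δ

lemma HasSym.mono {Z Z' : Path → Prop} {y : ℕ → H} {φ : Path → ℂ} (h : HasSym u K Z y φ)
    (hZ : ∀ p, Z p → Z' p) : HasSym u K Z' y φ := by
  intro δ hδ
  obtain ⟨c, h1, h2, h3⟩ := h δ hδ
  exact ⟨c, fun p hp => hZ p (h1 p hp), h2, h3⟩

lemma HasSym.zero (Z : Path → Prop) : HasSym u K Z (fun _ => (0 : H)) (fun _ => 0) := by
  intro δ hδ
  exact ⟨0, by simp, by simp [hδ.le], by simp [hδ.le]⟩

lemma HasSym.add {Z : Path → Prop} {y y' : ℕ → H} {φ φ' : Path → ℂ} (h : HasSym u K Z y φ)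
    (h' : HasSym u K Z y' φ') : HasSym u K Z (fun k => y k + y' k) (fun p => φ p + φ' p) := by
  classical
  intro δ hδ
  obtain ⟨c, h1, h2, h3⟩ := h (δ / 2) (by positivity)
  obtain ⟨c', h1', h2', h3'⟩ := h' (δ / 2) (by positivity)
  refine ⟨c + c', ?_, ?_, ?_⟩
  · intro p hp
    rcases Finset.mem_union.1 (Finsupp.support_add hp) with h | h
    · exact h1 p h
    · exact h1' p h
  · intro p
    have : (c + c') p - (φ p + φ' p) = (c p - φ p) + (c' p - φ' p) := by
      rw [Finsupp.add_apply]; ring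
    rw [this]
    refine (norm_add_le _ _).trans ?_
    linarith [h2 p, h2' p]
  · filter_upwards [h3, h3'] with k hk hk'
    have : y k + y' k - J u K k (c + c') = (y k - J u K k c) + (y' k - J u K k c') := by
      rw [map_add]; abel
    rw [this]
    refine (norm_add_le _ _).trans ?_
    linarith

lemma HasSym.smul {Z : Path → Prop} {y : ℕ → H} {φ : Path → ℂ} (z : ℂ) (h : HasSym u K Z y φ) :
    HasSym u K Z (fun k => z • y k) (fun p => z * φ p) := by
  intro δ hδ
  obtain ⟨c, h1, h2, h3⟩ := h (δ / (‖z‖ + 1)) (by positivity)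
  have hz : ∀ r : ℝ, 0 ≤ r → r ≤ δ / (‖z‖ + 1) → ‖z‖ * r ≤ δ := by
    intro r hr0 hr
    calc ‖z‖ * r ≤ (‖z‖ + 1) * r := by nlinarith [norm_nonneg z]
      _ ≤ (‖z‖ + 1) * (δ / (‖z‖ + 1)) := by gcongr
      _ = δ := by field_simp
  refine ⟨z • c, ?_, ?_, ?_⟩
  · intro p hp
    exact h1 p (Finsupp.support_smul hp)
  · intro p
    have : (z • c) p - z * φ p = z * (c p - φ p) := by
      rw [Finsupp.smul_apply, smul_eq_mul]; ring
    rw [this, norm_mul]
    exact hz _ (norm_nonneg _) (h2 p)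
  · filter_upwards [h3] with k hk
    have : z • y k - J u K k (z • c) = z • (y k - J u K k c) := by
      rw [map_smul, smul_sub]
    rw [this, norm_smul]
    exact hz _ (norm_nonneg _) hk

lemma HasSym.tendsto (hG : Gen F u K) {Z : Path → Prop} {y : ℕ → H} {φ : Path → ℂ}
    (h : HasSym u K Z y φ) (p : Path) :
    Tendsto (fun k => ⟪u (pos (K k) p), y k⟫_ℂ) atTop (𝓝 (φ p)) := by
  rw [Metric.tendsto_nhds]
  intro ε hε
  obtain ⟨c, h1, h2, h3⟩ := h (ε / 3) (by positivity)
  filter_upwards [h3, J_coef hG c p] with k hk hc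
  rw [dist_eq_norm]
  have : ⟪u (pos (K k) p), y k⟫_ℂ - φ p = ⟪u (pos (K k) p), y k - J u K k c⟫_ℂ + (c p - φ p) := by
    rw [inner_sub_right, hc]; ring
  rw [this]
  have h4 : ‖⟪u (pos (K k) p), y k - J u K k c⟫_ℂ‖ ≤ ε / 3 := by
    refine (norm_inner_le_norm _ _).trans ?_
    rw [u.orthonormal.1, one_mul]; exact hk
  calc _ ≤ _ := norm_add_le _ _
    _ < ε := by linarith [h2 p]

/-- the base symbol -/
noncomputable def sym0 (u : HilbertBasis ℤ ℂ H) (d : H →L[ℂ] H) : Path → ℂ
  | (w, []) => coef u d w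
  | (_, _ :: _) => 0

lemma HasSym.base {d : H →L[ℂ] H} (hd : d ∈ D u) :
    HasSym u K Glimm (fun k => d (u (pos (K k) (0, [])))) (sym0 u d) := by
  classical
  intro δ hδ
  obtain ⟨S, hS1, hS2⟩ := trunc hd hδ
  let c : Path →₀ ℂ := ∑ w ∈ S, Finsupp.single ((w, []) : Path) (coef u d w)
  have hc : ∀ p : Path, c p = if p.2 = [] ∧ p.1 ∈ S then coef u d p.1 else 0 := by
    rintro ⟨w, L⟩
    simp only [c, Finsupp.finset_sum_apply, Finsupp.single_apply]
    by_cases hL : L = []
    · subst hL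
      by_cases hw : w ∈ S
      · rw [Finset.sum_eq_single w]
        · simp [hw]
        · intro b _ hb; simp [hb]
        · intro h; exact absurd hw h
      · rw [Finset.sum_eq_zero]
        · simp [hw]
        · intro b hb
          rw [if_neg]
          intro h
          have := (Prod.ext_iff.1 h).1
          simp only at this
          exact hw (this ▸ hb)
    · rw [Finset.sum_eq_zero]
      · simp [hL]
      · intro b _
        rw [if_neg]
        intro h
        exact hL (Prod.ext_iff.1 h).2.symm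
  refine ⟨c, ?_, ?_, ?_⟩
  · rintro ⟨w, L⟩ hp
    rw [Finsupp.mem_support_iff, hc] at hp
    have : L = [] := by
      by_contra h
      simp [h] at hp
    subst this
    intro x hx
    simp at hx
  · rintro ⟨w, L⟩
    rw [hc]
    cases L with
    | nil =>
      simp only [sym0, true_and]
      by_cases hw : w ∈ S
      · simp [hw, hδ.le]
      · simp only [hw, if_false, zero_sub, norm_neg]
        exact hS1 w hw
    | cons x L => simp [sym0, hδ.le]
  · filter_upwards with k
    have h1 : J u K k c = ∑ w ∈ S, coef u d w • u (w + pos (K k) (0, [])) := by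
      simp only [c, map_sum]
      apply Finset.sum_congr rfl
      intro w _
      unfold J
      rw [Finsupp.linearCombination_single]
      congr 2
      simp [pos, posL]
      ring
    rw [h1]
    exact hS2 _

/-- one step of the symbol calculus -/
def stepSym (a : ℤ → ℂ) (m : ℕ → ℂ) (φ : Path → ℂ) : Path → ℂ
  | (_, []) => 0
  | (w, x :: L) => a x.2 * m x.1 * φ (w, L)

def stepZ (a : ℤ → ℂ) (Z : Path → Prop) : Path → Prop
  | (_, []) => False
  | (w, x :: L) => Z (w, L) ∧ 1 ≤ x.1 ∧ a x.2 ≠ 0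

lemma norm_coef_le (d : H →L[ℂ] H) (w : ℤ) : ‖coef u d w‖ ≤ ‖d‖ := by
  unfold coef
  refine (norm_inner_le_norm _ _).trans ?_
  rw [u.orthonormal.1, one_mul]
  have := d.le_opNorm (u 0)
  rwa [u.orthonormal.1, mul_one] at this

lemma HasSym.step (hG : Gen F u K) {Z : Path → Prop} (hZ : ∀ p, Z p → Glimm p) {y : ℕ → H}
    {φ : Path → ℂ} (h : HasSym u K Z y φ) {d : H →L[ℂ] H} (hd : d ∈ D u) (m : ℕ →₀ ℂ)
    (hm : m 0 = 0) :
    HasSym u K (stepZ (coef u d) Z)
      (fun k => d (Finsupp.linearCombination ℂ F m (y k))) (stepSym (coef u d) m φ) := by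
  classical
  intro δ hδ
  set b := Finsupp.linearCombination ℂ F m with hb
  set M : ℝ := ∑ j ∈ m.support, ‖m j‖ with hM
  have hM0 : 0 ≤ M := Finset.sum_nonneg fun _ _ => norm_nonneg _
  have hMj : ∀ j, ‖m j‖ ≤ M := by
    intro j
    by_cases hj : j ∈ m.support
    · exact Finset.single_le_sum (f := fun j => ‖m j‖) (fun _ _ => norm_nonneg _) hj
    · rw [Finsupp.notMem_support_iff.1 hj, norm_zero]; exact hM0
  set A : ℝ := ‖d‖ * ‖b‖ + ‖d‖ * M + 1 with hA
  have hA0 : 0 < A := by positivity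
  set δ1 : ℝ := min 1 (δ / (4 * A)) with hδ1
  have hδ1pos : 0 < δ1 := lt_min one_pos (by positivity)
  obtain ⟨c, hc1, hc2, hc3⟩ := h δ1 hδ1pos
  set X : ℝ := ∑ p ∈ c.support, ‖c p‖ with hX
  have hX0 : 0 ≤ X := Finset.sum_nonneg fun _ _ => norm_nonneg _
  have hXp : ∀ p, ‖c p‖ ≤ X := by
    intro p
    by_cases hp : p ∈ c.support
    · exact Finset.single_le_sum (f := fun p => ‖c p‖) (fun _ _ => norm_nonneg _) hp
    · rw [Finsupp.notMem_support_iff.1 hp, norm_zero]; exact hX0
  set η : ℝ := δ / (4 * (M * (X + 1) + 1)) with hη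
  have hη0 : 0 < η := by positivity
  have hηM : η * (M * (X + 1)) ≤ δ / 4 := by
    calc η * (M * (X + 1)) ≤ η * (M * (X + 1) + 1) := by
          apply mul_le_mul_of_nonneg_left _ hη0.le; linarith
      _ = δ / 4 := by rw [hη]; field_simp
  have hAδ : A * δ1 ≤ δ / 4 := by
    calc A * δ1 ≤ A * (δ / (4 * A)) := by
          apply mul_le_mul_of_nonneg_left (min_le_right _ _) hA0.le
      _ = δ / 4 := by field_simp
  obtain ⟨S, hS1, hS2⟩ := trunc hd hη0
  let c' : Path →₀ ℂ := ∑ p ∈ c.support, ∑ j ∈ m.support, ∑ w ∈ S,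
    Finsupp.single ((p.1, (j, w) :: p.2) : Path) (coef u d w * m j * c p)
  have hc' : ∀ (w : ℤ) (x : ℕ × ℤ) (L : List (ℕ × ℤ)), c' (w, x :: L) =
      if x.2 ∈ S then coef u d x.2 * m x.1 * c (w, L) else 0 := by
    rintro w ⟨j, w'⟩ L
    simp only [c', Finsupp.finset_sum_apply, Finsupp.single_apply]
    have hkey : ∀ p ∈ c.support, ∀ j' ∈ m.support, ∀ v ∈ S,
        (if ((p.1, (j', v) :: p.2) : Path) = (w, (j, w') :: L) then coef u d v * m j' * c p else 0)
          = if p = (w, L) then (if j' = j then (if v = w' then coef u d w' * m j * c (w, L) else 0)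
            else 0) else 0 := by
      rintro ⟨p1, p2⟩ _ j' _ v _
      by_cases h1 : p1 = w <;> by_cases h2 : p2 = L <;> by_cases h3 : j' = j <;>
        by_cases h4 : v = w' <;> simp [h1, h2, h3, h4]
    rw [Finset.sum_congr rfl fun p hp => Finset.sum_congr rfl fun j' hj' =>
      Finset.sum_congr rfl fun v hv => hkey p hp j' hj' v hv]
    by_cases hw' : w' ∈ S
    · rw [if_pos hw']
      by_cases hpL : (w, L) ∈ c.support
      · rw [Finset.sum_eq_single (w, L)]
        · by_cases hj : j ∈ m.support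
          · rw [Finset.sum_eq_single j]
            · rw [Finset.sum_eq_single w']
              · simp
              · intro b _ hb; simp [hb]
              · intro h; exact absurd hw' h
            · intro b _ hb; simp [hb]
            · intro h; exact absurd hj h
          · rw [Finsupp.notMem_support_iff.1 hj]; simp
        · intro b _ hb; simp [hb]
        · intro h; exact absurd hpL h
      · rw [Finsupp.notMem_support_iff.1 hpL]; simp
    · rw [if_neg hw']
      apply Finset.sum_eq_zero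
      intro p _
      apply Finset.sum_eq_zero
      intro j' _
      apply Finset.sum_eq_zero
      intro v hv
      have : v ≠ w' := fun h => hw' (h ▸ hv)
      simp [this]
  have hc'nil : ∀ w : ℤ, c' (w, []) = 0 := by
    intro w
    simp [c', Finsupp.finset_sum_apply, Finsupp.single_apply]
  refine ⟨c', ?_, ?_, ?_⟩
  · rintro ⟨w, L⟩ hp
    rw [Finsupp.mem_support_iff] at hp
    cases L with
    | nil => exact absurd (hc'nil w) hp
    | cons x L =>
      rw [hc'] at hp
      have h1 : x.2 ∈ S := by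
        by_contra hn; simp [hn] at hp
      rw [if_pos h1] at hp
      have h2 : coef u d x.2 ≠ 0 := fun h => hp (by rw [h]; ring)
      have h3 : m x.1 ≠ 0 := fun h => hp (by rw [h]; ring)
      have h4 : c (w, L) ≠ 0 := fun h => hp (by rw [h]; ring)
      refine ⟨hc1 _ (Finsupp.mem_support_iff.2 h4), ?_, h2⟩
      rcases Nat.eq_zero_or_pos x.1 with h0 | h0
      · rw [h0] at h3; exact absurd hm h3
      · exact h0
  · rintro ⟨w, L⟩
    cases L with
    | nil => rw [hc'nil]; simp [stepSym, hδ.le]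
    | cons x L =>
      rw [hc']
      simp only [stepSym]
      by_cases hx : x.2 ∈ S
      · rw [if_pos hx]
        have : coef u d x.2 * m x.1 * c (w, L) - coef u d x.2 * m x.1 * φ (w, L) =
            coef u d x.2 * m x.1 * (c (w, L) - φ (w, L)) := by ring
        rw [this, norm_mul, norm_mul]
        calc ‖coef u d x.2‖ * ‖m x.1‖ * ‖c (w, L) - φ (w, L)‖ ≤ ‖d‖ * M * δ1 := by
              apply mul_le_mul _ (hc2 _) (norm_nonneg _) (by positivity)
              exact mul_le_mul (norm_coef_le d _) (hMj _) (norm_nonneg _) (norm_nonneg _)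
          _ ≤ A * δ1 := by
              apply mul_le_mul_of_nonneg_right _ hδ1pos.le
              have : 0 ≤ ‖d‖ * ‖b‖ := by positivity
              rw [hA]; linarith
          _ ≤ δ := by linarith
      · rw [if_neg hx, zero_sub, norm_neg, norm_mul, norm_mul]
        have h1 : ‖φ (w, L)‖ ≤ X + 1 := by
          have h2 := hc2 (w, L)
          have h3 : ‖φ (w, L)‖ ≤ ‖c (w, L)‖ + ‖c (w, L) - φ (w, L)‖ := by
            have : φ (w, L) = c (w, L) - (c (w, L) - φ (w, L)) := by ring
            calc ‖φ (w, L)‖ = ‖c (w, L) - (c (w, L) - φ (w, L))‖ := by rw [← this]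
              _ ≤ _ := norm_sub_le _ _
          have h4 : δ1 ≤ 1 := min_le_left _ _
          linarith [hXp (w, L)]
        calc ‖coef u d x.2‖ * ‖m x.1‖ * ‖φ (w, L)‖ ≤ η * M * (X + 1) := by
              apply mul_le_mul _ h1 (norm_nonneg _) (by positivity)
              exact mul_le_mul (hS1 _ hx) (hMj _) (norm_nonneg _) hη0.le
          _ = η * (M * (X + 1)) := by ring
          _ ≤ δ := by linarith
  · -- the norm estimate
    have hrel : ∀ᶠ k : ℕ in atTop, ∀ p ∈ c.support, ∀ j ∈ m.support,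
        ‖F j (u (pos (K k) p)) - u (kap (K k) (pos (K k) p) j)‖ ≤ 1 / ((k : ℝ) + 1) := by
      rw [Filter.eventually_all_finset]
      intro p hp
      rw [Filter.eventually_all_finset]
      intro j hj
      apply hG.rel' (hZ p (hc1 p hp))
      rcases Nat.eq_zero_or_pos j with h0 | h0
      · rw [h0] at hj; exact absurd hm (Finsupp.mem_support_iff.1 hj)
      · exact h0
    have hsmall : ∀ᶠ k : ℕ in atTop, ‖d‖ * (X * M) * (1 / ((k : ℝ) + 1)) ≤ δ / 4 := by
      have h1 : Tendsto (fun k : ℕ => ‖d‖ * (X * M) * (1 / ((k : ℝ) + 1))) atTop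
          (𝓝 (‖d‖ * (X * M) * 0)) := tendsto_one_div_add_atTop_nhds_zero_nat.const_mul _
      rw [mul_zero] at h1
      exact h1.eventually (eventually_le_nhds (by positivity))
    filter_upwards [hc3, hrel, hsmall] with k hk1 hk2 hk3
    have hJc : J u K k c = ∑ p ∈ c.support, c p • u (pos (K k) p) := by
      unfold J; rw [Finsupp.linearCombination_apply]; rfl
    have hbv : ∀ v, b v = ∑ j ∈ m.support, m j • F j v := by
      intro v
      rw [hb, Finsupp.linearCombination_apply, Finsupp.sum, ContinuousLinearMap.sum_apply]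
      rfl
    set V : H := ∑ p ∈ c.support, ∑ j ∈ m.support, (m j * c p) • u (kap (K k) (pos (K k) p) j)
      with hV
    have e1 : ‖d (b (y k)) - d (b (J u K k c))‖ ≤ δ / 4 := by
      rw [← map_sub, ← map_sub]
      calc ‖d (b (y k - J u K k c))‖ ≤ ‖d‖ * (‖b‖ * ‖y k - J u K k c‖) :=
            (d.le_opNorm _).trans (mul_le_mul_of_nonneg_left (b.le_opNorm _) (norm_nonneg _))
        _ ≤ ‖d‖ * (‖b‖ * δ1) := by gcongr
        _ = ‖d‖ * ‖b‖ * δ1 := by ring
        _ ≤ A * δ1 := by
            apply mul_le_mul_of_nonneg_right _ hδ1pos.le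
            have : 0 ≤ ‖d‖ * M := by positivity
            rw [hA]; linarith
        _ ≤ δ / 4 := hAδ
    have e2 : ‖b (J u K k c) - V‖ ≤ X * M * (1 / ((k : ℝ) + 1)) := by
      have h1 : b (J u K k c) - V = ∑ p ∈ c.support, ∑ j ∈ m.support, (m j * c p) •
          (F j (u (pos (K k) p)) - u (kap (K k) (pos (K k) p) j)) := by
        rw [hJc, map_sum, hV, ← Finset.sum_sub_distrib]
        apply Finset.sum_congr rfl
        intro p _
        rw [map_smul, hbv, Finset.smul_sum, ← Finset.sum_sub_distrib]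
        apply Finset.sum_congr rfl
        intro j _
        rw [smul_sub, smul_smul, mul_comm (c p)]
      rw [h1]
      refine (norm_sum_le _ _).trans ?_
      rw [hX, Finset.sum_mul, Finset.sum_mul]
      apply Finset.sum_le_sum
      intro p hp
      refine (norm_sum_le _ _).trans ?_
      rw [hM, Finset.mul_sum, Finset.sum_mul]
      apply Finset.sum_le_sum
      intro j hj
      rw [norm_smul, norm_mul, mul_comm ‖m j‖]
      exact mul_le_mul_of_nonneg_left (hk2 p hp j hj) (by positivity)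
    have e3 : ‖d (b (J u K k c)) - d V‖ ≤ δ / 4 := by
      rw [← map_sub]
      calc ‖d (b (J u K k c) - V)‖ ≤ ‖d‖ * (X * M * (1 / ((k : ℝ) + 1))) :=
            (d.le_opNorm _).trans (mul_le_mul_of_nonneg_left e2 (norm_nonneg _))
        _ = ‖d‖ * (X * M) * (1 / ((k : ℝ) + 1)) := by ring
        _ ≤ δ / 4 := hk3
    have hJc' : J u K k c' = ∑ p ∈ c.support, ∑ j ∈ m.support, (m j * c p) • ∑ w ∈ S,
        coef u d w • u (w + kap (K k) (pos (K k) p) j) := by
      simp only [c', map_sum]
      apply Finset.sum_congr rfl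
      intro p _
      apply Finset.sum_congr rfl
      intro j _
      rw [Finset.smul_sum]
      apply Finset.sum_congr rfl
      intro w _
      unfold J
      rw [Finsupp.linearCombination_single, smul_smul]
      congr 1
      ring
    have e4 : ‖d V - J u K k c'‖ ≤ δ / 4 := by
      have h1 : d V - J u K k c' = ∑ p ∈ c.support, ∑ j ∈ m.support, (m j * c p) •
          (d (u (kap (K k) (pos (K k) p) j)) -
            ∑ w ∈ S, coef u d w • u (w + kap (K k) (pos (K k) p) j)) := by
        rw [hV, hJc', map_sum, ← Finset.sum_sub_distrib]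
        apply Finset.sum_congr rfl
        intro p _
        rw [map_sum, ← Finset.sum_sub_distrib]
        apply Finset.sum_congr rfl
        intro j _
        rw [map_smul, smul_sub]
      rw [h1]
      have h2 : ‖∑ p ∈ c.support, ∑ j ∈ m.support, (m j * c p) •
          (d (u (kap (K k) (pos (K k) p) j)) -
            ∑ w ∈ S, coef u d w • u (w + kap (K k) (pos (K k) p) j))‖ ≤ X * M * η := by
        refine (norm_sum_le _ _).trans ?_
        rw [hX, Finset.sum_mul, Finset.sum_mul]
        apply Finset.sum_le_sum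
        intro p hp
        refine (norm_sum_le _ _).trans ?_
        rw [hM, Finset.mul_sum, Finset.sum_mul]
        apply Finset.sum_le_sum
        intro j hj
        rw [norm_smul, norm_mul, mul_comm ‖m j‖]
        exact mul_le_mul_of_nonneg_left (hS2 _) (by positivity)
      refine h2.trans (le_trans ?_ hηM)
      have : X * M * η = η * (M * X) := by ring
      rw [this]
      apply mul_le_mul_of_nonneg_left _ hη0.le
      apply mul_le_mul_of_nonneg_left _ hM0
      linarith
    have : d (b (y k)) - J u K k c' = (d (b (y k)) - d (b (J u K k c))) +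
        (d (b (J u K k c)) - d V) + (d V - J u K k c') := by abel
    rw [this]
    refine (norm_add₃_le).trans ?_
    linarith

end H905Tri
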