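import Mathlib
import Pool.Agent.H905R2.Tri5

/-!
# Reduced words (helper905, for MP_690138_an)
-/

set_option autoImplicit false

open scoped InnerProductSpace ComplexConjugate TensorProduct
open Filter Topology
set_option linter.unusedSectionVars false

namespace H905Tri

section tensor

variable {V Y : Type*} [AddCommGroup V] [Module ℂ V] [AddCommGroup Y] [Module ℂ Y]
variable {Ξ Ξ' : Type*}

/-- evaluation of a tensor as a function of two variables -/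
noncomputable def evalT (f : V →ₗ[ℂ] (Ξ → ℂ)) (g : Y →ₗ[ℂ] (Ξ' → ℂ)) :
    V ⊗[ℂ] Y →ₗ[ℂ] (Ξ × Ξ' → ℂ) :=
  TensorProduct.lift (LinearMap.mk₂ ℂ (fun v y => fun p => f v p.1 * g y p.2)
    (fun v v' y => by ext p; simp [add_mul])
    (fun c v y => by ext p; simp [mul_assoc])
    (fun v y y' => by ext p; simp [mul_add])
    (fun c v y => by ext p; simp; ring))

lemma evalT_tmul (f : V →ₗ[ℂ] (Ξ → ℂ)) (g : Y →ₗ[ℂ] (Ξ' → ℂ)) (v : V) (y : Y) (p : Ξ × Ξ') :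
    evalT f g (v ⊗ₜ y) p = f v p.1 * g y p.2 := rfl

lemma evalT_injective {f : V →ₗ[ℂ] (Ξ → ℂ)} {g : Y →ₗ[ℂ] (Ξ' → ℂ)} (hf : ∀ v, f v = 0 → v = 0)
    (hg : ∀ y, g y = 0 → y = 0) (θ : V ⊗[ℂ] Y) (h : evalT f g θ = 0) : θ = 0 := by
  classical
  let ℬ := Module.Basis.ofVectorSpace ℂ V
  obtain ⟨c, rfl⟩ := TensorProduct.eq_repr_basis_left ℬ θ
  have h1 : ∀ i, c i = 0 := by
    intro i
    apply hg
    ext ξ'
    have h2 : f (∑ i ∈ c.support, g (c i) ξ' • ℬ i) = 0 := by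
      ext ξ
      have h3 := congrFun h (ξ, ξ')
      rw [Finsupp.sum, map_sum, Finset.sum_apply] at h3
      rw [map_sum, Finset.sum_apply]
      simp only [evalT_tmul] at h3
      refine (Finset.sum_congr rfl ?_).trans h3
      intro j _
      rw [map_smul, Pi.smul_apply, smul_eq_mul, mul_comm]
    have h4 := hf _ h2
    have h5 := (linearIndependent_iff'.1 ℬ.linearIndependent) c.support (fun i => g (c i) ξ') h4
    by_cases hi : i ∈ c.support
    · exact h5 i hi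
    · rw [Finsupp.notMem_support_iff.1 hi]; simp
  have : c = 0 := Finsupp.ext h1
  rw [this]; simp

end tensor

variable {H : Type*} [NormedAddCommGroup H] [InnerProductSpace ℂ H] [CompleteSpace H]
variable (F : ℕ → (H →L[ℂ] H)) (u : HilbertBasis ℤ ℂ H)

abbrev PairT (H : Type*) [NormedAddCommGroup H] [InnerProductSpace ℂ H] : Type _ :=
  (H →L[ℂ] H) × (Path → ℂ)

noncomputable def LF : (ℕ →₀ ℂ) →ₗ[ℂ] (H →L[ℂ] H) := Finsupp.linearCombination ℂ F

noncomputable def stepPair (d : H →L[ℂ] H) (m : ℕ →₀ ℂ) (x : PairT H) : PairT H :=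
  (d * LF F m * x.1, stepSym (coef u d) m x.2)

/-- pairs (operator, symbol) of reduced words with centred heads -/
noncomputable def PC (𝒜 : Submodule ℂ (ℕ →₀ ℂ)) : ℕ → Submodule ℂ (PairT H)
  | 0 => Submodule.span ℂ {z | ∃ d ∈ D u, z = (d, sym0 u d)}
  | (n + 1) => Submodule.span ℂ {z | ∃ d ∈ D u, coef u d 0 = 0 ∧ ∃ m ∈ 𝒜, m 0 = 0 ∧
      ∃ x ∈ PC 𝒜 n, z = stepPair F u d m x}

/-- pairs (operator, symbol) of reduced words -/
noncomputable def PA (𝒜 : Submodule ℂ (ℕ →₀ ℂ)) : ℕ → Submodule ℂ (PairT H)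
  | 0 => Submodule.span ℂ {z | ∃ d ∈ D u, z = (d, sym0 u d)}
  | (n + 1) => Submodule.span ℂ {z | ∃ d ∈ D u, ∃ m ∈ 𝒜, m 0 = 0 ∧
      ∃ x ∈ PC F u 𝒜 n, z = stepPair F u d m x}

variable {F u} {𝒜 : Submodule ℂ (ℕ →₀ ℂ)} {K : ℕ → ℤ}

lemma coef_add (d d' : H →L[ℂ] H) (w : ℤ) : coef u (d + d') w = coef u d w + coef u d' w := by
  unfold coef; rw [_root_.add_apply, inner_add_right]

lemma coef_smul (z : ℂ) (d : H →L[ℂ] H) (w : ℤ) : coef u (z • d) w = z * coef u d w := by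
  unfold coef; rw [_root_.smul_apply, inner_smul_right]

lemma coef_one_zero : coef u (1 : H →L[ℂ] H) 0 = 1 := by
  unfold coef
  show ⟪u 0, u 0⟫_ℂ = 1
  rw [orthonormal_iff_ite.1 u.orthonormal, if_pos rfl]

lemma PC_le_PA (n : ℕ) : PC F u 𝒜 n ≤ PA F u 𝒜 n := by
  cases n with
  | zero => exact le_refl _
  | succ n =>
    apply Submodule.span_mono
    rintro z ⟨d, hd, -, m, hm, hm0, x, hx, rfl⟩
    exact ⟨d, hd, m, hm, hm0, x, hx, rfl⟩

lemma PA_zero_fst {x : PairT H} (hx : x ∈ PA F u 𝒜 0) : x.1 ∈ D u ∧ x.2 = sym0 u x.1 := by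
  refine Submodule.span_induction ?_ ?_ ?_ ?_ hx
  · rintro z ⟨d, hd, rfl⟩; exact ⟨hd, rfl⟩
  · refine ⟨(D u).zero_mem, ?_⟩
    ext ⟨w, L⟩
    cases L <;> simp [sym0, coef]
  · rintro x y _ _ ⟨h1, h2⟩ ⟨h3, h4⟩
    refine ⟨(D u).add_mem h1 h3, ?_⟩
    ext ⟨w, L⟩
    rw [Prod.snd_add, h2, h4]
    cases L <;> simp [sym0, coef_add]
  · rintro c x _ ⟨h1, h2⟩
    refine ⟨(D u).smul_mem h1 c, ?_⟩
    ext ⟨w, L⟩
    rw [Prod.smul_snd, h2]
    cases L <;> simp [sym0, coef_smul]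

/-- asymptotics for centred pairs -/
lemma PC_hasSym (hG : Gen F u K) (n : ℕ) : ∀ x ∈ PC F u 𝒜 n,
    HasSym u K Glimm (fun k => x.1 (u (pos (K k) (0, [])))) x.2 := by
  induction n with
  | zero =>
    intro x hx
    refine Submodule.span_induction ?_ ?_ ?_ ?_ hx
    · rintro z ⟨d, hd, rfl⟩; exact HasSym.base hd
    · exact HasSym.zero _
    · intro x y _ _ h1 h2; exact h1.add h2
    · intro c x _ h; exact h.smul c
  | succ n ih =>
    intro x hx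
    refine Submodule.span_induction ?_ ?_ ?_ ?_ hx
    · rintro z ⟨d, hd, hd0, m, hm, hm0, x, hx, rfl⟩
      have h1 := HasSym.step hG (fun p hp => hp) (ih x hx) hd m hm0
      refine h1.mono ?_
      rintro ⟨w, L⟩ hp
      cases L with
      | nil => exact absurd hp id
      | cons y L =>
        obtain ⟨h2, h3, h4⟩ := hp
        intro y' hy'
        rcases List.mem_cons.1 hy' with rfl | hy'
        · refine ⟨h3, ?_⟩
          intro h0; rw [h0] at h4; exact h4 hd0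
        · exact h2 y' hy'
    · exact HasSym.zero _
    · intro x y _ _ h1 h2; exact h1.add h2
    · intro c x _ h; exact h.smul c

lemma PA_hasSym (hG : Gen F u K) (n : ℕ) : ∀ x ∈ PA F u 𝒜 n,
    HasSym u K (fun _ => True) (fun k => x.1 (u (pos (K k) (0, [])))) x.2 := by
  intro x hx
  cases n with
  | zero => exact (PC_hasSym (𝒜 := 𝒜) hG 0 x hx).mono fun _ _ => trivial
  | succ n =>
    refine Submodule.span_induction ?_ ?_ ?_ ?_ hx
    · rintro z ⟨d, hd, m, hm, hm0, x, hx, rfl⟩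
      exact (HasSym.step hG (fun p hp => hp) (PC_hasSym hG n x hx) hd m hm0).mono
        fun _ _ => trivial
    · exact HasSym.zero _
    · intro x y _ _ h1 h2; exact h1.add h2
    · intro c x _ h; exact h.smul c

lemma PC_depth (n : ℕ) : ∀ x ∈ PC F u 𝒜 n, ∀ p : Path, p.2.length ≠ n → x.2 p = 0 := by
  induction n with
  | zero =>
    intro x hx
    refine Submodule.span_induction ?_ ?_ ?_ ?_ hx
    · rintro z ⟨d, hd, rfl⟩ ⟨w, L⟩ hp
      cases L with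
      | nil => exact absurd rfl hp
      | cons y L => rfl
    · intro p _; rfl
    · intro x y _ _ h1 h2 p hp
      rw [Prod.snd_add, Pi.add_apply, h1 p hp, h2 p hp, add_zero]
    · intro c x _ h p hp
      rw [Prod.smul_snd, Pi.smul_apply, h p hp, smul_zero]
  | succ n ih =>
    intro x hx
    refine Submodule.span_induction ?_ ?_ ?_ ?_ hx
    · rintro z ⟨d, hd, hd0, m, hm, hm0, x, hx, rfl⟩ ⟨w, L⟩ hp
      cases L with
      | nil => rfl
      | cons y L =>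
        have : x.2 (w, L) = 0 := ih x hx (w, L) (by
          intro h; apply hp; simp [h])
        simp [stepPair, stepSym, this]
    · intro p _; rfl
    · intro x y _ _ h1 h2 p hp
      rw [Prod.snd_add, Pi.add_apply, h1 p hp, h2 p hp, add_zero]
    · intro c x _ h p hp
      rw [Prod.smul_snd, Pi.smul_apply, h p hp, smul_zero]

lemma PA_depth (n : ℕ) : ∀ x ∈ PA F u 𝒜 n, ∀ p : Path, p.2.length ≠ n → x.2 p = 0 := by
  cases n with
  | zero => exact PC_depth (F := F) (𝒜 := 𝒜) 0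
  | succ n =>
    intro x hx
    refine Submodule.span_induction ?_ ?_ ?_ ?_ hx
    · rintro z ⟨d, hd, m, hm, hm0, x, hx, rfl⟩ ⟨w, L⟩ hp
      cases L with
      | nil => rfl
      | cons y L =>
        have : x.2 (w, L) = 0 := PC_depth n x hx (w, L) (by
          intro h; apply hp; simp [h])
        simp [stepPair, stepSym, this]
    · intro p _; rfl
    · intro x y _ _ h1 h2 p hp
      rw [Prod.snd_add, Pi.add_apply, h1 p hp, h2 p hp, add_zero]
    · intro c x _ h p hp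
      rw [Prod.smul_snd, Pi.smul_apply, h p hp, smul_zero]

lemma PA_letter (n : ℕ) : ∀ x ∈ PA F u 𝒜 (n + 1), ∀ (w w' : ℤ) (L : List (ℕ × ℤ)),
    ∃ m ∈ 𝒜, m 0 = 0 ∧ ∀ j, x.2 (w, (j, w') :: L) = m j := by
  intro x hx
  refine Submodule.span_induction ?_ ?_ ?_ ?_ hx
  · rintro z ⟨d, hd, m, hm, hm0, x, hx, rfl⟩ w w' L
    refine ⟨(coef u d w' * x.2 (w, L)) • m, 𝒜.smul_mem _ hm, by simp [hm0], ?_⟩
    intro j
    simp [stepPair, stepSym]
    ring
  · intro w w' L; exact ⟨0, 𝒜.zero_mem, rfl, fun j => rfl⟩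
  · intro x y _ _ h1 h2 w w' L
    obtain ⟨m, hm, hm0, h⟩ := h1 w w' L
    obtain ⟨m', hm', hm0', h'⟩ := h2 w w' L
    exact ⟨m + m', 𝒜.add_mem hm hm', by simp [hm0, hm0'], fun j => by
      rw [Prod.snd_add, Pi.add_apply, h, h']; rfl⟩
  · intro c x _ h w w' L
    obtain ⟨m, hm, hm0, h⟩ := h w w' L
    exact ⟨c • m, 𝒜.smul_mem c hm, by simp [hm0], fun j => by
      rw [Prod.smul_snd, Pi.smul_apply, h]; rfl⟩

lemma abs_step {V1 V2 V3 X : Type*} [AddCommGroup V1] [Module ℂ V1] [AddCommGroup V2]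
    [Module ℂ V2] [AddCommGroup V3] [Module ℂ V3] [AddCommGroup X] [Module ℂ X]
    (f1 : V1 →ₗ[ℂ] (ℤ → ℂ)) (f2 : V2 →ₗ[ℂ] (ℕ → ℂ)) (f3 : V3 →ₗ[ℂ] (Path → ℂ))
    (h1 : ∀ v, f1 v = 0 → v = 0) (h2 : ∀ v, f2 v = 0 → v = 0) (h3 : ∀ v, f3 v = 0 → v = 0)
    (Φ : V1 →ₗ[ℂ] V2 →ₗ[ℂ] V3 →ₗ[ℂ] X) :
    ∀ z ∈ Submodule.span ℂ {z : X × (Path → ℂ) | ∃ a b c, z = (Φ a b c, stepSym (f1 a) (f2 b) (f3 c))},
      z.2 = 0 → z.1 = 0 := by
  let Φ' : V1 ⊗[ℂ] (V2 ⊗[ℂ] V3) →ₗ[ℂ] X :=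
    TensorProduct.lift ((TensorProduct.uncurry (RingHom.id ℂ) V2 V3 X).comp Φ)
  have key : ∀ z ∈ Submodule.span ℂ {z : X × (Path → ℂ) | ∃ a b c,
      z = (Φ a b c, stepSym (f1 a) (f2 b) (f3 c))}, ∃ θ : V1 ⊗[ℂ] (V2 ⊗[ℂ] V3), Φ' θ = z.1 ∧
        ∀ (w w' : ℤ) (j : ℕ) (L : List (ℕ × ℤ)),
          evalT f1 (evalT f2 f3) θ (w', (j, (w, L))) = z.2 (w, (j, w') :: L) := by
    intro z hz
    refine Submodule.span_induction ?_ ?_ ?_ ?_ hz
    · rintro z ⟨a, b, c, rfl⟩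
      refine ⟨a ⊗ₜ (b ⊗ₜ c), ?_, ?_⟩
      · simp [Φ']
      · intro w w' j L
        rw [evalT_tmul, evalT_tmul]
        simp [stepSym, mul_assoc]
    · exact ⟨0, by simp, fun w w' j L => by simp⟩
    · rintro x y _ _ ⟨θ, h1, h2⟩ ⟨θ', h1', h2'⟩
      refine ⟨θ + θ', by rw [map_add, h1, h1']; rfl, ?_⟩
      intro w w' j L
      rw [map_add, Pi.add_apply, h2, h2']; rfl
    · rintro c x _ ⟨θ, h1, h2⟩
      refine ⟨c • θ, by rw [map_smul, h1]; rfl, ?_⟩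
      intro w w' j L
      rw [map_smul, Pi.smul_apply, h2]; rfl
  intro z hz hz2
  obtain ⟨θ, g1, g2⟩ := key z hz
  have g3 : evalT f1 (evalT f2 f3) θ = 0 := by
    ext ⟨w', j, w, L⟩
    rw [g2, hz2]; rfl
  have g4 := evalT_injective h1 (evalT_injective h2 h3) θ g3
  rw [← g1, g4, map_zero]

/-- the inductive step of injectivity -/
lemma step_inj (𝒟 : Submodule ℂ (H →L[ℂ] H)) (h𝒟 : 𝒟 ≤ Subalgebra.toSubmodule (D u))
    (ℒ : Submodule ℂ (ℕ →₀ ℂ)) (PP : Submodule ℂ (PairT H))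
    (hPP : ∀ x ∈ PP, x.2 = 0 → x.1 = 0) :
    ∀ z ∈ Submodule.span ℂ {z : PairT H | ∃ d ∈ 𝒟, ∃ m ∈ ℒ, ∃ x ∈ PP, z = stepPair F u d m x},
      z.2 = 0 → z.1 = 0 := by
  classical
  -- the three evaluation maps
  let f1 : 𝒟 →ₗ[ℂ] (ℤ → ℂ) :=
    { toFun := fun d => coef u (d : H →L[ℂ] H)
      map_add' := fun d d' => by ext w; simp [coef_add]
      map_smul' := fun c d => by ext w; simp [coef_smul] }
  let f2 : ℒ →ₗ[ℂ] (ℕ → ℂ) :=
    { toFun := fun m => fun j => (m : ℕ →₀ ℂ) j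
      map_add' := fun d d' => by ext w; simp
      map_smul' := fun c d => by ext w; simp }
  let f3 : PP →ₗ[ℂ] (Path → ℂ) :=
    { toFun := fun x => (x : PairT H).2
      map_add' := fun d d' => by ext w; simp
      map_smul' := fun c d => by ext w; simp }
  have hf1 : ∀ v, f1 v = 0 → v = 0 := by
    intro v hv
    apply Subtype.ext
    exact coef_injective (h𝒟 v.2) (fun m => congrFun hv m)
  have hf2 : ∀ v, f2 v = 0 → v = 0 := by
    intro v hv
    apply Subtype.ext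
    ext j
    exact congrFun hv j
  have hf3 : ∀ v, f3 v = 0 → v = 0 := by
    intro v hv
    apply Subtype.ext
    exact Prod.ext (hPP v v.2 hv) hv
  let Φ : 𝒟 →ₗ[ℂ] ℒ →ₗ[ℂ] PP →ₗ[ℂ] (H →L[ℂ] H) :=
    LinearMap.mk₂ ℂ (fun (d : 𝒟) (m : ℒ) =>
      (LinearMap.mulLeft ℂ ((d : H →L[ℂ] H) * LF F (m : ℕ →₀ ℂ))).comp
        ((LinearMap.fst ℂ (H →L[ℂ] H) (Path → ℂ)).comp PP.subtype))
      (fun d d' m => by ext x; simp [add_mul])
      (fun c d m => by ext x; simp)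
      (fun d m m' => by ext x; simp [mul_add, add_mul])
      (fun c d m => by ext x; simp)
  intro z hz hz2
  apply abs_step (V1 := 𝒟) (V2 := ℒ) (V3 := PP) f1 f2 f3 hf1 hf2 hf3 Φ z _ hz2
  refine Submodule.span_mono ?_ hz
  rintro z ⟨d, hd, m, hm, x, hx, rfl⟩
  exact ⟨⟨d, hd⟩, ⟨m, hm⟩, ⟨x, hx⟩, rfl⟩

noncomputable def zeroAt (𝒜 : Submodule ℂ (ℕ →₀ ℂ)) : Submodule ℂ (ℕ →₀ ℂ) :=
  𝒜 ⊓ LinearMap.ker (Finsupp.lapply 0)

lemma mem_zeroAt {m : ℕ →₀ ℂ} : m ∈ zeroAt 𝒜 ↔ m ∈ 𝒜 ∧ m 0 = 0 := by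
  unfold zeroAt; simp

noncomputable def D0 (u : HilbertBasis ℤ ℂ H) : Submodule ℂ (H →L[ℂ] H) where
  carrier := {d | d ∈ D u ∧ coef u d 0 = 0}
  add_mem' := by
    rintro a b ⟨h1, h2⟩ ⟨h3, h4⟩
    exact ⟨(D u).add_mem h1 h3, by rw [coef_add, h2, h4, add_zero]⟩
  zero_mem' := ⟨(D u).zero_mem, by simp [coef]⟩
  smul_mem' := by
    rintro c a ⟨h1, h2⟩
    exact ⟨(D u).smul_mem h1 c, by rw [coef_smul, h2, mul_zero]⟩

lemma PC_inj (n : ℕ) : ∀ x ∈ PC F u 𝒜 n, x.2 = 0 → x.1 = 0 := by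
  induction n with
  | zero =>
    intro x hx h0
    obtain ⟨h1, h2⟩ := PA_zero_fst (F := F) (𝒜 := 𝒜) hx
    apply coef_injective h1
    intro m
    have := congrFun h2 (m, [])
    rw [h0] at this
    exact this.symm
  | succ n ih =>
    intro x hx h0
    apply step_inj (F := F) (D0 u) (fun d hd => hd.1) (zeroAt 𝒜) (PC F u 𝒜 n) ih x _ h0
    refine Submodule.span_mono ?_ hx
    rintro z ⟨d, hd, hd0, m, hm, hm0, x, hx, rfl⟩
    exact ⟨d, ⟨hd, hd0⟩, m, mem_zeroAt.2 ⟨hm, hm0⟩, x, hx, rfl⟩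

lemma PA_inj (n : ℕ) : ∀ x ∈ PA F u 𝒜 n, x.2 = 0 → x.1 = 0 := by
  cases n with
  | zero => exact PC_inj (F := F) (𝒜 := 𝒜) 0
  | succ n =>
    intro x hx h0
    apply step_inj (F := F) (Subalgebra.toSubmodule (D u)) (le_refl _) (zeroAt 𝒜) (PC F u 𝒜 n)
      (PC_inj n) x _ h0
    refine Submodule.span_mono ?_ hx
    rintro z ⟨d, hd, m, hm, hm0, x, hx, rfl⟩
    exact ⟨d, hd, m, mem_zeroAt.2 ⟨hm, hm0⟩, x, hx, rfl⟩

/-- the total space of pairs -/
noncomputable def PT (F : ℕ → (H →L[ℂ] H)) (u : HilbertBasis ℤ ℂ H)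
    (𝒜 : Submodule ℂ (ℕ →₀ ℂ)) : Submodule ℂ (PairT H) := ⨆ n, PA F u 𝒜 n

lemma PT_hasSym (hG : Gen F u K) : ∀ x ∈ PT F u 𝒜,
    HasSym u K (fun _ => True) (fun k => x.1 (u (pos (K k) (0, [])))) x.2 := by
  intro x hx
  refine Submodule.iSup_induction (fun n => PA F u 𝒜 n) (motive := fun x : PairT H =>
    HasSym u K (fun _ => True) (fun k => x.1 (u (pos (K k) (0, [])))) x.2) hx ?_ ?_ ?_
  · intro n x hx; exact PA_hasSym hG n x hx
  · exact HasSym.zero _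
  · intro x y h1 h2; exact h1.add h2

/-- The operators representable by reduced words. -/
noncomputable def TT (F : ℕ → (H →L[ℂ] H)) (u : HilbertBasis ℤ ℂ H)
    (𝒜 : Submodule ℂ (ℕ →₀ ℂ)) : Submodule ℂ (H →L[ℂ] H) :=
  (PT F u 𝒜).map (LinearMap.fst ℂ _ _)

lemma fst_mem_TT {n : ℕ} {x : PairT H} (hx : x ∈ PA F u 𝒜 n) : x.1 ∈ TT F u 𝒜 :=
  ⟨x, Submodule.mem_iSup_of_mem n hx, rfl⟩

lemma TT_induction {C : (H →L[ℂ] H) → Prop} (h : ∀ n, ∀ x ∈ PA F u 𝒜 n, C x.1) (h0 : C 0)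
    (hadd : ∀ x y, C x → C y → C (x + y)) {x : H →L[ℂ] H} (hx : x ∈ TT F u 𝒜) : C x := by
  obtain ⟨z, hz, rfl⟩ := hx
  refine Submodule.iSup_induction (fun n => PA F u 𝒜 n) (motive := fun x : PairT H => C x.1)
    hz ?_ ?_ ?_
  · intro n x hx; exact h n x hx
  · exact h0
  · intro x y h1 h2; exact hadd _ _ h1 h2

lemma D_mul_PA {d : H →L[ℂ] H} (hd : d ∈ D u) (n : ℕ) :
    ∀ x ∈ PA F u 𝒜 n, d * x.1 ∈ TT F u 𝒜 := by
  intro x hx
  cases n with
  | zero =>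
    refine Submodule.span_induction ?_ ?_ ?_ ?_ hx
    · rintro z ⟨d', hd', rfl⟩
      exact fst_mem_TT (n := 0) (x := (d * d', sym0 u (d * d')))
        (Submodule.subset_span ⟨_, (D u).mul_mem hd hd', rfl⟩)
    · simp
    · intro x y _ _ h1 h2
      rw [Prod.fst_add, mul_add]; exact Submodule.add_mem _ h1 h2
    · intro c x _ h
      rw [Prod.smul_fst, mul_smul_comm]; exact Submodule.smul_mem _ c h
  | succ n =>
    refine Submodule.span_induction ?_ ?_ ?_ ?_ hx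
    · rintro z ⟨d', hd', m, hm, hm0, x, hx, rfl⟩
      have : d * (stepPair F u d' m x).1 = (stepPair F u (d * d') m x).1 := by
        simp [stepPair, mul_assoc]
      rw [this]
      exact fst_mem_TT (n := n + 1)
        (Submodule.subset_span ⟨_, (D u).mul_mem hd hd', m, hm, hm0, x, hx, rfl⟩)
    · simp
    · intro x y _ _ h1 h2
      rw [Prod.fst_add, mul_add]; exact Submodule.add_mem _ h1 h2
    · intro c x _ h
      rw [Prod.smul_fst, mul_smul_comm]; exact Submodule.smul_mem _ c h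

lemma LF_e0 (hF0 : F 0 = 1) : LF F (Finsupp.single 0 1) = 1 := by
  unfold LF; rw [Finsupp.linearCombination_single, one_smul, hF0]

/-- left multiplication by a letter of `𝒜` on a centred pair. -/
lemma letter_mul_PC (hF0 : F 0 = 1) (he : Finsupp.single 0 1 ∈ 𝒜) {m : ℕ →₀ ℂ} (hm : m ∈ 𝒜)
    (n : ℕ) : ∀ x ∈ PC F u 𝒜 n, LF F m * x.1 ∈ TT F u 𝒜 := by
  intro x hx
  have h1 : LF F m * x.1 = (stepPair F u 1 (m - m 0 • Finsupp.single 0 1) x).1 + m 0 • x.1 := by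
    simp only [stepPair, one_mul]
    rw [map_sub, map_smul, LF_e0 hF0, sub_mul, smul_mul_assoc, one_mul]
    abel
  rw [h1]
  apply Submodule.add_mem
  · apply fst_mem_TT (n := n + 1)
    apply Submodule.subset_span
    exact ⟨1, (D u).one_mem, _, 𝒜.sub_mem hm (𝒜.smul_mem _ he), by simp, x, hx, rfl⟩
  · exact Submodule.smul_mem _ _ (fst_mem_TT (PC_le_PA n hx))

lemma A_mul_PA (hF0 : F 0 = 1) (he : Finsupp.single 0 1 ∈ 𝒜) {A : H →L[ℂ] H}
    (hA : ∀ m ∈ 𝒜, ∃ m' ∈ 𝒜, LF F m' = A * LF F m) (n : ℕ) :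
    ∀ x ∈ PA F u 𝒜 n, A * x.1 ∈ TT F u 𝒜 := by
  obtain ⟨mA, hmA, hmA'⟩ := hA _ he
  rw [LF_e0 hF0, mul_one] at hmA'
  intro x hx
  cases n with
  | zero => rw [← hmA']; exact letter_mul_PC hF0 he hmA 0 x hx
  | succ n =>
    refine Submodule.span_induction ?_ ?_ ?_ ?_ hx
    · rintro z ⟨d, hd, m, hm, hm0, x, hx, rfl⟩
      set d' : H →L[ℂ] H := d - coef u d 0 • (1 : H →L[ℂ] H) with hd'
      have hd'D : d' ∈ D u := (D u).sub_mem hd ((D u).smul_mem (D u).one_mem _)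
      have hd'0 : coef u d' 0 = 0 := by
        have : d' = d + (-(coef u d 0)) • (1 : H →L[ℂ] H) := by rw [hd', neg_smul]; abel
        rw [this, coef_add, coef_smul, coef_one_zero]; ring
      have hy : stepPair F u d' m x ∈ PC F u 𝒜 (n + 1) :=
        Submodule.subset_span ⟨d', hd'D, hd'0, m, hm, hm0, x, hx, rfl⟩
      obtain ⟨m', hm', hm''⟩ := hA m hm
      have h1 : A * (stepPair F u d m x).1 = LF F mA * (stepPair F u d' m x).1 +
          coef u d 0 • (LF F m' * x.1) := by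
        rw [hmA', hm'']
        simp only [stepPair]
        rw [hd']
        simp only [sub_mul, mul_sub, smul_mul_assoc, mul_smul_comm, one_mul, mul_assoc]
        abel
      rw [h1]
      apply Submodule.add_mem
      · exact letter_mul_PC hF0 he hmA (n + 1) _ hy
      · exact Submodule.smul_mem _ _ (letter_mul_PC hF0 he hm' n x hx)
    · simp
    · intro x y _ _ h1 h2
      rw [Prod.fst_add, mul_add]; exact Submodule.add_mem _ h1 h2
    · intro c x _ h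
      rw [Prod.smul_fst, mul_smul_comm]; exact Submodule.smul_mem _ c h

lemma adjoin_mem_TT (hF0 : F 0 = 1) (he : Finsupp.single 0 1 ∈ 𝒜) {A : H →L[ℂ] H}
    (hA : ∀ m ∈ 𝒜, ∃ m' ∈ 𝒜, LF F m' = A * LF F m) {x : H →L[ℂ] H}
    (hx : x ∈ Algebra.adjoin ℂ ((D u : Set (H →L[ℂ] H)) ∪ {A})) : x ∈ TT F u 𝒜 := by
  have key : ∀ t ∈ TT F u 𝒜, x * t ∈ TT F u 𝒜 := by
    refine Algebra.adjoin_induction ?_ ?_ ?_ ?_ hx
    · rintro y (hy | hy) t ht
      · exact TT_induction (C := fun t => y * t ∈ TT F u 𝒜) (D_mul_PA hy) (by simp)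
          (fun a b ha hb => by rw [mul_add]; exact Submodule.add_mem _ ha hb) ht
      · rw [Set.mem_singleton_iff.1 hy]
        exact TT_induction (C := fun t => A * t ∈ TT F u 𝒜) (A_mul_PA hF0 he hA) (by simp)
          (fun a b ha hb => by rw [mul_add]; exact Submodule.add_mem _ ha hb) ht
    · intro r t ht
      rw [Algebra.algebraMap_eq_smul_one, smul_mul_assoc, one_mul]
      exact Submodule.smul_mem _ _ ht
    · intro a b _ _ ha hb t ht
      rw [add_mul]; exact Submodule.add_mem _ (ha t ht) (hb t ht)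
    · intro a b _ _ ha hb t ht
      rw [mul_assoc]; exact ha _ (hb t ht)
  have h1 : (1 : H →L[ℂ] H) ∈ TT F u 𝒜 :=
    fst_mem_TT (n := 0) (x := (1, sym0 u 1)) (Submodule.subset_span ⟨1, (D u).one_mem, rfl⟩)
  have := key 1 h1
  rwa [mul_one] at this

/-- Main algebraic theorem. -/
theorem mem_D_of_mem_both (hG : Gen F u K) (hF0 : F 0 = 1)
    {𝒜 ℬ : Submodule ℂ (ℕ →₀ ℂ)} (heA : Finsupp.single 0 1 ∈ 𝒜) (heB : Finsupp.single 0 1 ∈ ℬ)
    {A B : H →L[ℂ] H}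
    (hA : ∀ m ∈ 𝒜, ∃ m' ∈ 𝒜, LF F m' = A * LF F m)
    (hB : ∀ m ∈ ℬ, ∃ m' ∈ ℬ, LF F m' = B * LF F m)
    (hAB : ∀ m, m ∈ 𝒜 → m ∈ ℬ → m 0 = 0 → m = 0)
    {x : H →L[ℂ] H}
    (hxA : x ∈ Algebra.adjoin ℂ ((D u : Set (H →L[ℂ] H)) ∪ {A}))
    (hxB : x ∈ Algebra.adjoin ℂ ((D u : Set (H →L[ℂ] H)) ∪ {B})) : x ∈ D u := by
  classical
  obtain ⟨z, hz, hz1⟩ := adjoin_mem_TT hF0 heA hA hxA
  obtain ⟨z', hz', hz1'⟩ := adjoin_mem_TT hF0 heB hB hxB
  change z.1 = x at hz1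
  change z'.1 = x at hz1'
  have hsym : z.2 = z'.2 := by
    ext p
    have h1 := (PT_hasSym hG z hz).tendsto hG p
    have h2 := (PT_hasSym hG z' hz').tendsto hG p
    rw [hz1] at h1
    rw [hz1'] at h2
    exact tendsto_nhds_unique h1 h2
  obtain ⟨f, hf, hfz⟩ := (Submodule.mem_iSup_iff_exists_finsupp _ _).1
    (show z ∈ ⨆ n, PA F u 𝒜 n from hz)
  obtain ⟨g, hg, hgz⟩ := (Submodule.mem_iSup_iff_exists_finsupp _ _).1
    (show z' ∈ ⨆ n, PA F u ℬ n from hz')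
  have hval : ∀ (f : ℕ →₀ PairT H) (𝒞 : Submodule ℂ (ℕ →₀ ℂ)), (∀ n, f n ∈ PA F u 𝒞 n) →
      ∀ p : Path, (f.sum fun _ xi => xi).2 p = (f p.2.length).2 p := by
    intro f 𝒞 hf p
    rw [Finsupp.sum, Prod.snd_sum, Finset.sum_apply]
    rw [Finset.sum_eq_single p.2.length]
    · intro n _ hn
      exact PA_depth n (f n) (hf n) p (Ne.symm hn)
    · intro h
      rw [Finsupp.notMem_support_iff.1 h]; rfl
  have hfg : ∀ n, (f n).2 = (g n).2 := by
    intro n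
    ext p
    by_cases hp : p.2.length = n
    · have h1 := hval f 𝒜 hf p
      have h2 := hval g ℬ hg p
      rw [hfz, hp] at h1
      rw [hgz, hp] at h2
      rw [← h1, ← h2, hsym]
    · rw [PA_depth n (f n) (hf n) p hp, PA_depth n (g n) (hg n) p hp]
  have hzero : ∀ n, (f (n + 1)).2 = 0 := by
    intro n
    ext ⟨w, L⟩
    cases L with
    | nil => exact PA_depth (n + 1) (f (n + 1)) (hf (n + 1)) (w, []) (by simp)
    | cons y L =>
      obtain ⟨j, w'⟩ := y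
      obtain ⟨m, hm, hm0, h⟩ := PA_letter n (f (n + 1)) (hf (n + 1)) w w' L
      obtain ⟨m', hm', hm0', h'⟩ := PA_letter n (g (n + 1)) (hg (n + 1)) w w' L
      have hmm : m = m' := by
        ext i
        rw [← h, ← h', hfg]
      have := hAB m hm (hmm ▸ hm') hm0
      rw [h, this]; rfl
  have hone : ∀ n, (f (n + 1)).1 = 0 := fun n => PA_inj (n + 1) _ (hf (n + 1)) (hzero n)
  have hx : x = (f 0).1 := by
    rw [← hz1, ← hfz, Finsupp.sum, Prod.fst_sum]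
    rw [Finset.sum_eq_single 0]
    · intro n _ hn
      obtain ⟨m, rfl⟩ := Nat.exists_eq_succ_of_ne_zero hn
      exact hone m
    · intro h
      rw [Finsupp.notMem_support_iff.1 h]; rfl
  rw [hx]
  exact (PA_zero_fst (hf 0)).1

end H905Tri
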