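import Mathlib
import Pool.Agent.H905R2.Tri3
import Pool.Agent.H905R2.Tri6

/-!
# The essential case (helper905, for MP_690138_an)
-/

set_option autoImplicit false

open scoped InnerProductSpace ComplexConjugate
open Filter Topology Polynomial
set_option linter.unusedSectionVars false

namespace H905Tri

variable {H : Type*} [NormedAddCommGroup H] [InnerProductSpace ℂ H] [CompleteSpace H]

/-- `(p, q) ↦ p(A) + A* q(A*)` -/
noncomputable def Lpq (A : H →L[ℂ] H) : (ℂ[X] × ℂ[X]) →ₗ[ℂ] (H →L[ℂ] H) :=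
  ((aeval A).toLinearMap).coprod ((aeval (star A)).toLinearMap.comp (LinearMap.mulLeft ℂ X))

lemma Lpq_apply (A : H →L[ℂ] H) (p q : ℂ[X]) :
    Lpq A (p, q) = aeval A p + aeval (star A) (X * q) := by
  simp [Lpq]

lemma star_aeval (A : H →L[ℂ] H) (p : ℂ[X]) :
    star (aeval A p) = aeval (star A) (p.map (starRingEnd ℂ)) := by
  induction p using Polynomial.induction_on' with
  | add p q hp hq => simp [hp, hq]
  | monomial n a =>
    rw [Polynomial.map_monomial, aeval_monomial, aeval_monomial, star_mul, star_pow]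
    rw [Algebra.algebraMap_eq_smul_one, Algebra.algebraMap_eq_smul_one, star_smul, star_one]
    rw [mul_smul_comm, mul_one, smul_mul_assoc, one_mul]
    rfl

lemma compact_star {T : H →L[ℂ] H} (hT : IsCompactOperator T) :
    IsCompactOperator (⇑(star T : H →L[ℂ] H)) := by
  by_contra hcon
  obtain ⟨c, hc, h⟩ := exists_of_not_compact hcon
  -- a net of unit vectors, eventually orthogonal to everything
  classical
  choose x hx1 hx2 hx3 using h
  have h1 : ∀ S, c ^ 2 ≤ ‖T (star T (x S))‖ := by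
    intro S
    have h2 : ‖star T (x S)‖ ^ 2 = (⟪T (star T (x S)), x S⟫_ℂ).re := by
      rw [← ContinuousLinearMap.adjoint_inner_right, ← ContinuousLinearMap.star_eq_adjoint,
        inner_self_eq_norm_sq_to_K]
      norm_cast
    have h3 : (⟪T (star T (x S)), x S⟫_ℂ).re ≤ ‖T (star T (x S))‖ := by
      refine (Complex.re_le_norm _).trans ((norm_inner_le_norm _ _).trans ?_)
      rw [hx1, mul_one]
    have h4 : c ^ 2 ≤ ‖star T (x S)‖ ^ 2 := pow_le_pow_left₀ hc.le (hx3 S) 2
    linarith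
  -- compactness gives a cluster point of `T (star T x)`
  have hK : IsCompactOperator (T * star T : H →L[ℂ] H) := hT.comp_clm (star T)
  have hcpt : IsCompact (closure ((T * star T : H →L[ℂ] H) '' Metric.closedBall 0 1)) :=
    IsCompactOperator.isCompact_closure_image_closedBall (f := ((T * star T : H →L[ℂ] H) : H →ₗ[ℂ] H))
      hK 1
  let 𝒰 : Ultrafilter (Finset H) := Ultrafilter.of atTop
  have h𝒰 : (𝒰 : Filter (Finset H)) ≤ atTop := Ultrafilter.of_le atTop
  obtain ⟨z, hz1, hz2⟩ := hcpt.ultrafilter_le_nhds (𝒰.map (fun S => T (star T (x S)))) (by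
    rw [le_principal_iff]
    refine Filter.mem_map.2 (Filter.univ_mem' fun S => subset_closure ⟨x S, ?_, rfl⟩)
    rw [mem_closedBall_zero_iff, hx1])
  have hz3 : Tendsto (fun S => T (star T (x S))) 𝒰 (𝓝 z) := hz2
  have hz0 : z = 0 := by
    have h5 : Tendsto (fun S => ⟪z, T (star T (x S))⟫_ℂ) 𝒰 (𝓝 ⟪z, z⟫_ℂ) :=
      (Filter.Tendsto.inner tendsto_const_nhds hz3)
    have h6 : Tendsto (fun S => ⟪z, T (star T (x S))⟫_ℂ) 𝒰 (𝓝 0) := by
      apply tendsto_const_nhds.congr'
      have e2 : ∀ᶠ S in (𝒰 : Filter (Finset H)), ({T (star T z)} : Finset H) ≤ S :=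
        h𝒰 (Filter.Ici_mem_atTop _)
      filter_upwards [e2] with S hS
      have h7 : ⟪z, T (star T (x S))⟫_ℂ = ⟪T (star T z), x S⟫_ℂ := by
        rw [← ContinuousLinearMap.adjoint_inner_left, ContinuousLinearMap.star_eq_adjoint,
          ContinuousLinearMap.adjoint_inner_right]
      rw [h7]
      exact (hx2 S _ (hS (Finset.mem_singleton_self _))).symm
    exact inner_self_eq_zero.1 (tendsto_nhds_unique h5 h6)
  have h8 : c ^ 2 ≤ ‖z‖ := by
    refine ge_of_tendsto (hz3.norm) ?_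
    filter_upwards with S using h1 S
  rw [hz0, norm_zero] at h8
  have : 0 < c ^ 2 := by positivity
  linarith

lemma not_compact_one {A : H →L[ℂ] H}
    (hA : ∀ h : ℂ[X], 0 < h.natDegree → ¬ IsCompactOperator (aeval A h - star (aeval A h))) :
    ¬ IsCompactOperator (1 : H →L[ℂ] H) := by
  intro h1
  apply hA X (by simp)
  have := h1.clm_comp (aeval A (X : ℂ[X]) - star (aeval A (X : ℂ[X])))
  exact this

lemma Lpq_not_compact {A : H →L[ℂ] H}
    (hA : ∀ h : ℂ[X], 0 < h.natDegree → ¬ IsCompactOperator (aeval A h - star (aeval A h)))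
    {e : ℂ[X] × ℂ[X]} (he : e ≠ 0) : ¬ IsCompactOperator (Lpq A e) := by
  intro hK
  obtain ⟨p, q⟩ := e
  rw [Lpq_apply] at hK
  set r : ℂ[X] := X * q with hr
  set Kk : H →L[ℂ] H := aeval A p + aeval (star A) r with hKk
  have hKs : IsCompactOperator (⇑(star Kk : H →L[ℂ] H)) := compact_star hK
  set r' : ℂ[X] := r.map (starRingEnd ℂ) with hr'
  have hrr : r'.map (starRingEnd ℂ) = r := by
    rw [hr', Polynomial.map_map]
    have : (starRingEnd ℂ).comp (starRingEnd ℂ) = RingHom.id ℂ := by ext z <;> simp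
    rw [this, Polynomial.map_id]
  have hstarr : star (aeval (star A) r) = aeval A r' := by
    rw [star_aeval, star_star]
  have hstarr' : star (aeval A r') = aeval (star A) r := by
    rw [star_aeval, hrr]
  have h1 : (p - r').natDegree = 0 := by
    by_contra hne
    apply hA (p - r') (Nat.pos_of_ne_zero hne)
    have : aeval A (p - r') - star (aeval A (p - r')) = Kk - star Kk := by
      rw [hKk, map_sub, star_sub, star_add, hstarr, hstarr']
      abel
    rw [this]
    exact hK.sub hKs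
  have h2 : (p + r').natDegree = 0 := by
    by_contra hne
    have hdeg : 0 < (C Complex.I * (p + r')).natDegree := by
      rw [Polynomial.natDegree_C_mul Complex.I_ne_zero]
      exact Nat.pos_of_ne_zero hne
    apply hA _ hdeg
    have : aeval A (C Complex.I * (p + r')) - star (aeval A (C Complex.I * (p + r'))) =
        Complex.I • (Kk + star Kk) := by
      rw [map_mul, aeval_C, Algebra.algebraMap_eq_smul_one, smul_mul_assoc, one_mul, star_smul]
      rw [hKk, map_add, star_add, star_add, hstarr, hstarr']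
      simp only [smul_add]
      have : (star Complex.I : ℂ) = -Complex.I := by
        show (starRingEnd ℂ) Complex.I = _
        exact Complex.conj_I
      rw [this]
      simp only [neg_smul]
      abel
    rw [this]
    exact (hK.add hKs).smul Complex.I
  have h3 : p.natDegree = 0 := by
    have : p = C (1/2 : ℂ) * ((p - r') + (p + r')) := by
      have : (p - r') + (p + r') = C (2:ℂ) * p := by
        rw [show (C (2:ℂ) : ℂ[X]) = 2 from map_ofNat C 2]; ring
      rw [this, ← mul_assoc, ← C_mul]; norm_num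
    rw [this]
    refine Nat.le_zero.1 ((natDegree_C_mul_le _ _).trans ((natDegree_add_le _ _).trans ?_))
    rw [h1, h2]; simp
  have h4 : r'.natDegree = 0 := by
    have : r' = C (1/2 : ℂ) * ((p + r') - (p - r')) := by
      have : (p + r') - (p - r') = C (2:ℂ) * r' := by
        rw [show (C (2:ℂ) : ℂ[X]) = 2 from map_ofNat C 2]; ring
      rw [this, ← mul_assoc, ← C_mul]; norm_num
    rw [this]
    refine Nat.le_zero.1 ((natDegree_C_mul_le _ _).trans ((natDegree_sub_le _ _).trans ?_))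
    rw [h1, h2]; simp
  have h5 : r.natDegree = 0 := by
    rw [hr', Polynomial.natDegree_map] at h4
    exact h4
  have hq : q = 0 := by
    by_contra hq0
    rw [hr, natDegree_X_mul hq0] at h5
    omega
  have hp : p = C (p.coeff 0) := eq_C_of_natDegree_eq_zero h3
  by_cases hc : p.coeff 0 = 0
  · apply he
    rw [hp, hc, hq]; simp
  · apply not_compact_one hA
    have hKk1 : Kk = (p.coeff 0) • (1 : H →L[ℂ] H) := by
      rw [hKk, hr, hq, mul_zero, map_zero, add_zero, hp, aeval_C,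
        Algebra.algebraMap_eq_smul_one]
      simp
    have h6 := hK.smul (p.coeff 0)⁻¹
    rw [hKk1] at h6
    have h7 : (p.coeff 0)⁻¹ • ((((p.coeff 0) • (1 : H →L[ℂ] H) : H →L[ℂ] H)) : H → H) =
        ((1 : H →L[ℂ] H) : H → H) := by
      ext v
      simp [smul_smul, inv_mul_cancel₀ hc]
    rw [h7] at h6
    exact h6

/-- a basis of the pairs of polynomials indexed by the naturals -/
noncomputable def pqBasis : Module.Basis ℕ ℂ (ℂ[X] × ℂ[X]) :=
  ((Polynomial.basisMonomials ℂ).prod (Polynomial.basisMonomials ℂ)).reindex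
    Equiv.natSumNatEquivNat

lemma pqBasis_zero : pqBasis 0 = (1, 0) := by
  have h : Equiv.natSumNatEquivNat.symm 0 = Sum.inl 0 := by
    rw [Equiv.symm_apply_eq]; rfl
  rw [pqBasis, Module.Basis.reindex_apply, h]
  ext1
  · rw [Module.Basis.prod_apply_inl_fst]; simp
  · rw [Module.Basis.prod_apply_inl_snd]

/-- the linear map from finitely supported sequences -/
noncomputable def LA (A : H →L[ℂ] H) : (ℕ →₀ ℂ) →ₗ[ℂ] (H →L[ℂ] H) :=
  (Lpq A).comp (pqBasis.repr.symm : (ℕ →₀ ℂ) →ₗ[ℂ] (ℂ[X] × ℂ[X]))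

lemma LA_single (A : H →L[ℂ] H) : LA A (Finsupp.single 0 1) = 1 := by
  have : pqBasis.repr.symm (Finsupp.single 0 1) = (1, 0) := by
    rw [Module.Basis.repr_symm_single_one, pqBasis_zero]
  show Lpq A (pqBasis.repr.symm (Finsupp.single 0 1)) = 1
  rw [this, Lpq_apply]; simp

lemma range_LA (A : H →L[ℂ] H) : LinearMap.range (LA A) = LinearMap.range (Lpq A) := by
  unfold LA
  rw [LinearMap.range_comp, LinearEquiv.range, Submodule.map_top]

/-- **The essential case.** -/
theorem triangular_of_essential [TopologicalSpace.SeparableSpace H] {A : H →L[ℂ] H}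
    (hA : ∀ h : ℂ[X], 0 < h.natDegree → ¬ IsCompactOperator (aeval A h - star (aeval A h))) :
    ∃ 𝒯 : Subalgebra ℂ (H →L[ℂ] H), A ∈ 𝒯 ∧
      {x : H →L[ℂ] H | x ∈ 𝒯 ∧ star x ∈ 𝒯} =
        Set.centralizer {x : H →L[ℂ] H | x ∈ 𝒯 ∧ star x ∈ 𝒯} := by
  have hL : ∀ e, e ≠ 0 → ¬ IsCompactOperator (LA A e) := by
    intro e he
    apply Lpq_not_compact hA
    intro h
    exact he ((LinearEquiv.map_eq_zero_iff _).1 h)
  obtain ⟨F, hF0', hFl, hFs, hFar⟩ := exists_letters hL
  have hF0 : F 0 = 1 := by rw [hF0', LA_single]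
  obtain ⟨u, hu⟩ := exists_generic (F := F) hFar hF0
  choose K hK1 hK2 using hu
  have hG : Gen F u K := ⟨hK1, hK2⟩
  have hrange : LinearMap.range (LF F) = LinearMap.range (Lpq A) := by
    unfold LF
    rw [Finsupp.range_linearCombination, hFs, range_LA]
  have hinj : ∀ m, LF F m = 0 → m = 0 := by
    intro m hm
    exact (linearIndependent_iff.1 hFl) m hm
  let 𝒜 : Submodule ℂ (ℕ →₀ ℂ) :=
    (Subalgebra.toSubmodule (Algebra.adjoin ℂ ({A} : Set (H →L[ℂ] H)))).comap (LF F)
  let ℬ : Submodule ℂ (ℕ →₀ ℂ) :=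
    (Subalgebra.toSubmodule (Algebra.adjoin ℂ ({star A} : Set (H →L[ℂ] H)))).comap (LF F)
  have mem𝒜 : ∀ m, m ∈ 𝒜 ↔ ∃ p : ℂ[X], aeval A p = LF F m := by
    intro m
    show LF F m ∈ Algebra.adjoin ℂ ({A} : Set (H →L[ℂ] H)) ↔ _
    rw [Algebra.adjoin_singleton_eq_range_aeval]; rfl
  have memℬ : ∀ m, m ∈ ℬ ↔ ∃ p : ℂ[X], aeval (star A) p = LF F m := by
    intro m
    show LF F m ∈ Algebra.adjoin ℂ ({star A} : Set (H →L[ℂ] H)) ↔ _
    rw [Algebra.adjoin_singleton_eq_range_aeval]; rfl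
  have hsplit : ∀ p : ℂ[X], aeval (star A) p = Lpq A (C (p.coeff 0), p.divX) := by
    intro p
    rw [Lpq_apply, aeval_C]
    conv_lhs => rw [← Polynomial.divX_mul_X_add p]
    rw [map_add, aeval_C, mul_comm p.divX X, add_comm]
  have he : LF F (Finsupp.single 0 1) = 1 := LF_e0 hF0
  have heA : Finsupp.single 0 1 ∈ 𝒜 := (mem𝒜 _).2 ⟨1, by rw [he]; simp⟩
  have heB : Finsupp.single 0 1 ∈ ℬ := (memℬ _).2 ⟨1, by rw [he]; simp⟩
  have hAm : ∀ m ∈ 𝒜, ∃ m' ∈ 𝒜, LF F m' = A * LF F m := by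
    intro m hm
    obtain ⟨p, hp⟩ := (mem𝒜 m).1 hm
    have h1 : aeval A (X * p) ∈ LinearMap.range (LF F) := by
      rw [hrange]
      exact ⟨(X * p, 0), by rw [Lpq_apply]; simp⟩
    obtain ⟨m', hm'⟩ := h1
    exact ⟨m', (mem𝒜 m').2 ⟨X * p, hm'.symm⟩, by rw [hm', map_mul, aeval_X, hp]⟩
  have hBm : ∀ m ∈ ℬ, ∃ m' ∈ ℬ, LF F m' = star A * LF F m := by
    intro m hm
    obtain ⟨p, hp⟩ := (memℬ m).1 hm
    have h1 : aeval (star A) (X * p) ∈ LinearMap.range (LF F) := by
      rw [hrange, hsplit]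
      exact ⟨_, rfl⟩
    obtain ⟨m', hm'⟩ := h1
    exact ⟨m', (memℬ m').2 ⟨X * p, hm'.symm⟩, by rw [hm', map_mul, aeval_X, hp]⟩
  have hAB : ∀ m, m ∈ 𝒜 → m ∈ ℬ → m 0 = 0 → m = 0 := by
    intro m hmA hmB hm0
    obtain ⟨p, hp⟩ := (mem𝒜 m).1 hmA
    obtain ⟨q, hq⟩ := (memℬ m).1 hmB
    have h1 : Lpq A (p - C (q.coeff 0), - q.divX) = 0 := by
      have h2 : (p - C (q.coeff 0), - q.divX) = ((p, 0) : ℂ[X] × ℂ[X]) - (C (q.coeff 0), q.divX) := by
        simp
      rw [h2, map_sub, ← hsplit, hq, Lpq_apply, hp]; simp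
    have h3 : ((p - C (q.coeff 0), - q.divX) : ℂ[X] × ℂ[X]) = 0 := by
      by_contra hne
      apply Lpq_not_compact hA hne
      rw [h1]; exact isCompactOperator_zero
    have h4 : p = C (q.coeff 0) := sub_eq_zero.1 (Prod.ext_iff.1 h3).1
    have h5 : LF F m = LF F (q.coeff 0 • Finsupp.single 0 1) := by
      rw [map_smul, he, ← hp, h4, aeval_C, Algebra.algebraMap_eq_smul_one]
    have h6 : m = q.coeff 0 • Finsupp.single 0 1 := by
      have := hinj (m - q.coeff 0 • Finsupp.single 0 1) (by rw [map_sub, h5, sub_self])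
      exact sub_eq_zero.1 this
    have h7 : q.coeff 0 = 0 := by
      have := congrArg (fun f : ℕ →₀ ℂ => f 0) h6
      simp only [hm0] at this
      simpa using this.symm
    rw [h6, h7, zero_smul]
  refine ⟨Algebra.adjoin ℂ ((D u : Set (H →L[ℂ] H)) ∪ {A}),
    Algebra.subset_adjoin (Or.inr rfl), ?_⟩
  have hstar : ∀ y ∈ Algebra.adjoin ℂ ((D u : Set (H →L[ℂ] H)) ∪ {A}),
      star y ∈ Algebra.adjoin ℂ ((D u : Set (H →L[ℂ] H)) ∪ {star A}) := by
    intro y hy
    refine Algebra.adjoin_induction ?_ ?_ ?_ ?_ hy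
    · rintro z (hz | hz)
      · exact Algebra.subset_adjoin (Or.inl (star_mem_D hz))
      · rw [Set.mem_singleton_iff.1 hz]
        exact Algebra.subset_adjoin (Or.inr rfl)
    · intro r
      rw [Algebra.algebraMap_eq_smul_one, star_smul, star_one]
      exact Subalgebra.smul_mem _ (Subalgebra.one_mem _) _
    · intro a b _ _ ha hb
      rw [star_add]; exact Subalgebra.add_mem _ ha hb
    · intro a b _ _ ha hb
      rw [star_mul]; exact Subalgebra.mul_mem _ hb ha
  have hset : {x : H →L[ℂ] H | x ∈ Algebra.adjoin ℂ ((D u : Set (H →L[ℂ] H)) ∪ {A}) ∧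
      star x ∈ Algebra.adjoin ℂ ((D u : Set (H →L[ℂ] H)) ∪ {A})} = (D u : Set (H →L[ℂ] H)) := by
    ext x
    constructor
    · rintro ⟨h1, h2⟩
      have h3 := hstar _ h2
      rw [star_star] at h3
      exact mem_D_of_mem_both hG hF0 heA heB hAm hBm hAB h1 h3
    · intro hx
      exact ⟨Algebra.subset_adjoin (Or.inl hx), Algebra.subset_adjoin (Or.inl (star_mem_D hx))⟩
  rw [hset]
  exact D_masa u

end H905Tri
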